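import Pool.Agent.P.MP_06afd2_nt.D1.Diag

/-!
Karatsuba's bound for bilinear Kloosterman sums with short prime ranges.

Sketch. `ψ = ZMod.stdAddChar`, `S y = ∑_x ψ (c x⁻¹ y⁻¹)`. Power mean: `‖K‖ ^ s ≤ |Y| ^ (s - 1) ∑_y ‖S y‖ ^ s`. Write `‖S y‖ ^ s = ξ y * S y ^ s` with `‖ξ y‖ ≤ 1` and
`S y ^ s = ∑_{u ∈ X ^ s} ψ (c * lam u * y⁻¹)` (`Finset.sum_pow'`/`prod_univ_sum`), `lam u = ∑ (u i)⁻¹`. So `∑_y ‖S y‖ ^ s ≤ ∑_u ‖T (c * lam u)‖` with `T μ = ∑_y ξ y ψ (μ y⁻¹)`.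
Power mean again: `(∑_u ‖T‖) ^ t ≤ (|X| ^ s) ^ (t - 1) ∑_μ b μ ‖T μ‖ ^ t`, `b μ = card {u | c * lam u = μ}`; Cauchy-Schwarz: the square of the last sum is at most
`(∑ b μ ^ 2) (∑_μ ‖T μ‖ ^ (2 t))`; `∑ b μ ^ 2 ≤ s ^ s |X| ^ s` and, by orthogonality (`AddChar.sum_mulShift`, `ZMod.isPrimitive_stdAddChar`),
`∑_μ ‖T μ ^ t‖ ^ 2 ≤ D * t ^ t |Y| ^ t`, both by `diag_count` (the second with `c = 1`; mind `D = 1`, where `h2` forces `BY = 0` and `Y = ∅`).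
-/

namespace Pool.Agent.PSD

open Finset

theorem cs_Kara {ι R : Type*} [Fintype R] [DecidableEq R] (U : Finset ι) (A : ι → R) (g : R → ℝ) :
    (∑ u ∈ U, g (A u)) ^ 2 ≤
      (((U ×ˢ U).filter fun p => A p.1 = A p.2).card : ℝ) * ∑ μ, g μ ^ 2 := by
  have h1 : ∑ u ∈ U, g (A u) = ∑ μ, ((U.filter fun u => A u = μ).card : ℝ) * g μ := by
    rw [← sum_fiberwise U A]
    refine sum_congr rfl fun μ _ => ?_
    rw [sum_congr rfl fun u hu => congrArg g (mem_filter.1 hu).2, sum_const, nsmul_eq_mul]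
  have h2 : (((U ×ˢ U).filter fun p => A p.1 = A p.2).card : ℝ) =
      ∑ μ, ((U.filter fun u => A u = μ).card : ℝ) ^ 2 := by
    rw [card_eq_sum_card_fiberwise (f := fun p : ι × ι => A p.2) (t := univ)
      fun _ _ => mem_coe.2 (mem_univ _), Nat.cast_sum]
    refine sum_congr rfl fun μ _ => ?_
    rw [sq, ← Nat.cast_mul, ← card_product]
    refine congrArg (fun s : Finset (ι × ι) => (s.card : ℝ)) (Finset.ext fun p => ?_)
    simp only [mem_filter, mem_product]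
    constructor
    · rintro ⟨⟨⟨a, b⟩, c⟩, d⟩
      exact ⟨⟨a, c.trans d⟩, b, d⟩
    · rintro ⟨⟨a, c⟩, b, d⟩
      exact ⟨⟨⟨a, b⟩, c.trans d.symm⟩, d⟩
  rw [h1, h2]
  exact sum_mul_sq_le_sq_mul_sq _ _ _

theorem orth_Kara {ι : Type*} {D : ℕ} [NeZero D] (U : Finset ι) (B : ι → ZMod D) (w : ι → ℂ)
    (hw : ∀ v, ‖w v‖ ≤ 1) : ∑ μ : ZMod D, ‖∑ v ∈ U, w v * ZMod.stdAddChar (μ * B v)‖ ^ 2 ≤
      D * (((U ×ˢ U).filter fun p => B p.1 = B p.2).card : ℝ) := by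
  have h1 : ((∑ μ : ZMod D, ‖∑ v ∈ U, w v * ZMod.stdAddChar (μ * B v)‖ ^ 2 : ℝ) : ℂ) =
      ∑ p ∈ (U ×ˢ U).filter fun p => B p.1 = B p.2, w p.1 * (starRingEnd ℂ) (w p.2) * D := by
    rw [sum_filter]
    have e : ∀ p : ι × ι, (if B p.1 = B p.2 then w p.1 * (starRingEnd ℂ) (w p.2) * D else 0) =
        ∑ μ : ZMod D, w p.1 * ZMod.stdAddChar (μ * B p.1) *
          (starRingEnd ℂ) (w p.2 * ZMod.stdAddChar (μ * B p.2)) := fun p => by
      have := AddChar.sum_mulShift (B p.1 - B p.2) (ZMod.isPrimitive_stdAddChar D)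
      rw [ZMod.card] at this
      have e2 : ∀ μ : ZMod D, w p.1 * ZMod.stdAddChar (μ * B p.1) *
          (starRingEnd ℂ) (w p.2 * ZMod.stdAddChar (μ * B p.2)) =
            w p.1 * (starRingEnd ℂ) (w p.2) * ZMod.stdAddChar (μ * (B p.1 - B p.2)) := fun μ => by
        rw [map_mul (starRingEnd ℂ), ← AddChar.map_neg_eq_conj, mul_sub, sub_eq_add_neg,
          AddChar.map_add_eq_mul]
        ring
      simp only [e2, ← mul_sum, this, sub_eq_zero]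
      split_ifs <;> simp
    simp only [e]
    rw [sum_comm, Complex.ofReal_sum]
    refine sum_congr rfl fun μ _ => ?_
    rw [Complex.ofReal_pow, ← Complex.mul_conj', map_sum, sum_mul_sum, sum_product]
  refine (le_abs_self _).trans ?_
  rw [← Real.norm_eq_abs, ← Complex.norm_real, h1, mul_comm, ← nsmul_eq_mul]
  refine (norm_sum_le _ _).trans (sum_le_card_nsmul _ _ _ fun p _ => ?_)
  rw [norm_mul, norm_mul, Complex.norm_conj, Complex.norm_natCast]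
  exact mul_le_of_le_one_left (Nat.cast_nonneg _) (mul_le_one₀ (hw _) (norm_nonneg _) (hw _))

theorem pow_Kara {ι : Type*} {D : ℕ} [NeZero D] (X : Finset ι) (a : ι → ZMod D) (w : ι → ℂ)
    (μ : ZMod D) (n : ℕ) : (∑ x ∈ X, w x * ZMod.stdAddChar (μ * a x)) ^ n =
      ∑ u ∈ Fintype.piFinset fun _ : Fin n => X,
        (∏ i, w (u i)) * ZMod.stdAddChar (μ * ∑ i, a (u i)) := by
  rw [sum_pow']
  refine sum_congr rfl fun u _ => ?_
  rw [prod_mul_distrib, mul_sum]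
  congr 1
  induction (univ : Finset (Fin n)) using Finset.induction_on with
  | empty => simp
  | insert i s hi ih => rw [prod_insert hi, sum_insert hi, AddChar.map_add_eq_mul, ih]

theorem main_Kara {ι κ : Type*} {D : ℕ} [NeZero D] (X : Finset ι) (Y : Finset κ) (a : ι → ZMod D)
    (b : κ → ZMod D) (s t : ℕ) {P Q : ℝ}
    (hP : ((((Fintype.piFinset fun _ : Fin (s + 1) => X) ×ˢ
      (Fintype.piFinset fun _ : Fin (s + 1) => X)).filter
        fun u => ∑ i, a (u.1 i) = ∑ i, a (u.2 i)).card : ℝ) ≤ P)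
    (hQ : ((((Fintype.piFinset fun _ : Fin (t + 1) => Y) ×ˢ
      (Fintype.piFinset fun _ : Fin (t + 1) => Y)).filter
        fun u => ∑ i, b (u.1 i) = ∑ i, b (u.2 i)).card : ℝ) ≤ Q) :
    ‖∑ x ∈ X, ∑ y ∈ Y, ZMod.stdAddChar (b y * a x)‖ ^ (2 * (s + 1) * (t + 1)) ≤
      (((Y.card : ℝ) ^ s) ^ (t + 1) * ((X.card : ℝ) ^ (s + 1)) ^ t) ^ 2 * (P * (D * Q)) := by
  obtain ⟨S, hS⟩ : ∃ S : κ → ℂ, ∀ y, S y = ∑ x ∈ X, 1 * ZMod.stdAddChar (b y * a x) :=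
    ⟨_, fun _ => rfl⟩
  choose ξ hξ hξ' using fun y => RCLike.exists_norm_eq_mul_self (S y ^ (s + 1))
  obtain ⟨T, hT⟩ : ∃ T : ZMod D → ℂ, ∀ μ, T μ = ∑ y ∈ Y, ξ y * ZMod.stdAddChar (μ * b y) :=
    ⟨_, fun _ => rfl⟩
  have h1 : ‖∑ x ∈ X, ∑ y ∈ Y, ZMod.stdAddChar (b y * a x)‖ ^ (s + 1) ≤
      (Y.card : ℝ) ^ s * ∑ y ∈ Y, ‖S y‖ ^ (s + 1) := by
    refine le_trans ?_ (pow_sum_le_card_mul_sum_pow (fun y _ => norm_nonneg (S y)) s)
    refine pow_le_pow_left₀ (norm_nonneg _) ?_ _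
    rw [sum_comm]
    simp only [hS, one_mul]
    exact norm_sum_le _ _
  have h2 : ∑ y ∈ Y, ‖S y‖ ^ (s + 1) ≤
      ∑ u ∈ Fintype.piFinset fun _ : Fin (s + 1) => X, ‖T (∑ i, a (u i))‖ := by
    refine (le_abs_self _).trans (le_trans (le_of_eq ?_) (norm_sum_le _ _))
    rw [← Real.norm_eq_abs, ← Complex.norm_real, Complex.ofReal_sum]
    refine congrArg _ ?_
    simp only [hT]
    rw [sum_comm]
    refine sum_congr rfl fun y _ => ?_
    rw [← norm_pow]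
    refine (hξ' y).trans ?_
    rw [hS, pow_Kara, mul_sum]
    refine sum_congr rfl fun u _ => ?_
    rw [prod_const_one, one_mul, mul_comm (b y)]
  have h3 := pow_sum_le_card_mul_sum_pow (s := Fintype.piFinset fun _ : Fin (s + 1) => X)
    (fun u _ => norm_nonneg (T (∑ i, a (u i)))) t
  rw [Fintype.card_piFinset_const, Nat.cast_pow] at h3
  have h4 := cs_Kara (Fintype.piFinset fun _ : Fin (s + 1) => X) (fun u => ∑ i, a (u i))
    fun μ => ‖T μ‖ ^ (t + 1)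
  have h5 : ∑ μ, (‖T μ‖ ^ (t + 1)) ^ 2 ≤ D * Q := by
    refine le_trans (le_of_eq ?_) ((orth_Kara (Fintype.piFinset fun _ : Fin (t + 1) => Y)
      (fun v => ∑ i, b (v i)) (fun v => ∏ i, ξ (v i)) fun v => ?_).trans
        (mul_le_mul_of_nonneg_left hQ (Nat.cast_nonneg _)))
    · refine sum_congr rfl fun μ _ => ?_
      rw [← norm_pow, hT, pow_Kara]
    · rw [norm_prod]
      exact (prod_eq_one fun i _ => hξ _).le
  have hP0 : 0 ≤ P := (Nat.cast_nonneg _).trans hP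
  have h6 := h4.trans (mul_le_mul hP h5 (sum_nonneg fun _ _ => sq_nonneg _) hP0)
  have h7 := (pow_le_pow_left₀ (by positivity) (h1.trans
    (mul_le_mul_of_nonneg_left h2 (by positivity))) (t + 1)).trans
      ((mul_pow _ _ _).le.trans (mul_le_mul_of_nonneg_left h3 (by positivity)))
  rw [mul_assoc 2, mul_comm 2, pow_mul, pow_mul]
  refine (pow_le_pow_left₀ (by positivity) h7 2).trans ?_
  rw [← mul_assoc, mul_pow _ _ 2]
  exact mul_le_mul_of_nonneg_left h6 (by positivity)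

/-- the bilinear Kloosterman sum -/
noncomputable def Kl (D : ℕ) [NeZero D] (X Y : Finset ℕ) (c : ZMod D) : ℂ :=
  ∑ x ∈ X, ∑ y ∈ Y, ZMod.stdAddChar (c * ((x : ZMod D)⁻¹ * (y : ZMod D)⁻¹))

theorem karatsuba {D : ℕ} [NeZero D] (c : ZMod D) {X Y : Finset ℕ} {s t BX BY : ℕ} (hs : 1 ≤ s)
    (ht : 1 ≤ t) (hX : ∀ x ∈ X, x.Prime ∧ s < x ∧ x ≤ BX ∧ x.Coprime D)
    (hY : ∀ y ∈ Y, y.Prime ∧ t < y ∧ y ≤ BY ∧ y.Coprime D)
    (h1 : s * BX ^ (2 * s - 1) * Nat.gcd c.val D < D) (h2 : t * BY ^ (2 * t - 1) < D) :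
    ‖Kl D X Y c‖ ^ (2 * s * t) ≤
      (s : ℝ) ^ s * (t : ℝ) ^ t * D * (X.card : ℝ) ^ (2 * s * t - s) *
        (Y.card : ℝ) ^ (2 * s * t - t) := by
  obtain ⟨s, rfl⟩ := Nat.exists_eq_add_of_le' hs
  obtain ⟨t, rfl⟩ := Nat.exists_eq_add_of_le' ht
  have hP := diag_count c hX h1
  have hQ := diag_count (1 : ZMod D) hY (by
    rw [ZMod.val_one_eq_one_mod, ← Nat.gcd_rec, Nat.gcd_one_right, mul_one]
    exact h2)
  simp only [mul_sum] at hP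
  simp only [one_mul] at hQ
  have h := main_Kara X Y (fun x => c * (x : ZMod D)⁻¹) (fun y => (y : ZMod D)⁻¹) s t
    (Nat.cast_le.2 hP) (Nat.cast_le.2 hQ)
  have e : Kl D X Y c =
      ∑ x ∈ X, ∑ y ∈ Y, ZMod.stdAddChar ((y : ZMod D)⁻¹ * (c * (x : ZMod D)⁻¹)) :=
    sum_congr rfl fun x _ => sum_congr rfl fun y _ => congrArg _ (by ring)
  have e1 : 2 * (s + 1) * (t + 1) - (s + 1) = (s + 1) * t * 2 + (s + 1) :=
    Nat.sub_eq_of_eq_add (by ring)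
  have e2 : 2 * (s + 1) * (t + 1) - (t + 1) = s * (t + 1) * 2 + (t + 1) :=
    Nat.sub_eq_of_eq_add (by ring)
  rw [e, e1, e2]
  refine h.trans (le_of_eq ?_)
  rw [pow_add _ _ (s + 1), pow_add _ _ (t + 1), pow_mul, pow_mul, pow_mul, pow_mul, Nat.cast_mul,
    Nat.cast_mul, Nat.cast_pow, Nat.cast_pow, Nat.cast_pow, Nat.cast_pow]
  generalize (((s + 1 : ℕ) : ℝ)) ^ (s + 1) = p
  generalize (((t + 1 : ℕ) : ℝ)) ^ (t + 1) = q
  generalize (X.card : ℝ) ^ (s + 1) = x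
  generalize x ^ t = x'
  generalize (Y.card : ℝ) ^ (t + 1) = y
  generalize ((Y.card : ℝ) ^ s) ^ (t + 1) = y'
  ring

end Pool.Agent.PSD
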