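import Pool.Agent.P.MP_06afd2_nt.D1.Lat
import Pool.Agent.P.MP_06afd2_nt.D1.Kara

/-!
Fourier analysis modulo `D`: counting the pairs `(x, y)` with `r / (x y)` and `s / (x y)` both small.

Sketch. `n = 2 A + 1 ≤ D`, `cnt t = card {(a, b) ∈ range n × range n | (a : ZMod D) - b = t}`, `U h = ∑_{a < n} ψ (h a)`.
Orthogonality: `D * cnt t = ∑_h ‖U h‖ ^ 2 ψ (- h t)`. Facts: `cnt t ≤ n`; `2 * cnt (k : ZMod D) ≥ n` for integers `|k| ≤ A`;
`cnt t ≠ 0` implies `t = k` with `|k| ≤ 2 A`. For a pair in the set, `r x⁻¹ y⁻¹ = n'` and `s x⁻¹ y⁻¹ = m'`. So `n ^ 2 / 4 * card` is at most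
`∑_{x, y} cnt (r x⁻¹ y⁻¹) cnt (s x⁻¹ y⁻¹) = D⁻¹ ^ 2 ∑_{h, h'} ‖U h‖ ^ 2 ‖U h'‖ ^ 2 Kl (-(h r + h' s))`. Bound
`‖Kl c‖ ≤ B + |X| |Y| ∑_{g ∣ D, G < g} 1[c * (D / g) = 0]` (take `g = gcd c.val D`). With `e = D / g`:
`D⁻¹ ^ 2 ∑_{h, h'} ‖U h‖ ^ 2 ‖U h'‖ ^ 2 1[(h r + h' s) e = 0] = D⁻¹ ∑_b cnt (b e r) cnt (b e s) ≤ D⁻¹ n ^ 2 card {b | both nonzero}`.
For such `b`: `b e r ≡ e w₁`, `b e s ≡ e w₂ [ZMOD D]` with `|w_i| ≤ W = 2 A / e`, `g ∣ s w₁ - r w₂`, and `(w₁, w₂)` determines `b` modulo `g`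
(`r` is a unit), so there are at most `e` values of `b` for each lattice point. Apply `lattice_count` to `Λ = {w | g ∣ s w.1 - r w.2}`.
-/

namespace Pool.Agent.PSD

open Finset

/-- the number of representations as a difference -/
def cnt_four (D n : ℕ) (t : ZMod D) : ℕ :=
  ((range n ×ˢ range n).filter fun p : ℕ × ℕ => (p.1 : ZMod D) - p.2 = t).card

/-- the Fejér weights -/
noncomputable def w_four (D n : ℕ) [NeZero D] (h : ZMod D) : ℝ :=
  ‖∑ a ∈ range n, ZMod.stdAddChar (h * (a : ZMod D))‖ ^ 2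

section

variable {D : ℕ} [NeZero D]

theorem orth_four (t : ZMod D) :
    ∑ h : ZMod D, ZMod.stdAddChar (h * t) = if t = 0 then (D : ℂ) else 0 := by
  rw [AddChar.sum_mulShift t (ZMod.isPrimitive_stdAddChar D), ZMod.card]
  split_ifs <;> simp

theorem w_eq_four (n : ℕ) (h : ZMod D) : (w_four D n h : ℂ) =
    ∑ p ∈ range n ×ˢ range n, ZMod.stdAddChar (h * ((p.1 : ZMod D) - (p.2 : ZMod D))) := by
  rw [w_four, Complex.ofReal_pow, ← Complex.mul_conj', map_sum, sum_mul_sum, sum_product]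
  refine sum_congr rfl fun a _ => sum_congr rfl fun b _ => ?_
  rw [← AddChar.map_neg_eq_conj, ← AddChar.map_add_eq_mul, mul_sub, sub_eq_add_neg]

theorem w_nonneg_four (n : ℕ) (h : ZMod D) : 0 ≤ w_four D n h := sq_nonneg _

theorem o1_four (n : ℕ) (t : ZMod D) :
    ∑ h : ZMod D, (w_four D n h : ℂ) * ZMod.stdAddChar (-(h * t)) = D * cnt_four D n t := by
  simp only [w_eq_four, sum_mul, ← AddChar.map_add_eq_mul, ← sub_eq_add_neg, ← mul_sub]
  rw [sum_comm]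
  simp only [orth_four, sub_eq_zero]
  rw [← sum_filter, sum_const, nsmul_eq_mul, mul_comm, cnt_four]

theorem o5_four (n : ℕ) {ι : Type*} (S : Finset ι) (z : ι → ZMod D) (α β : ZMod D) :
    ∑ h : ZMod D, ∑ h' : ZMod D, (w_four D n h : ℂ) * w_four D n h' *
      ∑ i ∈ S, ZMod.stdAddChar (-(h * α + h' * β) * z i) =
      (D : ℂ) ^ 2 * ∑ i ∈ S, (cnt_four D n (α * z i) : ℂ) * cnt_four D n (β * z i) := by
  simp only [mul_sum]
  rw [sum_congr rfl fun h _ => sum_comm, sum_comm]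
  refine sum_congr rfl fun i _ => ?_
  have e : (D : ℂ) ^ 2 * ((cnt_four D n (α * z i) : ℂ) * cnt_four D n (β * z i)) =
      (D * cnt_four D n (α * z i)) * (D * cnt_four D n (β * z i)) := by ring
  rw [e, ← o1_four, ← o1_four, sum_mul_sum]
  refine sum_congr rfl fun h _ => sum_congr rfl fun h' _ => ?_
  have e2 : -(h * α + h' * β) * z i = -(h * (α * z i)) + -(h' * (β * z i)) := by ring
  rw [e2, AddChar.map_add_eq_mul]
  ring

theorem o2_four (n : ℕ) (α β : ZMod D) :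
    ∑ h : ZMod D, ∑ h' : ZMod D, w_four D n h * w_four D n h' *
      (if h * α + h' * β = 0 then 1 else 0) =
      D * ∑ b : ZMod D, (cnt_four D n (α * b) : ℝ) * cnt_four D n (β * b) := by
  have h1 := o5_four n univ id α β
  have hD : (D : ℂ) ≠ 0 := Nat.cast_ne_zero.2 (NeZero.ne D)
  simp only [id, mul_comm (-(_ * α + _ * β)), orth_four, neg_eq_zero] at h1
  apply Complex.ofReal_injective
  apply mul_left_cancel₀ hD
  push_cast
  rw [← mul_assoc, ← pow_two, ← h1]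
  simp only [mul_sum]
  refine sum_congr rfl fun h _ => sum_congr rfl fun h' _ => ?_
  split_ifs <;> simp [mul_comm]

omit [NeZero D] in
theorem cnt_le_four {n : ℕ} (hn : n ≤ D) (t : ZMod D) : cnt_four D n t ≤ n := by
  refine (card_le_card_of_injOn (t := range n) Prod.snd (fun p hp => ?_) ?_).trans_eq
    (card_range n)
  · exact (mem_product.1 (mem_filter.1 hp).1).2
  · intro p hp q hq e
    have h1 := mem_filter.1 (mem_coe.1 hp)
    have h2 := mem_filter.1 (mem_coe.1 hq)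
    have h3 : (p.1 : ZMod D) = q.1 := by
      have := h1.2.trans h2.2.symm
      rwa [e, sub_left_inj] at this
    have h4 := mem_range.1 (mem_product.1 h1.1).1
    have h5 := mem_range.1 (mem_product.1 h2.1).1
    rw [ZMod.natCast_eq_natCast_iff', Nat.mod_eq_of_lt (by omega),
      Nat.mod_eq_of_lt (by omega)] at h3
    exact Prod.ext h3 e

omit [NeZero D] in
theorem cnt_ge_four {A : ℕ} {k : ℤ} (hk : |k| ≤ A) :
    A + 1 ≤ cnt_four D (2 * A + 1) (k : ZMod D) := by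
  rw [abs_le] at hk
  refine (card_range (A + 1)).symm.trans_le (card_le_card_of_injOn
    (fun i => (i + k.toNat, i + (-k).toNat)) (fun i hi => ?_) fun i _ j _ e => ?_)
  · have h1 := mem_range.1 (mem_coe.1 hi)
    refine mem_coe.2 (mem_filter.2 ⟨mem_product.2 ⟨mem_range.2 ?_, mem_range.2 ?_⟩, ?_⟩)
    · change i + k.toNat < _
      omega
    · change i + (-k).toNat < _
      omega
    · have h2 : ((i + k.toNat : ℕ) : ℤ) - (i + (-k).toNat : ℕ) = k := by omega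
      have h3 := congrArg (Int.cast : ℤ → ZMod D) h2
      rwa [Int.cast_sub, Int.cast_natCast, Int.cast_natCast] at h3
  · exact Nat.add_right_cancel (congrArg Prod.fst e)

omit [NeZero D] in
theorem cnt_ne_four {A : ℕ} {t : ZMod D} (h : cnt_four D (2 * A + 1) t ≠ 0) :
    ∃ k : ℤ, |k| ≤ 2 * A ∧ (k : ZMod D) = t := by
  obtain ⟨p, hp⟩ := card_ne_zero.1 h
  have h1 := mem_filter.1 hp
  have h4 := mem_range.1 (mem_product.1 h1.1).1
  have h5 := mem_range.1 (mem_product.1 h1.1).2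
  refine ⟨(p.1 : ℤ) - p.2, abs_le.2 ⟨by omega, by omega⟩, ?_⟩
  rw [Int.cast_sub, Int.cast_natCast, Int.cast_natCast, h1.2]

theorem sum_w_four {n : ℕ} (hn : n ≤ D) : ∑ h : ZMod D, w_four D n h ≤ D * n := by
  have h1 := o1_four n (0 : ZMod D)
  simp only [mul_zero, neg_zero, AddChar.map_zero_eq_one, mul_one] at h1
  have h2 : ∑ h : ZMod D, w_four D n h = D * cnt_four D n 0 := by exact_mod_cast h1
  rw [h2]
  exact mul_le_mul_of_nonneg_left (by exact_mod_cast cnt_le_four hn 0) (Nat.cast_nonneg _)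

theorem red_four {g e A : ℕ} (hD : D = g * e) (r : ℤ) (b : ZMod D)
    (h : cnt_four D (2 * A + 1) ((r * e : ZMod D) * b) ≠ 0) :
    ∃ w : ℤ, |w| ≤ (2 * A / e : ℕ) ∧ (g : ℤ) ∣ b.val * r - w := by
  have he : 0 < e := Nat.pos_of_ne_zero fun h0 => NeZero.ne D (by rw [hD, h0, mul_zero])
  obtain ⟨k, hk, hk'⟩ := cnt_ne_four h
  have h1 : (D : ℤ) ∣ r * e * b.val - k := by
    rw [← ZMod.intCast_eq_intCast_iff_dvd_sub, hk']
    simp
  obtain ⟨c, hc⟩ := h1
  have hD' : (D : ℤ) = g * e := by exact_mod_cast hD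
  have h2 : k = e * (b.val * r - g * c) := by linear_combination -hc - c * hD'
  refine ⟨b.val * r - g * c, ?_, c, by ring⟩
  rw [h2, abs_mul, Nat.abs_cast] at hk
  rw [Int.natCast_div, Int.le_ediv_iff_mul_le (by exact_mod_cast he), mul_comm]
  exact_mod_cast hk

theorem lat_four {g e A L : ℕ} (hD : D = g * e) {r s : ℤ} (hr : IsCoprime r (D : ℤ)) (hL : 0 < L)
    (hshort : ∀ w : ℤ × ℤ, w ≠ 0 → (g : ℤ) ∣ s * w.1 - r * w.2 →
      (L : ℤ) ≤ |w.1| ∨ (L : ℤ) ≤ |w.2|) :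
    ((univ.filter fun b : ZMod D => cnt_four D (2 * A + 1) ((r * e : ZMod D) * b) ≠ 0 ∧
      cnt_four D (2 * A + 1) ((s * e : ZMod D) * b) ≠ 0).card : ℝ) ≤
      D * (48 * (A : ℝ) ^ 2 / (D : ℝ) ^ 2 + 4 * A / (D * L) + 1 / g) := by
  have he : 0 < e := Nat.pos_of_ne_zero fun h0 => NeZero.ne D (by rw [hD, h0, mul_zero])
  have hg : 0 < g := Nat.pos_of_ne_zero fun h0 => NeZero.ne D (by rw [hD, h0, zero_mul])
  have hrg : IsCoprime (g : ℤ) r := by
    rw [hD, Nat.cast_mul] at hr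
    exact hr.of_mul_right_left.symm
  set T := univ.filter fun b : ZMod D => cnt_four D (2 * A + 1) ((r * e : ZMod D) * b) ≠ 0 ∧
      cnt_four D (2 * A + 1) ((s * e : ZMod D) * b) ≠ 0 with hT
  choose! w₁ a₁ b₁ using fun b (hb : b ∈ T) => red_four hD r b (mem_filter.1 hb).2.1
  choose! w₂ a₂ b₂ using fun b (hb : b ∈ T) => red_four hD s b (mem_filter.1 hb).2.2
  let Λ : AddSubgroup (ℤ × ℤ) :=
    { carrier := {w | (g : ℤ) ∣ s * w.1 - r * w.2}
      zero_mem' := by simp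
      add_mem' := fun {u v} hu hv => by
        have := dvd_add hu hv
        change (g : ℤ) ∣ s * (u.1 + v.1) - r * (u.2 + v.2)
        rwa [show s * (u.1 + v.1) - r * (u.2 + v.2) =
          s * u.1 - r * u.2 + (s * v.1 - r * v.2) by ring]
      neg_mem' := fun {u} hu => by
        have := (dvd_neg.2 hu : (g : ℤ) ∣ -(s * u.1 - r * u.2))
        change (g : ℤ) ∣ s * -u.1 - r * -u.2
        rwa [show s * -u.1 - r * -u.2 = -(s * u.1 - r * u.2) by ring] }
  have h1 := lattice_count Λ (W := 2 * A / e) hg hL (fun u hu v hv => by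
    have hu' : (g : ℤ) ∣ s * u.1 - r * u.2 := hu
    have hv' : (g : ℤ) ∣ s * v.1 - r * v.2 := hv
    refine hrg.dvd_of_dvd_mul_left ?_
    rw [show r * (u.1 * v.2 - u.2 * v.1) =
      (s * u.1 - r * u.2) * v.1 - (s * v.1 - r * v.2) * u.1 by ring]
    exact dvd_sub (hu'.mul_right _) (hv'.mul_right _)) (fun u hu h0 => hshort u h0 hu)
    (S := T.image fun b => (w₁ b, w₂ b)) (by
      intro u hu
      obtain ⟨b, hb, rfl⟩ := mem_image.1 hu
      refine ⟨?_, a₁ b hb, a₂ b hb⟩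
      change (g : ℤ) ∣ s * w₁ b - r * w₂ b
      rw [show s * w₁ b - r * w₂ b = (b.val * s - w₂ b) * r - (b.val * r - w₁ b) * s by ring]
      exact dvd_sub ((b₂ b hb).mul_right _) ((b₁ b hb).mul_right _))
  have h2 : T.card ≤ (T.image fun b => (w₁ b, w₂ b)).card * e := by
    refine (card_le_card_of_injOn (t := (T.image fun b => (w₁ b, w₂ b)) ×ˢ range e)
      (fun b => ((w₁ b, w₂ b), b.val / g)) (fun b hb => ?_) fun b hb c hc h => ?_).trans_eq
      (by rw [card_product, card_range])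
    · refine mem_coe.2 (mem_product.2 ⟨mem_image_of_mem _ hb, mem_range.2 ?_⟩)
      exact Nat.div_lt_of_lt_mul (hD ▸ ZMod.val_lt b)
    · have h3 : w₁ b = w₁ c := congrArg (fun x => x.1.1) h
      have h4 : b.val / g = c.val / g := congrArg Prod.snd h
      have h5 : (g : ℤ) ∣ (c.val : ℤ) - b.val := by
        refine hrg.dvd_of_dvd_mul_right ?_
        rw [show ((c.val : ℤ) - b.val) * r = (c.val * r - w₁ c) - (b.val * r - w₁ b) by
          rw [h3]; ring]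
        exact dvd_sub (b₁ c hc) (b₁ b hb)
      have h6 : b.val % g = c.val % g := Nat.modEq_iff_dvd.2 h5
      apply ZMod.val_injective
      rw [← Nat.div_add_mod b.val g, ← Nat.div_add_mod c.val g, h4, h6]
  have h3 : ((2 * A / e : ℕ) : ℝ) ≤ 2 * A / e := by
    have := Nat.cast_div_le (α := ℝ) (m := 2 * A) (n := e)
    rwa [Nat.cast_mul, Nat.cast_ofNat] at this
  have he' : (0 : ℝ) < e := by exact_mod_cast he
  have hg' : (0 : ℝ) < g := by exact_mod_cast hg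
  have hL' : (0 : ℝ) < L := by exact_mod_cast hL
  calc (T.card : ℝ) ≤ (T.image fun b => (w₁ b, w₂ b)).card * e := by exact_mod_cast h2
    _ ≤ (12 * (2 * (A : ℝ) / e) ^ 2 / g + 2 * (2 * A / e) / L + 1) * e := by
      refine mul_le_mul_of_nonneg_right (h1.trans ?_) he'.le
      gcongr
    _ = _ := by
      rw [hD, Nat.cast_mul]
      field_simp
      ring

theorem kl_le_four (X Y : Finset ℕ) {B G : ℝ} (hB : 0 ≤ B)
    (hK : ∀ c : ZMod D, (Nat.gcd c.val D : ℝ) ≤ G → ‖Kl D X Y c‖ ≤ B) (c : ZMod D) :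
    ‖Kl D X Y c‖ ≤ B + X.card * Y.card * ∑ g ∈ D.divisors.filter fun g : ℕ => G < g,
      (if c * ((D / g : ℕ) : ZMod D) = 0 then (1 : ℝ) else 0) := by
  have h0 : ∀ g : ℕ, (0 : ℝ) ≤ if c * ((D / g : ℕ) : ZMod D) = 0 then 1 else 0 := fun g => by
    split_ifs <;> norm_num
  by_cases h : (Nat.gcd c.val D : ℝ) ≤ G
  · exact (hK c h).trans (le_add_of_nonneg_right
      (mul_nonneg (by positivity) (sum_nonneg fun g _ => h0 g)))
  · have h1 : ‖Kl D X Y c‖ ≤ X.card * Y.card := by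
      refine (norm_sum_le _ _).trans ((sum_le_sum fun x _ => norm_sum_le _ _).trans_eq ?_)
      simp
    have h2 := single_le_sum (s := D.divisors.filter fun g : ℕ => G < g) (fun g _ => h0 g)
      (a := Nat.gcd c.val D) (mem_filter.2
        ⟨Nat.mem_divisors.2 ⟨Nat.gcd_dvd_right _ _, NeZero.ne D⟩, not_le.1 h⟩)
    have h3 : c * ((D / Nat.gcd c.val D : ℕ) : ZMod D) = 0 := by
      conv_lhs => rw [← ZMod.natCast_zmod_val c]
      rw [ZMod.val_natCast, Nat.mod_eq_of_lt (ZMod.val_lt c), ← Nat.cast_mul,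
        ZMod.natCast_eq_zero_iff, ← Nat.mul_div_assoc _ (Nat.gcd_dvd_right _ _), mul_comm,
        Nat.mul_div_assoc _ (Nat.gcd_dvd_left _ _)]
      exact dvd_mul_right _ _
    rw [if_pos h3] at h2
    have h4 := mul_le_mul_of_nonneg_left h2 (show (0 : ℝ) ≤ X.card * Y.card by positivity)
    linarith

end

open Classical in
theorem four_count {D : ℕ} [NeZero D] {X Y : Finset ℕ} {r s : ℤ} {A L : ℕ} {B G : ℝ}
    (hX : ∀ x ∈ X, x.Coprime D) (hY : ∀ y ∈ Y, y.Coprime D) (hr : IsCoprime r (D : ℤ))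
    (hA : 2 * A + 1 ≤ D) (hL : 0 < L) (hG : 0 < G) (hB : 0 ≤ B)
    (hK : ∀ c : ZMod D, (Nat.gcd c.val D : ℝ) ≤ G → ‖Kl D X Y c‖ ≤ B)
    (hshort : ∀ g : ℕ, g ∣ D → G < g → ∀ w : ℤ × ℤ, w ≠ 0 → (g : ℤ) ∣ s * w.1 - r * w.2 →
      (L : ℤ) ≤ |w.1| ∨ (L : ℤ) ≤ |w.2|) :
    (((X ×ˢ Y).filter fun u => ∃ n m : ℤ, |n| ≤ A ∧ |m| ≤ A ∧
      (u.1 : ℤ) * u.2 * n ≡ r [ZMOD D] ∧ (u.1 : ℤ) * u.2 * m ≡ s [ZMOD D]).card : ℝ) ≤
      4 * B + 4 * (X.card * Y.card) * D.divisors.card *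
        (48 * (A : ℝ) ^ 2 / (D : ℝ) ^ 2 + 4 * A / (D * L) + 1 / G) := by
  set n := 2 * A + 1 with hn
  set Q : ℝ := 48 * (A : ℝ) ^ 2 / (D : ℝ) ^ 2 + 4 * A / (D * L) + 1 / G with hQ
  set T := (X ×ˢ Y).filter fun u => ∃ n m : ℤ, |n| ≤ A ∧ |m| ≤ A ∧
      (u.1 : ℤ) * u.2 * n ≡ r [ZMOD D] ∧ (u.1 : ℤ) * u.2 * m ≡ s [ZMOD D] with hT
  set Gs := D.divisors.filter fun g : ℕ => G < g with hGs
  have hD : (0 : ℝ) < D := by exact_mod_cast Nat.pos_of_ne_zero (NeZero.ne D)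
  have hn0 : (0 : ℝ) < n := by exact_mod_cast Nat.succ_pos (2 * A)
  have hQ0 : 0 ≤ Q := by positivity
  let z : ℕ × ℕ → ZMod D := fun u => (u.1 : ZMod D)⁻¹ * (u.2 : ZMod D)⁻¹
  have low : ∀ u ∈ X ×ˢ Y, ∀ k t : ℤ, |k| ≤ A → (u.1 : ℤ) * u.2 * k ≡ t [ZMOD D] →
      (n : ℝ) / 2 ≤ cnt_four D n ((t : ZMod D) * z u) := by
    intro u hu k t hk ht
    have e1 := ZMod.coe_mul_inv_eq_one u.1 (hX _ (mem_product.1 hu).1)
    have e2 := ZMod.coe_mul_inv_eq_one u.2 (hY _ (mem_product.1 hu).2)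
    have e3 : (t : ZMod D) * z u = k := by
      rw [← (ZMod.intCast_eq_intCast_iff _ _ _).2 ht]
      push_cast
      simp only [z]
      linear_combination (k : ZMod D) * (u.2 * (u.2 : ZMod D)⁻¹) * e1 + k * e2
    have e4 : ((A + 1 : ℕ) : ℝ) ≤ cnt_four D n (k : ZMod D) := by exact_mod_cast cnt_ge_four hk
    rw [e3, hn]
    push_cast at e4 ⊢
    linarith
  have s1 : (T.card : ℝ) * (n / 2 * (n / 2)) ≤
      ∑ u ∈ X ×ˢ Y, (cnt_four D n (r * z u) : ℝ) * cnt_four D n (s * z u) := by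
    refine le_trans ?_ (sum_le_sum_of_subset_of_nonneg (filter_subset _ _ : T ⊆ X ×ˢ Y)
      fun _ _ _ => by positivity)
    rw [← nsmul_eq_mul]
    refine card_nsmul_le_sum _ _ _ fun u hu => ?_
    obtain ⟨hu', a, b, ha, hb, h1, h2⟩ := mem_filter.1 hu
    exact mul_le_mul (low u hu' a r ha h1) (low u hu' b s hb h2) (by positivity) (by positivity)
  have s2 : (D : ℝ) ^ 2 * ∑ u ∈ X ×ˢ Y, (cnt_four D n (r * z u) : ℝ) * cnt_four D n (s * z u) ≤
      ∑ h : ZMod D, ∑ h' : ZMod D, w_four D n h * w_four D n h' *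
        ‖Kl D X Y (-(h * r + h' * s))‖ := by
    have h1 := o5_four n (X ×ˢ Y) z r s
    have h2 : ‖(D : ℂ) ^ 2 * ∑ u ∈ X ×ˢ Y, (cnt_four D n (r * z u) : ℂ) * cnt_four D n (s * z u)‖ =
        (D : ℝ) ^ 2 * ∑ u ∈ X ×ˢ Y, (cnt_four D n (r * z u) : ℝ) * cnt_four D n (s * z u) := by
      norm_cast
    rw [← h2, ← h1]
    refine (norm_sum_le _ _).trans (sum_le_sum fun h _ => (norm_sum_le _ _).trans_eq
      (sum_congr rfl fun h' _ => ?_))
    rw [norm_mul, norm_mul, Complex.norm_of_nonneg (w_nonneg_four n h),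
      Complex.norm_of_nonneg (w_nonneg_four n h'), Kl, sum_product]
  have s3 : ∀ g ∈ Gs, ∑ h : ZMod D, ∑ h' : ZMod D, w_four D n h * w_four D n h' *
      (if -(h * r + h' * s) * ((D / g : ℕ) : ZMod D) = 0 then (1 : ℝ) else 0) ≤
      D * (D * Q * (n * n)) := by
    intro g hg
    obtain ⟨g1, g2⟩ := mem_filter.1 hg
    have g3 := Nat.dvd_of_mem_divisors g1
    have e : ∀ h h' : ZMod D, -(h * r + h' * s) * ((D / g : ℕ) : ZMod D) = 0 ↔
        h * (r * ((D / g : ℕ) : ZMod D)) + h' * (s * ((D / g : ℕ) : ZMod D)) = 0 := by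
      intro h h'
      rw [neg_mul, neg_eq_zero, add_mul, mul_assoc, mul_assoc]
    simp only [e]
    rw [o2_four]
    refine mul_le_mul_of_nonneg_left ?_ hD.le
    have h1 := lat_four (A := A) (Nat.mul_div_cancel' g3).symm hr hL (hshort g g3 g2)
    rw [← sum_filter_of_ne (p := fun b : ZMod D =>
      cnt_four D n ((r * ((D / g : ℕ) : ZMod D)) * b) ≠ 0 ∧
        cnt_four D n ((s * ((D / g : ℕ) : ZMod D)) * b) ≠ 0)
      (fun b _ hb => by exact_mod_cast mul_ne_zero_iff.1 hb)]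
    refine (sum_le_card_nsmul _ _ ((n : ℝ) * n) fun b _ => ?_).trans ?_
    · exact_mod_cast Nat.mul_le_mul (cnt_le_four hA _) (cnt_le_four hA _)
    · rw [nsmul_eq_mul]
      refine mul_le_mul_of_nonneg_right (h1.trans ?_) (by positivity)
      rw [hQ]
      gcongr
  have s4 : ∑ h : ZMod D, ∑ h' : ZMod D, w_four D n h * w_four D n h' *
      ‖Kl D X Y (-(h * r + h' * s))‖ ≤
      B * ((D * n) * (D * n)) + X.card * Y.card * (D.divisors.card * (D * (D * Q * (n * n)))) := by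
    refine (sum_le_sum fun h _ => sum_le_sum fun h' _ => mul_le_mul_of_nonneg_left
      (kl_le_four X Y hB hK _) (mul_nonneg (w_nonneg_four n h) (w_nonneg_four n h'))).trans ?_
    simp only [mul_add, sum_add_distrib]
    refine add_le_add ?_ ?_
    · simp only [← sum_mul, ← mul_sum]
      rw [mul_comm]
      exact mul_le_mul_of_nonneg_left (mul_self_le_mul_self
        (sum_nonneg fun h _ => w_nonneg_four n h) (sum_w_four hA)) hB
    · simp only [mul_left_comm _ ((X.card : ℝ) * Y.card), ← mul_sum]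
      refine mul_le_mul_of_nonneg_left ?_ (by positivity)
      simp only [mul_sum]
      rw [sum_congr rfl fun h _ => sum_comm, sum_comm]
      refine (sum_le_card_nsmul _ _ _ s3).trans ?_
      rw [nsmul_eq_mul]
      refine mul_le_mul_of_nonneg_right ?_ (by positivity)
      exact_mod_cast card_filter_le _ _
  have s5 := (mul_le_mul_of_nonneg_left s1 (sq_nonneg (D : ℝ))).trans (s2.trans s4)
  refine le_of_mul_le_mul_left (a := (D : ℝ) ^ 2 * (n / 2 * (n / 2))) ?_ (by positivity)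
  calc _ = (D : ℝ) ^ 2 * (T.card * (n / 2 * (n / 2))) := by ring
    _ ≤ _ := s5
    _ = _ := by ring

end Pool.Agent.PSD
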