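import Pool.Agent.P.MP_06afd2_nt.D1.Defs

/-!
Irreducibility of `f^a - 1` and absence of short relations between points of the tree modulo large primes.

Sketch. Modulo `2`, `F j = X ^ 2 ^ j + (j mod 2)`, so `g j = (X - e) ^ 2 ^ j` with `e = 0` (`j` odd), `e = -1` (`j` even), and `(g j).eval e = -2`
(`eval_g`, `iter_zero`); `Polynomial.generalizedEisenstein` and Gauss' lemma give irreducibility over `ℚ`.
For `short`: finitely many `(a, b, j, w₁, w₂)`, so it suffices to treat one tuple for all large `p`. If `w₁ = 0` then `r = 0`; if `w₂ = 0` then `s = j`; both are excluded as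
`f^[a] 0 ≠ 1`, `f^[b] (±1) = f^[b - 1] 0 ≠ 1` for `p > 2`. If `j = 0` and `w₁ = ± w₂` then `s = ± r`. Otherwise `G = g a` and
`H = (scaleRoots (g b) w₁).comp (C (j w₁) + C w₂ * X)` are coprime over `ℚ`: `H` is a unit times `(g b)(j + t X)`, `t = w₂ / w₁`, irreducible; if associated to `G` then `a = b` and
`(g a)(j + t x) = t ^ 2 ^ a * (g a)(x)`; evenness gives the period `2 j`, so `j = 0`, and `x = 0` gives `t ^ 2 ^ a = 1`. Clearing denominators, `U G + V H = C R` with `R ≠ 0` in `ℤ[X]`;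
both `G` and `H` vanish at `r` modulo `p`, so `p ∣ R`.
-/

namespace Pool.Agent.PSD

open Finset Polynomial

theorem F_two_Short (j : ℕ) :
    (F j).map (algebraMap ℤ (ZMod 2)) = X ^ 2 ^ j + C (j : ZMod 2) := by
  induction j with
  | zero => simp [F]
  | succ j ih =>
    have e : ∀ x : ZMod 2, x ^ 2 - 1 = x + 1 := by decide
    rw [F, Polynomial.map_sub, Polynomial.map_pow, ih, add_pow_char, ← pow_mul, ← pow_succ,
      Polynomial.map_one, ← C_pow, add_sub_assoc, ← C_1, ← C_sub, e, Nat.cast_succ]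

theorem g_irreducible {a : ℕ} (ha : 1 ≤ a) : Irreducible ((g a).map (Int.castRingHom ℚ)) := by
  rw [← IsPrimitive.Int.irreducible_iff_irreducible_map_cast (g_monic a).isPrimitive]
  obtain ⟨e, h1, h2⟩ : ∃ e : ℤ, (g a).eval e = -2 ∧ (a : ZMod 2) - 1 = -(e : ZMod 2) ^ 2 ^ a := by
    by_cases h : Even a
    · refine ⟨f 0, ?_, ?_⟩
      · rw [eval_g, ← Function.iterate_succ_apply, iter_zero, if_neg (by simpa [Nat.even_add_one])]
        rfl
      · rw [(ZMod.natCast_eq_zero_iff_even).2 h, show ((f 0 : ℤ) : ZMod 2) = 1 by decide, one_pow,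
          zero_sub]
    · refine ⟨0, by rw [eval_g, iter_zero, if_neg h]; rfl, ?_⟩
      rw [(ZMod.natCast_eq_one_iff_odd).2 (Nat.not_even_iff_odd.1 h)]
      simp
  refine generalizedEisenstein (K := ZMod 2) (q := X - C e) (p := 2 ^ a) ?_ (monic_X_sub_C e)
    (g_monic a).isPrimitive (by rw [g_natDegree]; positivity) (by simp [g_monic a]) ?_ ?_
  · rw [Polynomial.map_sub, map_X, map_C]
    exact irreducible_X_sub_C _
  · rw [(g_monic a).leadingCoeff, map_one, C_1, one_mul, g, Polynomial.map_sub, F_two_Short,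
      Polynomial.map_sub, map_X, map_C, sub_pow_char_pow, Polynomial.map_one, add_sub_assoc, ← C_1,
      ← C_sub, h2, C_neg, C_pow, sub_eq_add_neg, eq_intCast]
  · rw [modByMonic_X_sub_C_eq_C_eval, h1, map_C, Ne, C_eq_zero, Ideal.Quotient.eq_zero_iff_mem,
      show algebraMap ℤ (ZMod 2) = Int.castRingHom _ from rfl, ZMod.ker_intCastRingHom,
      Ideal.span_singleton_pow, Ideal.mem_span_singleton]
    decide

theorem ne_Short {w : ℤ} (h : w ≠ 0) : ∀ᶠ p : ℕ in Filter.atTop, (w : ZMod p) ≠ 0 := by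
  filter_upwards [Filter.eventually_gt_atTop w.natAbs] with p hp h0
  have := Int.le_of_dvd (abs_pos.2 h) ((dvd_abs _ _).2 ((ZMod.intCast_zmod_eq_zero_iff_dvd _ _).1 h0))
  rw [Int.abs_eq_natAbs] at this
  omega

/-- the polynomial whose roots are the `x` with `(c + v x) / u` of level `b` -/
noncomputable def H_Short (b : ℕ) (u v c : ℤ) : ℤ[X] := ((g b).scaleRoots u).comp (C v * X + C c)

theorem ev_Short {R : Type*} [CommRing R] (b : ℕ) {u v c : ℤ} {x y : R} (h : u * y = v * x + c) :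
    aeval x (H_Short b u v c) = (u : R) ^ 2 ^ b * (f^[b] y - 1) := by
  have := scaleRoots_eval₂_mul (p := g b) (algebraMap ℤ R) y u
  rw [g_natDegree, ← aeval_def, ← aeval_def, aeval_g, eq_intCast, h] at this
  rw [H_Short, aeval_comp, ← this]
  simp

theorem zero_Short {R : Type*} [CommRing R] [Nontrivial R] (h : (2 : R) ≠ 0) (n : ℕ) :
    f^[n] (0 : R) ≠ 1 := by
  rw [iter_zero]
  split_ifs
  · exact zero_ne_one
  · exact fun e => h (by linear_combination -e)

theorem cop_Short {a b : ℕ} (hb : 1 ≤ b) (hab : b ≤ a) {u v c : ℤ} (hu : u ≠ 0) (hv : v ≠ 0)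
    (h : ¬(c = 0 ∧ u ^ 2 = v ^ 2)) :
    IsCoprime ((g a).map (algebraMap ℤ ℚ)) ((H_Short b u v c).map (algebraMap ℤ ℚ)) := by
  refine (g_irreducible (hb.trans hab)).coprime_iff_not_dvd.2 ?_
  rintro ⟨Q, hQ⟩
  have hu' : (u : ℚ) ≠ 0 := Int.cast_ne_zero.2 hu
  have hv' : (v : ℚ) ≠ 0 := Int.cast_ne_zero.2 hv
  have hG : ((g a).map (Int.castRingHom ℚ)).Monic := (g_monic a).map _
  have hd : ((g a).map (Int.castRingHom ℚ)).natDegree = 2 ^ a := by
    rw [(g_monic a).natDegree_map, g_natDegree]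
  have eG : ∀ x : ℚ, ((g a).map (Int.castRingHom ℚ)).eval x = f^[a] x - 1 := fun x =>
    (eval_map_algebraMap _ x).trans (aeval_g a x)
  have h1 : ∀ x : ℚ, (u : ℚ) ^ 2 ^ b * (f^[b] ((v * x + c) / u) - 1) = (f^[a] x - 1) * Q.eval x :=
    fun x => by
      rw [← ev_Short b (mul_div_cancel₀ _ hu'), ← eval_map_algebraMap, hQ, eval_mul, eG]
  have h0 : ∀ n, f^[n] (0 : ℚ) - 1 ≠ 0 := fun n => sub_ne_zero.2 (zero_Short two_ne_zero n)
  have hQ0 : Q ≠ 0 := fun e => by
    have := h1 (-c / v)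
    rw [e, eval_zero, mul_zero, mul_div_cancel₀ _ hv', neg_add_cancel, zero_div] at this
    exact mul_ne_zero (pow_ne_zero _ hu') (h0 b) this
  have h2 : 2 ^ a + Q.natDegree ≤ 2 ^ b := by
    rw [← hd, ← hG.natDegree_mul' hQ0, ← hQ]
    refine natDegree_map_le.trans (natDegree_comp_le.trans ?_)
    rw [natDegree_scaleRoots, g_natDegree]
    exact mul_le_of_le_one_right' natDegree_linear_le
  have h3 := Nat.pow_le_pow_right two_pos hab
  obtain rfl : b = a := hab.antisymm ((Nat.pow_le_pow_iff_right one_lt_two).1 (by omega))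
  rw [eq_C_of_natDegree_eq_zero (show Q.natDegree = 0 by omega)] at h1
  simp only [eval_C] at h1
  have hp := pow_ne_zero (2 ^ b) hu'
  have hc : c = 0 := by
    by_contra hc
    have hper : Function.Periodic (fun x : ℚ => f^[b] x) (2 * c / u) := fun z => by
      have h4 := h1 ((u * z + c) / v)
      rw [← iter_neg hb ((u * z + c) / v), ← h1, mul_right_inj' hp, sub_left_inj,
        show (v * ((u * z + c) / v) + c : ℚ) / u = z + 2 * c / u by field_simp; ring,
        show (v * -((u * z + c) / v) + c : ℚ) / u = -z by field_simp; ring, iter_neg hb] at h4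
      exact h4
    have h5 : (g b).map (Int.castRingHom ℚ) - C (f^[b] 0 - 1) = 0 :=
      eq_zero_of_infinite_isRoot _ (Set.infinite_of_injective_forall_mem
        (f := fun n : ℕ => (n : ℚ) * (2 * c / u)) (fun n m e => by
          exact_mod_cast mul_right_cancel₀ (div_ne_zero (by simpa using hc) hu') e) fun n => by
        rw [Set.mem_ofPred_eq, IsRoot, eval_sub, eG, eval_C, hper.nat_mul_eq n, sub_self])
    rw [sub_eq_zero.1 h5, natDegree_C] at hd
    exact (pow_ne_zero b two_ne_zero) hd.symm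
  subst hc
  refine h ⟨rfl, ?_⟩
  simp only [Int.cast_zero, add_zero] at h1
  have h6 := h1 0
  rw [mul_zero, zero_div, mul_comm, mul_right_inj' (h0 b)] at h6
  have h7 : ((g b).map (Int.castRingHom ℚ)).comp (C (v / u : ℚ) * X) =
      (g b).map (Int.castRingHom ℚ) := Polynomial.funext fun x => by
    rw [eval_comp, eG, eG, ← mul_right_inj' hp, mul_comm _ (f^[b] x - 1), h6, ← h1, ← h6]
    simp only [eval_mul, eval_C, eval_X, div_mul_eq_mul_div]
  have h8 := congrArg (coeff · (2 ^ b)) h7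
  simp only [comp_C_mul_X_coeff] at h8
  rw [← hd, hG.coeff_natDegree, one_mul, hd,
    pow_eq_one_iff_of_ne_zero (pow_ne_zero b two_ne_zero), div_eq_iff hu', div_eq_iff hu'] at h8
  have : (u : ℚ) ^ 2 = v ^ 2 := by rcases h8 with h8 | ⟨h8, -⟩ <;> rw [h8] <;> ring
  exact_mod_cast this

theorem bez_Short {G H : ℤ[X]} (h : IsCoprime (G.map (algebraMap ℤ ℚ)) (H.map (algebraMap ℤ ℚ))) :
    ∀ᶠ p : ℕ in Filter.atTop, ∀ r : ZMod p, aeval r G = 0 → aeval r H ≠ 0 := by
  obtain ⟨U, W, e⟩ := h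
  obtain ⟨m, hm, e1⟩ := IsLocalization.integerNormalization_spec (nonZeroDivisors ℤ) U
  obtain ⟨n, hn, e2⟩ := IsLocalization.integerNormalization_spec (nonZeroDivisors ℤ) W
  have e3 : n • IsLocalization.integerNormalization (nonZeroDivisors ℤ) U * G +
      m • IsLocalization.integerNormalization (nonZeroDivisors ℤ) W * H = C (m * n) :=
    map_injective (algebraMap ℤ ℚ) (algebraMap ℤ ℚ).injective_int <| by
      simp only [zsmul_eq_mul, Polynomial.map_add, Polynomial.map_mul, e1, e2,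
        Polynomial.map_intCast, eq_intCast, Int.cast_mul]
      linear_combination (m * n : ℚ[X]) * e
  filter_upwards [ne_Short (mul_ne_zero (nonZeroDivisors.ne_zero hm) (nonZeroDivisors.ne_zero hn))]
    with p hp r h1 h2
  have := congrArg (aeval r) e3
  rw [map_add, map_mul, map_mul, h1, h2, mul_zero, mul_zero, add_zero, aeval_C] at this
  exact hp this.symm

theorem main_Short {a b : ℕ} (hb : 1 ≤ b) (hab : b ≤ a) {u v c : ℤ} (hu : u ≠ 0) (hv : v ≠ 0)
    (h : ¬(c = 0 ∧ u ^ 2 = v ^ 2)) : ∀ᶠ p : ℕ in Filter.atTop, ∀ r s : ZMod p, f^[a] r = 1 →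
      f^[b] s = 1 → u * s ≠ v * r + c := by
  filter_upwards [bez_Short (cop_Short hb hab hu hv h)] with p hp r s h1 h2 h3
  exact hp r (by rw [aeval_g, h1, sub_self]) (by rw [ev_Short b h3, h2, sub_self, mul_zero])

theorem tup_Short {a b : ℕ} (ha : 1 ≤ a) (hb : 1 ≤ b) {j u v : ℤ} (hj : |j| ≤ 1)
    (hw : (u, v) ≠ 0) : ∀ᶠ p : ℕ in Filter.atTop, p.Prime → ∀ r s : ZMod p, f^[a] r = 1 →
      f^[b] s = 1 → s ^ 2 ≠ r ^ 2 → (s - j) * u ≠ r * v := by
  by_cases hu : u = 0
  · subst hu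
    filter_upwards [ne_Short (w := v) fun e => hw (by rw [e]; rfl), ne_Short two_ne_zero]
      with p h1 h2 hp r s hr _ _ e
    have := Fact.mk hp
    rw [Int.cast_zero, mul_zero, eq_comm, mul_eq_zero, or_iff_left h1] at e
    exact zero_Short (by exact_mod_cast h2) a (e ▸ hr)
  by_cases hv : v = 0
  · subst hv
    filter_upwards [ne_Short hu, ne_Short two_ne_zero] with p h1 h2 hp r s _ hs _ e
    have := Fact.mk hp
    rw [Int.cast_zero, mul_zero, mul_eq_zero, or_iff_left h1, sub_eq_zero] at e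
    have h3 := zero_Short (R := ZMod p) (by exact_mod_cast h2)
    obtain ⟨k, rfl⟩ := Nat.exists_eq_add_of_le' hb
    obtain rfl | h4 : j = 0 ∨ j ^ 2 = 1 := by
      obtain ⟨h5, h6⟩ := abs_le.1 hj
      interval_cases j <;> simp
    · exact h3 _ (by rwa [e, Int.cast_zero] at hs)
    · rw [Function.iterate_succ_apply, e, f, ← Int.cast_pow, h4, Int.cast_one, sub_self] at hs
      exact h3 _ hs
  by_cases h : j * u = 0 ∧ u ^ 2 = v ^ 2
  · filter_upwards [ne_Short hu] with p h1 hp r s _ _ h2 e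
    have := Fact.mk hp
    rw [(mul_eq_zero.1 h.1).resolve_right hu, Int.cast_zero, sub_zero] at e
    have h3 : (u : ZMod p) ^ 2 = v ^ 2 := by exact_mod_cast congrArg (Int.cast : ℤ → ZMod p) h.2
    exact h2 (mul_right_cancel₀ (pow_ne_zero 2 h1) (by
      linear_combination (s * u + r * v) * e - r ^ 2 * h3))
  rcases le_total b a with hab | hab
  · filter_upwards [main_Short hb hab hu hv h] with p h1 _ r s hr hs _ e
    exact h1 r s hr hs (by push_cast; linear_combination e)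
  · filter_upwards [main_Short ha hab hv hu (c := -(j * u)) fun e => h ⟨neg_eq_zero.1 e.1, e.2.symm⟩]
      with p h1 _ r s hr hs _ e
    exact h1 s r hs hr (by push_cast; linear_combination -e)

theorem short (K L : ℕ) : ∃ M₀ : ℕ, ∀ p : ℕ, p.Prime → M₀ < p → ∀ r s : ZMod p,
    InTree K p r → InTree K p s → s ^ 2 ≠ r ^ 2 → ∀ j : ℤ, |j| ≤ 1 → ∀ w : ℤ × ℤ, w ≠ 0 →
      (s - j) * w.1 = r * w.2 → (L : ℤ) ≤ |w.1| ∨ (L : ℤ) ≤ |w.2| := by
  have h : ∀ᶠ p : ℕ in Filter.atTop, ∀ a ∈ Icc 1 K, ∀ b ∈ Icc 1 K, ∀ j ∈ Icc (-1 : ℤ) 1,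
      ∀ w ∈ (Icc (-L : ℤ) L ×ˢ Icc (-L : ℤ) L).erase 0, p.Prime → ∀ r s : ZMod p, f^[a] r = 1 →
        f^[b] s = 1 → s ^ 2 ≠ r ^ 2 → (s - j) * w.1 ≠ r * w.2 := by
    simp only [Filter.eventually_all_finset]
    exact fun a ha b hb j hj w hw => tup_Short (mem_Icc.1 ha).1 (mem_Icc.1 hb).1
      (abs_le.2 (mem_Icc.1 hj)) (mem_erase.1 hw).1
  obtain ⟨M₀, h⟩ := Filter.eventually_atTop.1 h
  refine ⟨M₀, fun p hp hM r s ⟨a, ha, ha', hr⟩ ⟨b, hb, hb', hs⟩ h1 j hj w hw e => ?_⟩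
  by_contra! h2
  exact h p hM.le a (mem_Icc.2 ⟨ha, ha'⟩) b (mem_Icc.2 ⟨hb, hb'⟩) j (mem_Icc.2 (abs_le.1 hj)) w
    (mem_erase.2 ⟨hw, mem_product.2 ⟨mem_Icc.2 (abs_le.1 h2.1.le), mem_Icc.2 (abs_le.1 h2.2.le)⟩⟩)
    hp r s hr hs h1 e

end Pool.Agent.PSD
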