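import Pool.Agent.P.MP_06afd2_nt.D1.Par
import Pool.Agent.P.MP_06afd2_nt.D1.Four
import Pool.Agent.P.MP_06afd2_nt.D1.Short

/-!
The number of pairs of primes for a fixed modulus and fixed residues.

Sketch. Apply `four_count` with `B = P Q / E ^ 3` (`par_kl`), `G = E ^ 3`, `s - j` in place of `s`. `r` is coprime to `D` since `InTree K p r` forces `r ≠ 0` for odd `p` (`iter_zero`). A divisor `g > G ≥ 1` of `D` has a prime factor
`p ∈ S`, `p ^ 2 > E`, so `p > M₀` and `short` applies. `card S ≤ 6 Δ` because `E ^ card S ≤ D ^ 2 ≤ X ^ 6`, so `D.divisors.card ≤ 2 ^ (6 Δ)`. Use `1 ≤ A E ^ 2 / D`, `A / D ≤ 1 / E`, `P Q A ≤ 2 X`,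
`card (Xs a) ≤ 2 P * sg a`, `card (Xs b) ≤ 2 Q * sg b`.
-/

namespace Pool.Agent.PSD

open Finset Filter Topology

theorem card_Sz {T : ℕ} (hT : 1 ≤ T) : ∀ᶠ X : ℕ in atTop, ∀ (a b : ℕ) (S : Finset ℕ),
    Sz X T a b S → S.card ≤ 6 * De T := by
  filter_upwards [(EE_tendsto hT).eventually_gt_atTop 1, eventually_ge_atTop 2] with X hE hX
  intro a b S hS
  have hX' : (2 : ℝ) ≤ X := by exact_mod_cast hX
  have hD : 2 ≤ De T := by
    have : 1 ≤ T ^ 3 := Nat.one_le_pow _ _ hT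
    unfold De
    omega
  have h1 : EE X T ^ 2 ≤ X := (pow_le_pow_right₀ hE.le hD).trans_eq (EE_pow hT)
  have h2 : (AA X a b : ℝ) ≤ X + 1 := by exact_mod_cast Nat.div_le_self _ _
  have h3 : ((∏ p ∈ S, p : ℕ) : ℝ) ≤ (X : ℝ) ^ 3 := by
    refine hS.2.2.trans ((mul_le_mul h2 h1 (by positivity) (by positivity)).trans ?_)
    have : (X : ℝ) + 1 ≤ X * X := by nlinarith
    nlinarith
  have h4 : EE X T ^ S.card ≤ ((∏ p ∈ S, p : ℕ) : ℝ) ^ 2 := by
    rw [Nat.cast_prod, ← prod_pow, ← prod_const]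
    exact prod_le_prod (fun _ _ => EE_nonneg X T) fun p hp => ((mem_Win hT).1 (hS.1 hp)).2.1.le
  refine (pow_le_pow_iff_right₀ hE).1 (h4.trans ?_)
  rw [mul_comm, pow_mul, EE_pow hT]
  exact (pow_le_pow_left₀ (by positivity) h3 2).trans_eq (by ring)

theorem div_Cnt1 (S : Finset ℕ) (hS : ∀ p ∈ S, p.Prime) :
    (∏ p ∈ S, p).divisors.card ≤ 2 ^ S.card := by
  induction S using Finset.induction_on with
  | empty => simp
  | insert p S hp ih =>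
    rw [prod_insert hp, card_insert_of_notMem hp, Nat.divisors_mul, pow_succ']
    refine card_mul_le.trans (Nat.mul_le_mul ?_ (ih fun q hq => hS q (mem_insert_of_mem hq)))
    rw [(hS p (mem_insert_self _ _)).divisors]
    exact card_le_two

theorem card_Xs_Cnt1 (X T a : ℕ) : ((Xs X T a).card : ℝ) ≤ 2 * 2 ^ a * sg X T a := by
  rw [sg, mul_sum, card_eq_sum_ones, Nat.cast_sum]
  refine sum_le_sum fun x hx => ?_
  obtain ⟨-, h1, h2, -⟩ := mem_filter.1 hx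
  have h3 : x < 2 ^ (a + 1) := h2 ▸ Nat.lt_pow_succ_log_self one_lt_two x
  have h4 : (x : ℝ) ≤ 2 ^ (a + 1) := by exact_mod_cast h3.le
  have h5 : (0 : ℝ) < x := by exact_mod_cast h1.pos
  rw [Nat.cast_one, mul_one_div, one_le_div h5, ← pow_succ']
  exact h4

theorem cop_Cnt1 {X T a : ℕ} (hT : 1 ≤ T) (hE : 1 < EE X T) {S : Finset ℕ}
    (hS : S ⊆ Win X (De T)) : ∀ x ∈ Xs X T a, x.Coprime (∏ p ∈ S, p) := by
  intro x hx
  obtain ⟨-, h1, -, h2⟩ := mem_filter.1 hx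
  refine Nat.Coprime.prod_right fun p hp => ?_
  obtain ⟨h3, -, h4⟩ := (mem_Win hT).1 (hS hp)
  refine (Nat.coprime_primes h1 h3).2 ?_
  rintro rfl
  have h5 : T < De T := by
    have : T ≤ T ^ 3 := Nat.le_self_pow (by norm_num) T
    unfold De
    omega
  have h6 : (X : ℝ) ≤ (x : ℝ) ^ T := by exact_mod_cast h2
  have h7 := pow_lt_pow_right₀ hE h5
  rw [EE_pow hT] at h7
  exact absurd (h6.trans (pow_le_pow_left₀ (by positivity) h4 T)) h7.not_ge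

theorem tree_Cnt1 {K p r : ℕ} (hp : p.Prime) (h2 : 2 < p) (h : InTree K p r) : r.Coprime p := by
  refine ((Nat.Prime.coprime_iff_not_dvd hp).2 fun hd => ?_).symm
  obtain ⟨a, -, -, ha⟩ := h
  have := Fact.mk hp
  have := Fact.mk h2
  rw [(ZMod.natCast_eq_zero_iff r p).2 hd, iter_zero] at ha
  split_ifs at ha
  · exact zero_ne_one ha
  · exact ZMod.neg_one_ne_one ha

theorem num_Cnt1 {X D E L A P Q u v nx ny d τ : ℝ} (hE : 0 < E) (hL : 0 < L) (hD : 0 < D)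
    (hA : 0 ≤ A) (hP : 0 ≤ P) (hQ : 0 ≤ Q) (hu : 0 ≤ u) (hv : 0 ≤ v) (hny : 0 ≤ ny) (hd : 0 ≤ d)
    (hτ : 1 ≤ τ) (h1 : A * E ≤ D) (h2 : D ≤ A * E ^ 2) (h3 : P * Q * A ≤ 2 * X)
    (hx : nx ≤ 2 * P * u) (hy : ny ≤ 2 * Q * v) (hdτ : d ≤ τ) :
    4 * (P * Q / E ^ 3) + 4 * (nx * ny) * d * (48 * A ^ 2 / D ^ 2 + 4 * A / (D * L) + 1 / E ^ 3) ≤
      1568 * τ * X / D * (1 / E + u * v * (1 / E + 1 / L)) := by
  have hX : 0 ≤ X := by
    have : 0 ≤ P * Q * A := by positivity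
    linarith
  have e1 : 1 / E ^ 3 ≤ A / D * (1 / E) := by
    rw [div_mul_div_comm, div_le_div_iff₀ (by positivity) (by positivity)]
    nlinarith
  have e2 : A / D ≤ 1 / E := by
    rw [div_le_div_iff₀ hD hE]
    linarith
  have e3 : 48 * A ^ 2 / D ^ 2 ≤ 48 * (A / D * (1 / E)) := by
    rw [mul_div_assoc, ← div_pow, sq]
    exact mul_le_mul_of_nonneg_left (mul_le_mul_of_nonneg_left e2 (by positivity)) (by norm_num)
  have e4 : 4 * A / (D * L) = 4 * (A / D * (1 / L)) := by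
    field_simp
  have e5 : 48 * A ^ 2 / D ^ 2 + 4 * A / (D * L) + 1 / E ^ 3 ≤ 49 * (A / D * (1 / E + 1 / L)) := by
    have : 0 ≤ A / D * (1 / L) := by positivity
    rw [mul_add (A / D)]
    linarith
  have e6 : P * Q * (A / D) ≤ 2 * X / D := by
    rw [← mul_div_assoc]
    exact div_le_div_of_nonneg_right h3 hD.le
  have e7 : 4 * (P * Q / E ^ 3) ≤ 1568 * τ * X / D * (1 / E) :=
    calc 4 * (P * Q / E ^ 3) = 4 * (P * Q * (1 / E ^ 3)) := by ring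
      _ ≤ 4 * (P * Q * (A / D * (1 / E))) := by gcongr
      _ = 4 * (P * Q * (A / D)) * (1 / E) := by ring
      _ ≤ 4 * (2 * X / D) * (1 / E) := by gcongr
      _ = 8 * 1 * X / D * (1 / E) := by ring
      _ ≤ 1568 * τ * X / D * (1 / E) := by gcongr; norm_num
  have e8 : 4 * (nx * ny) * d * (48 * A ^ 2 / D ^ 2 + 4 * A / (D * L) + 1 / E ^ 3) ≤
      1568 * τ * X / D * (u * v * (1 / E + 1 / L)) :=
    calc 4 * (nx * ny) * d * (48 * A ^ 2 / D ^ 2 + 4 * A / (D * L) + 1 / E ^ 3)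
        ≤ 4 * (2 * P * u * (2 * Q * v)) * τ * (49 * (A / D * (1 / E + 1 / L))) := by gcongr
      _ = 784 * τ * (P * Q * (A / D)) * (u * v * (1 / E + 1 / L)) := by ring
      _ ≤ 784 * τ * (2 * X / D) * (u * v * (1 / E + 1 / L)) := by gcongr
      _ = _ := by ring
  exact (add_le_add e7 e8).trans_eq (mul_add _ _ _).symm

open Classical in
theorem cnt1 {T : ℕ} (hT : 1 ≤ T) : ∃ C : ℝ, 0 ≤ C ∧ ∀ K L : ℕ, 1 ≤ L → ∀ᶠ X : ℕ in atTop,
    ∀ a b : ℕ, Adm X T a b → ∀ S : Finset ℕ, Sz X T a b S → ∀ r s : ℕ, Res K S r s →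
      ∀ j : ℤ, |j| ≤ 1 →
        (((Xs X T a ×ˢ Xs X T b).filter fun u => ∃ n m : ℤ, |n| ≤ AA X a b ∧ |m| ≤ AA X a b ∧
          (u.1 : ℤ) * u.2 * n ≡ r [ZMOD (∏ p ∈ S, p : ℕ)] ∧
          (u.1 : ℤ) * u.2 * m ≡ s - j [ZMOD (∏ p ∈ S, p : ℕ)]).card : ℝ) ≤
          C * X / (∏ p ∈ S, p : ℕ) *
            (1 / EE X T + sg X T a * sg X T b * (1 / EE X T + 1 / L)) := by
  refine ⟨1568 * 2 ^ (6 * De T), by positivity, fun K L hL => ?_⟩
  obtain ⟨M₀, hM⟩ := short K L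
  filter_upwards [par_kl hT, card_Sz hT, (EE_tendsto hT).eventually_ge_atTop 4,
    (EE_tendsto hT).eventually_ge_atTop ((M₀ : ℝ) ^ 2), eventually_ge_atTop 1]
    with X hK hc hE hEM hX
  intro a b hab S hS r s hrs j hj
  have hpr : ∀ p ∈ S, p.Prime := fun p hp => ((mem_Win hT).1 (hS.1 hp)).1
  have hgt : ∀ p ∈ S, ∀ m : ℕ, (m : ℝ) ^ 2 ≤ EE X T → m < p := fun p hp m hm => by
    have := lt_of_pow_lt_pow_left₀ 2 (Nat.cast_nonneg p)
      (hm.trans_lt ((mem_Win hT).1 (hS.1 hp)).2.1)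
    exact_mod_cast this
  have hD0 : (∏ p ∈ S, p) ≠ 0 := prod_ne_zero_iff.2 fun p hp => (hpr p hp).ne_zero
  have : NeZero (∏ p ∈ S, p) := ⟨hD0⟩
  have hE1 : 1 < EE X T := by linarith
  have hE0 : 0 < EE X T := by linarith
  have hPQ : 2 ^ a * 2 ^ b ≤ X + 1 := by
    obtain ⟨-, -, t, ht, -, h1, -⟩ := hab
    exact (Nat.mul_le_mul_left _ (Nat.le_self_pow (by omega) _)).trans (h1.trans (Nat.le_succ X))
  have hA1 : 1 ≤ AA X a b := (Nat.one_le_div_iff (by positivity)).2 hPQ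
  have hA2 : 2 ^ a * 2 ^ b * AA X a b ≤ 2 * X := (Nat.mul_div_le _ _).trans (by omega)
  have hA3 : 2 * AA X a b + 1 ≤ ∏ p ∈ S, p := by
    have h1 : (1 : ℝ) ≤ AA X a b := by exact_mod_cast hA1
    have h2 := hS.2.1
    have h3 : 2 * (AA X a b : ℝ) + 1 ≤ ((∏ p ∈ S, p : ℕ) : ℝ) := by nlinarith
    exact_mod_cast h3
  have hr : IsCoprime (r : ℤ) ((∏ p ∈ S, p : ℕ) : ℤ) :=
    Nat.isCoprime_iff_coprime.2 (Nat.Coprime.prod_right fun p hp =>
      tree_Cnt1 (hpr p hp) (hgt p hp 2 (by norm_num; exact hE)) (hrs p hp).1)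
  refine (four_count (s := s - j) (L := L) (cop_Cnt1 hT hE1 hS.1) (cop_Cnt1 hT hE1 hS.1) hr hA3 hL
    (by positivity) (by positivity) (hK a b hab S hS _ rfl) ?_).trans ?_
  · intro g hg hG w hw hdv
    have hg1 : g ≠ 1 := by
      rintro rfl
      exact absurd (one_le_pow₀ hE1.le) (by simpa using hG)
    obtain ⟨p, hp, hpg⟩ := Nat.exists_prime_and_dvd hg1
    obtain ⟨q, hq, hpq⟩ := (hp.prime.dvd_finsetProd_iff _).1 (hpg.trans hg)
    obtain rfl := (Nat.prime_dvd_prime_iff_eq hp (hpr q hq)).1 hpq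
    refine hM p hp (hgt p hq M₀ hEM) r s (hrs p hq).1 (hrs p hq).2.1 (hrs p hq).2.2 j hj w hw ?_
    have h1 := (ZMod.intCast_zmod_eq_zero_iff_dvd _ p).2 ((Int.natCast_dvd_natCast.2 hpg).trans hdv)
    push_cast at h1
    exact sub_eq_zero.1 h1
  · refine num_Cnt1 hE0 (by exact_mod_cast hL) (by exact_mod_cast Nat.pos_of_ne_zero hD0)
      (Nat.cast_nonneg _) (by positivity) (by positivity) (sum_nonneg fun _ _ => by positivity)
      (sum_nonneg fun _ _ => by positivity) (Nat.cast_nonneg _) (Nat.cast_nonneg _)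
      (one_le_pow₀ one_le_two) hS.2.1 hS.2.2 (by exact_mod_cast hA2) (card_Xs_Cnt1 X T a)
      (card_Xs_Cnt1 X T b) ?_
    exact_mod_cast (div_Cnt1 S hpr).trans (Nat.pow_le_pow_right two_pos (hc a b S hS))

end Pool.Agent.PSD
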