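import Pool.Agent.P.MP_06afd2_nt.D1.Defs
import Pool.Agent.Lib.Mertens.First

/-!
Elementary calculus of logarithmic mean values over the primes.
-/

namespace Pool.Agent.PSD

open Finset Filter Topology

theorem tendsto_const_div_log_Mean (C : ℝ) :
    Tendsto (fun x : ℝ => C / Real.log x) atTop (𝓝 0) :=
  Real.tendsto_log_atTop.const_div_atTop C

theorem hasMean_one : HasMean (fun _ => 1) 1 := by
  obtain ⟨C, -, hC⟩ := Pool.Agent.Lib.Mertens.exists_abs_sum_log_div_prime_sub_log_le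
  have h1 : Tendsto (fun x : ℝ => (M (fun _ => 1) x - Real.log x) / Real.log x) atTop (𝓝 0) := by
    refine squeeze_zero_norm' ?_ (tendsto_const_div_log_Mean C)
    filter_upwards [eventually_gt_atTop 1] with x hx
    have hl := Real.log_pos hx
    rw [Real.norm_eq_abs, abs_div, abs_of_pos hl]
    refine div_le_div_of_nonneg_right ?_ hl.le
    simpa [M, Pr] using hC x hx.le
  have h2 := h1.add_const 1
  rw [zero_add] at h2
  refine h2.congr' ?_
  filter_upwards [eventually_gt_atTop 1] with x hx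
  have hl := Real.log_pos hx
  field_simp
  ring

theorem HasMean.add {w w' : ℕ → ℝ} {c c' : ℝ} (h : HasMean w c) (h' : HasMean w' c') :
    HasMean (fun p => w p + w' p) (c + c') := by
  refine (Tendsto.add h h').congr fun x => ?_
  simp only [M, add_mul, sum_add_distrib, add_div]

theorem HasMean.const_mul {w : ℕ → ℝ} {c : ℝ} (h : HasMean w c) (a : ℝ) :
    HasMean (fun p => a * w p) (a * c) := by
  refine (Tendsto.const_mul a h).congr fun x => ?_
  simp only [M, mul_assoc, ← mul_sum, mul_div_assoc]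

theorem HasMean.sum {ι : Type*} (s : Finset ι) {w : ι → ℕ → ℝ} {c : ι → ℝ}
    (h : ∀ i ∈ s, HasMean (w i) (c i)) : HasMean (fun p => ∑ i ∈ s, w i p) (∑ i ∈ s, c i) := by
  refine (tendsto_finsetSum s h).congr fun x => ?_
  simp only [M, sum_mul, sum_div]
  rw [sum_comm]

theorem HasMean.congr {w w' : ℕ → ℝ} {c : ℝ} (h : HasMean w c)
    (he : ∀ᶠ p : ℕ in atTop, p.Prime → w p = w' p) : HasMean w' c := by
  obtain ⟨n, hn⟩ := eventually_atTop.mp he
  have h1 := Tendsto.add h (tendsto_const_div_log_Mean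
    (∑ p ∈ Pr n, (w' p - w p) * (Real.log p / p)))
  rw [add_zero] at h1
  refine h1.congr' ?_
  filter_upwards [eventually_ge_atTop (n : ℝ)] with x hx
  have hn0 : (0 : ℝ) ≤ n := Nat.cast_nonneg n
  have h2 : ∑ p ∈ Pr n, (w' p - w p) * (Real.log p / p) =
      ∑ p ∈ Pr x, (w' p - w p) * (Real.log p / p) := by
    refine sum_subset (fun p hp => ?_) fun p hp hp' => ?_
    · rw [mem_Pr hn0] at hp
      exact (mem_Pr (hn0.trans hx)).mpr ⟨hp.1, hp.2.trans hx⟩
    · rw [mem_Pr (hn0.trans hx)] at hp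
      rw [mem_Pr hn0, not_and, not_le] at hp'
      have h3 : n ≤ p := by exact_mod_cast (hp' hp.1).le
      rw [hn p h3 hp.1, sub_self, zero_mul]
  rw [h2, ← add_div, M, M, ← sum_add_distrib]
  congr 1
  exact sum_congr rfl fun p _ => by ring

theorem HasMean.rpow {w : ℕ → ℝ} {c : ℝ} (h : HasMean w c) {a : ℝ} (ha : 0 < a) :
    Tendsto (fun X : ℝ => M w (X ^ a) / Real.log X) atTop (𝓝 (c * a)) := by
  refine ((Tendsto.comp h (tendsto_rpow_atTop ha)).mul_const a).congr' ?_
  filter_upwards [eventually_gt_atTop 1] with x hx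
  have hl := Real.log_pos hx
  simp only [Function.comp]
  rw [Real.log_rpow (by linarith)]
  field_simp

/-- the mean over a window `(X ^ a, X ^ b]` -/
theorem HasMean.window {w : ℕ → ℝ} {c : ℝ} (h : HasMean w c) {a b : ℝ} (ha : 0 < a)
    (hab : a ≤ b) :
    Tendsto (fun X : ℝ => (∑ p ∈ Pr (X ^ b) \ Pr (X ^ a), w p * (Real.log p / p)) / Real.log X)
      atTop (𝓝 (c * (b - a))) := by
  have h1 := (h.rpow (ha.trans_le hab)).sub (h.rpow ha)
  rw [← mul_sub] at h1
  refine h1.congr' ?_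
  filter_upwards [eventually_ge_atTop 1] with x hx
  have h2 : Pr (x ^ a) ⊆ Pr (x ^ b) := fun p hp => by
    rw [mem_Pr (by positivity)] at hp ⊢
    exact ⟨hp.1, hp.2.trans (Real.rpow_le_rpow_of_exponent_le hx hab)⟩
  rw [← sub_div, M, M, sum_sdiff_eq_sub h2]

theorem sum_inv_le {S : Finset ℕ} {x y : ℝ} (hy : 1 < y) (hx : 1 ≤ x)
    (hS : ∀ p ∈ S, p.Prime ∧ y ≤ p ∧ (p : ℝ) ≤ x) :
    ∑ p ∈ S, (1 : ℝ) / p ≤ (Real.log x + 6) / Real.log y := by
  have hl := Real.log_pos hy
  have h1 := Pool.Agent.Lib.Mertens.sum_log_div_prime_le hx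
  have h4 : Real.log 4 ≤ 2 := by
    rw [show (4 : ℝ) = 2 ^ 2 by norm_num, Real.log_pow]
    have := Real.log_two_lt_d9
    push_cast
    linarith
  have h2 : ∑ p ∈ S, Real.log p / p ≤ ∑ p ∈ Pr x, Real.log p / p := by
    refine sum_le_sum_of_subset_of_nonneg (fun p hp => ?_) fun p _ _ => ?_
    · exact (mem_Pr (by linarith)).mpr ⟨(hS p hp).1, (hS p hp).2.2⟩
    · exact div_nonneg (Real.log_natCast_nonneg p) (Nat.cast_nonneg p)
  rw [le_div_iff₀ hl, sum_mul]
  refine le_trans (sum_le_sum fun p hp => ?_) (h2.trans (h1.trans (by linarith)))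
  rw [one_div_mul_eq_div]
  exact div_le_div_of_nonneg_right (Real.log_le_log (by linarith) (hS p hp).2.1)
    (Nat.cast_nonneg p)

end Pool.Agent.PSD
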