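import Pool.Agent.P.MP_06afd2_nt.D1.Defs

/-!
The Turan-Kubilius inequality for residue conditions modulo primes.

Sketch. `card_crt`: induction on `S` (or `ZMod.chineseRemainder`, `Nat.chineseRemainder`). A predicate with period `q` having `c` solutions in `range q` has between
`c * X / q - c` and `c * X / q + c` solutions in `range X` (`Nat.filter_Ico_card_eq_of_periodic`). Expand the square: pairs `p ≠ q` give at most
`ro p * ro q * (X / (p q) + 1)`, the diagonal at most `ro p * (X / p + 1)` and `ro p ≤ ro p ^ 2`. For `tk_dev` use `∑ W ≥ X μ - B` and Chebyshev's inequality.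
-/

namespace Pool.Agent.PSD

open Finset

variable (Ω : (p : ℕ) → ZMod p → Prop) [∀ p, DecidablePred (Ω p)]

/-- number of residues modulo `p` satisfying the condition -/
def ro (p : ℕ) : ℕ := ((range p).filter fun x : ℕ => Ω p x).card

/-- the additive function -/
noncomputable def WW (S : Finset ℕ) (w : ℕ → ℝ) (n : ℕ) : ℝ :=
  ∑ p ∈ S.filter fun p => Ω p n, w p

/-- its mean -/
noncomputable def mu (S : Finset ℕ) (w : ℕ → ℝ) : ℝ := ∑ p ∈ S, w p * ro Ω p / p

/-- its variance -/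
noncomputable def va (S : Finset ℕ) (w : ℕ → ℝ) : ℝ := ∑ p ∈ S, w p ^ 2 * ro Ω p / p

/-- the error term -/
noncomputable def er (S : Finset ℕ) (w : ℕ → ℝ) : ℝ := ∑ p ∈ S, w p * ro Ω p

theorem card_two_TK {a b : ℕ} (hab : a.Coprime b) (ha : a ≠ 0) (hb : b ≠ 0) (P Q : ℕ → Prop)
    [DecidablePred P] [DecidablePred Q] (hP : ∀ x y, x ≡ y [MOD a] → P x → P y)
    (hQ : ∀ x y, x ≡ y [MOD b] → Q x → Q y) :
    ((range (a * b)).filter fun x => P x ∧ Q x).card =
      ((range a).filter P).card * ((range b).filter Q).card := by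
  rw [← card_product]
  refine card_nbij' (fun x => (x % a, x % b))
    (fun y => (Nat.chineseRemainder hab y.1 y.2 : ℕ)) ?_ ?_ ?_ ?_
  · intro x hx
    have hx := (mem_filter.1 hx).2
    exact mem_product.2 ⟨mem_filter.2 ⟨mem_range.2 (Nat.mod_lt _ (Nat.pos_of_ne_zero ha)),
      hP _ _ (Nat.mod_modEq x a).symm hx.1⟩, mem_filter.2
      ⟨mem_range.2 (Nat.mod_lt _ (Nat.pos_of_ne_zero hb)), hQ _ _ (Nat.mod_modEq x b).symm hx.2⟩⟩
  · intro y hy
    obtain ⟨h1, h2⟩ := mem_product.1 hy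
    exact mem_filter.2 ⟨mem_range.2 (Nat.chineseRemainder_lt_mul hab _ _ ha hb),
      hP _ _ (Nat.chineseRemainder hab y.1 y.2).2.1.symm (mem_filter.1 h1).2,
      hQ _ _ (Nat.chineseRemainder hab y.1 y.2).2.2.symm (mem_filter.1 h2).2⟩
  · intro x hx
    have hx := mem_range.1 (mem_filter.1 hx).1
    have h := (Nat.chineseRemainder hab (x % a) (x % b)).2
    exact Nat.ModEq.eq_of_lt_of_lt ((Nat.modEq_and_modEq_iff_modEq_mul hab).1
      ⟨h.1.trans (Nat.mod_modEq x a), h.2.trans (Nat.mod_modEq x b)⟩)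
      (Nat.chineseRemainder_lt_mul hab _ _ ha hb) hx
  · intro y hy
    obtain ⟨h1, h2⟩ := mem_product.1 hy
    have h := (Nat.chineseRemainder hab y.1 y.2).2
    exact Prod.ext (Eq.trans h.1 (Nat.mod_eq_of_lt (mem_range.1 (mem_filter.1 h1).1)))
      (Eq.trans h.2 (Nat.mod_eq_of_lt (mem_range.1 (mem_filter.1 h2).1)))

theorem card_per_TK {q : ℕ} (hq : q ≠ 0) (P : ℕ → Prop) [DecidablePred P]
    (hP : ∀ x y, x ≡ y [MOD q] → P x → P y) (X : ℕ) :
    (((range q).filter P).card : ℝ) * X / q - ((range q).filter P).card ≤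
        ((range X).filter P).card ∧
      (((range X).filter P).card : ℝ) ≤
        ((range q).filter P).card * X / q + ((range q).filter P).card := by
  simp only [← Nat.count_eq_card_filter_range]
  have h0 : ∀ j r, Nat.count P (q * j + r) = Nat.count P (q * j) + Nat.count P r := by
    intro j r
    rw [Nat.count_add]
    congr 2
    funext k
    have h : q * j + k ≡ k [MOD q] := by simp [Nat.ModEq]
    exact propext ⟨hP _ _ h, hP _ _ h.symm⟩
  have h1 : ∀ j, Nat.count P (q * j) = Nat.count P q * j := by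
    intro j
    induction j with
    | zero => simp
    | succ j ih => rw [mul_add_one, h0, ih, mul_add_one]
  have h2 : Nat.count P X = Nat.count P q * (X / q) + Nat.count P (X % q) := by
    rw [← h1, ← h0, Nat.div_add_mod]
  have h3 : (Nat.count P (X % q) : ℝ) ≤ Nat.count P q := by
    exact_mod_cast Nat.count_monotone P (Nat.mod_lt _ (Nat.pos_of_ne_zero hq)).le
  have h4 : ((X / q : ℕ) : ℝ) ≤ X / q := Nat.cast_div_le
  have h5 : (X : ℝ) / q ≤ (X / q : ℕ) + 1 := by
    rw [div_le_iff₀ (by positivity), mul_comm]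
    exact_mod_cast (Nat.lt_mul_div_succ X (Nat.pos_of_ne_zero hq)).le
  have h6 : (0 : ℝ) ≤ Nat.count P q := by positivity
  have h7 : (0 : ℝ) ≤ Nat.count P (X % q) := by positivity
  have h8 := mul_le_mul_of_nonneg_left h4 h6
  have h9 := mul_le_mul_of_nonneg_left h5 h6
  rw [h2, mul_div_assoc]
  push_cast
  constructor <;> linarith only [h3, h7, h8, h9]

omit [∀ p, DecidablePred (Ω p)] in
theorem inv_TK {p q : ℕ} (h : p ∣ q) (x y : ℕ) (hxy : x ≡ y [MOD q]) (hx : Ω p x) : Ω p y :=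
  (ZMod.natCast_eq_natCast_iff x y p).2 (hxy.of_dvd h) ▸ hx

theorem WW_eq_TK (S : Finset ℕ) (w : ℕ → ℝ) (n : ℕ) :
    WW Ω S w n = ∑ p ∈ S, if Ω p n then w p else 0 := sum_filter _ _

theorem card_crt {S : Finset ℕ} (hS : ∀ p ∈ S, p.Prime) :
    ((range (∏ p ∈ S, p)).filter fun x : ℕ => ∀ p ∈ S, Ω p x).card = ∏ p ∈ S, ro Ω p := by
  classical
  induction S using Finset.induction_on with
  | empty => simp
  | insert q S hq ih =>
    have hq' := hS q (mem_insert_self _ _)
    have hS' : ∀ p ∈ S, p.Prime := fun p hp => hS p (mem_insert_of_mem hp)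
    rw [prod_insert hq, prod_insert hq, ← ih hS', ro, ← card_two_TK
      (Nat.Coprime.prod_right fun p hp => (Nat.coprime_primes hq' (hS' p hp)).2
        fun e => hq (e ▸ hp)) hq'.ne_zero (prod_ne_zero_iff.2 fun p hp => (hS' p hp).ne_zero) _ _
      (inv_TK Ω dvd_rfl) fun x y hxy hx p hp => inv_TK Ω (dvd_prod_of_mem _ hp) x y hxy (hx p hp)]
    simp only [forall_mem_insert]

theorem tk_sq (X : ℕ) {S : Finset ℕ} (hS : ∀ p ∈ S, p.Prime) {w : ℕ → ℝ}
    (hw : ∀ p ∈ S, 0 ≤ w p) :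
    ∑ n ∈ range X, WW Ω S w n ^ 2 ≤ X * (mu Ω S w ^ 2 + va Ω S w) + er Ω S w ^ 2 := by
  classical
  have e : ∀ n, WW Ω S w n ^ 2 = ∑ p ∈ S, ∑ q ∈ S, if Ω p n ∧ Ω q n then w p * w q else 0 := by
    intro n
    rw [sq, WW_eq_TK, sum_mul_sum]
    refine sum_congr rfl fun p _ => sum_congr rfl fun q _ => ?_
    by_cases h1 : Ω p n <;> by_cases h2 : Ω q n <;> simp [h1, h2]
  have h1 : ∀ p ∈ S, ∀ q ∈ S, (∑ n ∈ range X, if Ω p n ∧ Ω q n then w p * w q else 0) ≤
      X * (w p * ro Ω p / p * (w q * ro Ω q / q) + if p = q then w p ^ 2 * ro Ω p / p else 0) +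
        w p * ro Ω p * (w q * ro Ω q) := by
    intro p hp q hq
    have hp0 := hw p hp
    have hq0 := hw q hq
    have hp1 : (0 : ℝ) < p := by exact_mod_cast (hS p hp).pos
    have hq1 : (0 : ℝ) < q := by exact_mod_cast (hS q hq).pos
    rw [← sum_filter, sum_const, nsmul_eq_mul]
    split_ifs with hpq
    · subst hpq
      have h2 := (card_per_TK (hS p hp).ne_zero (fun n : ℕ => Ω p n) (inv_TK Ω dvd_rfl) X).2
      rw [← ro] at h2
      have h3 : (ro Ω p : ℝ) ≤ ro Ω p * ro Ω p := by exact_mod_cast Nat.le_mul_self _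
      have h4 := mul_le_mul_of_nonneg_right (h2.trans (add_le_add_right h3 _)) (mul_nonneg hp0 hp0)
      have h5 : 0 ≤ X * (w p * ro Ω p / p * (w p * ro Ω p / p)) := by positivity
      simp only [and_self]
      calc _ ≤ _ := h4
        _ = X * (w p ^ 2 * ro Ω p / p) + w p * ro Ω p * (w p * ro Ω p) := by ring
        _ ≤ _ := by linarith only [h5]
    · have h2 := (card_per_TK (mul_ne_zero (hS p hp).ne_zero (hS q hq).ne_zero)
        (fun n : ℕ => Ω p n ∧ Ω q n) (fun x y hxy hx =>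
          ⟨inv_TK Ω (dvd_mul_right p q) x y hxy hx.1, inv_TK Ω (dvd_mul_left q p) x y hxy hx.2⟩) X).2
      rw [card_two_TK ((Nat.coprime_primes (hS p hp) (hS q hq)).2 hpq) (hS p hp).ne_zero
        (hS q hq).ne_zero _ _ (inv_TK Ω dvd_rfl) (inv_TK Ω dvd_rfl), ← ro, ← ro] at h2
      refine (mul_le_mul_of_nonneg_right h2 (mul_nonneg hp0 hq0)).trans (le_of_eq ?_)
      push_cast
      field_simp
      ring
  simp only [e]
  rw [sum_comm]
  refine (sum_le_sum fun p hp => (sum_comm.trans_le (sum_le_sum (h1 p hp)))).trans (le_of_eq ?_)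
  simp only [sum_add_distrib, ← mul_sum, ← sum_mul, mu, va, er, sq]
  rw [sum_congr rfl fun p hp => (sum_ite_eq S p fun _ => w p * w p * ro Ω p / p).trans (if_pos hp)]

open Classical in
theorem tk_dev (X : ℕ) {S : Finset ℕ} (hS : ∀ p ∈ S, p.Prime) {w : ℕ → ℝ}
    (hw : ∀ p ∈ S, 0 ≤ w p) :
    (((range X).filter fun n => WW Ω S w n ≤ mu Ω S w / 2).card : ℝ) * mu Ω S w ^ 2 ≤
      4 * (X * va Ω S w + er Ω S w ^ 2 + 2 * mu Ω S w * er Ω S w) := by
  have h1 := tk_sq Ω X hS hw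
  have h0 : 0 ≤ mu Ω S w := sum_nonneg fun p hp => by have := hw p hp; positivity
  have h2 : X * mu Ω S w - er Ω S w ≤ ∑ n ∈ range X, WW Ω S w n := by
    simp only [WW_eq_TK]
    rw [sum_comm, mu, er, mul_sum, ← sum_sub_distrib]
    refine sum_le_sum fun p hp => ?_
    rw [← sum_filter, sum_const, nsmul_eq_mul]
    have h3 := (card_per_TK (hS p hp).ne_zero (fun n : ℕ => Ω p n) (inv_TK Ω dvd_rfl) X).1
    rw [← ro] at h3
    exact le_trans (le_of_eq (by ring)) (mul_le_mul_of_nonneg_right h3 (hw p hp))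
  have h3 : ∑ n ∈ range X, (WW Ω S w n - mu Ω S w) ^ 2 = ∑ n ∈ range X, WW Ω S w n ^ 2 -
      2 * mu Ω S w * ∑ n ∈ range X, WW Ω S w n + X * mu Ω S w ^ 2 := by
    simp only [sub_sq, sum_add_distrib, sum_sub_distrib, sum_const, card_range, nsmul_eq_mul,
      mul_sum]
    congr 2
    exact sum_congr rfl fun n _ => by ring
  have h4 : (((range X).filter fun n => WW Ω S w n ≤ mu Ω S w / 2).card : ℝ) * (mu Ω S w ^ 2 / 4) ≤
      ∑ n ∈ range X, (WW Ω S w n - mu Ω S w) ^ 2 := by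
    rw [← nsmul_eq_mul]
    refine (card_nsmul_le_sum _ (fun n => (WW Ω S w n - mu Ω S w) ^ 2) _ fun n hn => ?_).trans
      (sum_le_sum_of_subset_of_nonneg (filter_subset _ _) fun n _ _ => sq_nonneg _)
    have h5 := (mem_filter.1 hn).2
    nlinarith only [h5, h0, mul_self_nonneg (mu Ω S w / 2 - WW Ω S w n),
      mul_nonneg h0 (sub_nonneg.2 h5)]
  have h6 := mul_le_mul_of_nonneg_left h2 h0
  linarith only [h1, h3, h4, h6]

end Pool.Agent.PSD
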