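import Pool.Agent.P.MP_06afd2_nt.D1.Cnt1
import Pool.Agent.P.MP_06afd2_nt.D1.TK
import Pool.Agent.P.MP_06afd2_nt.D1.Mean

/-!
The number of integers with a configuration in a given pair of dyadic ranges.

Sketch. Cover the set by the sets indexed by `j ∈ {-1, 0, 1}`, `S ∈ (Win X Δ).powerset` with `Sz`, and `(r, s) ∈ range D × range D` with `Res K S r s` (`r = n % D`, `s = m % D`), of the `n ≤ X` with `n % D = r` for which there is a pair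
`(x, y)` in the set of `cnt1` with `x y ∣ n` (`n = x y n'`, `m - j = x y m'`, `|n'|, |m'| ≤ AA` since `x y ≥ 2 ^ a 2 ^ b`). The pair determines `n`, because `x y` is coprime to `D` and `x y D ≥ P Q A E > X`.
The number of `(r, s)` is at most `(2 ^ (K + 1)) ^ (2 * card S)` (`card_crt`, `N_le`, `card_Sz`), and `∑_S 1 / ∏ S ≤ ∏_{p ∈ Win} (1 + 1 / p) ≤ exp (∑ 1 / p) ≤ exp 3` (`Finset.prod_one_add`, `sum_inv_le`).
-/

namespace Pool.Agent.PSD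

open Finset Filter Topology

theorem pow_le_Cnt2 {X T a x : ℕ} (hx : x ∈ Xs X T a) : 2 ^ a ≤ x := by
  obtain ⟨-, hp, ha, -⟩ := mem_filter.1 hx
  rw [← ha]
  exact Nat.pow_log_le_self 2 hp.ne_zero

theorem coprime_Cnt2 {X T a x : ℕ} (hT : 1 ≤ T) (hx : x ∈ Xs X T a) {S : Finset ℕ}
    (hS : S ⊆ Win X (De T)) : x.Coprime (∏ p ∈ S, p) := by
  obtain ⟨-, hp, -, hxT⟩ := mem_filter.1 hx
  refine Nat.Coprime.prod_right fun p hpS => ?_
  obtain ⟨-, hp', -, h2⟩ := mem_filter.1 (hS hpS)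
  refine (Nat.coprime_primes hp hp').2 ?_
  rintro rfl
  have h3 : T < De T := by
    have : T ≤ T ^ 3 := Nat.le_self_pow (by norm_num) T
    unfold De
    omega
  have h4 := Nat.pow_lt_pow_right hp.one_lt h3
  omega

open Classical in
theorem card_le_Cnt2 {X T a b : ℕ} (hT : 1 ≤ T) (hE : 2 ≤ EE X T) {S : Finset ℕ}
    (hS : Sz X T a b S) {U : Finset (ℕ × ℕ)} (hU : U ⊆ Xs X T a ×ˢ Xs X T b) (r : ℕ) :
    ((range (X + 1)).filter fun n => 1 ≤ n ∧ n % (∏ p ∈ S, p) = r ∧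
      ∃ u ∈ U, u.1 * u.2 ∣ n).card ≤ U.card := by
  refine card_le_card_of_forall_subsingleton (fun n u => u.1 * u.2 ∣ n)
    (fun n hn => (mem_filter.1 hn).2.2.2) fun u hu => ?_
  obtain ⟨hx, hy⟩ := mem_product.1 (hU hu)
  rintro n ⟨hn, hd⟩ n' ⟨hn', hd'⟩
  obtain ⟨h1, h2, h3, -⟩ := mem_filter.1 hn
  obtain ⟨h1', -, h3', -⟩ := mem_filter.1 hn'
  rw [mem_range] at h1 h1'
  have hc : (u.1 * u.2).Coprime (∏ p ∈ S, p) :=
    Nat.Coprime.mul_left (coprime_Cnt2 hT hx hS.1) (coprime_Cnt2 hT hy hS.1)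
  have hm : n ≡ n' [MOD u.1 * u.2 * ∏ p ∈ S, p] :=
    (Nat.modEq_and_modEq_iff_modEq_mul hc).1
      ⟨hd.modEq_zero_nat.trans hd'.zero_modEq_nat, h3.trans h3'.symm⟩
  have hPQ : 2 ^ a * 2 ^ b ≤ u.1 * u.2 := Nat.mul_le_mul (pow_le_Cnt2 hx) (pow_le_Cnt2 hy)
  have hpos : 0 < 2 ^ a * 2 ^ b := by positivity
  have hA : 1 ≤ AA X a b :=
    (Nat.one_le_div_iff hpos).2 (hPQ.trans ((Nat.le_of_dvd h2 hd).trans h1.le))
  have hD : AA X a b * 2 ≤ ∏ p ∈ S, p := by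
    have h4 : (AA X a b : ℝ) * 2 ≤ ((∏ p ∈ S, p : ℕ) : ℝ) :=
      (mul_le_mul_of_nonneg_left hE (Nat.cast_nonneg _)).trans hS.2.1
    exact_mod_cast h4
  have h5 : X + 1 < 2 ^ a * 2 ^ b * (AA X a b + 1) := Nat.lt_mul_div_succ _ hpos
  have h6 : X + 1 < u.1 * u.2 * ∏ p ∈ S, p :=
    h5.trans_le (Nat.mul_le_mul hPQ (by omega))
  exact Nat.ModEq.eq_of_lt_of_lt hm (h1.trans h6) (h1'.trans h6)

theorem ro_le_Cnt2 (K : ℕ) {p : ℕ} (hp : p.Prime) :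
    ro (fun p r => InTree K p r) p ≤ K * 2 ^ K + 1 := by
  have h1 : ((range p).filter fun x : ℕ => InTree K p x) ⊆
      (Icc 1 K).biUnion fun a => (range p).filter fun x : ℕ => f^[a] (x : ZMod p) = 1 := by
    intro x hx
    obtain ⟨h, a, h1, h2, h3⟩ := mem_filter.1 hx
    exact mem_biUnion.2 ⟨a, mem_Icc.2 ⟨h1, h2⟩, mem_filter.2 ⟨h, h3⟩⟩
  refine ((card_le_card h1).trans (card_biUnion_le_card_mul _ _ (2 ^ K) fun a ha => ?_)).trans ?_
  · exact (N_le hp a).trans (Nat.pow_le_pow_right two_pos (mem_Icc.1 ha).2)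
  · simp

open Classical in
theorem card_res_Cnt2 (K : ℕ) {S : Finset ℕ} (hS : ∀ p ∈ S, p.Prime) {n : ℕ} (hn : S.card ≤ n) :
    ((range (∏ p ∈ S, p) ×ˢ range (∏ p ∈ S, p)).filter fun u => Res K S u.1 u.2).card ≤
      ((K * 2 ^ K + 1) ^ n) ^ 2 := by
  have h1 : ((range (∏ p ∈ S, p)).filter fun x : ℕ => ∀ p ∈ S, InTree K p x).card ≤
      (K * 2 ^ K + 1) ^ n := by
    refine (card_crt (fun p r => InTree K p r) hS).le.trans ?_
    exact (prod_le_pow_card _ _ _ fun p hp => ro_le_Cnt2 K (hS p hp)).trans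
      (Nat.pow_le_pow_right (Nat.succ_pos _) hn)
  have h2 : ((range (∏ p ∈ S, p) ×ˢ range (∏ p ∈ S, p)).filter fun u => Res K S u.1 u.2) ⊆
      ((range (∏ p ∈ S, p)).filter fun x : ℕ => ∀ p ∈ S, InTree K p x) ×ˢ
        ((range (∏ p ∈ S, p)).filter fun x : ℕ => ∀ p ∈ S, InTree K p x) := by
    intro u hu
    obtain ⟨h, hr⟩ := mem_filter.1 hu
    obtain ⟨h3, h4⟩ := mem_product.1 h
    exact mem_product.2 ⟨mem_filter.2 ⟨h3, fun p hp => (hr p hp).1⟩,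
      mem_filter.2 ⟨h4, fun p hp => (hr p hp).2.1⟩⟩
  refine (card_le_card h2).trans ?_
  rw [card_product, sq]
  exact Nat.mul_le_mul h1 h1

theorem sum_inv_Cnt2 {X T : ℕ} (hT : 1 ≤ T) (hE : 1 < EE X T) (hL : 12 ≤ Real.log (EE X T)) :
    ∑ S ∈ (Win X (De T)).powerset, 1 / ((∏ p ∈ S, p : ℕ) : ℝ) ≤ Real.exp 3 := by
  have h1 : ∑ S ∈ (Win X (De T)).powerset, 1 / ((∏ p ∈ S, p : ℕ) : ℝ) =
      ∏ p ∈ Win X (De T), (1 + 1 / (p : ℝ)) := by
    rw [prod_one_add]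
    refine sum_congr rfl fun S _ => ?_
    rw [Nat.cast_prod, prod_div_distrib, prod_const_one]
  have h2 : ∏ p ∈ Win X (De T), (1 + 1 / (p : ℝ)) ≤
      Real.exp (∑ p ∈ Win X (De T), 1 / (p : ℝ)) := by
    rw [Real.exp_sum]
    refine prod_le_prod (fun p _ => by positivity) fun p _ => ?_
    rw [add_comm]
    exact Real.add_one_le_exp _
  have h3 := sum_inv_le (S := Win X (De T)) (Real.lt_sqrt_of_sq_lt (by rwa [one_pow]) :
    1 < √(EE X T)) hE.le fun p hp => by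
      obtain ⟨h4, h5, h6⟩ := (mem_Win hT).1 hp
      exact ⟨h4, Real.sqrt_le_iff.2 ⟨Nat.cast_nonneg _, h5.le⟩, h6⟩
  rw [Real.log_sqrt (by linarith)] at h3
  have h4 : (Real.log (EE X T) + 6) / (Real.log (EE X T) / 2) ≤ 3 := by
    rw [div_le_iff₀ (by linarith)]
    linarith
  rw [h1]
  exact h2.trans (Real.exp_le_exp.2 (h3.trans h4))

theorem res_mod_Cnt2 {K n m : ℕ} {S : Finset ℕ} (h : Res K S n m) :
    Res K S (n % ∏ p ∈ S, p) (m % ∏ p ∈ S, p) := by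
  intro p hp
  have e : ∀ x : ℕ, ((x % ∏ p ∈ S, p : ℕ) : ZMod p) = x := fun x =>
    (ZMod.natCast_eq_natCast_iff' _ _ _).2 (Nat.mod_mod_of_dvd x (dvd_prod_of_mem _ hp))
  rw [e, e]
  exact h p hp

theorem abs_le_Cnt2 {X a b x y : ℕ} (h : 2 ^ a * 2 ^ b ≤ x * y) {z : ℤ}
    (hz : |(x : ℤ) * y * z| ≤ X + 1) : |z| ≤ AA X a b := by
  have hpos : 0 < 2 ^ a * 2 ^ b := by positivity
  have h1 : x * y * z.natAbs ≤ X + 1 := by
    have h2 : ((x * y * z.natAbs : ℕ) : ℤ) = |(x : ℤ) * y * z| := by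
      push_cast
      rw [abs_mul, abs_mul, Nat.abs_cast, Nat.abs_cast]
    have h3 : ((x * y * z.natAbs : ℕ) : ℤ) ≤ ((X + 1 : ℕ) : ℤ) := by
      rw [h2]; exact_mod_cast hz
    exact_mod_cast h3
  have h4 : z.natAbs ≤ AA X a b := by
    refine (Nat.le_div_iff_mul_le hpos).2 (le_trans ?_ h1)
    rw [mul_comm]
    exact Nat.mul_le_mul_right _ h
  rw [← Int.natCast_natAbs]
  exact_mod_cast h4

theorem card_biUnion_Cnt2 {ι : Type*} (s : Finset ι) (t : ι → Finset ℕ) :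
    ((s.biUnion t).card : ℝ) ≤ ∑ i ∈ s, ((t i).card : ℝ) := by
  exact_mod_cast card_biUnion_le

open Classical in
theorem cnt2 {T : ℕ} (hT : 1 ≤ T) (K : ℕ) : ∃ C : ℝ, 0 ≤ C ∧ ∀ L : ℕ, 1 ≤ L →
    ∀ᶠ X : ℕ in atTop, ∀ a b : ℕ, Adm X T a b →
      (((range (X + 1)).filter fun n => Bad X T K a b n).card : ℝ) ≤
        C * X * (1 / EE X T + sg X T a * sg X T b * (1 / EE X T + 1 / L)) := by
  obtain ⟨C, hC, h1⟩ := cnt1 hT
  obtain ⟨c, hc⟩ : ∃ c : ℕ, c = ((K * 2 ^ K + 1) ^ (6 * De T)) ^ 2 := ⟨_, rfl⟩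
  refine ⟨Real.exp 3 * (c * (3 * C)), by positivity, fun L hL => ?_⟩
  filter_upwards [h1 K L hL, card_Sz hT, (EE_tendsto hT).eventually_ge_atTop 2,
    (Real.tendsto_log_atTop.comp (EE_tendsto hT)).eventually_ge_atTop 12]
    with X h1 h2 hE hlog a b hab
  replace h1 := h1 a b hab
  have hG : 0 ≤ 1 / EE X T + sg X T a * sg X T b * (1 / EE X T + 1 / L) := by
    have h0 : ∀ a, 0 ≤ sg X T a := fun a => sum_nonneg fun _ _ => by positivity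
    have := h0 a
    have := h0 b
    positivity
  generalize 1 / EE X T + sg X T a * sg X T b * (1 / EE X T + 1 / L) = G at h1 hG ⊢
  let U : Finset ℕ → ℕ × ℕ → ℤ → Finset (ℕ × ℕ) := fun S rs j =>
    (Xs X T a ×ˢ Xs X T b).filter fun u => ∃ n m : ℤ, |n| ≤ AA X a b ∧ |m| ≤ AA X a b ∧
      (u.1 : ℤ) * u.2 * n ≡ rs.1 [ZMOD (∏ p ∈ S, p : ℕ)] ∧
      (u.1 : ℤ) * u.2 * m ≡ rs.2 - j [ZMOD (∏ p ∈ S, p : ℕ)]
  let NN : Finset ℕ → ℕ × ℕ → ℤ → Finset ℕ := fun S rs j =>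
    (range (X + 1)).filter fun n => 1 ≤ n ∧ n % (∏ p ∈ S, p) = rs.1 ∧
      ∃ u ∈ U S rs j, u.1 * u.2 ∣ n
  let RS : Finset ℕ → Finset (ℕ × ℕ) := fun S =>
    (range (∏ p ∈ S, p) ×ˢ range (∏ p ∈ S, p)).filter fun u => Res K S u.1 u.2
  have hprime : ∀ S, Sz X T a b S → ∀ p ∈ S, p.Prime := fun S hS p hp =>
    (mem_filter.1 (hS.1 hp)).2.1
  have hsub : ((range (X + 1)).filter fun n => Bad X T K a b n) ⊆
      ((Win X (De T)).powerset.filter fun S => Sz X T a b S).biUnion fun S =>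
        (RS S).biUnion fun rs => (Icc (-1 : ℤ) 1).biUnion fun j => NN S rs j := by
    intro n hn
    obtain ⟨hr, hn1, hnX, m, j, x, y, S, hm, hj, hx, hy, ⟨n', hn'⟩, ⟨m', hm'⟩, hS, hres⟩ :=
      mem_filter.1 hn
    have hD : 0 < ∏ p ∈ S, p := prod_pos fun p hp => (hprime S hS p hp).pos
    have hPQ : 2 ^ a * 2 ^ b ≤ x * y := Nat.mul_le_mul (pow_le_Cnt2 hx) (pow_le_Cnt2 hy)
    have e1 : (x : ℤ) * y * n' = n := by exact_mod_cast hn'.symm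
    refine mem_biUnion.2 ⟨S, mem_filter.2 ⟨mem_powerset.2 hS.1, hS⟩, mem_biUnion.2
      ⟨(n % ∏ p ∈ S, p, m % ∏ p ∈ S, p), mem_filter.2 ⟨mem_product.2
        ⟨mem_range.2 (Nat.mod_lt _ hD), mem_range.2 (Nat.mod_lt _ hD)⟩, res_mod_Cnt2 hres⟩,
      mem_biUnion.2 ⟨j, mem_Icc.2 (abs_le.1 hj), mem_filter.2 ⟨hr, hn1, rfl, (x, y),
        mem_filter.2 ⟨mem_product.2 ⟨hx, hy⟩, n', m', abs_le_Cnt2 hPQ ?_, abs_le_Cnt2 hPQ ?_,
          ?_, ?_⟩, n', hn'⟩⟩⟩⟩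
    · rw [e1, Nat.abs_cast]
      omega
    · rw [← hm', abs_le]
      rw [abs_le] at hj
      omega
    · simp only
      rw [e1, Int.natCast_mod]
      exact (Int.mod_modEq _ _).symm
    · simp only
      rw [← hm', Int.natCast_mod]
      exact (Int.mod_modEq _ _).symm.sub_right j
  have hj : ∀ S, Sz X T a b S → ∀ rs ∈ RS S,
      (((Icc (-1 : ℤ) 1).biUnion fun j => NN S rs j).card : ℝ) ≤
        3 * (C * X / (∏ p ∈ S, p : ℕ) * G) := by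
    intro S hS rs hrs
    refine (card_biUnion_Cnt2 _ _).trans ((sum_le_card_nsmul _ _
      (C * X / (∏ p ∈ S, p : ℕ) * G) fun j hj => ?_).trans_eq (by rw [nsmul_eq_mul]; simp))
    refine le_trans ?_ (h1 S hS rs.1 rs.2 (mem_filter.1 hrs).2 j
      (abs_le.2 (mem_Icc.1 hj)))
    exact_mod_cast card_le_Cnt2 hT hE hS (filter_subset _ _) rs.1
  have hS : ∀ S, Sz X T a b S →
      (((RS S).biUnion fun rs => (Icc (-1 : ℤ) 1).biUnion fun j => NN S rs j).card : ℝ) ≤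
        1 / ((∏ p ∈ S, p : ℕ) : ℝ) * (c * (3 * C) * X * G) := by
    intro S hS
    refine (card_biUnion_Cnt2 _ _).trans ((sum_le_card_nsmul _ _ _ (hj S hS)).trans ?_)
    have h3 : ((RS S).card : ℝ) ≤ c := by
      rw [hc]
      exact_mod_cast card_res_Cnt2 K (hprime S hS) (h2 a b S hS)
    rw [nsmul_eq_mul]
    refine (mul_le_mul_of_nonneg_right h3 (by positivity)).trans_eq ?_
    ring
  calc _ ≤ _ := Nat.cast_le.2 (card_le_card hsub)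
    _ ≤ _ := card_biUnion_Cnt2 _ _
    _ ≤ ∑ S ∈ (Win X (De T)).powerset.filter fun S => Sz X T a b S,
        1 / ((∏ p ∈ S, p : ℕ) : ℝ) * (c * (3 * C) * X * G) :=
      sum_le_sum fun S h => hS S (mem_filter.1 h).2
    _ ≤ ∑ S ∈ (Win X (De T)).powerset, 1 / ((∏ p ∈ S, p : ℕ) : ℝ) * (c * (3 * C) * X * G) :=
      sum_le_sum_of_subset_of_nonneg (filter_subset _ _) fun _ _ _ => by positivity
    _ ≤ Real.exp 3 * (c * (3 * C) * X * G) := by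
      rw [← sum_mul]
      exact mul_le_mul_of_nonneg_right (sum_inv_Cnt2 hT (by linarith) hlog) (by positivity)
    _ = _ := by ring

end Pool.Agent.PSD
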