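import Pool.Agent.P.MP_06afd2_nt.Defs

/-! Definitions and elementary facts for the density one theorem. -/

namespace Pool.Agent.PSD

open Finset Filter Topology Polynomial

/-- the map `x ↦ x ^ 2 - 1` of a commutative ring -/
def f {R : Type*} [CommRing R] (x : R) : R := x ^ 2 - 1

/-- the `j`-th iterate of `X ^ 2 - 1` as an integer polynomial -/
noncomputable def F : ℕ → ℤ[X]
  | 0 => X
  | j + 1 => F j ^ 2 - 1

/-- the polynomial `f^j - 1` -/
noncomputable def g (j : ℕ) : ℤ[X] := F j - 1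

/-- the number of residues `r` modulo `p` with `f^a r = 1` -/
def N (a p : ℕ) : ℕ := ((range p).filter fun x : ℕ => f^[a] (x : ZMod p) = 1).card

/-- the number of roots of `q` modulo `p` -/
def rt (q : ℤ[X]) (p : ℕ) : ℕ := ((range p).filter fun x : ℕ => (p : ℤ) ∣ q.eval (x : ℤ)).card

/-- the primes up to `x` -/
noncomputable def Pr (x : ℝ) : Finset ℕ := (Ioc 0 ⌊x⌋₊).filter Nat.Prime

/-- the sum of `w p * log p / p` over the primes up to `x` -/
noncomputable def M (w : ℕ → ℝ) (x : ℝ) : ℝ := ∑ p ∈ Pr x, w p * (Real.log p / p)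

/-- `w` has logarithmic mean value `c` over the primes -/
def HasMean (w : ℕ → ℝ) (c : ℝ) : Prop :=
  Tendsto (fun x : ℝ => M w x / Real.log x) atTop (𝓝 c)

open Classical in
/-- the solutions of `f^j y = 1` in a field -/
noncomputable def V (L : Type*) [Field L] (j : ℕ) : Finset L := ((g j).aroots L).toFinset

/-- the tree of preimages of `1` is complete in `L` up to level `K` -/
def Full (L : Type*) [Field L] (K : ℕ) : Prop := ∀ j < K, ∀ y ∈ V L j, ∃ z : L, f z = y

open Classical in
/-- the number of points of level `j` fixed by `σ` -/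
noncomputable def fixN {L : Type*} [Field L] [Algebra ℚ L] (j : ℕ) (σ : L ≃ₐ[ℚ] L) : ℕ :=
  ((V L j).filter fun y => σ y = y).card

/-- `σ` fixes every point of level `j` -/
def Fixes {L : Type*} [Field L] [Algebra ℚ L] (j : ℕ) (σ : L ≃ₐ[ℚ] L) : Prop :=
  ∀ y ∈ V L j, σ y = y

/-- `r` lies in one of the levels `1, ..., K` of the tree modulo `p` -/
def InTree (K p : ℕ) (r : ZMod p) : Prop := ∃ a, 1 ≤ a ∧ a ≤ K ∧ f^[a] r = 1

instance (K p : ℕ) (r : ZMod p) : Decidable (InTree K p r) :=
  decidable_of_iff (((Icc 1 K).filter fun a => f^[a] r = 1).Nonempty)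
    (by simp [InTree, and_assoc, filter_nonempty_iff])

theorem map_f {R S φ : Type*} [CommRing R] [CommRing S] [FunLike φ R S] [RingHomClass φ R S]
    (h : φ) (x : R) : h (f x) = f (h x) := by
  simp [f]

theorem map_iter {R S φ : Type*} [CommRing R] [CommRing S] [FunLike φ R S] [RingHomClass φ R S]
    (h : φ) (j : ℕ) (x : R) : h (f^[j] x) = f^[j] (h x) := by
  induction j with
  | zero => rfl
  | succ j ih => rw [Function.iterate_succ_apply', Function.iterate_succ_apply', map_f, ih]

theorem f_neg {R : Type*} [CommRing R] (x : R) : f (-x) = f x := by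
  simp [f]

theorem iter_neg {R : Type*} [CommRing R] {j : ℕ} (hj : 1 ≤ j) (x : R) :
    f^[j] (-x) = f^[j] x := by
  obtain ⟨k, rfl⟩ := Nat.exists_eq_add_of_le' hj
  rw [Function.iterate_succ_apply, Function.iterate_succ_apply, f_neg]

theorem iter_zero {R : Type*} [CommRing R] (j : ℕ) :
    f^[j] (0 : R) = if Even j then 0 else -1 := by
  induction j with
  | zero => simp
  | succ j ih =>
    rw [Function.iterate_succ_apply', ih]
    by_cases h : Even j
    · simp [h, Nat.even_add_one, f]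
    · simp [h, Nat.even_add_one, f]

theorem aeval_F {R : Type*} [CommRing R] (j : ℕ) (x : R) : aeval x (F j) = f^[j] x := by
  induction j with
  | zero => simp [F]
  | succ j ih => rw [Function.iterate_succ_apply', ← ih]; simp [F, f]

theorem aeval_g {R : Type*} [CommRing R] (j : ℕ) (x : R) : aeval x (g j) = f^[j] x - 1 := by
  simp [g, aeval_F]

theorem eval_g (j : ℕ) (x : ℤ) : (g j).eval x = f^[j] x - 1 := by
  rw [← aeval_g, coe_aeval_eq_eval]

theorem F_monic_natDegree (j : ℕ) : (F j).Monic ∧ (F j).natDegree = 2 ^ j := by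
  induction j with
  | zero => simp [F]
  | succ j ih =>
    have h1 : (F j ^ 2).natDegree = 2 ^ (j + 1) := by
      rw [ih.1.natDegree_pow, ih.2, pow_succ, mul_comm]
    have h2 : (1 : ℤ[X]).natDegree < (F j ^ 2).natDegree := by
      rw [h1, natDegree_one]; positivity
    refine ⟨(ih.1.pow 2).sub_of_left (degree_lt_degree h2), ?_⟩
    rw [F, natDegree_sub_eq_left_of_natDegree_lt h2, h1]

theorem g_monic (j : ℕ) : (g j).Monic := by
  have h2 : (1 : ℤ[X]).natDegree < (F j).natDegree := by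
    rw [(F_monic_natDegree j).2, natDegree_one]; positivity
  exact (F_monic_natDegree j).1.sub_of_left (degree_lt_degree h2)

theorem g_natDegree (j : ℕ) : (g j).natDegree = 2 ^ j := by
  have h2 : (1 : ℤ[X]).natDegree < (F j).natDegree := by
    rw [(F_monic_natDegree j).2, natDegree_one]; positivity
  rw [g, natDegree_sub_eq_left_of_natDegree_lt h2, (F_monic_natDegree j).2]

theorem mem_V {L : Type*} [Field L] {j : ℕ} {y : L} : y ∈ V L j ↔ f^[j] y = 1 := by
  classical
  have h0 : (g j).map (algebraMap ℤ L) ≠ 0 := ((g_monic j).map _).ne_zero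
  rw [V, Multiset.mem_toFinset, mem_aroots', aeval_g, sub_eq_zero]
  exact and_iff_right h0

theorem mem_V_succ {L : Type*} [Field L] {j : ℕ} {y : L} : y ∈ V L (j + 1) ↔ f y ∈ V L j := by
  rw [mem_V, mem_V, Function.iterate_succ_apply]

theorem V_zero (L : Type*) [Field L] : V L 0 = {1} := by
  ext y; simp [mem_V]

theorem neg_mem_V {L : Type*} [Field L] {j : ℕ} (hj : 1 ≤ j) {y : L} (hy : y ∈ V L j) :
    -y ∈ V L j := by
  rw [mem_V] at hy ⊢
  rw [iter_neg hj, hy]

theorem map_mem_V {L : Type*} [Field L] [Algebra ℚ L] {j : ℕ} (σ : L ≃ₐ[ℚ] L) {y : L}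
    (hy : y ∈ V L j) : σ y ∈ V L j := by
  rw [mem_V] at hy ⊢
  rw [← map_iter, hy, map_one]

theorem card_V_le (L : Type*) [Field L] (j : ℕ) : (V L j).card ≤ 2 ^ j := by
  classical
  refine (Multiset.toFinset_card_le _).trans ((card_roots' _).trans ?_)
  rw [(g_monic j).natDegree_map, g_natDegree]

/-- `0` is never a point of the tree in characteristic zero -/
theorem ne_zero_of_mem_V {L : Type*} [Field L] [CharZero L] {j : ℕ} {y : L} (hy : y ∈ V L j) :
    y ≠ 0 := by
  rintro rfl
  rw [mem_V, iter_zero] at hy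
  split_ifs at hy
  · exact zero_ne_one hy
  · norm_num at hy

theorem Full.mono {L : Type*} [Field L] {K K' : ℕ} (h : Full L K) (hK : K' ≤ K) : Full L K' :=
  fun j hj => h j (hj.trans_le hK)

theorem N_eq_rt (a p : ℕ) : N a p = rt (g a) p := by
  unfold N rt
  congr 1
  refine filter_congr fun x _ => ?_
  rw [eval_g, ← ZMod.intCast_zmod_eq_zero_iff_dvd]
  have := map_iter (Int.castRingHom (ZMod p)) a (x : ℤ)
  simp only [eq_intCast, Int.cast_natCast] at this
  push_cast
  rw [this, sub_eq_zero]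

theorem N_eq_card_V (a p : ℕ) [Fact p.Prime] : N a p = (V (ZMod p) a).card := by
  refine card_nbij' (fun x => (x : ZMod p)) ZMod.val ?_ ?_ ?_ ?_
  · intro x hx
    simpa [mem_V] using (mem_filter.mp hx).2
  · intro z hz
    simpa [ZMod.val_lt, mem_V] using hz
  · intro x hx
    exact ZMod.val_cast_of_lt (mem_range.mp (mem_filter.mp hx).1)
  · intro z _
    simp

theorem N_le {p : ℕ} (hp : p.Prime) (a : ℕ) : N a p ≤ 2 ^ a := by
  have := Fact.mk hp
  rw [N_eq_card_V]
  exact card_V_le _ _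

theorem N_eq_zero_iff {p : ℕ} (hp : 0 < p) (a : ℕ) :
    N a p = 0 ↔ ∀ r : ZMod p, f^[a] r ≠ 1 := by
  have : NeZero p := ⟨hp.ne'⟩
  rw [N, card_eq_zero, filter_eq_empty_iff]
  constructor
  · intro h r
    have := h (mem_range.mpr (ZMod.val_lt r))
    simpa using this
  · exact fun h x _ => h _

theorem seq_eq (n : ℤ) (k : ℕ) : Pool.Agent.P.MP_06afd2_nt.seq n k = f^[k] n := by
  induction k with
  | zero => rfl
  | succ k ih => rw [Function.iterate_succ_apply', ← ih]; rfl

theorem mem_P_iff {n p : ℕ} :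
    p ∈ Pool.Agent.P.MP_06afd2_nt.P n ↔ p.Prime ∧ ∃ k : ℕ, f^[k] (n : ZMod p) = 0 := by
  refine and_congr_right fun _ => exists_congr fun k => ?_
  rw [seq_eq, ← ZMod.intCast_zmod_eq_zero_iff_dvd]
  have := map_iter (Int.castRingHom (ZMod p)) k (n : ℤ)
  simp only [eq_intCast, Int.cast_natCast] at this
  rw [this]

theorem mem_Pr {x : ℝ} (hx : 0 ≤ x) {p : ℕ} : p ∈ Pr x ↔ p.Prime ∧ (p : ℝ) ≤ x := by
  rw [Pr, mem_filter, mem_Ioc, Nat.le_floor_iff hx]
  exact ⟨fun h => ⟨h.2, h.1.2⟩, fun h => ⟨⟨h.1.pos, h.2⟩, h.1⟩⟩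

end Pool.Agent.PSD
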