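import Pool.Agent.P.MP_06afd2_nt.D1.Defs

/-!
Typical integers and the configurations attached to a coincidence `P m = P n`.
-/

namespace Pool.Agent.PSD

open Finset

/-- primes inert in `ℚ(√2)` lying in a range suited to the bilinear estimate -/
def Good (X T q : ℕ) : Prop := q.Prime ∧ N 1 q = 0 ∧ X ≤ q ^ T ∧
  ∃ t, 1 ≤ t ∧ t ≤ T ∧ q ^ (8 * t + 1) ≤ X ^ 4 ∧ X ^ 4 < q ^ (8 * t + 3)

/-- `n` has four well separated good prime factors -/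
def Typ1 (X T n : ℕ) : Prop := ∃ q : Fin 4 → ℕ, (∀ i, Good X T (q i) ∧ q i ∣ n) ∧
  ∀ i i', i < i' → q i ^ 5 ≤ q i'

/-- the primes in `(X ^ (1 / (2 Δ)), X ^ (1 / Δ)]` -/
def Win (X Δ : ℕ) : Finset ℕ :=
  (range (X + 1)).filter fun p => p.Prime ∧ X < p ^ (2 * Δ) ∧ p ^ Δ ≤ X

/-- many primes of the window with a finite tree see `n` in their tree -/
def Typ2 (X Δ K n : ℕ) : Prop := 10 * Real.log X ≤
  ∑ p ∈ (Win X Δ).filter (fun p => N K p = 0 ∧ InTree K p n), Real.log p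

/-- the exponent of the window -/
def De (T : ℕ) : ℕ := 100 * T ^ 3

/-- `X ^ (1 / Δ)` -/
noncomputable def EE (X T : ℕ) : ℝ := (X : ℝ) ^ (1 / (De T : ℝ))

/-- the dyadic block of primes -/
def Xs (X T a : ℕ) : Finset ℕ :=
  (range (X + 1)).filter fun x => x.Prime ∧ Nat.log 2 x = a ∧ X ≤ x ^ T

/-- the sum of reciprocals over a dyadic block -/
noncomputable def sg (X T a : ℕ) : ℝ := ∑ x ∈ Xs X T a, (1 : ℝ) / x

/-- the size of the cofactors -/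
def AA (X a b : ℕ) : ℕ := (X + 1) / (2 ^ a * 2 ^ b)

/-- admissible pairs of dyadic ranges -/
def Adm (X T a b : ℕ) : Prop := (2 ^ a) ^ 5 ≤ 2 * 2 ^ b ∧ X ≤ (2 * 2 ^ a) ^ T ∧
  ∃ t, 1 ≤ t ∧ t ≤ T ∧ 2 ^ a * (2 ^ b) ^ (2 * t) ≤ X ∧ X ^ 4 < (2 * 2 ^ b) ^ (8 * t + 3)

/-- sets of primes of the window whose product has the right size -/
def Sz (X T a b : ℕ) (S : Finset ℕ) : Prop := S ⊆ Win X (De T) ∧
  AA X a b * EE X T ≤ ((∏ p ∈ S, p : ℕ) : ℝ) ∧ ((∏ p ∈ S, p : ℕ) : ℝ) ≤ AA X a b * EE X T ^ 2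

/-- `r` and `s` lie in the tree modulo each prime of `S`, and `s ≠ ± r` -/
def Res (K : ℕ) (S : Finset ℕ) (r s : ℕ) : Prop :=
  ∀ p ∈ S, InTree K p r ∧ InTree K p s ∧ (s : ZMod p) ^ 2 ≠ (r : ZMod p) ^ 2

/-- the configuration attached to a coincidence -/
def Bad (X T K a b n : ℕ) : Prop := 1 ≤ n ∧ n ≤ X ∧ ∃ (m : ℕ) (j : ℤ) (x y : ℕ) (S : Finset ℕ),
  m ≤ X ∧ |j| ≤ 1 ∧ x ∈ Xs X T a ∧ y ∈ Xs X T b ∧ x * y ∣ n ∧ (x : ℤ) * y ∣ m - j ∧
    Sz X T a b S ∧ Res K S n m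

theorem EE_pow {X T : ℕ} (hT : 1 ≤ T) : EE X T ^ De T = X := by
  have : De T ≠ 0 := by unfold De; positivity
  rw [EE, one_div, Real.rpow_inv_natCast_pow (Nat.cast_nonneg _) this]

theorem EE_nonneg (X T : ℕ) : 0 ≤ EE X T := Real.rpow_nonneg (Nat.cast_nonneg _) _

theorem EE_tendsto {T : ℕ} (hT : 1 ≤ T) :
    Filter.Tendsto (fun X : ℕ => EE X T) Filter.atTop Filter.atTop := by
  have : (0 : ℝ) < De T := by unfold De; positivity
  exact (tendsto_rpow_atTop (by positivity)).comp tendsto_natCast_atTop_atTop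

theorem mem_Win {X T p : ℕ} (hT : 1 ≤ T) :
    p ∈ Win X (De T) ↔ p.Prime ∧ EE X T < (p : ℝ) ^ 2 ∧ (p : ℝ) ≤ EE X T := by
  have h0 : De T ≠ 0 := by unfold De; positivity
  have h1 : X < p ^ (2 * De T) ↔ EE X T < (p : ℝ) ^ 2 := by
    rw [← pow_lt_pow_iff_left₀ (EE_nonneg X T) (by positivity) h0, EE_pow hT, ← pow_mul]
    norm_cast
  have h2 : p ^ De T ≤ X ↔ (p : ℝ) ≤ EE X T := by
    rw [← pow_le_pow_iff_left₀ (by positivity) (EE_nonneg X T) h0, EE_pow hT]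
    norm_cast
  rw [Win, mem_filter, mem_range, ← h1, ← h2]
  refine and_iff_right_of_imp fun h => ?_
  exact Nat.lt_succ_of_le ((Nat.le_self_pow h0 p).trans h.2.2)

end Pool.Agent.PSD
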