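import Pool.Agent.P.MP_06afd2_nt.D1.Defs

/-!
Frobenius elements and roots of polynomials modulo `p`.

Sketch. For a prime `p` choose a maximal ideal `Q` of `𝓞 L` over `p` and
`φ p` with `IsArithFrobAt ℤ (φ p) Q` (`IsArithFrobAt.exists_of_isInvariant`, or `arithFrobAt`), so
`φ p • x - x ^ p ∈ Q` for `x : 𝓞 L`. Let `q` be monic and split in `L`. Its roots are integral, so
`q = ∏ (X - y)` over the multiset of roots in `𝓞 L`. If `p` exceeds the absolute norms of all nonzero differences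
`y - y'` of roots, reduction modulo `Q` is injective on the set of roots. In `k = 𝓞 L ⧸ Q` the roots of `q` are the
reductions; an element `u` of `k` comes from `ZMod p` iff `u ^ p = u` (the polynomial `X ^ p - X` has at most `p`
roots and `ZMod.pow_card`), and `red y ^ p = red y` iff `red (φ y) = red y` iff `φ y = y`.
-/

namespace Pool.Agent.PSD

open Finset Filter Topology NumberField Polynomial

open Classical in
/-- `φ p` controls the number of roots modulo `p` of every monic integer polynomial split in `L` -/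
def IsFrob (L : Type*) [Field L] [NumberField L] (φ : ℕ → (L ≃ₐ[ℚ] L)) : Prop :=
  ∀ q : ℤ[X], q.Monic → (q.map (algebraMap ℤ L)).Splits →
    ∀ᶠ p : ℕ in atTop, p.Prime → rt q p = ((q.aroots L).toFinset.filter fun y => φ p y = y).card

theorem exists_Q_Frob (L : Type*) [Field L] [NumberField L] [IsGalois ℚ L] (p : ℕ) :
    ∃ σ : L ≃ₐ[ℚ] L, p.Prime → ∃ Q : Ideal (𝓞 L), Q.IsMaximal ∧ (p : 𝓞 L) ∈ Q ∧
      ∀ x : 𝓞 L, σ • x - x ^ p ∈ Q := by
  by_cases hp : p.Prime
  · have := Fact.mk hp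
    obtain ⟨Q, hQ, hl⟩ := Ideal.exists_maximal_ideal_liesOver_of_isIntegral (S := 𝓞 L)
      (Ideal.span {(p : ℤ)})
    have h0 : Q ≠ ⊥ := Ring.ne_bot_of_isMaximal_of_not_isField hQ (RingOfIntegers.not_isField L)
    have : Finite (𝓞 L ⧸ Q) := Ideal.finiteQuotientOfFreeOfNeBot _ h0
    have := IsGaloisGroup.of_isFractionRing (L ≃ₐ[ℚ] L) ℤ (𝓞 L) ℚ L
    obtain ⟨σ, hσ⟩ := IsArithFrobAt.exists_of_isInvariant ℤ (L ≃ₐ[ℚ] L) Q
    refine ⟨σ, fun _ => ⟨Q, hQ, ?_, fun x => ?_⟩⟩
    · have h1 : (p : ℤ) ∈ Q.under ℤ := by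
        rw [← hl.over]
        exact Ideal.mem_span_singleton_self _
      simpa using Ideal.mem_comap.1 h1
    · have h1 := hσ x
      rwa [← hl.over, Int.card_ideal_quot] at h1
  · exact ⟨1, fun h => (hp h).elim⟩

theorem far_Frob (L : Type*) [Field L] [NumberField L] {d : 𝓞 L} (hd : d ≠ 0) :
    ∀ᶠ p : ℕ in atTop, p.Prime → ∀ Q : Ideal (𝓞 L), Q.IsMaximal → (p : 𝓞 L) ∈ Q → d ∉ Q := by
  have h0 : Ideal.absNorm (Ideal.span {d}) ≠ 0 := by
    rw [Ne, Ideal.absNorm_eq_zero_iff, Ideal.span_singleton_eq_bot]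
    exact hd
  filter_upwards [eventually_gt_atTop (Ideal.absNorm (Ideal.span {d}))] with p hp hpr Q hQ hm hdQ
  have h1 : ((Ideal.absNorm (Ideal.span {d}) : ℕ) : 𝓞 L) ∈ Q :=
    (Ideal.span_singleton_le_iff_mem Q).2 hdQ (Ideal.absNorm_mem _)
  have h2 : Nat.Coprime p (Ideal.absNorm (Ideal.span {d})) :=
    (Nat.coprime_of_lt_prime h0 hp hpr)
  obtain ⟨a, b, hab⟩ := (Nat.Coprime.cast (R := 𝓞 L) h2)
  exact hQ.ne_top ((Ideal.eq_top_iff_one _).2
    (hab ▸ Q.add_mem (Q.mul_mem_left _ hm) (Q.mul_mem_left _ h1)))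

open Classical in
theorem count_Frob {O k : Type*} [CommRing O] [IsDomain O] [Field k] {p : ℕ} [Fact p.Prime]
    [CharP k p] (red : O →+* k) (σ : O →+* O) (hσ : ∀ x, red (σ x) = red x ^ p) {q : ℤ[X]}
    (hq : q.Monic) (hs : (q.map (algebraMap ℤ O)).Splits)
    (hi : ∀ y ∈ q.aroots O, ∀ y' ∈ q.aroots O, red y = red y' → y = y') :
    rt q p = ((q.aroots O).toFinset.filter fun y => σ y = y).card := by
  have hp : p.Prime := Fact.out
  have e1 : (q.map (algebraMap ℤ O)).map red = q.map (algebraMap ℤ k) := by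
    rw [Polynomial.map_map]
    congr 1
    exact RingHom.ext_int _ _
  have e2 : q.aroots k = (q.aroots O).map red := by
    rw [aroots_def, aroots_def, ← e1]
    refine hs.roots_map_of_ne_zero ?_
    rw [e1]
    exact (hq.map _).ne_zero
  have e3 : ∀ x : ℤ, aeval (x : k) q = ((q.eval x : ℤ) : k) := fun x => by
    have := aeval_algebraMap_apply_eq_algebraMap_eval (A := k) x q
    simpa using this
  have e4 : ∀ y ∈ q.aroots O, σ y ∈ q.aroots O := fun y hy => by
    rw [mem_aroots'] at hy ⊢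
    refine ⟨hy.1, ?_⟩
    have h := aeval_algHom_apply σ.toIntAlgHom y q
    rw [hy.2, map_zero] at h
    exact h
  rw [rt, ← card_image_of_injOn (f := fun x : ℕ => (x : k)),
    ← card_image_of_injOn (f := red) (s := (q.aroots O).toFinset.filter fun y => σ y = y)]
  · congr 1
    ext u
    simp only [mem_image, mem_filter, mem_range, Multiset.mem_toFinset]
    constructor
    · rintro ⟨x, ⟨-, hx⟩, rfl⟩
      have h1 : (x : k) ∈ q.aroots k := by
        rw [mem_aroots']
        refine ⟨(hq.map _).ne_zero, ?_⟩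
        have h2 := e3 x
        rw [Int.cast_natCast] at h2
        rw [h2]
        exact (CharP.intCast_eq_zero_iff k p _).2 hx
      rw [e2, Multiset.mem_map] at h1
      obtain ⟨y, hy, h2⟩ := h1
      refine ⟨y, ⟨hy, hi _ (e4 y hy) _ hy ?_⟩, h2⟩
      rw [hσ, h2]
      exact (Subfield.mem_bot_iff_pow_eq_self k p).1 (natCast_mem _ _)
    · rintro ⟨y, ⟨hy, h1⟩, rfl⟩
      have h2 : red y ^ p = red y := by rw [← hσ, h1]
      obtain ⟨n, hn⟩ := (mem_bot_iff_intCast p k).1 ((Subfield.mem_bot_iff_pow_eq_self k p).2 h2)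
      have h3 : red y ∈ q.aroots k := by
        rw [e2]
        exact Multiset.mem_map_of_mem _ hy
      have hp0 : (0 : ℤ) < p := by exact_mod_cast hp.pos
      have h4 : (((n % p).toNat : ℕ) : ℤ) = n % p := Int.toNat_of_nonneg (Int.emod_nonneg _ hp0.ne')
      have h5 : (((n % p).toNat : ℕ) : k) = red y := by
        rw [← hn, ← Int.cast_natCast, h4]
        exact (CharP.intCast_eq_intCast_mod k p).symm
      refine ⟨(n % p).toNat, ⟨?_, ?_⟩, h5⟩
      · have := Int.emod_lt_of_pos n hp0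
        omega
      · rw [← CharP.intCast_eq_zero_iff k p, ← e3, Int.cast_natCast, h5]
        exact (mem_aroots'.1 h3).2
  · intro y hy y' hy' h
    exact hi _ (Multiset.mem_toFinset.1 (mem_filter.1 hy).1) _
      (Multiset.mem_toFinset.1 (mem_filter.1 hy').1) h
  · intro x hx x' hx' h
    exact CharP.natCast_injOn_Iio k p (mem_range.1 (mem_filter.1 hx).1)
      (mem_range.1 (mem_filter.1 hx').1) h

theorem exists_frob (L : Type*) [Field L] [NumberField L] [IsGalois ℚ L] :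
    ∃ φ : ℕ → (L ≃ₐ[ℚ] L), IsFrob L φ := by
  classical
  choose φ hφ using exists_Q_Frob L
  refine ⟨φ, fun q hq hs => ?_⟩
  have inj : Function.Injective (algebraMap (𝓞 L) L) := RingOfIntegers.coe_injective
  have e1 : (q.map (algebraMap ℤ (𝓞 L))).map (algebraMap (𝓞 L) L) = q.map (algebraMap ℤ L) := by
    rw [Polynomial.map_map]
    congr 1
  have hs' : (q.map (algebraMap ℤ (𝓞 L))).Splits := by
    refine Splits.of_splits_map_of_injective inj (e1 ▸ hs) fun a ha => ?_
    rw [e1] at ha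
    exact ⟨⟨a, q, hq, (mem_aroots'.1 ha).2⟩, rfl⟩
  have e2 : q.aroots L = (q.aroots (𝓞 L)).map (algebraMap (𝓞 L) L) := by
    rw [aroots_def, aroots_def, ← e1]
    exact hs'.roots_map_of_injective inj
  have h1 : ∀ᶠ p : ℕ in atTop, ∀ y ∈ (q.aroots (𝓞 L)).toFinset, ∀ y' ∈ (q.aroots (𝓞 L)).toFinset,
      y ≠ y' → p.Prime → ∀ Q : Ideal (𝓞 L), Q.IsMaximal → (p : 𝓞 L) ∈ Q → y - y' ∉ Q := by
    refine (eventually_all_finset _).2 fun y _ => (eventually_all_finset _).2 fun y' _ => ?_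
    by_cases h : y = y'
    · exact Eventually.of_forall fun _ h' => (h' h).elim
    · filter_upwards [far_Frob L (sub_ne_zero.2 h)] with p hp _ using hp
  filter_upwards [h1] with p h2 hp
  obtain ⟨Q, hQ, hm, hx⟩ := hφ p hp
  have := Fact.mk hp
  let := Ideal.Quotient.field Q
  have : CharP (𝓞 L ⧸ Q) p := (CharP.charP_iff_prime_eq_zero hp).2 (by
    rw [← map_natCast (Ideal.Quotient.mk Q), Ideal.Quotient.eq_zero_iff_mem]
    exact hm)
  have h3 := count_Frob (p := p) (Ideal.Quotient.mk Q)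
    (MulSemiringAction.toRingHom (L ≃ₐ[ℚ] L) (𝓞 L) (φ p))
    (fun x => by rw [← map_pow, Ideal.Quotient.eq]; exact hx x) hq hs' (fun y hy y' hy' h => by
      by_contra hne
      exact h2 y (Multiset.mem_toFinset.2 hy) y' (Multiset.mem_toFinset.2 hy') hne hp Q hQ hm
        (Ideal.Quotient.eq.1 h))
  rw [h3, ← card_image_of_injective _ inj]
  congr 1
  ext u
  simp only [e2, mem_image, mem_filter, Multiset.mem_toFinset, Multiset.mem_map]
  constructor
  · rintro ⟨y, ⟨hy, h4⟩, rfl⟩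
    exact ⟨⟨y, hy, rfl⟩, congrArg (algebraMap (𝓞 L) L) h4⟩
  · rintro ⟨⟨y, hy, rfl⟩, h4⟩
    exact ⟨y, ⟨hy, inj h4⟩, rfl⟩

end Pool.Agent.PSD
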