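import Pool.Agent.P.MP_06afd2_nt.D1.Mert
import Pool.Agent.P.MP_06afd2_nt.D1.Frob
import Pool.Agent.P.MP_3bc45c_nt.PolyRho

/-!
The Frobenius density theorem in logarithmic form.

Sketch. `G = L ≃ₐ[ℚ] L`. For `S : Finset G` put `cnt S σ = card {τ | τ⁻¹ * σ * τ ∈ S}` and call `S` good if
`HasMean (fun p => cnt S (φ p)) S.card`.
(1) A subgroup `H` is good: let `T = IntermediateField.fixedField H`, `θ : 𝓞 T` with `ℚ(θ) = T` (primitive element times
an integer, compare `exists_root_field` and `good_minpoly` in PolyRho), `q = minpoly ℤ θ`. Then `rt q p = rho q p` (`rfl`)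
`= nI T p` for `p` not dividing `RingOfIntegers.exponent θ ≠ 0` (`rho_minpoly`, `exponent_ne_zero`), `q` splits in `L`
(normal), the roots of `q` in `L` form the orbit of `θ`, the stabiliser of `θ` is `H`
(`IsGalois.fixingSubgroup_fixedField`/`IntermediateField.fixingSubgroup_fixedField`), hence
`H.card * card {y root | σ y = y} = card {τ | σ (τ θ) = τ θ} = cnt H σ`. Use `mean_nI`, `HasMean.congr`.
(2) `gen C = {σ | zpowers σ = C}` is good, by strong induction on the cardinality of `C`, because a subgroup `H` is the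
disjoint union of the `gen C`, `C ≤ H`, and `cnt` is additive.
(3) `card G * w σ = ∑ τ, w (τ⁻¹ * σ * τ) = ∑_C w_C * cnt (gen C) σ`.
-/

namespace Pool.Agent.PSD

open Finset Filter Topology NumberField Polynomial

theorem prim_Dens (K : Type*) [Field K] [NumberField K] :
    ∃ θ : 𝓞 K, Algebra.adjoin ℚ {algebraMap (𝓞 K) K θ} = ⊤ := by
  obtain ⟨α, hα⟩ := Field.exists_primitive_element ℚ K
  obtain ⟨y, hy, hi⟩ := exists_integral_multiples ℤ ℚ ({α} : Finset K)
  have h1 : Algebra.adjoin ℚ {α} = ⊤ := by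
    rw [← IntermediateField.adjoin_simple_toSubalgebra_of_isAlgebraic
      (Algebra.IsAlgebraic.isAlgebraic α), hα, IntermediateField.top_toSubalgebra]
  let θ : 𝓞 K := ⟨y • α, hi α (mem_singleton_self α)⟩
  refine ⟨θ, ?_⟩
  rw [eq_top_iff, ← h1, Algebra.adjoin_le_iff, Set.singleton_subset_iff]
  have h3 : α = ((y : ℚ)⁻¹) • algebraMap (𝓞 K) K θ := by
    change _ = _ • (y • α)
    rw [← Int.cast_smul_eq_zsmul ℚ, smul_smul, inv_mul_cancel₀ (by exact_mod_cast hy), one_smul]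
  have h4 := Subalgebra.smul_mem _ (Algebra.subset_adjoin (R := ℚ)
    (Set.mem_singleton (algebraMap (𝓞 K) K θ))) ((y : ℚ)⁻¹)
  rwa [← h3] at h4

section

variable {L : Type*} [Field L] [NumberField L] [IsGalois ℚ L]

omit [IsGalois ℚ L] in
open Classical in
theorem count_Dens (H : Subgroup (L ≃ₐ[ℚ] L)) {a : L} (ha : ∀ σ, σ ∈ H ↔ σ a = a)
    {R : Finset L} (hR : ∀ y, y ∈ R ↔ ∃ τ : L ≃ₐ[ℚ] L, τ a = y) (σ : L ≃ₐ[ℚ] L) :
    (univ.filter fun τ => τ⁻¹ * σ * τ ∈ H).card =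
      (univ.filter fun τ => τ ∈ H).card * (R.filter fun y => σ y = y).card := by
  have e : ∀ τ : L ≃ₐ[ℚ] L, τ⁻¹ * σ * τ ∈ H ↔ σ (τ a) = τ a := fun τ => by
    rw [ha]
    exact τ.symm_apply_eq
  rw [card_eq_sum_card_fiberwise (f := fun τ : L ≃ₐ[ℚ] L => τ a)
    (t := R.filter fun y => σ y = y), mul_comm, ← smul_eq_mul, ← sum_const]
  · refine sum_congr rfl fun y hy => ?_
    obtain ⟨hy1, hy2⟩ := mem_filter.1 hy
    obtain ⟨τ, rfl⟩ := (hR y).1 hy1
    refine card_nbij' (fun ρ => τ⁻¹ * ρ) (fun ρ => τ * ρ) ?_ ?_ ?_ ?_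
    · intro ρ hρ
      have h2 : ρ a = τ a := (mem_filter.1 hρ).2
      refine mem_filter.2 ⟨mem_univ _, (ha _).2 ?_⟩
      exact τ.symm_apply_eq.2 h2
    · intro ρ hρ
      have h2 : ρ a = a := (ha _).1 (mem_filter.1 hρ).2
      have h3 : (τ * ρ) a = τ a := by rw [AlgEquiv.mul_apply, h2]
      exact mem_filter.2 ⟨mem_filter.2 ⟨mem_univ _, (e _).2 (by rw [h3, hy2])⟩, h3⟩
    · intro ρ _
      simp
    · intro ρ _
      simp
  · intro τ hτ
    exact mem_filter.2 ⟨(hR _).2 ⟨τ, rfl⟩, (e τ).1 (mem_filter.1 hτ).2⟩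

/-- The functions for which the averaged statement holds. -/
def ok_Dens (φ : ℕ → (L ≃ₐ[ℚ] L)) (u : (L ≃ₐ[ℚ] L) → ℝ) : Prop :=
  HasMean (fun p => ∑ τ, u (τ⁻¹ * φ p * τ)) (∑ σ, u σ)

omit [IsGalois ℚ L] in
theorem ok_sum_Dens {φ : ℕ → (L ≃ₐ[ℚ] L)} {ι : Type*} (s : Finset ι) (c : ι → ℝ)
    {u : ι → (L ≃ₐ[ℚ] L) → ℝ} (h : ∀ i ∈ s, ok_Dens φ (u i)) :
    ok_Dens φ fun σ => ∑ i ∈ s, c i * u i σ := by
  have := HasMean.sum s fun i hi => (h i hi).const_mul (c i)
  unfold ok_Dens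
  simp only [mul_sum] at this
  rw [sum_comm]
  refine this.congr (Eventually.of_forall fun p _ => sum_comm)

open Classical in
theorem ok_sub_Dens {φ : ℕ → (L ≃ₐ[ℚ] L)} (hφ : IsFrob L φ) (H : Subgroup (L ≃ₐ[ℚ] L)) :
    ok_Dens φ fun σ => if σ ∈ H then 1 else 0 := by
  set T := IntermediateField.fixedField H with hT
  obtain ⟨θ, hθ⟩ := prim_Dens T
  set a : L := algebraMap T L (algebraMap (𝓞 T) T θ) with ha
  have h1 : ∀ σ, σ ∈ H ↔ σ a = a := by
    intro σ
    refine ⟨fun h => (IntermediateField.mem_fixedField_iff H a).1 (algebraMap (𝓞 T) T θ).2 σ h,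
      fun h => ?_⟩
    rw [← IntermediateField.fixingSubgroup_fixedField H, IntermediateField.mem_fixingSubgroup_iff]
    intro x hx
    have h2 := AlgHom.ext_of_adjoin_eq_top hθ (φ₁ := σ.toAlgHom.comp T.val) (φ₂ := T.val)
      (by rintro _ rfl; exact h)
    exact DFunLike.congr_fun h2 ⟨x, hx⟩
  have h2 : (minpoly ℤ θ).map (algebraMap ℤ ℚ) = minpoly ℚ a := by
    rw [ha, minpoly.algebraMap_eq (algebraMap T L).injective,
      minpoly.isIntegrallyClosed_eq_field_fractions ℚ T θ.isIntegral]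
  have hm : (minpoly ℤ θ).Monic := minpoly.monic θ.isIntegral
  have h3 : ((minpoly ℤ θ).map (algebraMap ℤ L)).Splits := by
    have := Normal.splits (inferInstance : Normal ℚ L) a
    rwa [← h2, Polynomial.map_map, ← IsScalarTower.algebraMap_eq] at this
  have h4 : ∀ y, y ∈ ((minpoly ℤ θ).aroots L).toFinset ↔ ∃ τ : L ≃ₐ[ℚ] L, τ a = y := by
    intro y
    rw [Multiset.mem_toFinset, mem_aroots', and_iff_right (hm.map _).ne_zero,
      ← aeval_map_algebraMap ℚ, h2]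
    refine ⟨minpoly.exists_algEquiv_of_root' (Algebra.IsAlgebraic.isAlgebraic a), ?_⟩
    rintro ⟨τ, rfl⟩
    rw [aeval_algHom_apply, minpoly.aeval, map_zero]
  have he := Pool.Agent.P.MP_3bc45c_nt.exponent_ne_zero hθ
  have h5 := (mean_nI T).const_mul ((univ.filter fun τ => τ ∈ H).card : ℝ)
  unfold ok_Dens
  simp only [sum_boole]
  rw [mul_one] at h5
  refine h5.congr ?_
  filter_upwards [hφ _ hm h3, eventually_gt_atTop (RingOfIntegers.exponent θ)] with p hp hlt hpp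
  rw [count_Dens H h1 h4, ← hp hpp, ← Pool.Agent.P.MP_3bc45c_nt.rho_minpoly hpp
    fun h => absurd (Nat.le_of_dvd (Nat.pos_of_ne_zero he) h) (not_le.2 hlt), Nat.cast_mul]
  rfl

open Classical in
theorem ok_gen_Dens {φ : ℕ → (L ≃ₐ[ℚ] L)} (hφ : IsFrob L φ) (H : Subgroup (L ≃ₐ[ℚ] L)) :
    ok_Dens φ fun σ => if Subgroup.zpowers σ = H then 1 else 0 := by
  induction H using WellFoundedLT.induction with
  | ind H ih =>
    have := Fintype.ofFinite (Subgroup (L ≃ₐ[ℚ] L))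
    have h1 := ok_sum_Dens (univ.filter (· < H)) (fun _ => -1)
      fun C hC => ih C (mem_filter.1 hC).2
    have h2 := HasMean.add (ok_sub_Dens hφ H) h1
    have e : ∀ σ : L ≃ₐ[ℚ] L, (if Subgroup.zpowers σ = H then (1 : ℝ) else 0) =
        (if σ ∈ H then 1 else 0) + ∑ C ∈ univ.filter (· < H),
          -1 * if Subgroup.zpowers σ = C then (1 : ℝ) else 0 := by
      intro σ
      rw [← mul_sum, sum_ite_eq]
      simp only [mem_filter, mem_univ, true_and, ← Subgroup.zpowers_le, le_iff_lt_or_eq]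
      by_cases h : Subgroup.zpowers σ = H
      · simp [h]
      · by_cases h' : Subgroup.zpowers σ < H <;> simp [h, h']
    unfold ok_Dens
    simp only [e, sum_add_distrib]
    exact h2

end

theorem mean_class (L : Type*) [Field L] [NumberField L] [IsGalois ℚ L]
    {φ : ℕ → (L ≃ₐ[ℚ] L)} (hφ : IsFrob L φ) (w : (L ≃ₐ[ℚ] L) → ℝ)
    (h1 : ∀ σ τ, w (τ⁻¹ * σ * τ) = w σ)
    (h2 : ∀ σ τ, Subgroup.zpowers σ = Subgroup.zpowers τ → w σ = w τ) :
    HasMean (fun p => w (φ p)) ((∑ σ, w σ) / Fintype.card (L ≃ₐ[ℚ] L)) := by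
  classical
  have := Fintype.ofFinite (Subgroup (L ≃ₐ[ℚ] L))
  have h3 := ok_sum_Dens univ (fun C => w (Function.invFun Subgroup.zpowers C))
    fun C _ => ok_gen_Dens hφ C
  have e : ∀ σ : L ≃ₐ[ℚ] L, ∑ C, w (Function.invFun Subgroup.zpowers C) *
      (if Subgroup.zpowers σ = C then (1 : ℝ) else 0) = w σ := by
    intro σ
    simp only [mul_ite, mul_one, mul_zero, sum_ite_eq, mem_univ, if_true]
    exact h2 _ _ (Function.invFun_eq ⟨σ, rfl⟩)
  unfold ok_Dens at h3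
  simp only [e, h1, sum_const, card_univ, nsmul_eq_mul] at h3
  have h4 := h3.const_mul ((Fintype.card (L ≃ₐ[ℚ] L) : ℝ)⁻¹)
  have h5 : (Fintype.card (L ≃ₐ[ℚ] L) : ℝ) ≠ 0 := Nat.cast_ne_zero.2 Fintype.card_ne_zero
  rw [div_eq_inv_mul]
  exact h4.congr (Eventually.of_forall fun p _ => inv_mul_cancel_left₀ h5 _)

end Pool.Agent.PSD
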