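import Pool.Agent.P.MP_06afd2_nt.D1.Defs

/-!
Only diagonal solutions of the reciprocal congruence in primes.

Sketch. Let `Π = ∏ u i * ∏ u' i` and `E = ∑ Π / u i - ∑ Π / u' i` (exact divisions), `|E| ≤ s * B ^ (2 s - 1)`. In `ZMod D` one has `(Π / x : ℕ) = Π * x⁻¹`,
so `D ∣ c.val * E`, so `D / gcd ∣ E` and `E = 0` by size. Thus `∑ 1 / u i = ∑ 1 / u' i` in `ℚ`. If a prime `q = u' i` were not among the `u k`, then
`m / q = ∑ 1 / u k - ∑_{u' k ≠ q} 1 / u' k` with `1 ≤ m ≤ s < q` has `padicNorm q` equal to `q` on the left and `≤ 1` on the right (or argue with divisibility in `ℕ`).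
So `u'` takes values in the image of `u`: at most `s ^ s` choices for each `u`.
-/

namespace Pool.Agent.PSD

open Finset

theorem padic_Diag {s : ℕ} {u u' : Fin s → ℕ} (hu : ∀ i, (u i).Prime)
    (hu' : ∀ i, (u' i).Prime ∧ s < u' i)
    (h : ∑ i, (1 : ℚ) / u i = ∑ i, (1 : ℚ) / u' i) (i : Fin s) : ∃ k, u k = u' i := by
  by_contra H
  push Not at H
  set q := u' i with hq
  have : Fact q.Prime := ⟨(hu' i).1⟩
  have hone : ∀ x : ℕ, x.Prime → x ≠ q → padicNorm q ((1 : ℚ) / x) ≤ 1 := by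
    intro x hx hne
    have : Fact x.Prime := ⟨hx⟩
    rw [padicNorm.div, padicNorm.one, padicNorm.padicNorm_of_prime_of_ne hne.symm, div_one]
  set m := (univ.filter fun k => u' k = q).card with hm
  have hm1 : 0 < m := card_pos.2 ⟨i, by simp [hq]⟩
  have hm2 : m < q := by
    refine lt_of_le_of_lt ((card_filter_le _ _).trans ?_) (hu' i).2
    simp
  have e : (m : ℚ) / q = ∑ k, (1 : ℚ) / u k - ∑ k ∈ univ.filter (fun k => ¬ u' k = q),
      (1 : ℚ) / u' k := by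
    rw [h, ← sum_filter_add_sum_filter_not univ (fun k => u' k = q), add_sub_cancel_right,
      sum_congr rfl (g := fun _ => (1 : ℚ) / q) fun k hk => by rw [(mem_filter.1 hk).2],
      sum_const, nsmul_eq_mul, mul_one_div]
  have h1 : padicNorm q ((m : ℚ) / q) ≤ 1 := by
    rw [e]
    refine padicNorm.sub.trans (max_le ?_ ?_)
    · exact padicNorm.sum_le' (fun k _ => hone _ (hu k) (H k)) zero_le_one
    · exact padicNorm.sum_le' (fun k hk => hone _ (hu' k).1 (mem_filter.1 hk).2) zero_le_one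
  rw [padicNorm.div, (padicNorm.nat_eq_one_iff m).2 (Nat.not_dvd_of_pos_of_lt hm1 hm2),
    padicNorm.padicNorm_p_of_prime, one_div, inv_inv] at h1
  have h2 : (1 : ℚ) < q := by exact_mod_cast (hu' i).1.one_lt
  linarith

theorem bound_Diag {s B : ℕ} {u u' : Fin s → ℕ} (hu : ∀ i, u i ≤ B) (hu' : ∀ i, u' i ≤ B) :
    ∑ i, (∏ k ∈ univ.erase i, u k) * ∏ k, u' k ≤ s * B ^ (2 * s - 1) := by
  refine (sum_le_card_nsmul _ _ (B ^ (2 * s - 1)) fun i _ => ?_).trans (by simp)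
  have h1 : ∏ k ∈ univ.erase i, u k ≤ B ^ (s - 1) := by
    refine (prod_le_pow_card _ _ B fun k _ => hu k).trans ?_
    simp
  have h2 : ∏ k, u' k ≤ B ^ s := by
    refine (prod_le_pow_card _ _ B fun k _ => hu' k).trans ?_
    simp
  have h3 : 2 * s - 1 = s - 1 + s := by have := i.pos; omega
  rw [h3, pow_add]
  exact Nat.mul_le_mul h1 h2

theorem cast_Diag {R : Type*} [CommRing R] [Inv R] {s : ℕ} {u u' : Fin s → ℕ}
    (hu : ∀ i, (u i : R) * (u i : R)⁻¹ = 1) :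
    ((∑ i, (∏ k ∈ univ.erase i, u k) * ∏ k, u' k : ℕ) : R) =
      ((∏ k, u k : ℕ) : R) * ((∏ k, u' k : ℕ) : R) * ∑ i, (u i : R)⁻¹ := by
  rw [Nat.cast_sum, mul_sum]
  refine sum_congr rfl fun i _ => ?_
  rw [← mul_prod_erase univ u (mem_univ i), Nat.cast_mul, Nat.cast_mul]
  linear_combination (-((∏ k ∈ univ.erase i, u k : ℕ) : R) * ((∏ k, u' k : ℕ) : R)) * hu i

theorem rat_Diag {D : ℕ} [NeZero D] (c : ZMod D) {B s : ℕ} {u u' : Fin s → ℕ}
    (hu : ∀ i, (u i).Prime ∧ s < u i ∧ u i ≤ B ∧ (u i).Coprime D)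
    (hu' : ∀ i, (u' i).Prime ∧ s < u' i ∧ u' i ≤ B ∧ (u' i).Coprime D)
    (hsize : s * B ^ (2 * s - 1) * Nat.gcd c.val D < D)
    (h : c * ∑ i, ((u i : ℕ) : ZMod D)⁻¹ = c * ∑ i, ((u' i : ℕ) : ZMod D)⁻¹) :
    ∑ i, (1 : ℚ) / u i = ∑ i, (1 : ℚ) / u' i := by
  have h1 : c.val * ∑ i, (∏ k ∈ univ.erase i, u k) * ∏ k, u' k ≡
      c.val * ∑ i, (∏ k ∈ univ.erase i, u' k) * ∏ k, u k [MOD D] := by
    rw [← ZMod.natCast_eq_natCast_iff, Nat.cast_mul, Nat.cast_mul, ZMod.natCast_zmod_val,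
      cast_Diag fun i => ZMod.coe_mul_inv_eq_one _ (hu i).2.2.2,
      cast_Diag fun i => ZMod.coe_mul_inv_eq_one _ (hu' i).2.2.2]
    linear_combination (((∏ k, u k : ℕ) : ZMod D) * ((∏ k, u' k : ℕ) : ZMod D)) * h
  have h2 := Nat.ModEq.cancel_left_div_gcd (NeZero.pos D) h1
  have h3 : s * B ^ (2 * s - 1) < D / Nat.gcd D c.val := by
    rw [Nat.gcd_comm] at hsize
    refine Nat.lt_of_mul_lt_mul_right (a := Nat.gcd D c.val) ?_
    rwa [Nat.div_mul_cancel (Nat.gcd_dvd_left _ _)]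
  have h4 := h2.eq_of_lt_of_lt
    ((bound_Diag (fun i => (hu i).2.2.1) fun i => (hu' i).2.2.1).trans_lt h3)
    ((bound_Diag (fun i => (hu' i).2.2.1) fun i => (hu i).2.2.1).trans_lt h3)
  have h5 := congrArg (Nat.cast : ℕ → ℚ) h4
  rw [cast_Diag fun i => mul_inv_cancel₀ (Nat.cast_ne_zero.2 (hu i).1.ne_zero),
    cast_Diag fun i => mul_inv_cancel₀ (Nat.cast_ne_zero.2 (hu' i).1.ne_zero),
    mul_comm ((∏ k, u' k : ℕ) : ℚ)] at h5
  simp only [one_div]
  refine mul_left_cancel₀ (mul_ne_zero ?_ ?_) h5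
  · exact Nat.cast_ne_zero.2 (prod_ne_zero_iff.2 fun i _ => (hu i).1.ne_zero)
  · exact Nat.cast_ne_zero.2 (prod_ne_zero_iff.2 fun i _ => (hu' i).1.ne_zero)

theorem diag_count {D : ℕ} [NeZero D] (c : ZMod D) {X : Finset ℕ} {B s : ℕ}
    (hX : ∀ x ∈ X, x.Prime ∧ s < x ∧ x ≤ B ∧ x.Coprime D)
    (hsize : s * B ^ (2 * s - 1) * Nat.gcd c.val D < D) :
    (((Fintype.piFinset fun _ : Fin s => X) ×ˢ (Fintype.piFinset fun _ : Fin s => X)).filter
      fun u => c * ∑ i, ((u.1 i : ℕ) : ZMod D)⁻¹ = c * ∑ i, ((u.2 i : ℕ) : ZMod D)⁻¹).card ≤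
      s ^ s * X.card ^ s := by
  have hc : (Fintype.piFinset fun _ : Fin s => X).card = X.card ^ s := by simp
  rw [← hc]
  refine card_le_mul_card_image_of_maps_to (f := Prod.fst)
    (fun a ha => (mem_product.1 (mem_filter.1 ha).1).1) _ fun u hu => ?_
  have h1 : (Fintype.piFinset fun _ : Fin s => univ.image u).card ≤ s ^ s := by
    rw [Fintype.card_piFinset_const]
    exact Nat.pow_le_pow_left (card_image_le.trans (by simp)) s
  refine le_trans (card_le_card_of_injOn Prod.snd ?_ ?_) h1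
  · rintro ⟨v, v'⟩ hv
    simp only [coe_filter, mem_filter, mem_product, Fintype.mem_piFinset,
      Set.mem_ofPred_eq] at hv
    obtain ⟨⟨⟨h2, h3⟩, h4⟩, rfl⟩ := hv
    simp only [mem_coe, Fintype.mem_piFinset, mem_image, mem_univ, true_and]
    exact padic_Diag (fun i => (hX _ (h2 i)).1) (fun i => ⟨(hX _ (h3 i)).1, (hX _ (h3 i)).2.1⟩)
      (rat_Diag c (fun i => hX _ (h2 i)) (fun i => hX _ (h3 i)) hsize h4)
  · intro a ha b hb e
    exact Prod.ext ((mem_filter.1 ha).2.trans (mem_filter.1 hb).2.symm) e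

end Pool.Agent.PSD
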