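import Pool.Agent.P.MP_06afd2_nt.D1.Mart
import Pool.Agent.P.MP_06afd2_nt.D1.Dens

/-!
Mean values of the level sizes modulo `p`, and extinction of the tree modulo most primes.

Sketch. `L` = splitting field of `g K` over `ℚ`. For `y ∈ V L j`, `j < K`, the polynomial `F (K - j) - C y` divides `g K` in `L[X]`
(`g K = (g j).comp (F (K - j))`), so it has a root `u`, and `z = f^[K - j - 1] u` is a child of `y`. If `Full L K` and `a ≤ K` then `g a` splits in
`L` (`card_V`, `splits_iff_card_roots`), so `N a p = rt (g a) p = fixN a (φ p)` for large primes. `fixN a` is a class function and depends only on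
`zpowers σ`. Apply `mean_class`, `sum_fixN`, `extinct`.
-/

namespace Pool.Agent.PSD

open Finset Filter Topology Polynomial

theorem sub_dvd_Ext {R : Type*} [CommRing R] (j : ℕ) (a b : R) : a - b ∣ f^[j] a - f^[j] b := by
  induction j with
  | zero => exact dvd_rfl
  | succ j ih =>
    rw [Function.iterate_succ_apply', Function.iterate_succ_apply']
    refine ih.trans ⟨f^[j] a + f^[j] b, ?_⟩
    simp only [f]
    ring

theorem map_F_Ext (L : Type*) [Field L] (j : ℕ) :
    (F j).map (algebraMap ℤ L) = f^[j] (X : L[X]) := by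
  induction j with
  | zero => simp [F]
  | succ j ih =>
    rw [Function.iterate_succ_apply', ← ih]
    simp [F, f]

theorem full_of_splits_Ext {L : Type*} [Field L] {K : ℕ}
    (hs : ((g K).map (algebraMap ℤ L)).Splits) : Full L K := by
  intro j hj y hy
  obtain ⟨m, rfl⟩ := Nat.exists_eq_add_of_lt hj
  have e1 : (g (j + m + 1)).map (algebraMap ℤ L) =
      f^[j] (f^[m + 1] (X : L[X])) - f^[j] (C y) := by
    rw [g, Polynomial.map_sub, Polynomial.map_one, map_F_Ext, ← map_iter, mem_V.1 hy, map_one,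
      add_assoc, Function.iterate_add_apply]
  have e2 : f^[m + 1] (X : L[X]) = (F (m + 1)).map (algebraMap ℤ L) := (map_F_Ext L _).symm
  have h1 : (f^[m + 1] (X : L[X]) - C y).Splits :=
    hs.of_dvd ((g_monic _).map _).ne_zero (e1 ▸ sub_dvd_Ext j _ _)
  have h2 : (f^[m + 1] (X : L[X]) - C y).natDegree ≠ 0 := by
    rw [natDegree_sub_C, e2, (F_monic_natDegree _).1.natDegree_map, (F_monic_natDegree _).2]
    positivity
  obtain ⟨u, hu⟩ := h1.exists_eval_eq_zero (degree_ne_of_natDegree_ne h2)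
  refine ⟨f^[m] u, ?_⟩
  rw [e2, eval_sub, eval_C, eval_map_algebraMap, aeval_F, Function.iterate_succ_apply',
    sub_eq_zero] at hu
  exact hu

theorem exists_full (K : ℕ) :
    ∃ (L : Type) (_ : Field L) (_ : NumberField L) (_ : IsGalois ℚ L), Full L K := by
  let q : ℚ[X] := (g K).map (algebraMap ℤ ℚ)
  have : Normal ℚ q.SplittingField :=
    @Normal.of_isSplittingField _ _ _ _ _ q (IsSplittingField.splittingField q)
  refine ⟨q.SplittingField, inferInstance, ⟨⟩, ⟨⟩, full_of_splits_Ext ?_⟩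
  have := SplittingField.splits q
  rwa [Polynomial.map_map, ← IsScalarTower.algebraMap_eq] at this

theorem fixN_conj_Ext {L : Type*} [Field L] [Algebra ℚ L] (j : ℕ) (σ τ : L ≃ₐ[ℚ] L) :
    fixN j (τ⁻¹ * σ * τ) = fixN j σ := by
  classical
  unfold fixN
  refine card_nbij' τ τ.symm ?_ ?_ (fun y _ => τ.symm_apply_apply y)
    fun y _ => τ.apply_symm_apply y
  · intro y hy
    simp only [coe_filter, Set.mem_ofPred_eq] at hy ⊢
    refine ⟨map_mem_V τ hy.1, ?_⟩
    have := congrArg τ hy.2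
    simpa using this
  · intro y hy
    simp only [coe_filter, Set.mem_ofPred_eq] at hy ⊢
    refine ⟨map_mem_V τ.symm hy.1, ?_⟩
    simp [hy.2]

theorem fixN_zpowers_Ext {L : Type*} [Field L] [Algebra ℚ L] (j : ℕ) {σ τ : L ≃ₐ[ℚ] L}
    (h : Subgroup.zpowers σ = Subgroup.zpowers τ) : fixN j σ = fixN j τ := by
  classical
  unfold fixN
  congr 1
  refine filter_congr fun y _ => ?_
  change σ ∈ MulAction.stabilizer (L ≃ₐ[ℚ] L) y ↔ τ ∈ MulAction.stabilizer (L ≃ₐ[ℚ] L) y
  rw [← Subgroup.zpowers_le, ← Subgroup.zpowers_le, h]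

theorem mean_fun_Ext {L : Type*} [Field L] [NumberField L] [IsGalois ℚ L] {K a : ℕ}
    (h : Full L K) (ha : a ≤ K) (W : ℕ → ℝ) :
    HasMean (fun p => W (N a p)) ((∑ σ : L ≃ₐ[ℚ] L, W (fixN a σ)) / Fintype.card (L ≃ₐ[ℚ] L)) := by
  classical
  obtain ⟨φ, hφ⟩ := exists_frob L
  have hs : ((g a).map (algebraMap ℤ L)).Splits := by
    rw [splits_iff_card_roots]
    refine le_antisymm (card_roots' _) ?_
    rw [(g_monic a).natDegree_map, g_natDegree, ← card_V h ha]
    exact Multiset.toFinset_card_le _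
  refine (mean_class L hφ (fun σ => W (fixN a σ)) (fun σ τ => by rw [fixN_conj_Ext])
    fun σ τ e => by rw [fixN_zpowers_Ext a e]).congr ?_
  filter_upwards [hφ (g a) (g_monic a) hs] with p hp hpp
  rw [N_eq_rt, hp hpp]
  rfl

theorem mean_N (a : ℕ) : HasMean (fun p => (N a p : ℝ)) 1 := by
  obtain ⟨L, _, _, _, h⟩ := exists_full a
  have := mean_fun_Ext h le_rfl fun n => (n : ℝ)
  rwa [← Nat.cast_sum, sum_fixN h le_rfl, div_self (by exact_mod_cast Fintype.card_ne_zero)] at this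

theorem mean_dead_one : HasMean (fun p => if N 1 p = 0 then 1 else 0) (1 / 2) := by
  classical
  obtain ⟨L, _, _, _, h⟩ := exists_full 1
  have key : ∀ σ : L ≃ₐ[ℚ] L,
      (if fixN 1 σ = 0 then 1 else 0 : ℝ) = 1 - (fixN 1 σ : ℝ) / 2 := fun σ => by
    split_ifs with h0
    · simp [h0]
    · obtain ⟨y, hy⟩ := card_ne_zero.1 h0
      rw [mem_filter] at hy
      have h1 : y ≠ -y := fun e => ne_zero_of_mem_V hy.1 (self_eq_neg.1 e)
      have h2 : 2 ≤ fixN 1 σ := by
        refine one_lt_card.2 ⟨y, mem_filter.2 hy, -y, mem_filter.2 ⟨neg_mem_V le_rfl hy.1, ?_⟩, h1⟩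
        rw [map_neg, hy.2]
      have h3 : fixN 1 σ ≤ 2 := (card_filter_le _ _).trans (card_V_le L 1)
      rw [le_antisymm h3 h2]
      norm_num
  have := mean_fun_Ext h le_rfl fun n => if n = 0 then 1 else 0
  have h0 : (Fintype.card (L ≃ₐ[ℚ] L) : ℝ) ≠ 0 := by exact_mod_cast Fintype.card_ne_zero
  have e : (∑ σ : L ≃ₐ[ℚ] L, (if fixN 1 σ = 0 then 1 else 0 : ℝ)) / Fintype.card (L ≃ₐ[ℚ] L) =
      1 / 2 := by
    simp only [key]
    rw [sum_sub_distrib, ← sum_div, ← Nat.cast_sum, sum_fixN h le_rfl, sum_const, card_univ,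
      nsmul_eq_mul]
    field_simp
    ring
  rwa [e] at this

theorem mean_alive {ε : ℝ} (hε : 0 < ε) (K₀ : ℕ) : ∃ K, K₀ ≤ K ∧ ∃ θ : ℝ, θ ≤ ε ∧
    HasMean (fun p => if N K p = 0 then 0 else 1) θ := by
  obtain ⟨K₁, hK⟩ := extinct hε
  obtain ⟨L, _, _, _, h⟩ := exists_full (max K₀ K₁)
  refine ⟨max K₀ K₁, le_max_left _ _, _, ?_,
    mean_fun_Ext h le_rfl fun n => if n = 0 then 0 else 1⟩
  rw [div_le_iff₀ (by exact_mod_cast Fintype.card_pos)]
  refine le_of_eq_of_le ?_ (hK _ (le_max_right _ _) L h)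
  rw [card_filter]
  push_cast
  refine sum_congr rfl fun σ _ => ?_
  simp only [ne_eq, ite_not]

end Pool.Agent.PSD
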