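import Pool.Agent.P.MP_06afd2_nt.D1.Defs2

/-!
A typical integer `n` with `P m = P n` carries a configuration.

Sketch. Each `q i` divides `n`, so lies in `P n = P m`; as `N 1 (q i) = 0`, the first time `k` with `f^[k] m = 0` modulo `q i` has `m ≡ 0, 1, -1`. (General fact: if `N K p = 0` and `f^[k] s = 0` for some `k` then
`s = 0`, `s = ± 1` or `f^[b] s = 1` with `1 ≤ b < K`: take `k` minimal.) Pigeonhole on `Fin 4 → {-1, 0, 1}`: `x = q i`, `y = q i'`, `i < i'`, same `j`; `x ^ 5 ≤ y`, so `x ≠ y` and `x y ∣ n`, `x y ∣ m - j`.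
`a = Nat.log 2 x`, `b = Nat.log 2 y`; `(x y ^ (2 t)) ^ 20 ≤ y ^ (40 t + 4) ≤ X ^ 20` gives `Adm`. Remove from the set in `Typ2` the primes dividing the nonzero integer `m (m ^ 2 - 1) (m ^ 2 - n ^ 2)`, of absolute value `≤ X ^ 5`;
the remaining primes have product `≥ X ^ 5 ≥ AA * EE`; each of them lies in `P n = P m` (`f^[a + 1] n = 0`), so satisfies `Res`. A minimal subset with product `≥ AA * EE` has product `≤ AA * EE ^ 2`
(each prime is `≤ EE`, `mem_Win`; the subset is nonempty or `1 ≤ AA * EE ^ 2`, note `AA ≥ 1`).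
-/

namespace Pool.Agent.PSD

open Finset Filter Topology

theorem first_zero_Pair {K p : ℕ} (hp : p.Prime) (hN : N K p = 0) (s : ZMod p) (k : ℕ)
    (hk : f^[k] s = 0) : s = 0 ∨ s = 1 ∨ s = -1 ∨ ∃ b, 1 ≤ b ∧ b < K ∧ f^[b] s = 1 := by
  have := Fact.mk hp
  induction k using Nat.strong_induction_on with
  | _ k ih =>
    rcases k with _ | k
    · exact .inl hk
    rw [Function.iterate_succ_apply', f, sub_eq_zero, sq_eq_one_iff] at hk
    rcases k with _ | k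
    · exact .inr (hk.imp_right .inl)
    rcases hk with hk | hk
    · refine .inr (.inr (.inr ⟨k + 1, by omega, ?_, hk⟩))
      by_contra hc
      obtain ⟨d, hd⟩ := Nat.exists_eq_add_of_le (not_lt.1 hc)
      rw [hd, Function.iterate_add_apply] at hk
      exact (N_eq_zero_iff hp.pos K).1 hN _ hk
    · refine ih k (by omega) ?_
      rw [Function.iterate_succ_apply', f] at hk
      exact pow_eq_zero_iff two_ne_zero |>.1 (by linear_combination hk)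

theorem exists_sub_Pair {A E : ℝ} (hA : 1 ≤ A) (hE : 1 ≤ E) (W : Finset ℕ)
    (hW : ∀ p ∈ W, (p : ℝ) ≤ E) (h : A ≤ ((∏ p ∈ W, p : ℕ) : ℝ)) :
    ∃ S ⊆ W, A ≤ ((∏ p ∈ S, p : ℕ) : ℝ) ∧ ((∏ p ∈ S, p : ℕ) : ℝ) ≤ A * E := by
  induction W using Finset.induction_on with
  | empty => exact ⟨∅, Subset.rfl, h, by simpa using one_le_mul_of_one_le_of_one_le hA hE⟩
  | insert p W hp ih =>
    by_cases hc : A ≤ ((∏ p ∈ W, p : ℕ) : ℝ)
    · obtain ⟨S, h1, h2⟩ := ih (fun q hq => hW q (mem_insert_of_mem hq)) hc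
      exact ⟨S, h1.trans (subset_insert _ _), h2⟩
    · refine ⟨_, Subset.rfl, h, ?_⟩
      rw [prod_insert hp, Nat.cast_mul, mul_comm A]
      exact mul_le_mul (hW p (mem_insert_self _ _)) (not_le.1 hc).le (Nat.cast_nonneg _)
        (by linarith)

theorem log_prod_Pair {W : Finset ℕ} (h : ∀ p ∈ W, p.Prime) :
    Real.log ((∏ p ∈ W, p : ℕ) : ℝ) = ∑ p ∈ W, Real.log p := by
  rw [Nat.cast_prod, Real.log_prod fun p hp => Nat.cast_ne_zero.2 (h p hp).ne_zero]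

theorem big_Pair {X : ℕ} (hX : 2 ≤ X) {W : Finset ℕ} (h : ∀ p ∈ W, p.Prime) {D : ℤ} (h0 : D ≠ 0)
    (hD : |D| ≤ (X : ℤ) ^ 5) (hs : 10 * Real.log X ≤ ∑ p ∈ W, Real.log p) :
    (X : ℝ) ^ 5 ≤ ((∏ p ∈ W.filter fun p : ℕ => ¬ (p : ℤ) ∣ D, p : ℕ) : ℝ) := by
  have hX' : (2 : ℝ) ≤ X := by exact_mod_cast hX
  have pos : ∀ S : Finset ℕ, S ⊆ W → (0 : ℝ) < ((∏ p ∈ S, p : ℕ) : ℝ) := fun S hS =>
    Nat.cast_pos.2 (prod_pos fun p hp => (h p (hS hp)).pos)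
  have h1 : ∏ p ∈ W.filter fun p : ℕ => (p : ℤ) ∣ D, p ∣ D.natAbs :=
    prod_primes_dvd _ (fun p hp => (h p (mem_filter.1 hp).1).prime)
      fun p hp => Int.natCast_dvd.1 (mem_filter.1 hp).2
  have h2 : D.natAbs ≤ X ^ 5 := by
    rw [← Int.natCast_natAbs] at hD
    exact_mod_cast hD
  have h3 := (Nat.le_of_dvd (Int.natAbs_pos.2 h0) h1).trans h2
  have h4 := Real.log_le_log (pos _ (filter_subset _ _))
    (show _ ≤ (X : ℝ) ^ 5 by exact_mod_cast h3)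
  rw [log_prod_Pair fun p hp => h p (mem_filter.1 hp).1, Real.log_pow] at h4
  rw [← sum_filter_add_sum_filter_not W fun p : ℕ => (p : ℤ) ∣ D] at hs
  rw [← Real.log_le_log_iff (by positivity) (pos _ (filter_subset _ _)),
    log_prod_Pair fun p hp => h p (mem_filter.1 hp).1, Real.log_pow]
  push_cast at h4 ⊢
  linarith

theorem exists_S_Pair {T K X n m a b : ℕ} (hT : 1 ≤ T) (hn : 2 ≤ n) (hnX : n ≤ X) (hm : 2 ≤ m)
    (hmX : m ≤ X) (hne : m ≠ n)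
    (hP : Pool.Agent.P.MP_06afd2_nt.P m = Pool.Agent.P.MP_06afd2_nt.P n)
    (h2 : Typ2 X (De T) K n) (hab : 2 ^ a * 2 ^ b ≤ X) : ∃ S, Sz X T a b S ∧ Res K S n m := by
  have hX : 2 ≤ X := hn.trans hnX
  have hX' : (2 : ℝ) ≤ X := by exact_mod_cast hX
  have hm' : (2 : ℤ) ≤ m := by exact_mod_cast hm
  have hn' : (2 : ℤ) ≤ n := by exact_mod_cast hn
  have hmX' : (m : ℤ) ≤ X := by exact_mod_cast hmX
  have hnX' : (n : ℤ) ≤ X := by exact_mod_cast hnX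
  have q1 : (m : ℤ) ^ 2 ≤ (X : ℤ) ^ 2 := pow_le_pow_left₀ (by linarith) hmX' 2
  have q2 : (n : ℤ) ^ 2 ≤ (X : ℤ) ^ 2 := pow_le_pow_left₀ (by linarith) hnX' 2
  have q3 : (0 : ℤ) < (m : ℤ) ^ 2 - 1 := by nlinarith only [hm']
  have h0 : (m : ℤ) * ((m : ℤ) ^ 2 - 1) * ((m : ℤ) ^ 2 - (n : ℤ) ^ 2) ≠ 0 := by
    refine mul_ne_zero (mul_ne_zero (by linarith) q3.ne') fun h => hne ?_
    have := (pow_left_inj₀ (by linarith) (by linarith) two_ne_zero).1 (sub_eq_zero.1 h)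
    exact_mod_cast this
  have hD : |(m : ℤ) * ((m : ℤ) ^ 2 - 1) * ((m : ℤ) ^ 2 - (n : ℤ) ^ 2)| ≤ (X : ℤ) ^ 5 := by
    rw [abs_mul, abs_of_pos (mul_pos (by linarith) q3),
      show (X : ℤ) ^ 5 = X * X ^ 2 * X ^ 2 by ring]
    refine mul_le_mul (mul_le_mul hmX' (by linarith) q3.le (by linarith))
      (abs_le.2 ⟨?_, ?_⟩) (abs_nonneg _) (by positivity)
    · linarith [sq_nonneg (m : ℤ)]
    · linarith [sq_nonneg (n : ℤ)]
  have hbig := big_Pair hX (fun p hp => ((mem_Win hT).1 (mem_filter.1 hp).1).1) h0 hD h2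
  have hDe : (1 : ℝ) ≤ De T := by
    have : 1 ≤ De T := Nat.one_le_iff_ne_zero.2 (by unfold De; positivity)
    exact_mod_cast this
  have hE1 : 1 ≤ EE X T := Real.one_le_rpow (by linarith) (by positivity)
  have hE2 : EE X T ≤ X := by
    refine (Real.rpow_le_rpow_of_exponent_le (by linarith)
      ((div_le_one (by linarith)).2 hDe)).trans_eq (Real.rpow_one _)
  have hA1 : (1 : ℝ) ≤ AA X a b := by
    have : 1 ≤ AA X a b := (Nat.one_le_div_iff (by positivity)).2 (by omega)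
    exact_mod_cast this
  have hA2 : (AA X a b : ℝ) ≤ X + 1 := by
    have : AA X a b ≤ X + 1 := Nat.div_le_self _ _
    exact_mod_cast this
  have hAE : AA X a b * EE X T ≤ (X : ℝ) ^ 5 := by
    have k1 : (X : ℝ) + 1 ≤ X ^ 2 := by nlinarith only [hX']
    calc _ ≤ (X : ℝ) ^ 2 * X := mul_le_mul (hA2.trans k1) hE2 (by linarith) (by positivity)
      _ = X ^ 3 := by ring
      _ ≤ _ := pow_le_pow_right₀ (by linarith) (by norm_num)
  obtain ⟨S, hS, s1, s2⟩ := exists_sub_Pair (one_le_mul_of_one_le_of_one_le hA1 hE1) hE1 _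
    (fun p hp => ((mem_Win hT).1 (mem_filter.1 (mem_filter.1 hp).1).1).2.2) (hAE.trans hbig)
  refine ⟨S, ⟨fun p hp => (mem_filter.1 (mem_filter.1 (hS hp)).1).1, s1, s2.trans_eq (by ring)⟩,
    fun p hp => ?_⟩
  obtain ⟨k1, k2⟩ := mem_filter.1 (hS hp)
  obtain ⟨k3, k4, k5⟩ := mem_filter.1 k1
  have hpp := ((mem_Win hT).1 k3).1
  rw [← ZMod.intCast_zmod_eq_zero_iff_dvd] at k2
  push_cast at k2
  have hpn : p ∈ Pool.Agent.P.MP_06afd2_nt.P n := by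
    obtain ⟨c, -, -, hc⟩ := k5
    exact mem_P_iff.2 ⟨hpp, c + 1, by rw [Function.iterate_succ_apply', hc]; simp [f]⟩
  rw [← hP] at hpn
  obtain ⟨-, k, hk⟩ := mem_P_iff.1 hpn
  refine ⟨k5, ?_, fun h => k2 (by rw [h]; ring)⟩
  rcases first_zero_Pair hpp k4 _ k hk with h | h | h | ⟨c, c1, c2, c3⟩
  · exact absurd (by rw [h]; ring) k2
  · exact absurd (by rw [h]; ring) k2
  · exact absurd (by rw [h]; ring) k2
  · exact ⟨c, c1, c2.le, c3⟩

theorem exists_j_Pair {q n m : ℕ} (hq : q.Prime) (hN : N 1 q = 0) (hd : q ∣ n)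
    (hP : Pool.Agent.P.MP_06afd2_nt.P m = Pool.Agent.P.MP_06afd2_nt.P n) :
    ∃ j ∈ Icc (-1 : ℤ) 1, (q : ℤ) ∣ m - j := by
  have h1 : q ∈ Pool.Agent.P.MP_06afd2_nt.P n :=
    mem_P_iff.2 ⟨hq, 0, (ZMod.natCast_eq_zero_iff _ _).2 hd⟩
  rw [← hP] at h1
  obtain ⟨-, k, hk⟩ := mem_P_iff.1 h1
  simp only [← ZMod.intCast_zmod_eq_zero_iff_dvd]
  rcases first_zero_Pair hq hN _ k hk with h | h | h | ⟨c, c1, c2, -⟩
  · exact ⟨0, by simp, by simp [h]⟩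
  · exact ⟨1, by simp, by simp [h]⟩
  · exact ⟨-1, by simp, by simp [h]⟩
  · omega

theorem pair_cfg {T : ℕ} (hT : 1 ≤ T) (K : ℕ) : ∀ᶠ X : ℕ in atTop, ∀ n m : ℕ, 2 ≤ n → n ≤ X →
    2 ≤ m → m ≤ X → m ≠ n → Pool.Agent.P.MP_06afd2_nt.P m = Pool.Agent.P.MP_06afd2_nt.P n →
    Typ1 X T n → Typ2 X (De T) K n →
      ∃ a ≤ Nat.log 2 X, ∃ b ≤ Nat.log 2 X, Adm X T a b ∧ Bad X T K a b n := by
  refine Eventually.of_forall fun X n m hn hnX hm hmX hne hP h1 h2 => ?_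
  obtain ⟨q, hq, hsep⟩ := h1
  choose j hj hjd using fun i => exists_j_Pair (hq i).1.1 (hq i).1.2.1 (hq i).2 hP
  obtain ⟨i, i', hii, he⟩ : ∃ i i', i < i' ∧ j i = j i' := by
    obtain ⟨i, -, i', -, hne, he⟩ := exists_ne_map_eq_of_card_lt_of_maps_to
      (s := (univ : Finset (Fin 4))) (t := Icc (-1 : ℤ) 1) (by simp) (f := j) fun i _ => hj i
    rcases lt_or_gt_of_ne hne with h | h
    · exact ⟨i, i', h, he⟩
    · exact ⟨i', i, h, he.symm⟩
  have h5 := hsep i i' hii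
  obtain ⟨⟨hx, -, hxT, -⟩, hxn⟩ := hq i
  obtain ⟨⟨hy, -, hyT, t, t1, t2, t3, t4⟩, hyn⟩ := hq i'
  have d1 := hjd i
  have d2 := hjd i'
  rw [← he] at d2
  have hj1 := abs_le.2 (mem_Icc.1 (hj i))
  generalize q i = x at *
  generalize q i' = y at *
  have hlt : x < y := (lt_self_pow₀ hx.one_lt (by norm_num)).trans_le h5
  have hco : x.Coprime y := (Nat.coprime_primes hx hy).2 hlt.ne
  have hxy : x * y ∣ n := hco.mul_dvd_of_dvd_of_dvd hxn hyn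
  have hxX : x ≤ X := (Nat.le_of_dvd (by omega) hxn).trans hnX
  have hyX : y ≤ X := (Nat.le_of_dvd (by omega) hyn).trans hnX
  have a1 : 2 ^ Nat.log 2 x ≤ x := Nat.pow_log_le_self 2 hx.ne_zero
  have b1 : 2 ^ Nat.log 2 y ≤ y := Nat.pow_log_le_self 2 hy.ne_zero
  have a2 : x ≤ 2 * 2 ^ Nat.log 2 x := by
    rw [← pow_succ']; exact (Nat.lt_pow_succ_log_self one_lt_two x).le
  have b2 : y ≤ 2 * 2 ^ Nat.log 2 y := by
    rw [← pow_succ']; exact (Nat.lt_pow_succ_log_self one_lt_two y).le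
  obtain ⟨S, s1, s2⟩ := exists_S_Pair hT hn hnX hm hmX hne hP h2
    ((Nat.mul_le_mul a1 b1).trans ((Nat.le_of_dvd (by omega) hxy).trans hnX))
  refine ⟨Nat.log 2 x, Nat.log_mono_right hxX, Nat.log 2 y, Nat.log_mono_right hyX,
    ⟨(Nat.pow_le_pow_left a1 5).trans (h5.trans b2), hxT.trans (Nat.pow_le_pow_left a2 T),
      t, t1, t2, ?_, t4.trans_le (Nat.pow_le_pow_left b2 _)⟩,
    by omega, hnX, m, j i, x, y, S, hmX, hj1,
    mem_filter.2 ⟨mem_range.2 (by omega), hx, rfl, hxT⟩,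
    mem_filter.2 ⟨mem_range.2 (by omega), hy, rfl, hyT⟩, hxy,
    (Nat.isCoprime_iff_coprime.2 hco).mul_dvd d1 d2, s1, s2⟩
  refine (Nat.mul_le_mul a1 (Nat.pow_le_pow_left b1 _)).trans
    ((Nat.pow_le_pow_iff_left (show 20 ≠ 0 by norm_num)).1 ?_)
  calc (x * y ^ (2 * t)) ^ 20 = (x ^ 5) ^ 4 * y ^ (40 * t) := by ring
    _ ≤ y ^ 5 * y ^ (40 * t) := Nat.mul_le_mul_right _
        ((Nat.pow_le_pow_left h5 4).trans (Nat.pow_le_pow_right hy.pos (by norm_num)))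
    _ = (y ^ (8 * t + 1)) ^ 5 := by ring
    _ ≤ (X ^ 4) ^ 5 := Nat.pow_le_pow_left t3 5
    _ = X ^ 20 := by ring

end Pool.Agent.PSD
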