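import Pool.Agent.P.MP_06afd2_nt.D1.Ext
import Pool.Agent.P.MP_06afd2_nt.D1.TK
import Pool.Agent.P.MP_06afd2_nt.D1.Defs2

/-!
Almost all integers have four well separated good prime factors.

For `t ≥ 1` let `St X t` be the primes `p` with `N 1 p = 0` and `p ^ (8 t + 1) ≤ X ^ 4 < p ^ (8 t + 3)`.
These sets are disjoint and have reciprocal sum eventually at least `1 / (16 t + 6)`. Since the harmonic
series diverges, four well separated blocks of values of `t` each carry a large reciprocal sum, and the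
Turan-Kubilius inequality shows that almost all integers have a prime factor in each block.
-/

namespace Pool.Agent.PSD

open Finset Filter Topology

/-- the primes of one range -/
noncomputable def St_Typ1 (X t : ℕ) : Finset ℕ :=
  (Pr ((X : ℝ) ^ ((4 : ℝ) / (8 * t + 1))) \ Pr ((X : ℝ) ^ ((4 : ℝ) / (8 * t + 3)))).filter
    fun p => N 1 p = 0

theorem le_rpow_iff_Typ1 (X p k : ℕ) (hk : k ≠ 0) :
    (p : ℝ) ≤ (X : ℝ) ^ ((4 : ℝ) / k) ↔ p ^ k ≤ X ^ 4 := by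
  have hX : (0 : ℝ) ≤ X := Nat.cast_nonneg _
  have hk' : (k : ℝ) ≠ 0 := by exact_mod_cast hk
  have h1 : ((X : ℝ) ^ ((4 : ℝ) / k)) ^ k = (X : ℝ) ^ 4 := by
    rw [← Real.rpow_natCast, ← Real.rpow_mul hX, div_mul_cancel₀ _ hk']
    exact_mod_cast Real.rpow_natCast (X : ℝ) 4
  rw [← pow_le_pow_iff_left₀ (Nat.cast_nonneg p) (Real.rpow_nonneg hX _) hk, h1]
  norm_cast

theorem mem_St_Typ1 {X t p : ℕ} : p ∈ St_Typ1 X t ↔
    p.Prime ∧ N 1 p = 0 ∧ p ^ (8 * t + 1) ≤ X ^ 4 ∧ X ^ 4 < p ^ (8 * t + 3) := by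
  have hX : (0 : ℝ) ≤ X := Nat.cast_nonneg _
  have e1 := le_rpow_iff_Typ1 X p (8 * t + 1) (by omega)
  have e2 := le_rpow_iff_Typ1 X p (8 * t + 3) (by omega)
  push_cast at e1 e2
  rw [St_Typ1, mem_filter, Finset.mem_sdiff, mem_Pr (Real.rpow_nonneg hX _),
    mem_Pr (Real.rpow_nonneg hX _), e1, e2]
  constructor
  · rintro ⟨⟨⟨h1, h2⟩, h3⟩, h4⟩
    exact ⟨h1, h4, h2, lt_of_not_ge fun h => h3 ⟨h1, h⟩⟩
  · rintro ⟨h1, h2, h3, h4⟩
    exact ⟨⟨⟨h1, h3⟩, fun h => absurd h.2 (not_le.mpr h4)⟩, h2⟩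

theorem mass_St_Typ1 (t : ℕ) : ∀ᶠ X : ℕ in atTop,
    1 / (16 * (t : ℝ) + 6) ≤ ∑ p ∈ St_Typ1 X t, (1 : ℝ) / p := by
  have ht : (0 : ℝ) ≤ t := Nat.cast_nonneg _
  have ha : (0 : ℝ) < 4 / (8 * t + 3) := by positivity
  have hab : (4 : ℝ) / (8 * t + 3) ≤ 4 / (8 * t + 1) :=
    div_le_div_of_nonneg_left (by norm_num) (by positivity) (by linarith)
  have h := (mean_dead_one.window ha hab).comp tendsto_natCast_atTop_atTop
  have hlt : (2 : ℝ) / ((8 * t + 1) * (8 * t + 3)) <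
      1 / 2 * (4 / (8 * t + 1) - 4 / (8 * t + 3)) := by
    have : (1 : ℝ) / 2 * (4 / (8 * t + 1) - 4 / (8 * t + 3)) =
        4 / ((8 * t + 1) * (8 * t + 3)) := by
      field_simp
      ring
    rw [this]
    exact div_lt_div_of_pos_right (by norm_num) (by positivity)
  filter_upwards [h.eventually (lt_mem_nhds hlt), eventually_ge_atTop 2] with X h1 hX2
  have hX : (1 : ℝ) < X := by exact_mod_cast hX2
  have hL : 0 < Real.log X := Real.log_pos hX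
  simp only [Function.comp] at h1
  rw [lt_div_iff₀ hL] at h1
  have h2 : ∑ p ∈ Pr ((X : ℝ) ^ ((4 : ℝ) / (8 * t + 1))) \ Pr ((X : ℝ) ^ ((4 : ℝ) / (8 * t + 3))),
      (if N 1 p = 0 then (1 : ℝ) else 0) * (Real.log p / p) =
      ∑ p ∈ St_Typ1 X t, Real.log p / p := by
    rw [St_Typ1, sum_filter]
    refine sum_congr rfl fun p _ => ?_
    split_ifs <;> simp
  rw [h2] at h1
  have h3 : ∑ p ∈ St_Typ1 X t, Real.log p / p ≤
      ∑ p ∈ St_Typ1 X t, 4 * Real.log X / (8 * t + 1) * ((1 : ℝ) / p) := by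
    refine sum_le_sum fun p hp => ?_
    obtain ⟨hp1, -, hp2, -⟩ := mem_St_Typ1.mp hp
    have hp0 : (0 : ℝ) < p := by exact_mod_cast hp1.pos
    have h4 : ((p : ℝ)) ^ (8 * t + 1) ≤ (X : ℝ) ^ 4 := by exact_mod_cast hp2
    have h5 := Real.log_le_log (by positivity) h4
    rw [Real.log_pow, Real.log_pow] at h5
    push_cast at h5
    have h6 : Real.log p ≤ 4 * Real.log X / (8 * t + 1) := by
      rw [le_div_iff₀ (by positivity)]
      linarith
    rw [mul_one_div]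
    exact div_le_div_of_nonneg_right h6 hp0.le
  rw [← mul_sum] at h3
  have h7 : (2 : ℝ) / ((8 * t + 1) * (8 * t + 3)) * Real.log X =
      4 * Real.log X / (8 * t + 1) * (1 / (16 * t + 6)) := by
    field_simp
    ring
  rw [h7] at h1
  exact le_of_mul_le_mul_left (h1.le.trans h3) (by positivity)

theorem harm_Typ1 (A : ℕ) (C : ℝ) : ∃ B, A ≤ B ∧ C ≤ ∑ t ∈ Ico A B, 1 / (16 * (t : ℝ) + 6) := by
  have h := Real.tendsto_sum_range_one_div_nat_succ_atTop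
  obtain ⟨B, hB1, hB2⟩ := ((h.eventually (eventually_ge_atTop
    (16 * C + ∑ i ∈ range A, 1 / ((i : ℝ) + 1)))).and (eventually_ge_atTop A)).exists
  refine ⟨B, hB2, ?_⟩
  rw [← sum_range_add_sum_Ico _ hB2] at hB1
  have h1 : ∑ t ∈ Ico A B, 1 / ((t : ℝ) + 1) ≤ ∑ t ∈ Ico A B, 16 * (1 / (16 * (t : ℝ) + 6)) := by
    refine sum_le_sum fun t _ => ?_
    have ht : (0 : ℝ) ≤ t := Nat.cast_nonneg _
    rw [mul_one_div, div_le_div_iff₀ (by positivity) (by positivity)]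
    linarith
  rw [← mul_sum] at h1
  linarith

theorem ro_zero_Typ1 {p : ℕ} (hp : 0 < p) : ro (fun p (r : ZMod p) => r = 0) p = 1 := by
  rw [ro, card_eq_one]
  refine ⟨0, ?_⟩
  ext x
  simp only [mem_filter, mem_range, mem_singleton, ZMod.natCast_eq_zero_iff]
  constructor
  · rintro ⟨h1, h2⟩
    exact Nat.eq_zero_of_dvd_of_lt h2 h1
  · rintro rfl
    exact ⟨hp, dvd_zero _⟩

open Classical in
theorem block_Typ1 {A : ℕ} (hA : 1 ≤ A) {δ : ℝ} (hδ : 0 < δ) : ∃ B, A ≤ B ∧ ∀ᶠ X : ℕ in atTop,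
    (((range X).filter fun n => ¬ ∃ t p, A ≤ t ∧ t < B ∧ p ∈ St_Typ1 X t ∧ p ∣ n).card : ℝ) ≤
      δ * X := by
  obtain ⟨B, hB, hC⟩ := harm_Typ1 A (8 / δ + 1)
  refine ⟨B, hB, ?_⟩
  have h1 : ∀ᶠ X : ℕ in atTop, ∀ t ∈ Ico A B,
      1 / (16 * (t : ℝ) + 6) ≤ ∑ p ∈ St_Typ1 X t, (1 : ℝ) / p :=
    (eventually_all_finset _).mpr fun t _ => mass_St_Typ1 t
  have h2 : ∀ᶠ X : ℕ in atTop, (X : ℝ) ^ (-(1 / 9 : ℝ)) ≤ δ / 24 :=
    ((tendsto_rpow_neg_atTop (by norm_num : (0 : ℝ) < 1 / 9)).comp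
      tendsto_natCast_atTop_atTop).eventually (ge_mem_nhds (by positivity))
  filter_upwards [h1, h2, eventually_ge_atTop 1] with X h1 h2 hX1
  have hX : (0 : ℝ) < X := by exact_mod_cast hX1
  set S : Finset ℕ := (Ico A B).biUnion fun t => St_Typ1 X t with hS
  have hSp : ∀ p ∈ S, p.Prime := fun p hp => by
    obtain ⟨t, -, ht⟩ := mem_biUnion.mp hp
    exact (mem_St_Typ1.mp ht).1
  have hdis : Set.PairwiseDisjoint (↑(Ico A B) : Set ℕ) fun t => St_Typ1 X t := by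
    have key : ∀ t t' p, t < t' → p ∈ St_Typ1 X t → p ∈ St_Typ1 X t' → False := by
      intro t t' p htt hp hp'
      obtain ⟨hp1, -, -, hp2⟩ := mem_St_Typ1.mp hp
      obtain ⟨-, -, hp3, -⟩ := mem_St_Typ1.mp hp'
      have : p ^ (8 * t + 3) ≤ p ^ (8 * t' + 1) := Nat.pow_le_pow_right hp1.pos (by omega)
      omega
    intro t _ t' _ htt
    refine disjoint_left.mpr fun p hp hp' => ?_
    rcases lt_or_gt_of_ne htt with h | h
    · exact key _ _ _ h hp hp'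
    · exact key _ _ _ h hp' hp
  have hmu : mu (fun p (r : ZMod p) => r = 0) S (fun _ => 1) = ∑ p ∈ S, (1 : ℝ) / p :=
    sum_congr rfl fun p hp => by rw [ro_zero_Typ1 (hSp p hp).pos]; simp
  have hva : va (fun p (r : ZMod p) => r = 0) S (fun _ => 1) = ∑ p ∈ S, (1 : ℝ) / p :=
    sum_congr rfl fun p hp => by rw [ro_zero_Typ1 (hSp p hp).pos]; simp
  have her : er (fun p (r : ZMod p) => r = 0) S (fun _ => 1) = S.card := by
    rw [card_eq_sum_ones, Nat.cast_sum]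
    exact sum_congr rfl fun p hp => by rw [ro_zero_Typ1 (hSp p hp).pos]; simp
  have tk := tk_dev (fun p (r : ZMod p) => r = 0) X hSp (w := fun _ => 1) (fun _ _ => zero_le_one)
  rw [hmu, hva, her] at tk
  set μ : ℝ := ∑ p ∈ S, (1 : ℝ) / p with hμ
  have hμ1 : 8 / δ + 1 ≤ μ := by
    rw [hμ, hS, sum_biUnion hdis]
    exact hC.trans (sum_le_sum h1)
  have hμ2 : μ ≤ S.card := by
    rw [hμ, card_eq_sum_ones, Nat.cast_sum]
    refine sum_le_sum fun p hp => ?_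
    have : (1 : ℝ) ≤ p := by exact_mod_cast (hSp p hp).pos
    rw [Nat.cast_one, div_le_one (by linarith)]
    exact this
  have hcard : (S.card : ℝ) ≤ (X : ℝ) ^ ((4 : ℝ) / 9) := by
    have hsub : S ⊆ Ioc 0 ⌊(X : ℝ) ^ ((4 : ℝ) / 9)⌋₊ := by
      intro p hp
      obtain ⟨t, ht, hpt⟩ := mem_biUnion.mp hp
      obtain ⟨hp1, -, hp2, -⟩ := mem_St_Typ1.mp hpt
      have ht1 := (mem_Ico.mp ht).1
      have h9 : p ^ 9 ≤ X ^ 4 := (Nat.pow_le_pow_right hp1.pos (by omega)).trans hp2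
      have := (le_rpow_iff_Typ1 X p 9 (by norm_num)).mpr h9
      push_cast at this
      exact mem_Ioc.mpr ⟨hp1.pos, Nat.le_floor this⟩
    have := card_le_card hsub
    rw [Nat.card_Ioc, Nat.sub_zero] at this
    exact (Nat.cast_le.mpr this).trans (Nat.floor_le (Real.rpow_nonneg hX.le _))
  have hsq : (S.card : ℝ) ^ 2 ≤ δ / 24 * X := by
    have e : ((X : ℝ) ^ ((4 : ℝ) / 9)) ^ 2 = (X : ℝ) ^ (-(1 / 9 : ℝ)) * X := by
      rw [← Real.rpow_natCast, ← Real.rpow_mul hX.le, ← Real.rpow_add_one hX.ne']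
      norm_num
    calc (S.card : ℝ) ^ 2 ≤ ((X : ℝ) ^ ((4 : ℝ) / 9)) ^ 2 :=
          pow_le_pow_left₀ (Nat.cast_nonneg _) hcard 2
      _ ≤ δ / 24 * X := by rw [e]; exact mul_le_mul_of_nonneg_right h2 hX.le
  have hδ8 : 0 < 8 / δ := by positivity
  have hμ0 : 1 ≤ μ := by linarith
  have hle : ((range X).filter fun n =>
      ¬ ∃ t p, A ≤ t ∧ t < B ∧ p ∈ St_Typ1 X t ∧ p ∣ n).card ≤
      ((range X).filter fun n =>
        WW (fun p (r : ZMod p) => r = 0) S (fun _ => 1) n ≤ μ / 2).card := by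
    refine card_le_card fun n hn => ?_
    obtain ⟨hn1, hn2⟩ := mem_filter.mp hn
    refine mem_filter.mpr ⟨hn1, ?_⟩
    have : S.filter (fun p => (n : ZMod p) = 0) = ∅ := by
      refine filter_eq_empty_iff.mpr fun p hp h0 => hn2 ?_
      obtain ⟨t, ht, hpt⟩ := mem_biUnion.mp hp
      exact ⟨t, p, (mem_Ico.mp ht).1, (mem_Ico.mp ht).2, hpt,
        (ZMod.natCast_eq_zero_iff n p).mp h0⟩
    rw [WW, this, sum_empty]
    linarith
  refine (Nat.cast_le.mpr hle).trans ?_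
  set c : ℝ := (((range X).filter fun n =>
        WW (fun p (r : ZMod p) => r = 0) S (fun _ => 1) n ≤ μ / 2).card : ℝ) with hc
  have hs0 : (0 : ℝ) ≤ S.card := Nat.cast_nonneg _
  have h8 : 8 ≤ δ * μ := by
    have h : 8 / δ ≤ μ := by linarith
    rwa [div_le_iff₀ hδ, mul_comm] at h
  have e1 : μ * S.card ≤ (S.card : ℝ) ^ 2 := by
    rw [sq]
    exact mul_le_mul_of_nonneg_right hμ2 hs0
  have e2 : 8 * (X * μ) ≤ δ * μ * (X * μ) :=
    mul_le_mul_of_nonneg_right h8 (by positivity)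
  have e3 : δ * X * 1 ≤ δ * X * μ ^ 2 :=
    mul_le_mul_of_nonneg_left (one_le_pow₀ hμ0) (by positivity)
  have e4 : c * μ ^ 2 ≤ δ * X * μ ^ 2 := by
    have e5 : δ * μ * (X * μ) = δ * X * μ ^ 2 := by ring
    have e6 : 2 * μ * S.card = 2 * (μ * S.card) := by ring
    rw [e5] at e2
    rw [e6] at tk
    have e7 : δ / 24 * X = (δ * X) / 24 := by ring
    rw [e7] at hsq
    linarith
  exact le_of_mul_le_mul_right e4 (by positivity)

theorem sep_Typ1 {X t t' p p' : ℕ} (hp : p ∈ St_Typ1 X t) (hp' : p' ∈ St_Typ1 X t')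
    (h : 5 * t + 2 ≤ t') : p' ^ 5 ≤ p := by
  obtain ⟨-, -, -, h1⟩ := mem_St_Typ1.mp hp
  obtain ⟨h0, -, h2, -⟩ := mem_St_Typ1.mp hp'
  have h3 : (p' ^ 5) ^ (8 * t + 3) ≤ p' ^ (8 * t' + 1) := by
    rw [← pow_mul]
    exact Nat.pow_le_pow_right h0.pos (by omega)
  exact (lt_of_pow_lt_pow_left₀ (8 * t + 3) (Nat.zero_le _) ((h3.trans h2).trans_lt h1)).le

theorem good_Typ1 {X T t p : ℕ} (hp : p ∈ St_Typ1 X t) (ht : 1 ≤ t) (hT : 8 * t + 3 ≤ T) :
    Good X T p := by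
  obtain ⟨h0, h1, h2, h3⟩ := mem_St_Typ1.mp hp
  refine ⟨h0, h1, ?_, t, ht, by omega, h2, h3⟩
  exact (Nat.le_self_pow (by norm_num) X).trans
    (h3.le.trans (Nat.pow_le_pow_right h0.pos hT))

open Classical in
theorem typ1 {ε : ℝ} (hε : 0 < ε) : ∃ T : ℕ, 1 ≤ T ∧ ∀ᶠ X : ℕ in atTop,
    (((range X).filter fun n => ¬ Typ1 X T n).card : ℝ) ≤ ε * X := by
  have hδ : 0 < ε / 4 := by positivity
  obtain ⟨B0, l0, h0⟩ := block_Typ1 (A := 1) le_rfl hδ
  obtain ⟨B1, l1, h1⟩ := block_Typ1 (A := 5 * B0 + 2) (by omega) hδ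
  obtain ⟨B2, l2, h2⟩ := block_Typ1 (A := 5 * B1 + 2) (by omega) hδ
  obtain ⟨B3, l3, h3⟩ := block_Typ1 (A := 5 * B2 + 2) (by omega) hδ
  refine ⟨8 * B3 + 3, by omega, ?_⟩
  filter_upwards [h0, h1, h2, h3] with X h0 h1 h2 h3
  have hsub : ((range X).filter fun n => ¬ Typ1 X (8 * B3 + 3) n) ⊆
      (((range X).filter fun n => ¬ ∃ t p, 1 ≤ t ∧ t < B0 ∧ p ∈ St_Typ1 X t ∧ p ∣ n) ∪
      ((range X).filter fun n => ¬ ∃ t p, 5 * B0 + 2 ≤ t ∧ t < B1 ∧ p ∈ St_Typ1 X t ∧ p ∣ n)) ∪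
      (((range X).filter fun n => ¬ ∃ t p, 5 * B1 + 2 ≤ t ∧ t < B2 ∧ p ∈ St_Typ1 X t ∧ p ∣ n) ∪
      ((range X).filter fun n => ¬ ∃ t p, 5 * B2 + 2 ≤ t ∧ t < B3 ∧ p ∈ St_Typ1 X t ∧ p ∣ n)) := by
    intro n hn
    obtain ⟨hn1, hn2⟩ := mem_filter.mp hn
    by_contra hc
    simp only [mem_union, mem_filter, hn1, true_and, not_or, not_not] at hc
    obtain ⟨⟨⟨t0, p0, a0, b0, c0, d0⟩, ⟨t1, p1, a1, b1, c1, d1⟩⟩,
      ⟨t2, p2, a2, b2, c2, d2⟩, ⟨t3, p3, a3, b3, c3, d3⟩⟩ := hc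
    refine hn2 ⟨![p3, p2, p1, p0], ?_, ?_⟩
    · intro i
      fin_cases i
      · exact ⟨good_Typ1 c3 (by omega) (by omega), d3⟩
      · exact ⟨good_Typ1 c2 (by omega) (by omega), d2⟩
      · exact ⟨good_Typ1 c1 (by omega) (by omega), d1⟩
      · exact ⟨good_Typ1 c0 (by omega) (by omega), d0⟩
    · have s01 := sep_Typ1 c0 c1 (by omega)
      have s02 := sep_Typ1 c0 c2 (by omega)
      have s03 := sep_Typ1 c0 c3 (by omega)
      have s12 := sep_Typ1 c1 c2 (by omega)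
      have s13 := sep_Typ1 c1 c3 (by omega)
      have s23 := sep_Typ1 c2 c3 (by omega)
      intro i i' hi
      fin_cases i <;> fin_cases i' <;> first | exact absurd hi (by decide) | assumption
  have hc := (card_le_card hsub).trans ((card_union_le _ _).trans
    (Nat.add_le_add (card_union_le _ _) (card_union_le _ _)))
  have hc' := (Nat.cast_le (α := ℝ)).mpr hc
  push_cast at hc'
  linarith

end Pool.Agent.PSD
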