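import Pool.Agent.P.MP_06afd2_nt.D1.Ext
import Pool.Agent.P.MP_06afd2_nt.D1.TK
import Pool.Agent.P.MP_06afd2_nt.D1.Defs2

/-!
Almost all integers lie in the finite trees of many primes of the window.

Sketch. `δ = 1 / Δ`; `Win X Δ = Pr (X ^ δ) \ Pr (X ^ (δ / 2))`. Let `C = 20 + 8 / ε`, `k` with `k δ / 2 ≥ C + 2`, and `K ≥ k` with mean `θ ≤ 2 ^ (-(k + 1))` from `mean_alive`.
Use `TK` with `S = {p ∈ Win | N K p = 0}`, `Ω p = InTree k p`, `w p = log p`. For odd `p` the levels are disjoint (`f^[a] r = 1 = f^[b] r`, `a < b`, gives `f^[b - a] 1 = 1`, but `f^[i] 1 ∈ {0, -1}` for `i ≥ 1`),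
so `ro = ∑_{1 ≤ a ≤ k} N a p ≤ 2 ^ (k + 1)` (`N_le`). Hence `μ ≥ ∑_a ∑_{Win} N a p log p / p - 2 ^ (k + 1) ∑_{Win, N K p ≠ 0} log p / p ≥ C log X` eventually (`mean_N`, `HasMean.window`),
`va ≤ δ log X * μ`, `er ≤ 2 ^ (k + 1) X ^ δ log X`. So `WW ≤ μ / 2` for at most `(4 δ / C + o(1)) X` integers, and otherwise `Typ2` holds because `InTree k → InTree K`.
-/

namespace Pool.Agent.PSD

open Finset Filter Topology

theorem ro_eq_Typ2 {p : ℕ} (hp : p.Prime) (h2 : p ≠ 2) (k : ℕ) :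
    ro (InTree k) p = ∑ a ∈ Icc 1 k, N a p := by
  have := Fact.mk hp
  have h1 : ∀ i : ℕ, f^[i + 1] (1 : ZMod p) ≠ 1 := by
    intro i h
    rw [Function.iterate_succ_apply, show f (1 : ZMod p) = 0 by simp [f], iter_zero] at h
    split_ifs at h
    · exact zero_ne_one h
    · have h3 : ((2 : ℕ) : ZMod p) = 0 := by
        push_cast
        linear_combination -h
      rw [ZMod.natCast_eq_zero_iff] at h3
      exact h2 ((Nat.prime_dvd_prime_iff_eq hp Nat.prime_two).mp h3)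
  have h3 : ∀ a b : ℕ, a < b → ∀ r : ZMod p, f^[a] r = 1 → f^[b] r ≠ 1 := by
    intro a b hab r ha hb
    obtain ⟨i, rfl⟩ := Nat.exists_eq_add_of_lt hab
    rw [add_assoc, add_comm, Function.iterate_add_apply, ha] at hb
    exact h1 i hb
  unfold N
  rw [← card_biUnion, ro]
  · congr 1
    ext x
    rw [mem_filter, mem_biUnion]
    simp only [mem_filter, mem_Icc]
    exact ⟨fun ⟨h, a, a1, a2, a3⟩ => ⟨a, ⟨a1, a2⟩, h, a3⟩,
      fun ⟨a, ⟨a1, a2⟩, h, a3⟩ => ⟨h, a, a1, a2, a3⟩⟩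
  · intro a _ b _ hab
    refine disjoint_filter.mpr fun x _ ha hb => ?_
    rcases lt_or_gt_of_ne hab with h | h
    · exact h3 a b h _ ha hb
    · exact h3 b a h _ hb ha

theorem sum_N_le_Typ2 {p : ℕ} (hp : p.Prime) (k : ℕ) : ∑ a ∈ Icc 1 k, N a p ≤ 2 ^ (k + 1) := by
  induction k with
  | zero => simp
  | succ k ih =>
    have := N_le hp (k + 1)
    rw [sum_Icc_succ_top (by omega), pow_succ 2 (k + 1)]
    omega

theorem Win_eq_Typ2 {X Δ : ℕ} (hΔ : Δ ≠ 0) :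
    Win X Δ = Pr ((X : ℝ) ^ (1 / (Δ : ℝ))) \ Pr ((X : ℝ) ^ (1 / ((2 * Δ : ℕ) : ℝ))) := by
  have key : ∀ {d : ℕ} (p : ℕ), d ≠ 0 → ((p : ℝ) ≤ (X : ℝ) ^ (1 / (d : ℝ)) ↔ p ^ d ≤ X) := by
    intro d p hd
    rw [← pow_le_pow_iff_left₀ (by positivity) (by positivity) hd, one_div,
      Real.rpow_inv_natCast_pow (Nat.cast_nonneg _) hd]
    norm_cast
  ext p
  rw [Win, mem_filter, mem_range, Finset.mem_sdiff, mem_Pr (by positivity), mem_Pr (by positivity),
    key p hΔ, key p (by omega)]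
  exact ⟨fun h => ⟨⟨h.2.1, h.2.2.2⟩, fun h' => absurd h'.2 (not_le.mpr h.2.2.1)⟩,
    fun h => ⟨Nat.lt_succ_of_le ((Nat.le_self_pow hΔ p).trans h.1.2), h.1.1,
      not_le.mp fun h' => h.2 ⟨h.1.1, h'⟩, h.1.2⟩⟩

open Classical in
theorem typ2 {ε : ℝ} (hε : 0 < ε) {Δ : ℕ} (hΔ : 3 ≤ Δ) : ∃ K : ℕ, ∀ᶠ X : ℕ in atTop,
    (((range X).filter fun n => ¬ Typ2 X Δ K n).card : ℝ) ≤ ε * X := by
  have hΔ' : (3 : ℝ) ≤ Δ := by exact_mod_cast hΔ
  obtain ⟨C, hC20, hCε⟩ : ∃ C : ℝ, 20 ≤ C ∧ 8 ≤ ε * C :=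
    ⟨20 + 8 / ε, le_add_of_nonneg_right (by positivity), by
      rw [mul_add, mul_div_cancel₀ _ hε.ne']
      linarith⟩
  obtain ⟨k, hk⟩ := exists_nat_gt (2 * Δ * C + 1)
  obtain ⟨K, hK, θ, hθ, hm⟩ := mean_alive (ε := 1 / 2 ^ (k + 1)) (by positivity) k
  refine ⟨K, ?_⟩
  have h1 := ((HasMean.sum (Icc 1 k) fun a _ => mean_N a).add
    (hm.const_mul (-2 ^ (k + 1)))).window (a := 1 / ((2 * Δ : ℕ) : ℝ)) (b := 1 / (Δ : ℝ))
    (by positivity) (one_div_le_one_div_of_le (by positivity) (by push_cast; linarith))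
  have h2 : C < (∑ _a ∈ Icc 1 k, (1 : ℝ) + -2 ^ (k + 1) * θ) *
      (1 / (Δ : ℝ) - 1 / ((2 * Δ : ℕ) : ℝ)) := by
    have e : 1 / (Δ : ℝ) - 1 / ((2 * Δ : ℕ) : ℝ) = 1 / (2 * Δ) := by
      push_cast
      field_simp
      ring
    rw [le_div_iff₀ (by positivity)] at hθ
    rw [e, mul_one_div, lt_div_iff₀ (by positivity)]
    simp only [sum_const, Nat.card_Icc, add_tsub_cancel_right, nsmul_eq_mul, mul_one]
    linarith
  have h3 := tendsto_natCast_atTop_atTop.eventually (h1.eventually (lt_mem_nhds h2))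
  have h4 : ∀ᶠ X : ℕ in atTop, 24 / ε ≤ (X : ℝ) ^ (1 - 2 / (Δ : ℝ)) :=
    ((tendsto_rpow_atTop (by
      rw [sub_pos, div_lt_one (by positivity)]
      linarith)).comp tendsto_natCast_atTop_atTop).eventually_ge_atTop _
  filter_upwards [h3, h4, eventually_ge_atTop (2 ^ (2 * Δ)), eventually_gt_atTop 1] with X h3 h4 h5 h6
  have hX : (1 : ℝ) < X := by exact_mod_cast h6
  have hL := Real.log_pos hX
  rw [← Win_eq_Typ2 (by omega), lt_div_iff₀ hL] at h3
  set E := (X : ℝ) ^ (1 / (Δ : ℝ)) with hE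
  have hE1 : 1 ≤ E := Real.one_le_rpow hX.le (by positivity)
  have hE2 : 24 * E ^ 2 ≤ ε * X := by
    have e : (X : ℝ) ^ (1 - 2 / (Δ : ℝ)) * E ^ 2 = X := by
      rw [hE, ← Real.rpow_natCast, ← Real.rpow_mul (by positivity), ← Real.rpow_add (by positivity)]
      push_cast
      rw [show 1 - 2 / (Δ : ℝ) + 1 / Δ * 2 = 1 by ring, Real.rpow_one]
    rw [div_le_iff₀ hε] at h4
    nlinarith [sq_nonneg E]
  have hW : ∀ p ∈ Win X Δ, p.Prime ∧ p ≠ 2 ∧ (p : ℝ) ≤ E ∧ (p : ℝ) ≤ X := by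
    intro p hp
    have hp' := hp
    rw [Win_eq_Typ2 (by omega), Finset.mem_sdiff, mem_Pr (by positivity)] at hp'
    rw [Win, mem_filter, mem_range] at hp
    refine ⟨hp.2.1, ?_, hp'.1.2, by exact_mod_cast Nat.le_of_lt_succ hp.1⟩
    rintro rfl
    omega
  set S := (Win X Δ).filter fun p => N K p = 0
  have hS : ∀ p ∈ S, p ∈ Win X Δ := fun p hp => (mem_filter.mp hp).1
  have hT := tk_dev (InTree k) X (S := S) (fun p hp => (hW p (hS p hp)).1)
    (w := fun p => Real.log p) fun p _ => Real.log_natCast_nonneg p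
  set μ := mu (InTree k) S fun p => Real.log p
  have hμ : C * Real.log X ≤ μ := by
    refine h3.le.trans ?_
    simp only [μ, mu, S, sum_filter]
    refine sum_le_sum fun p hp => ?_
    have b1 : (0 : ℝ) ≤ Real.log p / p := div_nonneg (Real.log_natCast_nonneg p) (Nat.cast_nonneg p)
    have b2 : ∑ a ∈ Icc 1 k, (N a p : ℝ) ≤ 2 ^ (k + 1) := by
      exact_mod_cast sum_N_le_Typ2 (hW p hp).1 k
    split_ifs
    · rw [ro_eq_Typ2 (hW p hp).1 (hW p hp).2.1]
      push_cast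
      exact le_of_eq (by ring)
    · exact mul_nonpos_of_nonpos_of_nonneg (by linarith) b1
  have hμ0 : 0 < μ := lt_of_lt_of_le (by positivity) hμ
  have hva : va (InTree k) S (fun p => Real.log p) ≤ Real.log X * μ := by
    simp only [μ, mu, va, mul_sum]
    refine sum_le_sum fun p hp => ?_
    obtain ⟨b1, -, -, b2⟩ := hW p (hS p hp)
    have b3 := Real.log_le_log (by exact_mod_cast b1.pos) b2
    have b4 := Real.log_natCast_nonneg p
    rw [sq, mul_assoc, mul_div_assoc]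
    exact mul_le_mul_of_nonneg_right b3 (by positivity)
  have her : er (InTree k) S (fun p => Real.log p) ≤ E * μ := by
    simp only [μ, mu, er, mul_sum]
    refine sum_le_sum fun p hp => ?_
    obtain ⟨b1, -, b2, -⟩ := hW p (hS p hp)
    have b3 : (0 : ℝ) < p := by exact_mod_cast b1.pos
    have b4 := Real.log_natCast_nonneg p
    rw [← mul_div_assoc, le_div_iff₀ b3, mul_comm]
    exact mul_le_mul_of_nonneg_right b2 (by positivity)
  have her0 : 0 ≤ er (InTree k) S fun p => Real.log p :=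
    sum_nonneg fun p _ => mul_nonneg (Real.log_natCast_nonneg p) (Nat.cast_nonneg _)
  have hsub : ((range X).filter fun n => ¬ Typ2 X Δ K n) ⊆
      (range X).filter fun n => WW (InTree k) S (fun p => Real.log p) n ≤ μ / 2 := by
    refine monotone_filter_right _ fun n _ hn => ?_
    rw [Typ2, not_le] at hn
    have : WW (InTree k) S (fun p => Real.log p) n ≤
        ∑ p ∈ (Win X Δ).filter (fun p => N K p = 0 ∧ InTree K p n), Real.log p := by
      refine sum_le_sum_of_subset_of_nonneg (fun p hp => ?_) fun p _ _ => Real.log_natCast_nonneg p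
      obtain ⟨b1, a, a1, a2, a3⟩ := mem_filter.mp hp
      exact mem_filter.mpr ⟨hS p b1, (mem_filter.mp b1).2, a, a1, a2.trans hK, a3⟩
    nlinarith
  refine le_trans (by exact_mod_cast card_le_card hsub) (le_of_mul_le_mul_right (hT.trans ?_)
    (pow_pos hμ0 2))
  have b1 := pow_le_pow_left₀ her0 her 2
  have b2 : 8 * Real.log X ≤ ε * μ := by nlinarith
  have b3 : (X : ℝ) * va (InTree k) S (fun p => Real.log p) ≤ X * (Real.log X * μ) :=
    mul_le_mul_of_nonneg_left hva (by positivity)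
  have b4 := mul_le_mul_of_nonneg_left her hμ0.le
  have b5 := mul_le_mul_of_nonneg_left b2 (show 0 ≤ (X : ℝ) * μ by positivity)
  have b6 := mul_le_mul_of_nonneg_left hE2 (sq_nonneg μ)
  have b7 : E * μ ^ 2 ≤ E ^ 2 * μ ^ 2 := mul_le_mul_of_nonneg_right (by nlinarith) (sq_nonneg μ)
  nlinarith

end Pool.Agent.PSD
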