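import Pool.Agent.P.MP_06afd2_nt.D1.Cnt2
import Pool.Agent.P.MP_06afd2_nt.D1.Pair
import Pool.Agent.P.MP_06afd2_nt.D1.Typ1
import Pool.Agent.P.MP_06afd2_nt.D1.Typ2

/-!
The density one theorem.
-/

namespace Pool.Agent.PSD

open Finset Filter Topology

theorem sum_sg_le {T : ℕ} (hT : 1 ≤ T) : ∀ᶠ X : ℕ in atTop,
    ∑ a ∈ range (Nat.log 2 X + 1), sg X T a ≤ 2 * T := by
  have h0 : Tendsto (fun X : ℕ => Real.log X) atTop atTop :=
    Real.tendsto_log_atTop.comp tendsto_natCast_atTop_atTop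
  filter_upwards [h0.eventually_ge_atTop 6, eventually_gt_atTop 1] with X h6 hX
  have hX' : (1 : ℝ) < X := by exact_mod_cast hX
  have hT' : (0 : ℝ) < T := by exact_mod_cast hT
  set S := (range (X + 1)).filter fun x => x.Prime ∧ X ≤ x ^ T with hS
  have h1 : ∑ a ∈ range (Nat.log 2 X + 1), sg X T a = ∑ x ∈ S, (1 : ℝ) / x := by
    rw [← sum_fiberwise_of_maps_to (s := S) (t := range (Nat.log 2 X + 1)) (g := Nat.log 2)
      fun x hx => mem_range.mpr (Nat.lt_succ_of_le (Nat.log_mono_right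
        (Nat.lt_succ_iff.mp (mem_range.mp (mem_filter.mp hx).1))))]
    refine sum_congr rfl fun a _ => sum_congr ?_ fun _ _ => rfl
    ext x
    simp only [Xs, hS, mem_filter]
    tauto
  have h2 := sum_inv_le (S := S) (x := X) (y := (X : ℝ) ^ (T : ℝ)⁻¹)
    (Real.one_lt_rpow hX' (by positivity)) hX'.le fun p hp => by
      obtain ⟨h3, h4, h5⟩ := mem_filter.mp hp
      refine ⟨h4, ?_, by exact_mod_cast Nat.lt_succ_iff.mp (mem_range.mp h3)⟩
      rw [Real.rpow_inv_le_iff_of_pos (by positivity) (by positivity) hT', Real.rpow_natCast]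
      exact_mod_cast h5
  rw [h1]
  refine h2.trans ?_
  rw [Real.log_rpow (by linarith), div_le_iff₀ (by positivity)]
  have : 2 * (T : ℝ) * ((T : ℝ)⁻¹ * Real.log X) = 2 * Real.log X := by field_simp
  linarith

theorem log_sq_div_EE {T : ℕ} (hT : 1 ≤ T) :
    Tendsto (fun X : ℕ => ((Nat.log 2 X + 1 : ℕ) : ℝ) ^ 2 / EE X T) atTop (𝓝 0) := by
  have hD : (0 : ℝ) < De T := by unfold De; positivity
  have h1 := ((isLittleO_log_rpow_rpow_atTop 2 (s := 1 / (De T : ℝ))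
    (by positivity)).tendsto_div_nhds_zero.comp tendsto_natCast_atTop_atTop).const_mul 9
  rw [mul_zero] at h1
  have h0 : Tendsto (fun X : ℕ => Real.log X) atTop atTop :=
    Real.tendsto_log_atTop.comp tendsto_natCast_atTop_atTop
  refine squeeze_zero' (Eventually.of_forall fun X => div_nonneg (by positivity) (EE_nonneg X T))
    ?_ h1
  filter_upwards [h0.eventually_ge_atTop 1, eventually_gt_atTop 0] with X h6 hX
  simp only [Function.comp, ← mul_div_assoc]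
  refine div_le_div_of_nonneg_right ?_ (EE_nonneg X T)
  have h2 : (Nat.log 2 X : ℝ) * Real.log 2 ≤ Real.log X := by
    rw [← Real.log_pow]
    exact Real.log_le_log (by positivity) (by exact_mod_cast Nat.pow_log_le_self 2 hX.ne')
  have h3 := Real.log_two_gt_d9
  have h4 : (0 : ℝ) ≤ Nat.log 2 X := Nat.cast_nonneg _
  have h5 : ((Nat.log 2 X + 1 : ℕ) : ℝ) ≤ 3 * Real.log X := by
    push_cast
    nlinarith
  rw [Real.rpow_two]
  nlinarith [pow_le_pow_left₀ (Nat.cast_nonneg _) h5 2]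

open Classical in
theorem few_cfg {T : ℕ} (hT : 1 ≤ T) (K : ℕ) {ε : ℝ} (hε : 0 < ε) : ∀ᶠ X : ℕ in atTop,
    (((range (X + 1)).filter fun n => ∃ a ≤ Nat.log 2 X, ∃ b ≤ Nat.log 2 X,
      Adm X T a b ∧ Bad X T K a b n).card : ℝ) ≤ ε * X := by
  obtain ⟨C, hC, h⟩ := cnt2 hT K
  obtain ⟨L, hL⟩ := exists_nat_gt (C * (2 * T) ^ 2 * 3 / ε)
  have hL0 : (0 : ℝ) < L := lt_of_le_of_lt (by positivity) hL
  have h1 := (log_sq_div_EE hT).const_mul C
  have h2 := ((EE_tendsto hT).const_div_atTop 1).const_mul (C * (2 * T) ^ 2)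
  rw [mul_zero] at h1 h2
  filter_upwards [h L (by exact_mod_cast hL0), sum_sg_le hT,
    h1.eventually (gt_mem_nhds (show 0 < ε / 3 by positivity)),
    h2.eventually (gt_mem_nhds (show 0 < ε / 3 by positivity))] with X h3 h4 h5 h6
  set R := range (Nat.log 2 X + 1) with hR
  have hE := EE_nonneg X T
  have hsg : ∀ a, 0 ≤ sg X T a := fun a => sum_nonneg fun _ _ => by positivity
  have h7 : ((range (X + 1)).filter fun n => ∃ a ≤ Nat.log 2 X, ∃ b ≤ Nat.log 2 X,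
      Adm X T a b ∧ Bad X T K a b n) ⊆ (R ×ˢ R).biUnion fun u =>
        (range (X + 1)).filter fun n => Adm X T u.1 u.2 ∧ Bad X T K u.1 u.2 n := by
    intro n hn
    obtain ⟨h8, a, ha, b, hb, h9⟩ := mem_filter.mp hn
    exact mem_biUnion.mpr ⟨(a, b), mem_product.mpr ⟨mem_range.mpr (Nat.lt_succ_of_le ha),
      mem_range.mpr (Nat.lt_succ_of_le hb)⟩, mem_filter.mpr ⟨h8, h9⟩⟩
  have h8 : ∀ u ∈ R ×ˢ R, (((range (X + 1)).filter fun n =>
      Adm X T u.1 u.2 ∧ Bad X T K u.1 u.2 n).card : ℝ) ≤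
      C * X * (1 / EE X T + sg X T u.1 * sg X T u.2 * (1 / EE X T + 1 / L)) := by
    intro u _
    by_cases hA : Adm X T u.1 u.2
    · simpa only [hA, true_and] using h3 u.1 u.2 hA
    · have := hsg u.1
      have := hsg u.2
      simp only [hA, false_and, filter_false, card_empty, Nat.cast_zero]
      positivity
  have h9 := (Nat.cast_le (α := ℝ)).mpr ((card_le_card h7).trans card_biUnion_le)
  rw [Nat.cast_sum] at h9
  refine h9.trans ((sum_le_sum h8).trans ?_)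
  rw [← mul_sum, sum_add_distrib, ← sum_mul, sum_const, card_product, hR, card_range,
    nsmul_eq_mul, sum_product' (f := fun a b => sg X T a * sg X T b), ← sum_mul_sum, ← hR]
  have h10 : (∑ a ∈ R, sg X T a) * ∑ a ∈ R, sg X T a ≤ (2 * T) ^ 2 := by
    rw [← sq]
    exact pow_le_pow_left₀ (sum_nonneg fun a _ => hsg a) h4 2
  have h11 : C * (2 * T) ^ 2 * (1 / L) ≤ ε / 3 := by
    rw [div_lt_iff₀ hε] at hL
    rw [mul_one_div, div_le_iff₀ hL0]
    linarith
  have h12 := mul_le_mul_of_nonneg_left (mul_le_mul_of_nonneg_right h10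
    (show 0 ≤ 1 / EE X T + 1 / (L : ℝ) by positivity)) hC
  have h13 : C * ((((Nat.log 2 X + 1) * (Nat.log 2 X + 1) : ℕ) : ℝ) * (1 / EE X T)) ≤ ε / 3 := by
    rw [mul_one_div, Nat.cast_mul, ← sq]
    exact h5.le
  have h14 : C * ((((Nat.log 2 X + 1) * (Nat.log 2 X + 1) : ℕ) : ℝ) * (1 / EE X T) +
      ((∑ a ∈ R, sg X T a) * ∑ a ∈ R, sg X T a) * (1 / EE X T + 1 / L)) ≤ ε := by
    linarith
  have := mul_le_mul_of_nonneg_right h14 (Nat.cast_nonneg (α := ℝ) X)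
  linarith

open Classical in
theorem few_bad {ε : ℝ} (hε : 0 < ε) : ∀ᶠ X : ℕ in atTop,
    (((range (X + 1)).filter fun n => ¬ (2 ≤ n ∧ ∀ m : ℕ, 2 ≤ m → m ≤ X → m ≠ n →
      Pool.Agent.P.MP_06afd2_nt.P m ≠ Pool.Agent.P.MP_06afd2_nt.P n)).card : ℝ) ≤ ε * X := by
  have hε4 : 0 < ε / 4 := by positivity
  obtain ⟨T, hT, h1⟩ := typ1 hε4
  obtain ⟨K, h2⟩ := typ2 hε4 (Δ := De T) (by
    have := Nat.one_le_pow 3 T hT
    unfold De
    omega)
  filter_upwards [h1, h2, few_cfg hT K hε4, pair_cfg hT K,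
    tendsto_natCast_atTop_atTop.eventually_ge_atTop (3 / (ε / 4))] with X h3 h4 h5 h6 h7
  have h8 : ((range (X + 1)).filter fun n => ¬ (2 ≤ n ∧ ∀ m : ℕ, 2 ≤ m → m ≤ X → m ≠ n →
      Pool.Agent.P.MP_06afd2_nt.P m ≠ Pool.Agent.P.MP_06afd2_nt.P n)) ⊆
      ({0, 1, X} ∪ (range X).filter fun n => ¬ Typ1 X T n) ∪
        (((range X).filter fun n => ¬ Typ2 X (De T) K n) ∪
          (range (X + 1)).filter fun n => ∃ a ≤ Nat.log 2 X, ∃ b ≤ Nat.log 2 X,
            Adm X T a b ∧ Bad X T K a b n) := by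
    intro n hn
    obtain ⟨h9, h10⟩ := mem_filter.mp hn
    have h11 := mem_range.mp h9
    simp only [mem_union, mem_filter, mem_range, mem_insert, mem_singleton]
    by_contra h12
    simp only [not_or, not_and, not_not] at h12
    obtain ⟨⟨⟨h13, h14, h15⟩, h16⟩, h17, h18⟩ := h12
    refine h10 ⟨by omega, fun m hm hmX hmn hP => h18 h11 ?_⟩
    exact h6 n m (by omega) (by omega) hm hmX hmn hP (h16 (by omega)) (h17 (by omega))
  have h9 := (Nat.cast_le (α := ℝ)).mpr ((card_le_card h8).trans ((card_union_le _ _).trans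
    (add_le_add ((card_union_le _ _).trans (add_le_add card_le_three le_rfl))
      (card_union_le _ _))))
  push_cast at h9
  rw [div_le_iff₀ hε4] at h7
  linarith

theorem density_one : Tendsto (fun X : ℕ =>
    ({n : ℕ | 2 ≤ n ∧ n ≤ X ∧ ∀ m : ℕ, 2 ≤ m → m ≤ X → m ≠ n →
      Pool.Agent.P.MP_06afd2_nt.P m ≠ Pool.Agent.P.MP_06afd2_nt.P n}.ncard : ℝ) / X)
    atTop (𝓝 1) := by
  classical
  refine tendsto_order.mpr ⟨fun a ha => ?_, fun a ha => Eventually.of_forall fun X => ?_⟩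
  · filter_upwards [few_bad (show 0 < (1 - a) / 2 by linarith), eventually_gt_atTop 0] with X h hX
    have hX' : (0 : ℝ) < X := by exact_mod_cast hX
    have h1 : {n : ℕ | 2 ≤ n ∧ n ≤ X ∧ ∀ m : ℕ, 2 ≤ m → m ≤ X → m ≠ n →
        Pool.Agent.P.MP_06afd2_nt.P m ≠ Pool.Agent.P.MP_06afd2_nt.P n} =
        ((range (X + 1)).filter fun n => 2 ≤ n ∧ ∀ m : ℕ, 2 ≤ m → m ≤ X → m ≠ n →
          Pool.Agent.P.MP_06afd2_nt.P m ≠ Pool.Agent.P.MP_06afd2_nt.P n : Finset ℕ) := by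
      ext n
      simp only [Set.mem_ofPred_eq, coe_filter, mem_range, Nat.lt_succ_iff]
      tauto
    have h2 := congrArg (Nat.cast : ℕ → ℝ) (card_filter_add_card_filter_not (s := range (X + 1))
      fun n => 2 ≤ n ∧ ∀ m : ℕ, 2 ≤ m → m ≤ X → m ≠ n →
        Pool.Agent.P.MP_06afd2_nt.P m ≠ Pool.Agent.P.MP_06afd2_nt.P n)
    rw [card_range] at h2
    push_cast at h2
    rw [h1, Set.ncard_coe_finset, lt_div_iff₀ hX']
    nlinarith
  · refine lt_of_le_of_lt (div_le_one_of_le₀ ?_ (Nat.cast_nonneg X)) ha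
    have h1 := Set.ncard_le_ncard (s := {n : ℕ | 2 ≤ n ∧ n ≤ X ∧ ∀ m : ℕ, 2 ≤ m → m ≤ X → m ≠ n →
      Pool.Agent.P.MP_06afd2_nt.P m ≠ Pool.Agent.P.MP_06afd2_nt.P n})
      (t := (Icc 1 X : Finset ℕ)) fun n hn => by
        simp only [coe_Icc, Set.mem_Icc]
        exact ⟨le_trans one_le_two hn.1, hn.2.1⟩
    rw [Set.ncard_coe_finset, Nat.card_Icc] at h1
    exact_mod_cast h1

end Pool.Agent.PSD
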