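import Pool.Agent.P.MP_06afd2_nt.D1.Defs

/-!
Counting points of a plane lattice in a box.

Sketch. If `S` has no nonzero element the card is `≤ 1`. Otherwise let `u₀ ∈ Λ` be nonzero with minimal sup norm `l` (`Nat.find`), `L ≤ l ≤ W`.
The map `u ↦ det (u₀, u) / g` takes at most `4 l W / g + 1` values. Say `|u₀.1| = l`. Two distinct points `u, u'` of a fibre have `δ = u - u' ∈ Λ` parallel to `u₀`,
so `|δ.2| ≤ |δ.1|` and `|δ.1| ≥ l`; hence `u ↦ (u.1 + W) / l` is injective on the fibre, which has at most `2 W / l + 1` points.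
-/

namespace Pool.Agent.PSD

open Finset

theorem box_count_Lat {α : Type*} (x y : α → ℤ) {g l W : ℕ} (hg : 0 < g) (hl : 0 < l) {a b : ℤ}
    (ha : |a| = l) (hb : |b| ≤ l) {S : Finset α}
    (hdet : ∀ u ∈ S, ∀ v ∈ S, (g : ℤ) ∣ (a * y u - b * x u) - (a * y v - b * x v))
    (hsep : ∀ u ∈ S, ∀ v ∈ S, u ≠ v → (l : ℤ) ≤ |x u - x v| ∨ (l : ℤ) ≤ |y u - y v|)
    (hS : ∀ u ∈ S, |x u| ≤ W ∧ |y u| ≤ W) :
    S.card ≤ (4 * l * W / g + 1) * (2 * W / l + 1) := by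
  have hg' : (0 : ℤ) < g := by exact_mod_cast hg
  have hl' : (0 : ℤ) < l := by exact_mod_cast hl
  have key : ∀ {c : ℤ}, 0 < c → ∀ s t : ℤ, s / c = t / c → |s - t| < c := by
    intro c hc s t h
    have h1 := Int.mul_ediv_add_emod s c
    have h2 := Int.mul_ediv_add_emod t c
    have h3 := Int.emod_nonneg s hc.ne'
    have h4 := Int.emod_nonneg t hc.ne'
    have h5 := Int.emod_lt_of_pos s hc
    have h6 := Int.emod_lt_of_pos t hc
    rw [h] at h1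
    rw [abs_lt]
    constructor <;> linarith
  have h1 : S.card ≤ ((Icc (0 : ℤ) ((4 * l * W / g : ℕ) : ℤ)) ×ˢ
      (Icc (0 : ℤ) ((2 * W / l : ℕ) : ℤ))).card := by
    refine card_le_card_of_injOn
      (fun u => ((a * y u - b * x u + 2 * l * W) / g, (x u + W) / l)) ?_ ?_
    · intro u hu
      obtain ⟨h2, h3⟩ := hS u hu
      have h4 : |a * y u| ≤ l * W := by
        rw [abs_mul, ha]
        exact mul_le_mul_of_nonneg_left h3 hl'.le
      have h5 : |b * x u| ≤ l * W := by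
        rw [abs_mul]
        exact mul_le_mul hb h2 (abs_nonneg _) hl'.le
      rw [abs_le] at h2 h4 h5
      simp only [coe_product, Set.mem_prod, mem_coe, mem_Icc]
      push_cast
      refine ⟨⟨Int.ediv_nonneg (by linarith) hg'.le, Int.ediv_le_ediv hg' (by linarith)⟩,
        Int.ediv_nonneg (by linarith) hl'.le, Int.ediv_le_ediv hl' (by linarith)⟩
    · intro u hu v hv h
      by_contra hne
      have h2 := key hg' _ _ (congrArg Prod.fst h)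
      have h3 := key hl' _ _ (congrArg Prod.snd h)
      rw [add_sub_add_right_eq_sub] at h2 h3
      have h4 := Int.eq_zero_of_abs_lt_dvd (hdet u hu v hv) h2
      have h5 : a * (y u - y v) = b * (x u - x v) := by linarith
      have h6 : (l : ℤ) * |y u - y v| ≤ l * |x u - x v| := by
        rw [← ha, ← abs_mul, h5, abs_mul, ha]
        exact mul_le_mul_of_nonneg_right hb (abs_nonneg _)
      have h7 := le_of_mul_le_mul_left h6 hl'
      rcases hsep u hu v hv hne with h8 | h8 <;> linarith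
  rw [card_product, Int.card_Icc, Int.card_Icc] at h1
  have e : ∀ k : ℕ, ((k : ℤ) + 1 - 0).toNat = k + 1 := fun k => by omega
  rwa [e, e] at h1

theorem lattice_count (Λ : AddSubgroup (ℤ × ℤ)) {g L W : ℕ} (hg : 0 < g) (hL : 0 < L)
    (hdet : ∀ u ∈ Λ, ∀ v ∈ Λ, (g : ℤ) ∣ u.1 * v.2 - u.2 * v.1)
    (hshort : ∀ u ∈ Λ, u ≠ 0 → (L : ℤ) ≤ |u.1| ∨ (L : ℤ) ≤ |u.2|) {S : Finset (ℤ × ℤ)}
    (hS : ∀ u ∈ S, u ∈ Λ ∧ |u.1| ≤ W ∧ |u.2| ≤ W) :
    (S.card : ℝ) ≤ 12 * (W : ℝ) ^ 2 / g + 2 * W / L + 1 := by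
  classical
  have hg' : (0 : ℝ) < g := by exact_mod_cast hg
  have hL' : (0 : ℝ) < L := by exact_mod_cast hL
  by_cases h0 : ∃ w ∈ S, w ≠ 0
  swap
  · have h1 : S.card ≤ 1 := by
      refine card_le_one.2 fun u hu v hv => ?_
      push Not at h0
      rw [h0 u hu, h0 v hv]
    have h2 : (S.card : ℝ) ≤ 1 := by exact_mod_cast h1
    have h3 : 0 ≤ 12 * (W : ℝ) ^ 2 / g + 2 * W / L := by positivity
    linarith
  obtain ⟨w, hw, hw0⟩ := h0
  have hex : ∃ l : ℕ, ∃ u ∈ Λ, u ≠ 0 ∧ |u.1| ≤ l ∧ |u.2| ≤ l :=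
    ⟨W, w, (hS w hw).1, hw0, (hS w hw).2⟩
  obtain ⟨l, ⟨u₀, hu, hu0, h1, h2⟩, hmin⟩ : ∃ l : ℕ, (∃ u ∈ Λ, u ≠ 0 ∧ |u.1| ≤ l ∧ |u.2| ≤ l) ∧
      ∀ k : ℕ, (∃ u ∈ Λ, u ≠ 0 ∧ |u.1| ≤ k ∧ |u.2| ≤ k) → l ≤ k :=
    ⟨Nat.find hex, Nat.find_spec hex, fun k hk => Nat.find_min' hex hk⟩
  have hlW : l ≤ W := hmin W ⟨w, (hS w hw).1, hw0, (hS w hw).2⟩
  have hLl : L ≤ l := by
    have h3 : (L : ℤ) ≤ l := by
      rcases hshort u₀ hu hu0 with h | h <;> linarith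
    exact_mod_cast h3
  have hl : 0 < l := hL.trans_le hLl
  have hsep : ∀ u ∈ Λ, u ≠ 0 → (l : ℤ) ≤ |u.1| ∨ (l : ℤ) ≤ |u.2| := by
    intro u hu hu0
    by_contra h
    push Not at h
    have h3 := hmin (l - 1) ⟨u, hu, hu0, by omega, by omega⟩
    omega
  have hsep' : ∀ u ∈ S, ∀ v ∈ S, u ≠ v → (l : ℤ) ≤ |u.1 - v.1| ∨ (l : ℤ) ≤ |u.2 - v.2| :=
    fun u hu v hv h => hsep (u - v) (Λ.sub_mem (hS u hu).1 (hS v hv).1) (sub_ne_zero.2 h)
  have hdet' : ∀ u ∈ S, ∀ v ∈ S,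
      (g : ℤ) ∣ (u₀.1 * u.2 - u₀.2 * u.1) - (u₀.1 * v.2 - u₀.2 * v.1) :=
    fun u hu' v hv => dvd_sub (hdet u₀ hu u (hS u hu').1) (hdet u₀ hu v (hS v hv).1)
  have h3 : S.card ≤ (4 * l * W / g + 1) * (2 * W / l + 1) := by
    rcases hsep u₀ hu hu0 with h | h
    · exact box_count_Lat Prod.fst Prod.snd hg hl (le_antisymm h1 h) h2 hdet' hsep'
        fun u hu => (hS u hu).2
    · refine box_count_Lat Prod.snd Prod.fst hg hl (le_antisymm h2 h) h1 ?_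
        (fun u hu v hv h => (hsep' u hu v hv h).symm) fun u hu => (hS u hu).2.symm
      intro u hu v hv
      have h4 := (hdet' u hu v hv).neg_right
      rwa [show -((u₀.1 * u.2 - u₀.2 * u.1) - (u₀.1 * v.2 - u₀.2 * v.1)) =
        (u₀.2 * u.1 - u₀.1 * u.2) - (u₀.2 * v.1 - u₀.1 * v.2) by ring] at h4
  have hl' : (0 : ℝ) < l := by exact_mod_cast hl
  have hlW' : (l : ℝ) ≤ W := by exact_mod_cast hlW
  have hLl' : (L : ℝ) ≤ l := by exact_mod_cast hLl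
  have h4 : ((4 * l * W / g : ℕ) : ℝ) ≤ 4 * l * W / g := by
    refine Nat.cast_div_le.trans (le_of_eq ?_)
    push_cast
    rfl
  have h5 : ((2 * W / l : ℕ) : ℝ) ≤ 2 * W / l := by
    refine Nat.cast_div_le.trans (le_of_eq ?_)
    push_cast
    rfl
  have h6 : (S.card : ℝ) ≤ (((4 * l * W / g : ℕ) : ℝ) + 1) * (((2 * W / l : ℕ) : ℝ) + 1) := by
    exact_mod_cast h3
  have h7 : (((4 * l * W / g : ℕ) : ℝ) + 1) * (((2 * W / l : ℕ) : ℝ) + 1) ≤
      (4 * l * W / g + 1) * (2 * W / l + 1) := by gcongr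
  have h8 : (4 * (l : ℝ) * W / g + 1) * (2 * W / l + 1) =
      8 * (W : ℝ) ^ 2 / g + 4 * l * W / g + 2 * W / l + 1 := by
    field_simp
    ring
  have h9 : 4 * (l : ℝ) * W / g ≤ 4 * W * W / g := by gcongr
  have h10 : 2 * (W : ℝ) / l ≤ 2 * W / L := by gcongr
  have h11 : 12 * (W : ℝ) ^ 2 / g = 8 * (W : ℝ) ^ 2 / g + 4 * W * W / g := by ring
  linarith

end Pool.Agent.PSD
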