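import Pool.Agent.P.MP_06afd2_nt.D1.Red

/-!
The number of fixed points on level `j` is a martingale on the Galois group and dies out.

Sketch. `H = {h | Fixes j h}` is a subgroup; `∑_σ F σ * card H = ∑_σ ∑_{h ∈ H} F (σ * h)`. Choose a child `z y` of each `y ∈ V j`.
For `τ` fixing `y` put `χ y τ = if τ (z y) = z y then 1 else -1`; it is multiplicative on the stabiliser of `y`, and
`fixN (j + 1) τ = ∑_{y ∈ V j, τ y = y} (1 + χ y τ)` (the children of `y` are `± z y`, distinct). For `h ∈ H`, `σ * h` and `σ` have the same fixed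
points on `V j`. By `G2`, `∑_{h ∈ H} χ y h = 0`; by `G3`, `∑_{h ∈ H} χ y h * χ y' h = 0` for `y ≠ y'`, `j ≥ 2` even (multiply by an `h₀` on
which the character is `-1`). So with `a = fixN j σ`, `b = fixN (j + 1) (σ * h) ≤ 2 a`: the mean of `b - a` over `H` is `0`, and the mean of
`(b - a) ^ 2` is `a` at even levels `j ≥ 2`. The identity
`1 / (1 + b) = 1 / (1 + a) - (b - a) / (1 + a) ^ 2 + (b - a) ^ 2 / ((1 + a) ^ 2 * (1 + b))` shows that the mean `m j` of `1 / (1 + fixN j)` is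
nondecreasing, in `(0, 1]`, and grows at even levels by at least `(p j - 1 / M) / ((1 + M) ^ 2 * (1 + 2 M))`, where `p j` is the proportion of `σ` with
`fixN j σ ≠ 0` (nonincreasing in `j`) and Markov's inequality bounds the proportion with `fixN j > M` by `1 / M`.
Hence `J * (p K - 1 / M) ≤ (1 + M) ^ 2 * (1 + 2 M)` when `K ≥ 2 J + 2`.
-/

namespace Pool.Agent.PSD

open Finset

section

variable {L : Type*} [Field L] [NumberField L]

open Classical in
/-- the sign of `τ` at `z` -/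
noncomputable def sg_mart (z : L) (τ : L ≃ₐ[ℚ] L) : ℤ := if τ z = z then 1 else -1

open Classical in
/-- the automorphisms fixing level `j` -/
noncomputable def H_mart (L : Type*) [Field L] [NumberField L] (j : ℕ) : Finset (L ≃ₐ[ℚ] L) :=
  univ.filter fun σ => Fixes j σ

theorem mem_H_mart {j : ℕ} {σ : L ≃ₐ[ℚ] L} : σ ∈ H_mart L j ↔ Fixes j σ := by
  simp [H_mart]

theorem apply_mart {z : L} {τ : L ≃ₐ[ℚ] L} (h : τ (f z) = f z) : τ z = sg_mart z τ * z := by
  rw [map_f] at h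
  have h2 : τ z ^ 2 = z ^ 2 := by
    simp only [f] at h
    linear_combination h
  unfold sg_mart
  split_ifs with h1
  · simp [h1]
  · simpa [h1] using sq_eq_sq_iff_eq_or_eq_neg.1 h2

theorem sg_sq_mart (z : L) (τ : L ≃ₐ[ℚ] L) : (sg_mart z τ : ℝ) * sg_mart z τ = 1 := by
  unfold sg_mart
  split_ifs <;> norm_num

theorem sg_le_mart (z z' : L) (τ τ' : L ≃ₐ[ℚ] L) : (sg_mart z τ : ℝ) * sg_mart z' τ' ≤ 1 := by
  unfold sg_mart
  split_ifs <;> norm_num

theorem sg_mul_mart {z : L} (hz : z ≠ 0) {σ τ : L ≃ₐ[ℚ] L} (hσ : σ (f z) = f z)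
    (hτ : τ (f z) = f z) : sg_mart z (σ * τ) = sg_mart z σ * sg_mart z τ := by
  have h1 := apply_mart (τ := σ * τ) (z := z) (by rw [AlgEquiv.mul_apply, hτ, hσ])
  rw [AlgEquiv.mul_apply, apply_mart hτ, map_mul, map_intCast, apply_mart hσ, ← mul_assoc] at h1
  have h2 := mul_right_cancel₀ hz h1
  rw [mul_comm] at h2
  exact_mod_cast h2.symm

theorem sum_zero_mart {j : ℕ} {ψ : (L ≃ₐ[ℚ] L) → ℝ} {h₀ : L ≃ₐ[ℚ] L} (h0 : Fixes j h₀)
    (h : ∀ τ, Fixes j τ → ψ (h₀ * τ) = -ψ τ) : ∑ τ ∈ H_mart L j, ψ τ = 0 := by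
  have e : ∑ τ ∈ H_mart L j, ψ (h₀ * τ) = ∑ τ ∈ H_mart L j, ψ τ := by
    refine sum_equiv (Equiv.mulLeft h₀) (fun τ => ?_) fun _ _ => rfl
    rw [mem_H_mart, mem_H_mart]
    refine forall₂_congr fun y hy => ?_
    rw [Equiv.coe_mulLeft, AlgEquiv.mul_apply]
    constructor
    · intro h1
      rw [h1, h0 y hy]
    · intro h1
      exact h₀.injective (h1.trans (h0 y hy).symm)
  rw [sum_congr rfl fun τ hτ => h τ (mem_H_mart.1 hτ), sum_neg_distrib] at e
  linarith

theorem avg_mart (j : ℕ) (F : (L ≃ₐ[ℚ] L) → ℝ) :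
    ∑ σ, ∑ τ ∈ H_mart L j, F (σ * τ) = (H_mart L j).card * ∑ σ, F σ := by
  have e : ∀ τ : L ≃ₐ[ℚ] L, ∑ σ, F (σ * τ) = ∑ σ, F σ := fun τ =>
    Equiv.sum_comp (Equiv.mulRight τ) F
  rw [sum_comm, sum_congr rfl fun τ _ => e τ, sum_const, nsmul_eq_mul]

theorem card_pos_mart (j : ℕ) : (0 : ℝ) < (H_mart L j).card := by
  exact_mod_cast card_pos.2 ⟨1, mem_H_mart.2 fun _ _ => rfl⟩

open Classical in
theorem fixN_succ_mart {j : ℕ} {z : L → L} (hz : ∀ y ∈ V L j, f (z y) = y) (τ : L ≃ₐ[ℚ] L) :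
    (fixN (j + 1) τ : ℝ) = ∑ y ∈ (V L j).filter fun y => τ y = y, (1 + sg_mart (z y) τ : ℝ) := by
  unfold fixN
  rw [card_eq_sum_card_fiberwise (f := f) (t := (V L j).filter fun y => τ y = y)]
  · push_cast
    refine sum_congr rfl fun y hy => ?_
    obtain ⟨hy1, hy2⟩ := mem_filter.1 hy
    have m1 : z y ∈ V L (j + 1) := mem_V_succ.2 (by rwa [hz y hy1])
    have z0 := ne_zero_of_mem_V m1
    have key : ∀ w, f w = y ↔ w = z y ∨ w = -z y := fun w => by
      rw [← sq_eq_sq_iff_eq_or_eq_neg]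
      have := hz y hy1
      simp only [f] at this ⊢
      constructor
      · intro h
        linear_combination h - this
      · intro h
        linear_combination h + this
    unfold sg_mart
    split_ifs with h1
    · have : filter (fun w => f w = y) (filter (fun w => τ w = w) (V L (j + 1))) =
          {z y, -z y} := by
        ext w
        simp only [mem_filter, mem_insert, mem_singleton, key]
        refine ⟨fun h => h.2, fun h => ⟨?_, h⟩⟩
        rcases h with rfl | rfl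
        · exact ⟨m1, h1⟩
        · exact ⟨neg_mem_V (by omega) m1, by rw [map_neg, h1]⟩
      rw [this, card_pair fun h => z0 (by linear_combination h / 2)]
      norm_num
    · have : filter (fun w => f w = y) (filter (fun w => τ w = w) (V L (j + 1))) = ∅ := by
        refine filter_eq_empty_iff.2 fun w hw h => h1 ?_
        have h2 := (mem_filter.1 hw).2
        rcases (key w).1 h with rfl | rfl
        · exact h2
        · rw [map_neg] at h2
          exact neg_injective h2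
      rw [this]
      norm_num
  · intro w hw
    obtain ⟨h1, h2⟩ := mem_filter.1 hw
    exact mem_filter.2 ⟨mem_V_succ.1 h1, by rw [map_f, h2]⟩

theorem step_mart [IsGalois ℚ L] {K j : ℕ} (h : Full L K) (hj : j < K) (σ : L ≃ₐ[ℚ] L) :
    ∃ d : (L ≃ₐ[ℚ] L) → ℝ, (∀ τ ∈ H_mart L j, (fixN (j + 1) (σ * τ) : ℝ) = fixN j σ + d τ ∧
      d τ ≤ fixN j σ) ∧ ∑ τ ∈ H_mart L j, d τ = 0 ∧
      (2 ≤ j → Even j → ∑ τ ∈ H_mart L j, d τ ^ 2 = (H_mart L j).card * fixN j σ) := by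
  classical
  choose! z hz using h j hj
  have z0 : ∀ y ∈ V L j, z y ≠ 0 := fun y hy =>
    ne_zero_of_mem_V (j := j + 1) (mem_V_succ.2 (by rwa [hz y hy]))
  have mu : ∀ y ∈ V L j, ∀ a b : L ≃ₐ[ℚ] L, a y = y → b y = y →
      (sg_mart (z y) (a * b) : ℝ) = sg_mart (z y) a * sg_mart (z y) b := fun y hy a b ha hb => by
    exact_mod_cast sg_mul_mart (z0 y hy) (by rwa [hz y hy]) (by rwa [hz y hy])
  set A := (V L j).filter fun y => σ y = y with hA
  have cA : (fixN j σ : ℝ) = ∑ _y ∈ A, (1 : ℝ) := by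
    rw [sum_const, nsmul_eq_mul, mul_one]
    unfold fixN
    congr
  refine ⟨fun τ => ∑ y ∈ A, (sg_mart (z y) σ : ℝ) * sg_mart (z y) τ, fun τ hτ => ⟨?_, ?_⟩, ?_,
    fun h2 he => ?_⟩
  · have hτ' := mem_H_mart.1 hτ
    rw [fixN_succ_mart hz, cA, ← sum_add_distrib]
    refine sum_congr (by
      rw [hA]
      ext y
      simp only [mem_filter, AlgEquiv.mul_apply]
      exact and_congr_right fun hy => by rw [hτ' y hy]) fun y hy => ?_
    obtain ⟨h1, h2⟩ := mem_filter.1 hy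
    rw [mu y h1 σ τ h2 (hτ' y h1)]
  · rw [cA]
    exact sum_le_sum fun y _ => sg_le_mart _ _ _ _
  · rw [sum_comm]
    refine sum_eq_zero fun y hy => ?_
    have h1 := (mem_filter.1 hy).1
    obtain ⟨h₀, f0, n0⟩ := G2 h hj h1 (hz y h1)
    refine sum_zero_mart f0 fun τ hτ => ?_
    rw [mu y h1 h₀ τ (f0 y h1) (hτ y h1), show sg_mart (z y) h₀ = -1 from if_neg n0]
    push_cast
    ring
  · simp only [sq, sum_mul_sum]
    rw [sum_comm, cA, mul_sum]
    refine sum_congr rfl fun y hy => ?_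
    have h1 := (mem_filter.1 hy).1
    rw [sum_comm, sum_eq_single_of_mem y hy]
    · rw [sum_congr rfl fun τ _ => by rw [mul_mul_mul_comm, sg_sq_mart, sg_sq_mart, mul_one],
        sum_const, nsmul_eq_mul]
    · intro y' hy' hne
      have h1' := (mem_filter.1 hy').1
      obtain ⟨h₀, f0, n0⟩ := G3 h hj h2 he h1 h1' hne.symm (hz y h1) (hz y' h1')
      refine sum_zero_mart f0 fun τ hτ => ?_
      have e : (sg_mart (z y) h₀ : ℝ) * sg_mart (z y') h₀ = -1 := by
        rw [map_mul] at n0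
        have a1 := apply_mart (τ := h₀) (z := z y) (by rw [hz y h1, f0 y h1])
        have a2 := apply_mart (τ := h₀) (z := z y') (by rw [hz y' h1', f0 y' h1'])
        rw [a1, a2] at n0
        unfold sg_mart at n0 ⊢
        split_ifs at n0 ⊢ <;> simp_all
      rw [mu y h1 h₀ τ (f0 y h1) (hτ y h1), mu y' h1' h₀ τ (f0 y' h1') (hτ y' h1')]
      linear_combination (sg_mart (z y) σ * sg_mart (z y) τ * sg_mart (z y') σ *
        sg_mart (z y') τ : ℝ) * e

theorem ineq_mart {a d : ℝ} (ha : 0 ≤ a) (hb : 0 ≤ a + d) (hd : d ≤ a) :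
    1 / (1 + a) - d / (1 + a) ^ 2 + d ^ 2 / ((1 + a) ^ 2 * (1 + 2 * a)) ≤ 1 / (1 + (a + d)) := by
  have e : 1 / (1 + (a + d)) =
      1 / (1 + a) - d / (1 + a) ^ 2 + d ^ 2 / ((1 + a) ^ 2 * (1 + (a + d))) := by
    field_simp
    ring
  rw [e]
  gcongr
  linarith

theorem grow_mart [IsGalois ℚ L] {K j : ℕ} (h : Full L K) (hj : j < K) :
    ∑ σ : L ≃ₐ[ℚ] L, 1 / (1 + (fixN j σ : ℝ)) ≤ ∑ σ : L ≃ₐ[ℚ] L, 1 / (1 + (fixN (j + 1) σ : ℝ)) ∧
    (2 ≤ j → Even j → ∑ σ : L ≃ₐ[ℚ] L, (1 / (1 + (fixN j σ : ℝ)) +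
      fixN j σ / ((1 + fixN j σ) ^ 2 * (1 + 2 * fixN j σ))) ≤
      ∑ σ : L ≃ₐ[ℚ] L, 1 / (1 + (fixN (j + 1) σ : ℝ))) := by
  choose d h1 h2 h3 using step_mart h hj
  have key : ∀ σ, (H_mart L j).card * (1 / (1 + (fixN j σ : ℝ))) +
      (∑ τ ∈ H_mart L j, d σ τ ^ 2) / ((1 + fixN j σ) ^ 2 * (1 + 2 * fixN j σ)) ≤
      ∑ τ ∈ H_mart L j, 1 / (1 + (fixN (j + 1) (σ * τ) : ℝ)) := fun σ => by
    have := sum_le_sum fun τ (hτ : τ ∈ H_mart L j) => ineq_mart (Nat.cast_nonneg (fixN j σ))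
      ((h1 σ τ hτ).1 ▸ Nat.cast_nonneg _) (h1 σ τ hτ).2
    rw [sum_add_distrib, sum_sub_distrib, ← sum_div _ (d σ), h2, zero_div, sub_zero, sum_const,
      nsmul_eq_mul, ← sum_div] at this
    exact this.trans (le_of_eq (sum_congr rfl fun τ hτ => by rw [(h1 σ τ hτ).1]))
  have tot := sum_le_sum fun σ (_ : σ ∈ univ) => key σ
  rw [avg_mart j fun σ => 1 / (1 + (fixN (j + 1) σ : ℝ))] at tot
  refine ⟨le_of_mul_le_mul_left (le_trans ?_ tot) (card_pos_mart j),
    fun a b => le_of_mul_le_mul_left (le_trans (le_of_eq ?_) tot) (card_pos_mart j)⟩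
  · rw [mul_sum]
    exact sum_le_sum fun σ _ => le_add_of_nonneg_right
      (div_nonneg (sum_nonneg fun _ _ => sq_nonneg _) (by positivity))
  · rw [mul_sum]
    exact sum_congr rfl fun σ _ => by rw [h3 σ a b, mul_add, mul_div_assoc]

theorem ne_zero_mart {j k : ℕ} (hjk : j ≤ k) {σ : L ≃ₐ[ℚ] L} (h : fixN k σ ≠ 0) :
    fixN j σ ≠ 0 := by
  classical
  induction k, hjk using Nat.le_induction with
  | base => exact h
  | succ k _ ih =>
    refine ih ?_
    obtain ⟨w, hw⟩ := card_ne_zero.1 h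
    obtain ⟨h1, h2⟩ := mem_filter.1 hw
    exact card_ne_zero.2 ⟨f w, mem_filter.2 ⟨mem_V_succ.1 h1, by rw [map_f, h2]⟩⟩

theorem phi_mart {M : ℝ} (hM : 0 < M) (a : ℕ) (P : Prop) [Decidable P] (hP : P → a ≠ 0) :
    ((if P then 1 else 0) - a / M) / ((1 + M) ^ 2 * (1 + 2 * M)) ≤
      (a : ℝ) / ((1 + a) ^ 2 * (1 + 2 * a)) := by
  have a0 : (0 : ℝ) ≤ a := Nat.cast_nonneg a
  have a1 : 0 ≤ (a : ℝ) / M := by positivity
  split_ifs with h
  · have a2 : (1 : ℝ) ≤ a := by exact_mod_cast Nat.one_le_iff_ne_zero.2 (hP h)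
    rcases le_total (a : ℝ) M with h1 | h1
    · exact div_le_div₀ a0 (by linarith) (by positivity) (by gcongr)
    · have : 1 ≤ (a : ℝ) / M := (one_le_div hM).2 h1
      exact le_trans (div_nonpos_of_nonpos_of_nonneg (by linarith) (by positivity)) (by positivity)
  · exact le_trans (div_nonpos_of_nonpos_of_nonneg (by linarith) (by positivity)) (by positivity)

end

theorem sum_fixN {L : Type*} [Field L] [NumberField L] [IsGalois ℚ L] {K j : ℕ} (h : Full L K)
    (hj : j ≤ K) : ∑ σ : L ≃ₐ[ℚ] L, fixN j σ = Fintype.card (L ≃ₐ[ℚ] L) := by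
  induction j with
  | zero =>
    have : ∀ σ : L ≃ₐ[ℚ] L, fixN 0 σ = 1 := fun σ => by
      unfold fixN
      rw [V_zero, filter_singleton, if_pos (map_one σ), card_singleton]
    simp [this]
  | succ j ih =>
    choose d h1 h2 _ using step_mart h hj
    have e := avg_mart j fun σ : L ≃ₐ[ℚ] L => (fixN (j + 1) σ : ℝ)
    rw [sum_congr rfl fun σ _ => by
      rw [sum_congr rfl fun τ hτ => (h1 σ τ hτ).1, sum_add_distrib, h2, add_zero, sum_const,
        nsmul_eq_mul], ← mul_sum] at e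
    have := mul_left_cancel₀ (card_pos_mart j).ne' e
    rw [← ih (by omega)]
    exact_mod_cast this.symm

theorem extinct {ε : ℝ} (hε : 0 < ε) : ∃ K₀ : ℕ, ∀ K, K₀ ≤ K →
    ∀ (L : Type) [Field L] [NumberField L] [IsGalois ℚ L], Full L K →
      (((univ : Finset (L ≃ₐ[ℚ] L)).filter fun σ => fixN K σ ≠ 0).card : ℝ) ≤
        ε * Fintype.card (L ≃ₐ[ℚ] L) := by
  set M : ℝ := 2 / ε with hM
  have M0 : 0 < M := by positivity
  set c : ℝ := (1 + M) ^ 2 * (1 + 2 * M) with hc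
  have c0 : 0 < c := by positivity
  obtain ⟨J, hJ⟩ := exists_nat_ge (c * M)
  refine ⟨2 * J + 2, fun K hK L _ _ _ h => ?_⟩
  set p : ℝ := (((univ : Finset (L ≃ₐ[ℚ] L)).filter fun σ => fixN K σ ≠ 0).card : ℝ) with hp
  set n : ℝ := ((Fintype.card (L ≃ₐ[ℚ] L) : ℕ) : ℝ) with hn
  have gain : ∀ j ≤ K, (p - n / M) / c ≤ ∑ σ : L ≃ₐ[ℚ] L,
      (fixN j σ : ℝ) / ((1 + fixN j σ) ^ 2 * (1 + 2 * fixN j σ)) := fun j hj => by
    have e : n = ∑ σ : L ≃ₐ[ℚ] L, (fixN j σ : ℝ) := by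
      rw [hn, ← sum_fixN h hj, Nat.cast_sum]
    rw [hp, natCast_card_filter, e, sum_div, ← sum_sub_distrib, sum_div]
    exact sum_le_sum fun σ _ => phi_mart M0 _ _ (ne_zero_mart hj)
  have ind : ∀ i : ℕ, 2 * i + 2 ≤ K → i * ((p - n / M) / c) ≤
      ∑ σ : L ≃ₐ[ℚ] L, 1 / (1 + (fixN (2 * i + 2) σ : ℝ)) := by
    intro i
    induction i with
    | zero =>
      intro _
      rw [Nat.cast_zero, zero_mul]
      exact sum_nonneg fun _ _ => by positivity
    | succ i ih =>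
      intro hi
      have a1 := ih (by omega)
      have a2 := (grow_mart h (j := 2 * i + 2) (by omega)).2 (by omega) ⟨i + 1, by ring⟩
      have a3 := (grow_mart h (j := 2 * i + 2 + 1) (by omega)).1
      have a4 := gain (2 * i + 2) (by omega)
      rw [sum_add_distrib] at a2
      rw [show 2 * (i + 1) + 2 = 2 * i + 2 + 1 + 1 by ring]
      push_cast
      linarith
  have top : ∑ σ : L ≃ₐ[ℚ] L, 1 / (1 + (fixN (2 * J + 2) σ : ℝ)) ≤ n := by
    rw [hn, ← card_univ, ← mul_one ((univ : Finset (L ≃ₐ[ℚ] L)).card : ℝ), ← nsmul_eq_mul]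
    exact sum_le_card_nsmul _ _ _ fun σ _ => (div_le_one (by positivity)).2
      (le_add_of_nonneg_right (Nat.cast_nonneg _))
  have fin := (ind J hK).trans top
  have n0 : 0 ≤ n := Nat.cast_nonneg _
  have e : n / M = ε / 2 * n := by
    rw [hM]
    field_simp
  by_contra hlt
  rw [not_le] at hlt
  have q : 0 < p - n / M := by nlinarith only [hlt, e, n0, hε]
  have r := (mul_le_mul_of_nonneg_right hJ (div_pos q c0).le).trans fin
  have r2 : c * M * ((p - n / M) / c) = M * p - n := by field_simp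
  have r3 : M * (ε * n) < M * p := mul_lt_mul_of_pos_left hlt M0
  have r4 : M * (ε * n) = 2 * n := by
    rw [hM]
    field_simp
  linarith

end Pool.Agent.PSD
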