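import Pool.Agent.P.MP_06afd2_nt.D1.Mean
import Pool.Agent.P.MP_3bc45c_nt.PolyNF

/-!
Mertens' first theorem for the prime ideals of degree one of a number field, with error `o(log x)`.

Sketch. Let `A y` be the number of nonzero ideals of norm at most `y` (`idl`, `card_idl`), `A y / y → ρ > 0`
(`NumberField.Ideal.tendsto_norm_le_div_atTop₀`, see `card_idl_bounds`). Count
`S n = ∑_{I ∈ idl n} log (absNorm I)` in two ways.
(1) `S n / (n log n) → ρ`: upper bound `log n * A n`, lower bound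
`(1 - η) log n * (A n - A (n ^ (1 - η)))`.
(2) `log (absNorm I) = ∑_{P prime, k ≥ 1, P ^ k ∣ I} log (absNorm P)` (`normalizedFactors`, count), and
`I ↦ P ^ k * I` is a bijection, so `S n = ∑_{P, k} log (N P) * A (n / N P ^ k)`.
Pairs with `k ≥ 2` or `N P` not prime contribute `O(n)` (`A y ≤ C y`, at most `d` primes above `p`:
`card_under_le`, `under_prime`, `∑ log p / p ^ (3/2)`-type bounds). The pairs `k = 1`, `N P = p` give
`∑_{p ≤ n} nI p * log p * A (n / p)` (`sum_norm_prime`). For `p ≤ n / T` one has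
`|A (n / p) - ρ n / p| ≤ ε n / p`; the range `n / T < p ≤ n` contributes `O_T(n)` both to this sum and to
`n * ∑ nI p * log p / p` by Chebyshev (`Chebyshev.theta_le_log4_mul_x`) and `nI_le`; finally
`∑_{p ≤ n} nI p log p / p ≤ d (log n + 6)` (`Pool.Agent.Lib.Mertens.sum_log_div_prime_le`).
Pass from natural `n = ⌊x⌋₊` to real `x` at the end.
-/

namespace Pool.Agent.PSD

open Finset Filter Topology NumberField

section

open Pool.Agent.P.MP_3bc45c_nt UniqueFactorizationMonoid Real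

variable {K : Type*} [Field K] [NumberField K]

theorem idl_zero_mert : idl K 0 = ∅ := eq_empty_of_forall_notMem fun I hI => by
  have := absNorm_pos' (mem_idl.mp hI).1
  have := (mem_idl.mp hI).2
  omega

theorem defect_mert {C : ℝ} (hC : ∀ n : ℕ, ((idl K n).card : ℝ) ≤ C * n) (n : ℕ) :
    0 ≤ ∑ I ∈ idl K n, (log n - log (Ideal.absNorm I)) ∧
      ∑ I ∈ idl K n, (log n - log (Ideal.absNorm I)) ≤ C * n := by
  refine ⟨sum_nonneg fun I hI => sub_nonneg.2 (log_le_log
    (by exact_mod_cast absNorm_pos' (mem_idl.mp hI).1) (by exact_mod_cast (mem_idl.mp hI).2)), ?_⟩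
  have hC0 : 0 ≤ C := by simpa using (Nat.cast_nonneg _).trans (hC 1)
  induction n with
  | zero => simp [idl_zero_mert]
  | succ n ih =>
    rw [← sum_subset (idl_mono K n.le_succ) fun I hI hn => by
      have h1 : Ideal.absNorm I = n + 1 := by
        have h2 := (mem_idl.mp hI).2
        have h3 : ¬ Ideal.absNorm I ≤ n := fun h => hn (mem_idl.mpr ⟨(mem_idl.mp hI).1, h⟩)
        omega
      rw [h1, sub_self]]
    rcases n.eq_zero_or_pos with rfl | hn
    · simpa [idl_zero_mert] using hC0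
    have hn' : (0 : ℝ) < n := by exact_mod_cast hn
    have h1 : log ((n + 1 : ℕ) : ℝ) ≤ log n + 1 / n := by
      have h2 := log_le_sub_one_of_pos (x := (n + 1) / n) (by positivity)
      rw [log_div (by positivity) hn'.ne', add_div, div_self hn'.ne'] at h2
      push_cast
      linarith
    have h2 : ∑ I ∈ idl K n, (log ((n + 1 : ℕ) : ℝ) - log (Ideal.absNorm I)) ≤
        ∑ I ∈ idl K n, ((log n - log (Ideal.absNorm I)) + 1 / n) :=
      sum_le_sum fun I _ => by linarith
    rw [sum_add_distrib, sum_const, nsmul_eq_mul] at h2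
    have h3 : ((idl K n).card : ℝ) * (1 / n) ≤ C := by
      rw [mul_one_div, div_le_iff₀ hn']
      exact hC n
    push_cast at h2 ⊢
    linarith

open Classical in
/-- The total multiplicity of `P` in the ideals of norm at most `n`. -/
noncomputable def mult_mert (P : Ideal (𝓞 K)) (n : ℕ) : ℝ :=
  ∑ I ∈ idl K n, ((normalizedFactors I).count P : ℝ)

theorem mult_nonneg_mert (P : Ideal (𝓞 K)) (n : ℕ) : 0 ≤ mult_mert P n :=
  sum_nonneg fun _ _ => Nat.cast_nonneg _

theorem mult_rec_mert {P : Ideal (𝓞 K)} (hP : P.IsPrime) (h0 : P ≠ ⊥) (n : ℕ) :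
    mult_mert P n = (idl K (n / Ideal.absNorm P)).card + mult_mert P (n / Ideal.absNorm P) := by
  classical
  have hp := Ideal.prime_of_isPrime h0 hP
  have hN := absNorm_pos' h0
  unfold mult_mert
  rw [← sum_subset (s₁ := (idl K (n / Ideal.absNorm P)).image (P * ·)),
    sum_image fun a _ b _ h => mul_left_cancel₀ h0 h, card_eq_sum_ones, Nat.cast_sum,
    ← sum_add_distrib]
  · refine sum_congr rfl fun J hJ => ?_
    rw [normalizedFactors_mul h0 (mem_idl.mp hJ).1, normalizedFactors_irreducible hp.irreducible,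
      normalize_eq, Multiset.count_add, Multiset.count_singleton_self, Nat.cast_add]
  · intro I hI
    obtain ⟨J, hJ, rfl⟩ := mem_image.mp hI
    refine mem_idl.mpr ⟨mul_ne_zero h0 (mem_idl.mp hJ).1, ?_⟩
    rw [map_mul, mul_comm]
    exact (Nat.le_div_iff_mul_le hN).1 (mem_idl.mp hJ).2
  · intro I hI hn
    rw [Nat.cast_eq_zero, Multiset.count_eq_zero]
    intro h
    obtain ⟨J, rfl⟩ := dvd_of_mem_normalizedFactors h
    refine hn (mem_image.mpr ⟨J, mem_idl.mpr ⟨right_ne_zero_of_mul (mem_idl.mp hI).1, ?_⟩, rfl⟩)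
    have h1 := (mem_idl.mp hI).2
    rw [map_mul, mul_comm] at h1
    exact (Nat.le_div_iff_mul_le hN).2 h1

theorem two_le_mert {P : Ideal (𝓞 K)} (hP : P.IsPrime) (h0 : P ≠ ⊥) : 2 ≤ Ideal.absNorm P := by
  have h4 := absNorm_pos' h0
  have h5 : Ideal.absNorm P ≠ 1 := fun h => hP.ne_top (Ideal.absNorm_eq_one_iff.mp h)
  omega

theorem mult_le_mert {C : ℝ} (hC : ∀ n : ℕ, ((idl K n).card : ℝ) ≤ C * n) {P : Ideal (𝓞 K)}
    (hP : P.IsPrime) (h0 : P ≠ ⊥) (n : ℕ) : mult_mert P n ≤ 2 * C * (n / Ideal.absNorm P) := by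
  have hC0 : 0 ≤ C := by simpa using (Nat.cast_nonneg _).trans (hC 1)
  have h2 := two_le_mert hP h0
  have h2' : (2 : ℝ) ≤ Ideal.absNorm P := by exact_mod_cast h2
  induction n using Nat.strong_induction_on with
  | _ n ih =>
    rcases n.eq_zero_or_pos with rfl | hn
    · simp [mult_mert, idl_zero_mert]
    rw [mult_rec_mert hP h0]
    have h3 := ih _ (Nat.div_lt_self hn h2)
    have h4 := hC (n / Ideal.absNorm P)
    have h5 : ((n / Ideal.absNorm P : ℕ) : ℝ) ≤ n / Ideal.absNorm P := Nat.cast_div_le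
    have h6 : ((n / Ideal.absNorm P : ℕ) : ℝ) / Ideal.absNorm P ≤ (n / Ideal.absNorm P) / 2 :=
      div_le_div₀ (by positivity) h5 two_pos h2'
    have h7 := mul_le_mul_of_nonneg_left h5 hC0
    have h8 := mul_le_mul_of_nonneg_left h6 hC0
    linarith

open Classical in
theorem sum_log_mert (n : ℕ) : ∑ I ∈ idl K n, log (Ideal.absNorm I) =
    ∑ P ∈ (idl K n).filter (fun P => P.IsPrime), log (Ideal.absNorm P) * mult_mert P n := by
  simp only [mult_mert, mul_sum]
  rw [sum_comm]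
  refine sum_congr rfl fun I hI => ?_
  obtain ⟨h3, h4⟩ := mem_idl.mp hI
  have h1 := prod_multiset_count_of_subset (normalizedFactors I)
    ((idl K n).filter fun P => P.IsPrime) fun P hP => by
      have hP := Multiset.mem_toFinset.mp hP
      have h5 := prime_of_normalized_factor P hP
      exact mem_filter.mpr ⟨mem_idl.mpr ⟨h5.ne_zero, le_trans (Nat.le_of_dvd (absNorm_pos' h3)
        (map_dvd Ideal.absNorm (dvd_of_mem_normalizedFactors hP))) h4⟩, Ideal.isPrime_of_prime h5⟩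
  rw [Ideal.prod_normalizedFactors_eq_self h3] at h1
  conv_lhs => rw [h1, map_prod, Nat.cast_prod]
  rw [log_prod fun P hP => by
    have := absNorm_pos' (mem_idl.mp (mem_filter.mp hP).1).1
    rw [map_pow]
    positivity]
  refine sum_congr rfl fun P _ => ?_
  rw [map_pow, Nat.cast_pow, log_pow, mul_comm]

theorem term_mert {C : ℝ} (hC : ∀ n : ℕ, ((idl K n).card : ℝ) ≤ C * n) {P : Ideal (𝓞 K)}
    (hP : P.IsPrime) (h0 : P ≠ ⊥) (n : ℕ) {p : ℕ} (hp : Ideal.absNorm (Ideal.under ℤ P) = p) :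
    |log (Ideal.absNorm P) * mult_mert P n - if (Ideal.absNorm P).Prime then
      log (Ideal.absNorm P) * (idl K (n / Ideal.absNorm P)).card else 0| ≤
      4 * C * n * (log p / p ^ 2) := by
  have hC0 : 0 ≤ C := by simpa using (Nat.cast_nonneg _).trans (hC 1)
  obtain ⟨h1, h2⟩ := under_prime hP h0
  rw [hp] at h1 h2
  have hp2 : (2 : ℝ) ≤ p := by exact_mod_cast h1.two_le
  have hl : 0 ≤ log (p : ℝ) := log_natCast_nonneg p
  have hm := mult_nonneg_mert P
  split_ifs with h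
  · have h3 : Ideal.absNorm P = p := by rw [← hp, (prime_of_norm h rfl).2]
    have h4 := mult_le_mert hC hP h0 (n / Ideal.absNorm P)
    rw [h3] at h4
    rw [mult_rec_mert hP h0, mul_add, add_sub_cancel_left, h3,
      abs_of_nonneg (mul_nonneg hl (hm _))]
    have h5 : ((n / p : ℕ) : ℝ) / p ≤ 2 * (n / p ^ 2) := by
      refine (div_le_div_of_nonneg_right Nat.cast_div_le (by positivity)).trans ?_
      rw [div_div, ← sq]
      exact le_mul_of_one_le_left (by positivity) one_le_two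
    calc log p * mult_mert P (n / p) ≤ log p * (2 * C * (2 * (n / p ^ 2))) :=
          mul_le_mul_of_nonneg_left (h4.trans (mul_le_mul_of_nonneg_left h5 (by positivity))) hl
      _ = _ := by ring
  · have h3 : p ^ 2 ≤ Ideal.absNorm P := h2.resolve_left fun e => h (e ▸ h1)
    have h4 : (p : ℝ) ^ 2 ≤ Ideal.absNorm P := by exact_mod_cast h3
    have h5 : exp 1 ≤ (p : ℝ) ^ 2 := by nlinarith [exp_one_lt_d9]
    have h6 : log (Ideal.absNorm P) / Ideal.absNorm P ≤ log ((p : ℝ) ^ 2) / p ^ 2 :=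
      log_div_self_antitoneOn h5 (h5.trans h4) h4
    rw [sub_zero, abs_of_nonneg (mul_nonneg (log_natCast_nonneg _) (hm _))]
    calc _ ≤ log (Ideal.absNorm P) * (2 * C * (n / Ideal.absNorm P)) :=
          mul_le_mul_of_nonneg_left (mult_le_mert hC hP h0 n) (log_natCast_nonneg _)
      _ = 2 * C * n * (log (Ideal.absNorm P) / Ideal.absNorm P) := by ring
      _ ≤ 2 * C * n * (log ((p : ℝ) ^ 2) / p ^ 2) := mul_le_mul_of_nonneg_left h6 (by positivity)
      _ = _ := by
          rw [log_pow]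
          push_cast
          ring

theorem sum_sq_mert : ∃ B : ℝ, ∀ S : Finset ℕ, ∑ p ∈ S, log p / (p : ℝ) ^ 2 ≤ B := by
  have h : Summable fun n : ℕ => 2 * (1 / (n : ℝ) ^ (3 / 2 : ℝ)) :=
    (summable_one_div_nat_rpow.2 (by norm_num)).mul_left 2
  refine ⟨_, fun S => (sum_le_sum fun p _ => ?_).trans
    (h.sum_le_tsum S fun n _ => by positivity)⟩
  rcases p.eq_zero_or_pos with rfl | hp
  · simp
  have hp' : (0 : ℝ) < p := by exact_mod_cast hp
  have h1 := log_le_rpow_div hp'.le (ε := 1 / 2) (by norm_num)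
  have h2 : (p : ℝ) ^ 2 = (p : ℝ) ^ (1 / 2 : ℝ) * (p : ℝ) ^ (3 / 2 : ℝ) := by
    rw [← rpow_add hp', ← rpow_natCast]
    norm_num
  have h3 := rpow_pos_of_pos hp' (1 / 2)
  have h4 := rpow_pos_of_pos hp' (3 / 2)
  rw [h2, div_le_iff₀ (by positivity)]
  refine h1.trans_eq ?_
  field_simp

theorem main_mert {C : ℝ} (hC : ∀ n : ℕ, ((idl K n).card : ℝ) ≤ C * n) : ∃ B : ℝ, ∀ n : ℕ,
    |∑ I ∈ idl K n, log (Ideal.absNorm I) -
      ∑ p ∈ primesIoc 0 n, (nI K p : ℝ) * (log p * (idl K (n / p)).card)| ≤ B * n := by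
  classical
  have hC0 : 0 ≤ C := by simpa using (Nat.cast_nonneg _).trans (hC 1)
  obtain ⟨B, hB⟩ := sum_sq_mert
  refine ⟨Module.finrank ℚ K * (4 * C * B), fun n => ?_⟩
  have e : (idl K n).filter (fun P => (Ideal.absNorm P).Prime) =
      ((idl K n).filter fun P => P.IsPrime).filter fun P => (Ideal.absNorm P).Prime := by
    rw [filter_filter]
    exact filter_congr fun P _ => ⟨fun h => ⟨(prime_of_norm h rfl).1, h⟩, fun h => h.2⟩
  have hmap : ∀ P ∈ (idl K n).filter (fun P => P.IsPrime),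
      Ideal.absNorm (Ideal.under ℤ P) ∈ primesIoc 0 n := fun P hP => by
    obtain ⟨h4, h5⟩ := mem_filter.mp hP
    obtain ⟨h6, h7⟩ := mem_idl.mp h4
    have h8 := (under_prime h5 h6).1
    exact mem_primesIoc.mpr ⟨h8.pos, le_trans (Nat.le_of_dvd (absNorm_pos' h6)
      (Int.absNorm_under_dvd_absNorm P)) h7, h8⟩
  rw [sum_log_mert, ← sum_norm_prime K n fun p => log p * (idl K (n / p)).card, e, sum_filter
    (fun P => (Ideal.absNorm P).Prime), ← sum_sub_distrib]
  refine (abs_sum_le_sum_abs _ _).trans ?_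
  rw [← sum_fiberwise_of_maps_to hmap]
  refine (sum_le_sum (g := fun p : ℕ => Module.finrank ℚ K * (4 * C * n * (log p / p ^ 2)))
    fun p hp => ?_).trans ?_
  · refine (sum_le_card_nsmul _ _ (4 * C * n * (log p / p ^ 2)) fun P hP => ?_).trans ?_
    · obtain ⟨h6, h7⟩ := mem_filter.mp hP
      obtain ⟨h8, h9⟩ := mem_filter.mp h6
      exact term_mert hC h9 (mem_idl.mp h8).1 n h7
    · rw [nsmul_eq_mul]
      have := log_natCast_nonneg p
      refine mul_le_mul_of_nonneg_right (Nat.cast_le.2 ?_) (by positivity)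
      exact card_under_le (mem_primesIoc.mp hp).2.2 _ fun P hP =>
        ⟨(mem_filter.mp (mem_filter.mp hP).1).2, (mem_filter.mp hP).2⟩
  · rw [← mul_sum, ← mul_sum, mul_assoc (Module.finrank ℚ K : ℝ), mul_right_comm _ B]
    exact mul_le_mul_of_nonneg_left (mul_le_mul_of_nonneg_left (hB _) (by positivity))
      (Nat.cast_nonneg _)

theorem lin_mert {A : ℕ → ℝ} {ρ ε : ℝ} (h : Tendsto (fun n : ℕ => A n / n) atTop (𝓝 ρ))
    (hε : 0 < ε) : ∃ B : ℝ, 0 ≤ B ∧ ∀ n : ℕ, |A n - ρ * n| ≤ ε * n + B := by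
  obtain ⟨n₀, hn₀⟩ := eventually_atTop.1 ((Metric.tendsto_nhds.1 h ε hε).and
    (eventually_gt_atTop 0))
  have h0 : 0 ≤ ∑ m ∈ range n₀, |A m - ρ * m| := sum_nonneg fun _ _ => abs_nonneg _
  refine ⟨_, h0, fun n => ?_⟩
  rcases lt_or_ge n n₀ with hn | hn
  · exact le_add_of_nonneg_of_le (by positivity)
      (single_le_sum (f := fun m : ℕ => |A m - ρ * m|) (fun _ _ => abs_nonneg _) (mem_range.2 hn))
  · obtain ⟨h1, h2⟩ := hn₀ n hn
    have h3 : (0 : ℝ) < n := by exact_mod_cast h2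
    have e : A n - ρ * n = (A n / n - ρ) * n := by field_simp
    rw [e, abs_mul, abs_of_pos h3]
    exact le_add_of_le_of_nonneg (mul_le_mul_of_nonneg_right h1.le h3.le) h0

theorem approx_mert {A w : ℕ → ℝ} {ρ ε B d : ℝ} (hρ : 0 ≤ ρ) (hε : 0 ≤ ε) (hB : 0 ≤ B) (hd : 0 ≤ d)
    (h : ∀ n : ℕ, |A n - ρ * n| ≤ ε * n + B) (hw : ∀ p, p.Prime → 0 ≤ w p ∧ w p ≤ d) {n : ℕ}
    (hn : 1 ≤ n) : |∑ p ∈ primesIoc 0 n, w p * (log p * A (n / p)) -
      ρ * n * ∑ p ∈ primesIoc 0 n, w p * (log p / p)| ≤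
      d * (ε * n * (log n + log 4) + (B + ρ) * (log 4 * n)) := by
  have h1 : ∑ p ∈ primesIoc 0 n, log (p : ℝ) ≤ log 4 * n := by
    have := Chebyshev.theta_le_log4_mul_x (Nat.cast_nonneg (α := ℝ) n)
    rwa [Chebyshev.theta, Nat.floor_natCast] at this
  rw [mul_sum, ← sum_sub_distrib]
  refine (abs_sum_le_sum_abs _ _).trans ((sum_le_sum (g := fun p : ℕ =>
    d * (ε * n * (log p / p) + (B + ρ) * log p)) fun p hp => ?_).trans ?_)
  · have hp' := (mem_primesIoc.mp hp).2.2
    have hp0 : (0 : ℝ) < p := by exact_mod_cast hp'.pos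
    have hl := log_natCast_nonneg p
    have h2 : ((n / p : ℕ) : ℝ) ≤ n / p := Nat.cast_div_le
    have h3 : (n : ℝ) / p < (n / p : ℕ) + 1 := by
      rw [← Nat.floor_div_eq_div (K := ℝ)]
      exact Nat.lt_floor_add_one _
    have h4 := abs_le.1 (h (n / p))
    have h5 := mul_le_mul_of_nonneg_left h2 hε
    have h6 := mul_le_mul_of_nonneg_left h2 hρ
    have h7 := mul_le_mul_of_nonneg_left h3.le hρ
    have h8 : |A (n / p) - ρ * (n / p)| ≤ ε * (n / p) + (B + ρ) :=
      abs_le.2 ⟨by linarith [h4.1], by linarith [h4.2]⟩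
    have e : w p * (log p * A (n / p)) - ρ * n * (w p * (log p / p)) =
        w p * (log p * (A (n / p) - ρ * (n / p))) := by ring
    rw [e, abs_mul, abs_mul, abs_of_nonneg (hw p hp').1, abs_of_nonneg hl]
    refine mul_le_mul (hw p hp').2 ((mul_le_mul_of_nonneg_left h8 hl).trans_eq (by ring))
      (by positivity) hd
  · rw [← mul_sum, sum_add_distrib, ← mul_sum, ← mul_sum]
    exact mul_le_mul_of_nonneg_left (add_le_add (mul_le_mul_of_nonneg_left (A1_le hn)
      (by positivity)) (mul_le_mul_of_nonneg_left h1 (by positivity))) hd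

variable (K) in
theorem nat_mert {ε : ℝ} (hε : 0 < ε) : ∃ B : ℝ, ∀ n : ℕ, 1 ≤ n →
    |∑ p ∈ primesIoc 0 n, (nI K p : ℝ) * (log p / p) - log n| ≤ ε * log n + B := by
  obtain ⟨c, C, -, hC0, hC⟩ := card_idl_bounds K
  have hC' : ∀ n : ℕ, ((idl K n).card : ℝ) ≤ C * n := fun n => by
    rcases n.eq_zero_or_pos with rfl | hn
    · simp [idl_zero_mert]
    · exact (hC n hn).2
  have h := (Ideal.tendsto_norm_le_div_atTop₀ K).comp tendsto_natCast_atTop_atTop
  rw [← dedekindZeta_residue_def] at h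
  have hρ := dedekindZeta_residue_pos K
  generalize dedekindZeta_residue K = ρ at h hρ
  simp only [Function.comp_def, ← card_idl] at h
  have hd : (0 : ℝ) ≤ Module.finrank ℚ K := Nat.cast_nonneg _
  have hw : ∀ p, p.Prime → (0 : ℝ) ≤ nI K p ∧ (nI K p : ℝ) ≤ Module.finrank ℚ K := fun p hp =>
    ⟨Nat.cast_nonneg _, Nat.cast_le.2 (nI_le K hp)⟩
  generalize (Module.finrank ℚ K : ℝ) = d at hd hw
  have hη : 0 < ε * ρ / (d + 1) := by positivity
  have hη' : ε * ρ / (d + 1) * (d + 1) = ε * ρ := div_mul_cancel₀ _ (by positivity)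
  generalize ε * ρ / (d + 1) = η at hη hη'
  obtain ⟨B, hB0, hB⟩ := lin_mert h hη
  obtain ⟨B', hB'⟩ := main_mert hC'
  refine ⟨(d * (η * log 4 + (B + ρ) * log 4) + B' + C + B) / ρ, fun n hn => ?_⟩
  have hn' : (1 : ℝ) ≤ n := by exact_mod_cast hn
  have h1 := abs_le.1 (approx_mert (A := fun n => ((idl K n).card : ℝ)) hρ.le hη.le hB0 hd hB hw hn)
  have h2 := abs_le.1 (hB' n)
  have h3 := defect_mert hC' n
  rw [sum_sub_distrib, sum_const, nsmul_eq_mul] at h3
  have hl := log_natCast_nonneg n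
  have h4 := abs_le.1 (hB n)
  have h5 := mul_le_mul_of_nonneg_right h4.1 hl
  have h6 := mul_le_mul_of_nonneg_right h4.2 hl
  have h7 : B * log n ≤ B * n := mul_le_mul_of_nonneg_left (log_le_self (by positivity)) hB0
  have hpos : 0 < ρ * n := by positivity
  have e : ρ * n * (ε * log n + (d * (η * log 4 + (B + ρ) * log 4) + B' + C + B) / ρ) =
      η * (d + 1) * (n * log n) + (d * (η * log 4 + (B + ρ) * log 4) + B' + C + B) * n := by
    rw [hη']
    field_simp
  refine le_of_mul_le_mul_left ?_ hpos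
  rw [← abs_of_pos hpos, ← abs_mul, abs_of_pos hpos, e, abs_le]
  constructor <;> linarith [h1.1, h1.2, h2.1, h2.2, h3.1, h3.2]

end

theorem mean_nI (K : Type*) [Field K] [NumberField K] :
    HasMean (fun p => (Pool.Agent.P.MP_3bc45c_nt.nI K p : ℝ)) 1 := by
  rw [HasMean, Metric.tendsto_nhds]
  intro ε hε
  obtain ⟨B, hB⟩ := nat_mert K (half_pos hε)
  have h1 : ∀ᶠ x : ℝ in atTop, (B + Real.log 2) / (ε / 2) < Real.log x :=
    Real.tendsto_log_atTop.eventually (eventually_gt_atTop _)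
  filter_upwards [h1, eventually_gt_atTop 1] with x h2 hx
  have hl := Real.log_pos hx
  have h3 := abs_le.1 (hB ⌊x⌋₊ ((Nat.one_le_floor_iff _).2 hx.le))
  have h4 := Pool.Agent.Lib.Mertens.log_floor_le hx.le
  have h5 := Pool.Agent.Lib.Mertens.log_le_log_floor_add hx.le
  have h6 := mul_le_mul_of_nonneg_left h4 (half_pos hε).le
  have h7 := Real.log_pos one_lt_two
  rw [div_lt_iff₀ (half_pos hε)] at h2
  rw [Real.dist_eq, div_sub_one hl.ne', abs_div, abs_of_pos hl, div_lt_iff₀ hl, abs_lt]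
  change _ < ∑ p ∈ Pool.Agent.P.MP_3bc45c_nt.primesIoc 0 ⌊x⌋₊, _ - _ ∧
    ∑ p ∈ Pool.Agent.P.MP_3bc45c_nt.primesIoc 0 ⌊x⌋₊, _ - _ < _
  constructor <;> linarith [h3.1, h3.2]

end Pool.Agent.PSD
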