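import Pool.Agent.P.MP_06afd2_nt.D1.Kara
import Pool.Agent.P.MP_06afd2_nt.D1.Defs2

/-!
The choice of parameters in the bilinear estimate.

Sketch. `E = EE X T`, `E ^ Δ = X`, `Δ = 100 T ^ 3`, `P = 2 ^ a`, `Q = 2 ^ b`, `A = AA X a b`, `D = ∏ S`, `A E ≤ D ≤ A E ^ 2`; `X / (2 P Q) ≤ A ≤ 2 X / (P Q)` because `P Q ≤ P Q ^ (2 t) ≤ X`.
Primes of `Xs` satisfy `x ^ T ≥ X = E ^ Δ`, so `x ≥ E ^ (100 T ^ 2) > E`, hence are coprime to `D`, and `P ≤ x ≤ 2 P`; also `2 P ≥ E ^ (100 T ^ 2)`, `2 Q ≥ P ^ 5`.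
`t (2 Q) ^ (2 t - 1) < D` because `A ≥ Q ^ (2 t - 1) / 2` and `E > T 4 ^ T`. Let `s ≥ 1` be maximal with `P ^ (2 s - 1) E ^ 3 ≤ A` (true for `s = 1`: `P Q ^ 2 ≤ X` gives `A ≥ Q / 2 ≥ P ^ 5 / 4`); `s ≤ T`
(`P ^ 2 ≥ 2 P`, so `P ^ (2 T) ≥ X`, and `P ^ (2 T + 1) > A`). Then `s (2 P) ^ (2 s - 1) E ^ 3 < A E ≤ D`. By maximality `P ^ (2 s + 1) E ^ 3 > A`. From `X ^ 4 < (2 Q) ^ (8 t + 3)`:
`(2 Q) ^ (4 (2 t + 1)) > X ^ 4 * 2 Q ≥ (X E ^ (25 T ^ 2)) ^ 4`. These give `s ^ s t ^ t D (E ^ 3) ^ (2 s t) ≤ P ^ s Q ^ t` (square both sides) for large `E`, and `karatsuba` with `card Xs ≤ P`, `card Ys ≤ Q`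
gives `(‖Kl‖ E ^ 3) ^ (2 s t) ≤ (P Q) ^ (2 s t)`.
-/

namespace Pool.Agent.PSD

open Finset Filter Topology

theorem card_Xs_Par (X T a : ℕ) : (Xs X T a).card ≤ 2 ^ a := by
  have h : Xs X T a ⊆ Ico (2 ^ a) (2 ^ (a + 1)) := by
    intro x hx
    obtain ⟨-, hp, hl, -⟩ := mem_filter.1 hx
    rw [mem_Ico, ← hl]
    exact ⟨Nat.pow_log_le_self 2 hp.ne_zero, Nat.lt_pow_succ_log_self one_lt_two x⟩
  refine (card_le_card h).trans (le_of_eq ?_)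
  rw [Nat.card_Ico, pow_succ]
  omega

theorem pow_De_Par {X T : ℕ} (hT : 1 ≤ T) {x : ℝ} (hx : 0 ≤ x) (h : (X : ℝ) ≤ x ^ T) :
    EE X T ^ (100 * T ^ 2) ≤ x := by
  refine le_of_pow_le_pow_left₀ (n := T) (by omega) hx ?_
  rw [← pow_mul]
  have : 100 * T ^ 2 * T = De T := by
    unfold De
    ring
  rw [this, EE_pow hT]
  exact h

theorem mem_Xs_Par {X T a s : ℕ} (hT : 1 ≤ T) (hE : (T : ℝ) < EE X T) (hs : s ≤ T) {S : Finset ℕ}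
    (hS : S ⊆ Win X (De T)) {x : ℕ} (hx : x ∈ Xs X T a) :
    x.Prime ∧ s < x ∧ x ≤ 2 * 2 ^ a ∧ x.Coprime (∏ p ∈ S, p) := by
  obtain ⟨-, hp, hl, hX⟩ := mem_filter.1 hx
  have h1 : (1 : ℝ) < EE X T := lt_of_le_of_lt (by exact_mod_cast hT) hE
  have h2 : EE X T ^ (100 * T ^ 2) ≤ x :=
    pow_De_Par hT (Nat.cast_nonneg _) (by exact_mod_cast hX)
  have h3 : EE X T < x := by
    refine lt_of_lt_of_le ?_ h2
    refine lt_self_pow₀ h1 ?_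
    nlinarith
  refine ⟨hp, ?_, ?_, Nat.Coprime.prod_right fun p hpS => ?_⟩
  · have : (s : ℝ) < x := lt_of_le_of_lt (by exact_mod_cast hs) (hE.trans h3)
    exact_mod_cast this
  · have := Nat.lt_pow_succ_log_self one_lt_two x
    rw [hl, pow_succ] at this
    omega
  · obtain ⟨hp', -, h4⟩ := (mem_Win hT).1 (hS hpS)
    refine (Nat.coprime_primes hp hp').2 ?_
    rintro rfl
    linarith

theorem small_Par {T s : ℕ} (hs : s ≤ T) {E A P : ℝ} (hE : T * 4 ^ T < E) (hA : 0 < A)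
    (hP : 0 ≤ P) {G : ℝ} (hG : 0 ≤ G) (h : P ^ (2 * s - 1) * G ≤ 2 * A) (h1 : 1 ≤ s) :
    s * (2 * P) ^ (2 * s - 1) * G < A * E := by
  have h2 : (2 : ℝ) ^ (2 * s - 1) * 2 ≤ 4 ^ T := by
    rw [← pow_succ, show (4 : ℝ) = 2 ^ 2 by norm_num, ← pow_mul]
    exact pow_le_pow_right₀ one_le_two (by omega)
  have h3 : (s : ℝ) ≤ T := by exact_mod_cast hs
  calc s * (2 * P) ^ (2 * s - 1) * G = s * 2 ^ (2 * s - 1) * (P ^ (2 * s - 1) * G) := by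
        rw [mul_pow]
        ring
    _ ≤ s * 2 ^ (2 * s - 1) * (2 * A) := mul_le_mul_of_nonneg_left h (by positivity)
    _ = A * (s * (2 ^ (2 * s - 1) * 2)) := by ring
    _ ≤ A * (T * 4 ^ T) := by gcongr
    _ < A * E := mul_lt_mul_of_pos_left hE hA

theorem main_Par {T s t : ℕ} (hT : 1 ≤ T) (hs : s ≤ T) (ht : t ≤ T) {E A P Q X D : ℝ}
    (hE : (T : ℝ) ^ (4 * T) * 2 ^ (2 * T + 2) ≤ E) (hA : 0 < A) (hP : 0 < P) (hQ : 0 < Q)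
    (hX : 0 < X) (hD0 : 0 ≤ D) (hD : D ≤ A * E ^ 2) (h1 : A * (P * Q) ≤ 2 * X)
    (h2 : A ≤ P ^ (2 * s + 1) * E ^ 3) (h3 : X ^ 4 ≤ (2 * Q) ^ (8 * t + 3))
    (h4 : E ^ (100 * T ^ 2) ≤ 2 * Q) :
    (s : ℝ) ^ s * (t : ℝ) ^ t * D * (E ^ 3) ^ (2 * s * t) ≤ P ^ s * Q ^ t := by
  have T1 : (1 : ℝ) ≤ T := by exact_mod_cast hT
  have E1 : 1 ≤ E := le_trans (one_le_mul_of_one_le_of_one_le (one_le_pow₀ T1)
    (one_le_pow₀ one_le_two)) hE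
  have E0 : 0 < E := lt_of_lt_of_le one_pos E1
  have a1 : ∀ u : ℕ, u ≤ T → (u : ℝ) ^ u ≤ (T : ℝ) ^ T := fun u hu =>
    (pow_le_pow_left₀ (Nat.cast_nonneg _) (by exact_mod_cast hu) u).trans (pow_le_pow_right₀ T1 hu)
  have a2 : X * E ^ (25 * T ^ 2) ≤ (2 * Q) ^ (2 * t + 1) := by
    refine le_of_pow_le_pow_left₀ (n := 4) (by norm_num) (by positivity) ?_
    rw [mul_pow, ← pow_mul, ← pow_mul, show (2 * t + 1) * 4 = 8 * t + 3 + 1 by ring, pow_succ (2 * Q),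
      show 25 * T ^ 2 * 4 = 100 * T ^ 2 by ring]
    exact mul_le_mul h3 h4 (by positivity) (by positivity)
  have a3 : (2 * Q) ^ (2 * t + 1) ≤ 2 ^ (2 * T + 1) * (Q ^ (2 * t) * Q) := by
    rw [mul_pow, pow_succ Q]
    exact mul_le_mul_of_nonneg_right (pow_le_pow_right₀ one_le_two (by omega)) (by positivity)
  have a4 : A ^ 2 * Q ≤ 2 * P ^ (2 * s) * E ^ 3 * X := by
    refine le_of_mul_le_mul_left ?_ hP
    calc P * (A ^ 2 * Q) = A * (A * (P * Q)) := by ring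
      _ ≤ P ^ (2 * s + 1) * E ^ 3 * (2 * X) := mul_le_mul h2 h1 (by positivity) (by positivity)
      _ = _ := by ring
  have a5 : E * (E ^ 7 * E ^ (12 * s * t)) ≤ E ^ (25 * T ^ 2) := by
    rw [← pow_add, ← pow_succ']
    refine pow_le_pow_right₀ E1 ?_
    have := Nat.mul_le_mul hs ht
    nlinarith
  refine le_of_pow_le_pow_left₀ (n := 2) (by norm_num) (by positivity) ?_
  refine le_of_mul_le_mul_left (a := 2 ^ (2 * T + 1) * Q) ?_ (by positivity)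
  calc 2 ^ (2 * T + 1) * Q * ((s : ℝ) ^ s * (t : ℝ) ^ t * D * (E ^ 3) ^ (2 * s * t)) ^ 2
      ≤ 2 ^ (2 * T + 1) * Q *
        ((T : ℝ) ^ T * (T : ℝ) ^ T * (A * E ^ 2) * (E ^ 3) ^ (2 * s * t)) ^ 2 := by
        gcongr
        · exact a1 s hs
        · exact a1 t ht
    _ = (T : ℝ) ^ (4 * T) * 2 ^ (2 * T + 1) * (A ^ 2 * Q) * (E ^ 4 * E ^ (12 * s * t)) := by
        ring
    _ ≤ (T : ℝ) ^ (4 * T) * 2 ^ (2 * T + 1) * (2 * P ^ (2 * s) * E ^ 3 * X) *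
        (E ^ 4 * E ^ (12 * s * t)) := by gcongr
    _ = (T : ℝ) ^ (4 * T) * 2 ^ (2 * T + 2) * (E ^ 7 * E ^ (12 * s * t)) * X * P ^ (2 * s) := by
        ring
    _ ≤ E * (E ^ 7 * E ^ (12 * s * t)) * X * P ^ (2 * s) := by gcongr
    _ ≤ E ^ (25 * T ^ 2) * X * P ^ (2 * s) := by gcongr
    _ ≤ 2 ^ (2 * T + 1) * (Q ^ (2 * t) * Q) * P ^ (2 * s) := by
        rw [mul_comm _ X]
        exact mul_le_mul_of_nonneg_right (a2.trans a3) (by positivity)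
    _ = _ := by ring

theorem exists_s_Par {T : ℕ} {E A P Q X : ℝ} (hE : 2 ≤ E) (hP : E ^ 100 ≤ 2 * P)
    (hQ : P ^ 5 ≤ 2 * Q) (hA : Q ≤ 2 * A) (h1 : A * (P * Q) ≤ 2 * X) (hX : X ≤ (2 * P) ^ T) :
    ∃ s, 1 ≤ s ∧ s ≤ T ∧ P ^ (2 * s - 1) * E ^ 3 ≤ A ∧ A ≤ P ^ (2 * s + 1) * E ^ 3 := by
  have E1 : (1 : ℝ) ≤ E := one_le_two.trans hE
  have e3 : 8 ≤ E ^ 3 := le_trans (by norm_num) (pow_le_pow_left₀ zero_le_two hE 3)
  have e4 : 2 * E ^ 3 ≤ E ^ 100 := by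
    calc 2 * E ^ 3 ≤ E * E ^ 3 := by gcongr
      _ = E ^ 4 := by ring
      _ ≤ _ := pow_le_pow_right₀ E1 (by norm_num)
  have p1 : E ^ 3 ≤ P := by linarith
  have p8 : 8 ≤ P := e3.trans p1
  have P0 : 0 < P := by linarith
  have p3 : 4 ≤ P ^ 3 := le_trans (by norm_num) (pow_le_pow_left₀ (by norm_num) p8 3)
  have p5 : 2 ≤ P ^ 5 := le_trans (by norm_num) (pow_le_pow_left₀ (by norm_num) p8 5)
  have Q1 : 1 ≤ Q := by linarith
  have b0 : P ^ (2 * 0 + 1) * E ^ 3 ≤ A := by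
    have : 4 * (P * E ^ 3) ≤ P ^ 3 * (P * P) := by gcongr
    have e : P ^ 3 * (P * P) = P ^ 5 := by ring
    rw [mul_zero, zero_add, pow_one]
    linarith
  have bT : ¬P ^ (2 * T + 1) * E ^ 3 ≤ A := by
    intro h
    have h2 : (2 * P) ^ T ≤ P ^ (2 * T) := by
      rw [pow_mul]
      exact pow_le_pow_left₀ (by positivity) (by nlinarith) T
    have h3 : P ^ (2 * T + 1) * E ^ 3 * (P * Q) ≤ A * (P * Q) :=
      mul_le_mul_of_nonneg_right h (by positivity)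
    have h4 : P ^ (2 * T) * 8 * 8 * (8 * 1) ≤ P ^ (2 * T) * P * E ^ 3 * (P * Q) := by gcongr
    have h5 : 0 < P ^ (2 * T) := by positivity
    rw [pow_succ] at h3
    linarith
  have ex : ∃ s, ¬P ^ (2 * s + 1) * E ^ 3 ≤ A := ⟨T, bT⟩
  have s1 : 1 ≤ Nat.find ex := by
    rw [Nat.one_le_iff_ne_zero, Ne, Nat.find_eq_zero]
    exact not_not.2 b0
  refine ⟨Nat.find ex, s1, Nat.find_min' ex bT, ?_, (not_le.1 (Nat.find_spec ex)).le⟩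
  have := not_not.1 (Nat.find_min ex (m := Nat.find ex - 1) (by omega))
  rwa [show 2 * (Nat.find ex - 1) + 1 = 2 * Nat.find ex - 1 by omega] at this

theorem par_kl {T : ℕ} (hT : 1 ≤ T) : ∀ᶠ X : ℕ in atTop, ∀ a b : ℕ, Adm X T a b →
    ∀ S : Finset ℕ, Sz X T a b S → ∀ (D : ℕ) [NeZero D], D = ∏ p ∈ S, p → ∀ c : ZMod D,
      (Nat.gcd c.val D : ℝ) ≤ EE X T ^ 3 →
        ‖Kl D (Xs X T a) (Xs X T b) c‖ ≤ 2 ^ a * 2 ^ b / EE X T ^ 3 := by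
  filter_upwards [(EE_tendsto hT).eventually_gt_atTop (T * 4 ^ T),
    (EE_tendsto hT).eventually_ge_atTop ((T : ℝ) ^ (4 * T) * 2 ^ (2 * T + 2)),
    (EE_tendsto hT).eventually_ge_atTop 2, eventually_ge_atTop 1] with X hE1 hE2 hE3 hX1
  rintro a b ⟨h5, hXP, t, t1, tT, hPQ, hX4⟩ S ⟨hS, hD1, hD2⟩ D _ hD c hc
  rw [← hD] at hD1 hD2
  have T1 : (1 : ℝ) ≤ T := by exact_mod_cast hT
  have hTE : (T : ℝ) < EE X T :=
    lt_of_le_of_lt (le_mul_of_one_le_right (by positivity) (one_le_pow₀ (by norm_num))) hE1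
  have n0 : 0 < 2 ^ a * 2 ^ b := by positivity
  have n1 : 2 ^ a * 2 ^ b ≤ X :=
    le_trans (Nat.mul_le_mul_left _ (Nat.le_self_pow (by omega) _)) hPQ
  have n2 : 1 ≤ AA X a b := (Nat.le_div_iff_mul_le n0).2 (by omega)
  have n3 : AA X a b * (2 ^ a * 2 ^ b) ≤ 2 * X :=
    (Nat.div_mul_le_self _ _).trans (by omega)
  have n4 : X ≤ 2 * AA X a b * (2 ^ a * 2 ^ b) := by
    have h : X + 1 < 2 ^ a * 2 ^ b * (AA X a b + 1) := Nat.lt_mul_div_succ _ n0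
    have h' : 2 ^ a * 2 ^ b * (AA X a b + 1) ≤ 2 ^ a * 2 ^ b * (2 * AA X a b) :=
      Nat.mul_le_mul_left _ (by omega)
    rw [mul_comm]
    omega
  have n5 : (2 ^ b) ^ (2 * t - 1) ≤ 2 * AA X a b := by
    refine Nat.le_of_mul_le_mul_right (le_trans (le_of_eq ?_) (hPQ.trans n4)) n0
    obtain ⟨u, rfl⟩ := Nat.exists_eq_add_of_le' t1
    rw [show 2 * (u + 1) - 1 = 2 * u + 1 by omega]
    ring
  have n6 : 2 ^ b ≤ 2 * AA X a b := (Nat.le_self_pow (by omega) _).trans n5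
  have A0 : (0 : ℝ) < AA X a b := by exact_mod_cast n2
  have E0 : 0 < EE X T := by linarith
  have E1 : 1 ≤ EE X T := by linarith
  have r1 : (X : ℝ) ≤ (2 * 2 ^ a) ^ T := by exact_mod_cast hXP
  have r2 := pow_De_Par hT (by positivity) r1
  have r3 : EE X T ^ 100 ≤ 2 * 2 ^ a :=
    (pow_le_pow_right₀ E1 (by nlinarith)).trans r2
  have r4 : ((2 : ℝ) ^ a) ^ 5 ≤ 2 * 2 ^ b := by exact_mod_cast h5
  have r5 : (AA X a b : ℝ) * (2 ^ a * 2 ^ b) ≤ 2 * X := by exact_mod_cast n3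
  obtain ⟨s, s1, sT, hs1, hs2⟩ := exists_s_Par hE3 r3 r4 (by exact_mod_cast n6) r5 r1
  have r6 : (2 : ℝ) * 2 ^ a ≤ (2 ^ a) ^ 5 := by
    have e : (4 : ℝ) ≤ EE X T ^ 100 :=
      le_trans (by norm_num) (pow_le_pow_left₀ zero_le_two hE3 100)
    have e2 : (2 : ℝ) ≤ 2 ^ a := by linarith
    calc (2 : ℝ) * 2 ^ a ≤ 2 ^ a * 2 ^ a := by gcongr
      _ = (2 ^ a) ^ 2 := by ring
      _ ≤ _ := pow_le_pow_right₀ (by linarith) (by norm_num)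
  have k := karatsuba c (X := Xs X T a) (Y := Xs X T b) (BX := 2 * 2 ^ a) (BY := 2 * 2 ^ b) s1 t1
    (fun x hx => hD ▸ mem_Xs_Par hT hTE sT hS hx) (fun x hx => hD ▸ mem_Xs_Par hT hTE tT hS hx)
    (by
      have := small_Par sT hE1 A0 (P := 2 ^ a) (by positivity) (G := Nat.gcd c.val D)
        (Nat.cast_nonneg _) (by
          have : ((2 : ℝ) ^ a) ^ (2 * s - 1) * Nat.gcd c.val D ≤ (2 ^ a) ^ (2 * s - 1) * EE X T ^ 3 :=
            mul_le_mul_of_nonneg_left hc (by positivity)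
          linarith) s1
      exact_mod_cast this.trans_le hD1)
    (by
      have := small_Par tT hE1 A0 (P := 2 ^ b) (by positivity) (G := 1) zero_le_one
        (by rw [mul_one]; exact_mod_cast n5) t1
      rw [mul_one] at this
      exact_mod_cast this.trans_le hD1)
  have m := main_Par hT sT tT hE2 A0 (P := 2 ^ a) (Q := 2 ^ b) (X := X) (D := D) (by positivity)
    (by positivity) (by exact_mod_cast hX1) (Nat.cast_nonneg _) hD2 r5 hs2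
    (by exact_mod_cast hX4.le) (r2.trans (r6.trans r4))
  have c1 : ((Xs X T a).card : ℝ) ≤ 2 ^ a := by exact_mod_cast card_Xs_Par X T a
  have c2 : ((Xs X T b).card : ℝ) ≤ 2 ^ b := by exact_mod_cast card_Xs_Par X T b
  have l1 : s ≤ 2 * s * t := by nlinarith
  have l2 : t ≤ 2 * s * t := by nlinarith
  rw [le_div_iff₀ (by positivity)]
  refine le_of_pow_le_pow_left₀ (n := 2 * s * t) (by positivity) (by positivity) ?_
  calc (‖Kl D (Xs X T a) (Xs X T b) c‖ * EE X T ^ 3) ^ (2 * s * t)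
      = ‖Kl D (Xs X T a) (Xs X T b) c‖ ^ (2 * s * t) * (EE X T ^ 3) ^ (2 * s * t) := mul_pow _ _ _
    _ ≤ (s : ℝ) ^ s * (t : ℝ) ^ t * D * ((2 : ℝ) ^ a) ^ (2 * s * t - s) *
        ((2 : ℝ) ^ b) ^ (2 * s * t - t) * (EE X T ^ 3) ^ (2 * s * t) := by
        refine mul_le_mul_of_nonneg_right (k.trans ?_) (by positivity)
        gcongr
    _ = (s : ℝ) ^ s * (t : ℝ) ^ t * D * (EE X T ^ 3) ^ (2 * s * t) *
        (((2 : ℝ) ^ a) ^ (2 * s * t - s) * ((2 : ℝ) ^ b) ^ (2 * s * t - t)) := by ring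
    _ ≤ ((2 : ℝ) ^ a) ^ s * ((2 : ℝ) ^ b) ^ t *
        (((2 : ℝ) ^ a) ^ (2 * s * t - s) * ((2 : ℝ) ^ b) ^ (2 * s * t - t)) :=
        mul_le_mul_of_nonneg_right m (by positivity)
    _ = _ := by
        rw [mul_mul_mul_comm, ← pow_add, ← pow_add, Nat.add_sub_cancel' l1, Nat.add_sub_cancel' l2,
          mul_pow]

end Pool.Agent.PSD
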