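import Pool.Agent.P.MP_06afd2_nt.D1.Tree

/-!
The characters attached to distinct points of an even level are distinct.

Sketch. Put `Rel y y' := ∀ σ, Fixes j σ → ∀ z z', f z = y → f z' = y' → σ (z * z') = z * z'`. It is an equivalence relation on `V L j`
(children exist by `Full`, are nonzero, and `z ^ 2 = 1 + y` is fixed), invariant under the Galois group (`Fixes j` is stable under
conjugation, `map_mem_V`). By `trans_V` all classes have the same size `b`, so `b ∣ 2 ^ j` (`card_V`). Fix `ι : L →+* ℂ` and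
`cc : L ≃ₐ[ℚ] L` with `ι (cc x) = conj (ι x)` (normality; e.g. `NumberField.ComplexEmbedding.exists_comp_symm_eq_of_comp_eq` or
`AlgHom.restrictNormal'`). By induction on `j ≥ 1` there is `ρ ∈ V L j` with `ι ρ` real `> 1` such that the points of `V L j` fixed by `cc` are
exactly `ρ` and `-ρ`. The class of `ρ` is stable under the involution `cc`; it does not contain `-ρ` by `G3'`, so `cc` has exactly one fixed
point on it, `b` is odd (`Finset.sum_involution` in `ZMod 2`), so `b = 1`.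
-/

namespace Pool.Agent.PSD

open Finset

/-- the automorphisms fixing level `j` and the children of `y` -/
def St_Red {L : Type*} [Field L] [Algebra ℚ L] (j : ℕ) (y : L) : Set (L ≃ₐ[ℚ] L) :=
  {σ | Fixes j σ ∧ ∀ z, f z = y → σ z = z}

theorem child_Red {L : Type*} [Field L] {w z : L} (h : f w = f z) : w = z ∨ w = -z := by
  unfold f at h
  exact sq_eq_sq_iff_eq_or_eq_neg.1 (sub_left_inj.1 h)

theorem mem_St_Red {L : Type*} [Field L] [Algebra ℚ L] {j : ℕ} {y z : L} (hz : f z = y)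
    {σ : L ≃ₐ[ℚ] L} : σ ∈ St_Red j y ↔ Fixes j σ ∧ σ z = z := by
  refine and_congr_right fun _ => ⟨fun h => h z hz, fun h w hw => ?_⟩
  rcases child_Red (hw.trans hz.symm) with rfl | rfl
  · exact h
  · rw [map_neg, h]

theorem St_eq_Red {L : Type*} [Field L] [NumberField L] {j : ℕ} {y y' z z' : L}
    (hy : y ∈ V L j) (hy' : y' ∈ V L j) (hz : f z = y) (hz' : f z' = y') :
    St_Red j y = St_Red j y' ↔ ∀ σ : L ≃ₐ[ℚ] L, Fixes j σ → σ (z * z') = z * z' := by
  have z0 : z ≠ 0 := ne_zero_of_mem_V (mem_V_succ.2 (hz ▸ hy))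
  have z0' : z' ≠ 0 := ne_zero_of_mem_V (mem_V_succ.2 (hz' ▸ hy'))
  constructor
  · intro e σ hσ
    have key : σ z = z ↔ σ z' = z' := by
      have h1 := mem_St_Red (j := j) (σ := σ) hz
      rw [e, mem_St_Red hz'] at h1
      exact ⟨fun a => (h1.2 ⟨hσ, a⟩).2, fun a => (h1.1 ⟨hσ, a⟩).2⟩
    have c1 : σ z = z ∨ σ z = -z := child_Red (by rw [← map_f, hz, hσ y hy])
    have c2 : σ z' = z' ∨ σ z' = -z' := child_Red (by rw [← map_f, hz', hσ y' hy'])
    rw [map_mul]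
    by_cases a : σ z = z
    · rw [a, key.1 a]
    · rw [c1.resolve_left a, c2.resolve_left fun b => a (key.2 b), neg_mul_neg]
  · intro e
    ext σ
    rw [mem_St_Red hz, mem_St_Red hz']
    refine and_congr_right fun hσ => ?_
    have h1 := e σ hσ
    rw [map_mul] at h1
    constructor
    · intro a
      rw [a] at h1
      exact mul_left_cancel₀ z0 h1
    · intro a
      rw [a] at h1
      exact mul_right_cancel₀ z0' h1

theorem St_map_Red {L : Type*} [Field L] [Algebra ℚ L] {j : ℕ} (τ : L ≃ₐ[ℚ] L) (y : L)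
    (σ : L ≃ₐ[ℚ] L) : σ ∈ St_Red j (τ y) ↔ (τ.trans σ).trans τ.symm ∈ St_Red j y := by
  refine and_congr ⟨fun h w hw => ?_, fun h w hw => ?_⟩ ⟨fun h w hw => ?_, fun h w hw => ?_⟩
  · simp only [AlgEquiv.trans_apply]
    rw [h _ (map_mem_V τ hw), AlgEquiv.symm_apply_apply]
  · have h1 := h _ (map_mem_V τ.symm hw)
    simp only [AlgEquiv.trans_apply, AlgEquiv.apply_symm_apply] at h1
    exact τ.symm.injective h1
  · simp only [AlgEquiv.trans_apply]
    rw [h (τ w) (by rw [← map_f, hw]), AlgEquiv.symm_apply_apply]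
  · have h1 := h (τ.symm w) (by rw [← map_f, hw, AlgEquiv.symm_apply_apply])
    simp only [AlgEquiv.trans_apply, AlgEquiv.apply_symm_apply] at h1
    exact τ.symm.injective h1

theorem St_inv_Red {L : Type*} [Field L] [Algebra ℚ L] {j : ℕ} (τ : L ≃ₐ[ℚ] L) {y y' : L}
    (h : St_Red j y = St_Red j y') : St_Red j (τ y) = St_Red j (τ y') := by
  ext σ
  rw [St_map_Red, St_map_Red, h]

open Classical in
/-- the class of a point -/
noncomputable def Cl_Red {L : Type*} [Field L] [Algebra ℚ L] (j : ℕ) (y : L) : Finset L :=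
  (V L j).filter fun w => St_Red j w = St_Red j y

theorem mem_Cl_Red {L : Type*} [Field L] [Algebra ℚ L] {j : ℕ} {y w : L} :
    w ∈ Cl_Red j y ↔ w ∈ V L j ∧ St_Red j w = St_Red j y := by
  classical
  unfold Cl_Red
  rw [mem_filter]

theorem card_Cl_Red {L : Type*} [Field L] [Algebra ℚ L] {j : ℕ} (τ : L ≃ₐ[ℚ] L) (y : L) :
    (Cl_Red j y).card = (Cl_Red j (τ y)).card := by
  refine card_nbij' τ τ.symm ?_ ?_ ?_ ?_
  · intro w hw
    have h := mem_Cl_Red.1 hw
    exact mem_Cl_Red.2 ⟨map_mem_V τ h.1, St_inv_Red τ h.2⟩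
  · intro w hw
    have h := mem_Cl_Red.1 hw
    have h1 := St_inv_Red τ.symm h.2
    rw [AlgEquiv.symm_apply_apply] at h1
    exact mem_Cl_Red.2 ⟨map_mem_V τ.symm h.1, h1⟩
  · intro w _
    exact τ.symm_apply_apply w
  · intro w _
    exact τ.apply_symm_apply w

theorem dvd_Red {L : Type*} [Field L] [NumberField L] [IsGalois ℚ L] {K j : ℕ} (h : Full L K)
    (hj : j ≤ K) {y : L} (hy : y ∈ V L j) : (Cl_Red j y).card ∣ 2 ^ j := by
  classical
  rw [← card_V h hj, card_eq_sum_card_image (St_Red j) (V L j)]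
  refine dvd_sum fun s hs => ?_
  obtain ⟨w, hw, rfl⟩ := mem_image.1 hs
  obtain ⟨τ, rfl⟩ := trans_V h hj hy hw
  rw [card_Cl_Red τ y]
  refine dvd_of_eq (congrArg card ?_)
  ext u
  rw [mem_Cl_Red, mem_filter]

theorem real_Red {L : Type*} [Field L] [NumberField L] {K : ℕ} (h : Full L K) (ι : L →+* ℂ)
    (cc : L ≃ₐ[ℚ] L) (hc : ∀ x, ι (cc x) = (starRingEnd ℂ) (ι x)) {j : ℕ} (hj : j ≤ K) :
    ∃ ρ ∈ V L j, ∃ r : ℝ, 1 ≤ r ∧ ι ρ = r ∧ ∀ y ∈ V L j, cc y = y → y = ρ ∨ y = -ρ := by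
  induction j with
  | zero =>
    refine ⟨1, by simp [V_zero], 1, le_rfl, by simp, fun y hy _ => Or.inl ?_⟩
    simpa [V_zero] using hy
  | succ j ih =>
    obtain ⟨ρ, hρ, r, hr, e, u⟩ := ih (Nat.le_of_succ_le hj)
    obtain ⟨z, hz⟩ := h j hj ρ hρ
    have hs : (√(1 + r)) ^ 2 = 1 + r := Real.sq_sqrt (by linarith)
    have h1 : f (ι z) = f ((√(1 + r) : ℝ) : ℂ) := by
      rw [← map_f, hz, e, f, ← Complex.ofReal_pow, hs]
      push_cast
      ring
    obtain ⟨w, hw, ew⟩ : ∃ w : L, f w = ρ ∧ ι w = (√(1 + r) : ℝ) := by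
      rcases child_Red h1 with a | a
      · exact ⟨z, hz, a⟩
      · exact ⟨-z, by rw [f_neg, hz], by rw [map_neg, a, neg_neg]⟩
    refine ⟨w, mem_V_succ.2 (hw ▸ hρ), _, Real.one_le_sqrt.2 (by linarith), ew, fun y hy a => ?_⟩
    rcases u (f y) (mem_V_succ.1 hy) (by rw [map_f, a]) with b | b
    · exact child_Red (b.trans hw.symm)
    · exfalso
      have c := hc y
      rw [a] at c
      obtain ⟨s, hs'⟩ := Complex.conj_eq_iff_real.1 c.symm
      have d := congrArg ι b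
      rw [map_f, map_neg, e, hs', f] at d
      have d' : s ^ 2 - 1 = -r := by exact_mod_cast d
      have s0 : s = 0 := by nlinarith [sq_nonneg s]
      refine ne_zero_of_mem_V hy (ι.injective ?_)
      rw [hs', s0, map_zero, Complex.ofReal_zero]

theorem odd_Red {L : Type*} {s : Finset L} {c : L → L} {ρ : L} (hρ : ρ ∈ s) (h0 : c ρ = ρ)
    (hm : ∀ x ∈ s, c x ∈ s) (hi : ∀ x, c (c x) = x) (hu : ∀ x ∈ s, c x = x → x = ρ) :
    Odd s.card := by
  classical
  have h1 : ∑ _x ∈ s.erase ρ, (1 : ZMod 2) = 0 := by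
    refine sum_involution (fun x _ => c x) (fun _ _ => by decide) (fun x hx _ a => ?_)
      (fun x hx => ?_) fun x _ => hi x
    · exact (mem_erase.1 hx).1 (hu x (mem_erase.1 hx).2 a)
    · refine mem_erase.2 ⟨fun a => (mem_erase.1 hx).1 ?_, hm x (mem_erase.1 hx).2⟩
      rw [← hi x, a, h0]
  rw [sum_const, nsmul_eq_mul, mul_one, ZMod.natCast_eq_zero_iff_even] at h1
  rw [← card_erase_add_one hρ]
  exact h1.add_one

theorem G3 {L : Type*} [Field L] [NumberField L] [IsGalois ℚ L] {K j : ℕ} (h : Full L K)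
    (hj : j < K) (h2 : 2 ≤ j) (he : Even j) {y y' z z' : L} (hy : y ∈ V L j) (hy' : y' ∈ V L j)
    (hne : y ≠ y') (hz : f z = y) (hz' : f z' = y') :
    ∃ σ : L ≃ₐ[ℚ] L, Fixes j σ ∧ σ (z * z') ≠ z * z' := by
  by_contra hn
  have e : St_Red j y = St_Red j y' := (St_eq_Red hy hy' hz hz').2 fun σ hσ => by
    by_contra a
    exact hn ⟨σ, hσ, a⟩
  obtain ⟨ι⟩ := (inferInstance : Nonempty (L →+* ℂ))
  obtain ⟨σ, hσ⟩ := NumberField.ComplexEmbedding.exists_comp_symm_eq_of_comp_eq (k := ℚ) ι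
    ((starRingEnd ℂ).comp ι) (by ext; simp)
  have hc : ∀ x, ι (σ.symm x) = (starRingEnd ℂ) (ι x) := fun x => RingHom.congr_fun hσ x
  obtain ⟨ρ, hρ, r, -, er, u⟩ := real_Red h ι σ.symm hc hj.le
  have h0 : σ.symm ρ = ρ := ι.injective (by rw [hc, er, Complex.conj_ofReal])
  have hρ' : -ρ ∈ V L j := neg_mem_V (by omega) hρ
  have hodd : Odd (Cl_Red j ρ).card := by
    refine odd_Red (c := σ.symm) (mem_Cl_Red.2 ⟨hρ, rfl⟩) h0 (fun x hx => ?_)
      (fun x => ι.injective (by rw [hc, hc, Complex.conj_conj])) fun x hx a => ?_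
    · have h1 := St_inv_Red σ.symm (mem_Cl_Red.1 hx).2
      rw [h0] at h1
      exact mem_Cl_Red.2 ⟨map_mem_V _ (mem_Cl_Red.1 hx).1, h1⟩
    · refine (u x (mem_Cl_Red.1 hx).1 a).resolve_right fun b => ?_
      obtain ⟨w, hw⟩ := h j hj ρ hρ
      obtain ⟨w', hw'⟩ := h j hj _ hρ'
      obtain ⟨τ, hτ, c⟩ := G3' h hj h2 he hρ hw hw'
      exact c ((St_eq_Red hρ hρ' hw hw').1 (b ▸ (mem_Cl_Red.1 hx).2).symm τ hτ)
  have h1 : (Cl_Red j ρ).card = 1 := by
    obtain ⟨k, -, hk⟩ := (Nat.dvd_prime_pow Nat.prime_two).1 (dvd_Red h hj.le hρ)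
    rw [hk] at hodd ⊢
    rcases k with _ | k
    · rfl
    · exact absurd hodd (Nat.not_odd_iff_even.2 (Nat.even_pow.2 ⟨even_two, k.succ_ne_zero⟩))
  obtain ⟨τ, rfl⟩ := trans_V h hj.le hρ hy
  rw [card_Cl_Red τ ρ] at h1
  exact hne (card_le_one.1 h1.le _ (mem_Cl_Red.2 ⟨hy, rfl⟩) _ (mem_Cl_Red.2 ⟨hy', e.symm⟩))

end Pool.Agent.PSD
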