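import Pool.Agent.P.MP_06afd2_nt.D1.Defs

/-!
A form of the Tate-Herbrand lemma for a totally ramified Galois extension.

Sketch. (M) If `v γ ^ d = c` and `Q : T[X]` has degree `< d`, the nonzero terms `v (q_i) * v γ ^ i` are pairwise distinct
(their `d`-th powers are `c ^ (d k + i)`), so `v (aeval γ Q)` is their maximum. Hence `aeval γ Q = 0 → Q = 0` (degree of `γ` is
`≥ d`), and `v (aeval γ Q) ≤ 1` forces `v (q_i) ≤ 1`. So every `x ∈ T(γ)` with `v x ≤ 1` is `aeval γ Q` with integral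
coefficients once `γ` has degree `≤ d`, and `v (σ x - x) ≤ v (σ γ - γ)`. For `π` (with `d = finrank T L`) one gets `T(π) = L`.
Put `e σ = v (σ π - π)`; then `e (σ τ) ≤ max (e σ) (e τ)`, `e σ⁻¹ = e σ`, `e (τ⁻¹ σ τ) ≤ e σ`.
(ii) If `v x ≤ 1`, `v y ≤ 1` then `v (x - y) ≤ ∏_{σ x = y} e σ`: write `x = Q(π)`; the polynomial `Q - y` with coefficients in the
subring `{v ≤ 1}` vanishes at the distinct points `σ π`, `σ x = y`; divide by `∏ (X - σ π)` and evaluate at `π`.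
(i) If `γ` (shifted by `t`) is a uniformiser of `T(γ)`, then `∏_{σ γ = s γ} e σ ≤ v (s γ - γ)`: the coefficients of
`P = ∏_{u γ = γ} (X - u π)` are fixed by the stabiliser of `γ`, lie in `T(γ)`, so `v (s a - a) ≤ v (s γ - γ)` for each of them;
evaluate `s P - P` at `π`.
Conclusion: let `σ₀` minimise `e` among the `σ` moving `γ`, `l = e σ₀`, `Φ = ∏_σ max (e σ) l`. By (i) the right side is `≥ Φ`
(in the coset `{σ γ = γ'}` take `s` with minimal `e`; `e (s u) ≥ max (e u) l`). Some conjugate `σ₁` of `σ₀` moves `α`;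
take `α' = σ₁ α`; by (ii) the left side is `≤ Φ`.
-/

namespace Pool.Agent.PSD

open Finset Polynomial

/-- a totally ramified valued Galois extension; `c` generates the value group of `T` -/
structure Ram (T L : Type*) [Field T] [Field L] [Algebra T L] (v : AbsoluteValue L ℝ) (c : ℝ) :
    Prop where
  na : IsNonarchimedean v
  inv : ∀ (σ : L ≃ₐ[T] L) (x : L), v (σ x) = v x
  pos : 0 < c
  lt : c < 1
  val : ∀ t : T, t ≠ 0 → ∃ k : ℤ, v (algebraMap T L t) = c ^ k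
  unif : ∃ π : L, v π ^ Module.finrank T L = c

section Poly

variable {L : Type*} [Field L] {v : AbsoluteValue L ℝ}

theorem sum_le_Tate (h : IsNonarchimedean v) {ι : Type*} {s : Finset ι} {l : ι → L} {B : ℝ}
    (hB : 0 ≤ B) (hl : ∀ i ∈ s, v (l i) ≤ B) : v (∑ i ∈ s, l i) ≤ B := by
  rcases s.eq_empty_or_nonempty with rfl | hs
  · simpa using hB
  · obtain ⟨b, hb, h1⟩ := h.finset_image_add_of_nonempty l hs
    exact h1.trans (hl b hb)

theorem sub_le_Tate (h : IsNonarchimedean v) (x y : L) : v (x - y) ≤ max (v x) (v y) := by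
  have := h x (-y)
  rwa [← sub_eq_add_neg, v.map_neg] at this

theorem eval_le_Tate (h : IsNonarchimedean v) {Q : L[X]} {B : ℝ} (hQ : ∀ i, v (Q.coeff i) ≤ B)
    {x : L} (hx : v x ≤ 1) : v (Q.eval x) ≤ B := by
  have hB : 0 ≤ B := (v.nonneg _).trans (hQ 0)
  rw [eval_eq_sum_range]
  refine sum_le_Tate h hB fun i _ => ?_
  rw [v.map_mul, v.map_pow]
  exact (mul_le_of_le_one_right (v.nonneg _) (pow_le_one₀ (v.nonneg _) hx)).trans (hQ i)

theorem eval_le_prod_Tate (h : IsNonarchimedean v) {ι : Type*} (s : Finset ι) (r : ι → L)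
    (hr : Set.InjOn r s) (hr1 : ∀ i ∈ s, v (r i) ≤ 1) {x : L} (hx : v x ≤ 1) :
    ∀ Q : L[X], (∀ i, v (Q.coeff i) ≤ 1) → (∀ i ∈ s, Q.eval (r i) = 0) →
      v (Q.eval x) ≤ ∏ i ∈ s, v (x - r i) := by
  classical
  induction s using Finset.induction_on with
  | empty => intro Q hQ _; simpa using eval_le_Tate h hQ hx
  | insert a s ha ih =>
    intro Q hQ h0
    have h1 : (X - C (r a)) * (Q /ₘ (X - C (r a))) = Q :=
      mul_divByMonic_eq_iff_isRoot.mpr (h0 a (mem_insert_self _ _))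
    have h2 := ih (hr.mono (by simp)) (fun i hi => hr1 i (mem_insert_of_mem hi))
      (Q /ₘ (X - C (r a))) (fun i => by
        rw [coeff_divByMonic_X_sub_C]
        refine sum_le_Tate h zero_le_one fun k _ => ?_
        rw [v.map_mul, v.map_pow]
        exact mul_le_one₀ (pow_le_one₀ (v.nonneg _) (hr1 a (mem_insert_self _ _))) (v.nonneg _)
          (hQ k)) (fun i hi => by
        have h3 := h0 i (mem_insert_of_mem hi)
        rw [← h1, eval_mul, eval_sub, eval_X, eval_C, mul_eq_zero, sub_eq_zero] at h3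
        refine h3.resolve_left fun h4 => ha ?_
        rwa [← hr (by simp [hi]) (by simp) h4])
    rw [prod_insert ha, ← h1, eval_mul, eval_sub, eval_X, eval_C, v.map_mul]
    exact mul_le_mul_of_nonneg_left h2 (v.nonneg _)

theorem coeff_sub_C_Tate (h : IsNonarchimedean v) {Q : L[X]} (hQ : ∀ i, v (Q.coeff i) ≤ 1)
    {y : L} (hy : v y ≤ 1) (i : ℕ) : v ((Q - C y).coeff i) ≤ 1 := by
  rw [coeff_sub, coeff_C]
  refine (sub_le_Tate h _ _).trans (max_le (hQ i) ?_)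
  split_ifs
  · exact hy
  · simp

theorem eval_sub_le_Tate (h : IsNonarchimedean v) {Q : L[X]} (hQ : ∀ i, v (Q.coeff i) ≤ 1)
    {a b : L} (ha : v a ≤ 1) (hb : v b ≤ 1) : v (Q.eval a - Q.eval b) ≤ v (a - b) := by
  have := eval_le_prod_Tate h {b} id (Set.injOn_id _) (by simpa using hb) ha (Q - C (Q.eval b))
    (coeff_sub_C_Tate h hQ (eval_le_Tate h hQ hb)) (by simp)
  simpa using this

theorem coeff_prod_Tate (h : IsNonarchimedean v) {ι : Type*} (s : Finset ι) (r : ι → L)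
    (hr1 : ∀ i ∈ s, v (r i) ≤ 1) (n : ℕ) : v ((∏ i ∈ s, (X - C (r i))).coeff n) ≤ 1 := by
  refine prod_induction (fun i => X - C (r i)) (fun Q : L[X] => ∀ n, v (Q.coeff n) ≤ 1)
    (fun P Q hP hQ n => ?_) (fun n => ?_) (fun i hi => coeff_sub_C_Tate h (fun n => ?_) (hr1 i hi)) n
  · rw [coeff_mul]
    refine sum_le_Tate h zero_le_one fun k _ => ?_
    rw [v.map_mul]
    exact mul_le_one₀ (hP _) (v.nonneg _) (hQ _)
  · rw [coeff_one]
    split_ifs <;> simp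
  · rw [coeff_X]
    split_ifs <;> simp

end Poly

variable {T L : Type*} [Field T] [Field L] [Algebra T L] {v : AbsoluteValue L ℝ} {c : ℝ}

theorem Ram.unif_Tate (h : Ram T L v c) {γ : L} {d : ℕ} (hγ : v γ ^ d = c) :
    0 < d ∧ 0 < v γ ∧ v γ < 1 := by
  have hd : d ≠ 0 := by
    rintro rfl
    rw [pow_zero] at hγ
    exact h.lt.ne' hγ
  refine ⟨Nat.pos_of_ne_zero hd, (v.nonneg γ).lt_of_ne fun h0 => ?_, ?_⟩
  · rw [← h0, zero_pow hd] at hγ
    exact h.pos.ne hγ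
  · exact (pow_lt_one_iff_of_nonneg (v.nonneg γ) hd).mp (hγ ▸ h.lt)

theorem Ram.term_eq_Tate (h : Ram T L v c) {γ : L} {d : ℕ} (hγ : v γ ^ d = c) {t : T}
    (ht : t ≠ 0) : ∃ k : ℤ, v (algebraMap T L t) = c ^ k ∧
      ∀ i : ℕ, v (algebraMap T L t) * v γ ^ i = v γ ^ (d * k + i : ℤ) := by
  obtain ⟨k, hk⟩ := h.val t ht
  refine ⟨k, hk, fun i => ?_⟩
  rw [hk, ← hγ, zpow_add₀ (h.unif_Tate hγ).2.1.ne', zpow_mul, zpow_natCast, zpow_natCast]

theorem Ram.term_le_Tate (h : Ram T L v c) {γ : L} {d : ℕ} (hγ : v γ ^ d = c) {Q : T[X]}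
    (hQ : Q.natDegree < d) {i : ℕ} (hi : i < d) :
    v (algebraMap T L (Q.coeff i)) * v γ ^ i ≤ v (aeval γ Q) := by
  obtain ⟨hd, h0, h1⟩ := h.unif_Tate hγ
  set l : ℕ → L := fun i => Q.coeff i • γ ^ i with hl
  have hv : ∀ i, v (l i) = v (algebraMap T L (Q.coeff i)) * v γ ^ i := fun i => by
    simp only [hl, Algebra.smul_def, v.map_mul, v.map_pow]
  obtain ⟨k, hk, hmax⟩ := exists_max_image (range d) (fun i => v (l i)) ⟨0, mem_range.mpr hd⟩
  rw [← hv]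
  refine (hmax i (mem_range.mpr hi)).trans ?_
  rcases (v.nonneg (l k)).eq_or_lt with h2 | h2
  · rw [← h2]
    exact v.nonneg _
  rw [aeval_eq_sum_range' hQ]
  refine (h.na.apply_sum_eq_of_lt (fun a => (v.map_neg a).symm) hk fun j hj hjk => ?_).ge
  refine (hmax j hj).lt_of_ne fun h3 => hjk ?_
  have hne : ∀ i, v (l i) = v (l k) → Q.coeff i ≠ 0 := fun i h4 h5 => by
    rw [← h4, hv, h5] at h2
    simp at h2
  obtain ⟨a, -, ha⟩ := h.term_eq_Tate hγ (hne j h3)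
  obtain ⟨b, -, hb⟩ := h.term_eq_Tate hγ (hne k rfl)
  rw [hv, hv, ha, hb] at h3
  have h4 := zpow_right_injective₀ h0 h1.ne h3
  have h5 := mem_range.mp hj
  have h6 := mem_range.mp hk
  have h7 : a = b := by
    rcases lt_trichotomy a b with h8 | h8 | h8
    · nlinarith [mul_le_mul_of_nonneg_left (Int.add_one_le_of_lt h8) (Int.natCast_nonneg d)]
    · exact h8
    · nlinarith [mul_le_mul_of_nonneg_left (Int.add_one_le_of_lt h8) (Int.natCast_nonneg d)]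
  rw [h7] at h4
  omega

theorem Ram.coeff_le_Tate (h : Ram T L v c) {γ : L} {d : ℕ} (hγ : v γ ^ d = c) {Q : T[X]}
    (hQ : Q.natDegree < d) (h1 : v (aeval γ Q) ≤ 1) (i : ℕ) :
    v (algebraMap T L (Q.coeff i)) ≤ 1 := by
  by_cases h0 : Q.coeff i = 0
  · simp [h0]
  have hi : i < d := (le_natDegree_of_ne_zero h0).trans_lt hQ
  obtain ⟨k, hk, ha⟩ := h.term_eq_Tate hγ h0
  have h2 := (h.term_le_Tate hγ hQ hi).trans h1
  obtain ⟨-, h3, h4⟩ := h.unif_Tate hγ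
  rw [ha, zpow_le_one_iff_right_of_lt_one₀ h3 h4] at h2
  rw [hk, zpow_le_one_iff_right_of_lt_one₀ h.pos h.lt]
  by_contra h5
  nlinarith [mul_le_mul_of_nonneg_left (Int.add_one_le_of_lt (not_le.mp h5))
    (Int.natCast_nonneg d)]

variable [FiniteDimensional T L]

theorem Ram.le_natDegree_Tate (h : Ram T L v c) {γ : L} {d : ℕ} (hγ : v γ ^ d = c) :
    d ≤ (minpoly T γ).natDegree := by
  by_contra h1
  have h2 := h.term_le_Tate hγ (not_le.mp h1) (not_le.mp h1)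
  rw [(minpoly.monic (Algebra.IsIntegral.isIntegral γ)).coeff_natDegree, minpoly.aeval] at h2
  simp only [map_one, one_mul, map_zero] at h2
  exact (pow_pos (h.unif_Tate hγ).2.1 _).not_ge h2

theorem Ram.rep_Tate (h : Ram T L v c) {γ : L} {d : ℕ} (hγ : v γ ^ d = c)
    (hd : (minpoly T γ).natDegree ≤ d) {a : L} (ha : a ∈ IntermediateField.adjoin T {γ})
    (h1 : v a ≤ 1) : ∃ Q : L[X], (∀ i, v (Q.coeff i) ≤ 1) ∧
      ∀ σ : L ≃ₐ[T] L, σ a = Q.eval (σ γ) := by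
  have hi : IsIntegral T γ := Algebra.IsIntegral.isIntegral γ
  obtain ⟨Q, hQ, hQ'⟩ := (IntermediateField.adjoin.powerBasis hi).exists_eq_aeval ⟨a, ha⟩
  have h2 : a = aeval γ Q := by
    have := congrArg Subtype.val hQ'
    rw [IntermediateField.adjoin.powerBasis_gen, ← IntermediateField.aeval_coe] at this
    exact this
  refine ⟨Q.map (algebraMap T L), fun i => ?_, fun σ => ?_⟩
  · rw [coeff_map]
    exact h.coeff_le_Tate hγ (hQ.trans_le hd) (h2 ▸ h1) i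
  · rw [eval_map_algebraMap, aeval_algHom_apply, ← h2]

variable [IsGalois T L]

theorem Ram.orbit_Tate (h : Ram T L v c) {γ : L} {d : ℕ} (hγ : v γ ^ d = c) {S : Finset L}
    (hS : ∀ σ : L ≃ₐ[T] L, σ γ ∈ S) (hc : S.card ≤ d) :
    (minpoly T γ).natDegree ≤ d ∧ ∀ y ∈ S, ∃ σ : L ≃ₐ[T] L, σ γ = y := by
  classical
  have hi : IsIntegral T γ := Algebra.IsIntegral.isIntegral γ
  have h1 : ((minpoly T γ).aroots L).toFinset.card = (minpoly T γ).natDegree := by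
    rw [Multiset.toFinset_card_of_nodup (nodup_roots ((separable_map _).mpr
      (Algebra.IsSeparable.isSeparable T γ))),
      splits_iff_card_roots.mp (Normal.splits inferInstance γ), natDegree_map]
  have h2 : ∀ y ∈ ((minpoly T γ).aroots L).toFinset, ∃ σ : L ≃ₐ[T] L, σ γ = y := fun y hy => by
    rw [Multiset.mem_toFinset, mem_aroots] at hy
    exact (Normal.minpoly_eq_iff_mem_orbit L).mp
      (minpoly.eq_of_irreducible_of_monic (minpoly.irreducible hi) hy.2 (minpoly.monic hi)).symm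
  have h3 : ((minpoly T γ).aroots L).toFinset ⊆ S := fun y hy => by
    obtain ⟨σ, rfl⟩ := h2 y hy
    exact hS σ
  refine ⟨h1 ▸ (card_le_card h3).trans hc, ?_⟩
  rw [← eq_of_subset_of_card_le h3 (h1 ▸ hc.trans (h.le_natDegree_Tate hγ))]
  exact h2

theorem Ram.shift_Tate (h : Ram T L v c) {γ : L} (t : T) {d : ℕ}
    (hγ : v (γ + algebraMap T L t) ^ d = c) {S : Finset L} (hS : ∀ σ : L ≃ₐ[T] L, σ γ ∈ S)
    (hc : S.card ≤ d) : (minpoly T (γ + algebraMap T L t)).natDegree ≤ d ∧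
      ∀ y ∈ S, ∃ σ : L ≃ₐ[T] L, σ γ = y := by
  classical
  obtain ⟨h1, h2⟩ := h.orbit_Tate hγ (S := S.image (· + algebraMap T L t))
    (fun σ => mem_image.mpr ⟨σ γ, hS σ, by simp⟩) (card_image_le.trans hc)
  refine ⟨h1, fun y hy => ?_⟩
  obtain ⟨σ, hσ⟩ := h2 _ (mem_image_of_mem _ hy)
  exact ⟨σ, by simpa using hσ⟩

theorem Ram.orbit_full (h : Ram T L v c) {γ : L} (t : T) {d : ℕ}
    (hγ : v (γ + algebraMap T L t) ^ d = c) {S : Finset L} (hS : ∀ σ : L ≃ₐ[T] L, σ γ ∈ S)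
    (hc : S.card ≤ d) : ∀ y ∈ S, ∃ σ : L ≃ₐ[T] L, σ γ = y :=
  (h.shift_Tate t hγ hS hc).2

omit [IsGalois T L] in
theorem Ram.rep_unif_Tate (h : Ram T L v c) {π : L} (hπ : v π ^ Module.finrank T L = c) {a : L}
    (h1 : v a ≤ 1) : ∃ Q : L[X], (∀ i, v (Q.coeff i) ≤ 1) ∧
      ∀ σ : L ≃ₐ[T] L, σ a = Q.eval (σ π) := by
  have h2 := minpoly.natDegree_le (A := T) π
  refine h.rep_Tate hπ h2 ?_ h1
  rw [(Field.primitive_element_iff_minpoly_natDegree_eq T π).mpr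
    (h2.antisymm (h.le_natDegree_Tate hπ))]
  trivial

omit [IsGalois T L] in
theorem Ram.inj_Tate (h : Ram T L v c) {π : L} (hπ : v π ^ Module.finrank T L = c) :
    Function.Injective fun σ : L ≃ₐ[T] L => σ π := by
  intro σ τ hστ
  have key : ∀ a : L, v a ≤ 1 → σ a = τ a := fun a ha => by
    obtain ⟨Q, -, hQ⟩ := h.rep_unif_Tate hπ ha
    rw [hQ, hQ, show σ π = τ π from hστ]
  ext a
  rcases le_total (v a) 1 with ha | ha
  · exact key a ha
  · have := key a⁻¹ (by rw [map_inv₀]; exact inv_le_one_of_one_le₀ ha)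
    rwa [map_inv₀, map_inv₀, inv_inj] at this

omit [IsGalois T L] in
theorem Ram.lower_Tate [DecidableEq L] (h : Ram T L v c) {π : L}
    (hπ : v π ^ Module.finrank T L = c) {x y : L} (hx : v x ≤ 1) (hy : v y ≤ 1) :
    v (x - y) ≤ ∏ σ ∈ univ.filter (fun σ : L ≃ₐ[T] L => σ x = y), v (π - σ π) := by
  have hπ1 := (h.unif_Tate hπ).2.2.le
  obtain ⟨Q, hQ, hQ'⟩ := h.rep_unif_Tate hπ hx
  have h1 := eval_le_prod_Tate h.na (univ.filter (fun σ : L ≃ₐ[T] L => σ x = y)) (fun σ => σ π)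
    (h.inj_Tate hπ).injOn (fun σ _ => by rw [h.inv]; exact hπ1) hπ1 (Q - C y)
    (coeff_sub_C_Tate h.na hQ hy) (fun σ hσ => by
      rw [eval_sub, eval_C, ← hQ', (mem_filter.mp hσ).2, sub_self])
  have h2 : Q.eval π = x := (hQ' 1).symm
  rwa [eval_sub, eval_C, h2] at h1

theorem Ram.upper_Tate [DecidableEq L] (h : Ram T L v c) {π : L} (hπ : v π ≤ 1) {γ : L} {d : ℕ}
    (hγ : v γ ^ d = c) (hd : (minpoly T γ).natDegree ≤ d) (s : L ≃ₐ[T] L) :
    ∏ σ ∈ univ.filter (fun σ : L ≃ₐ[T] L => σ γ = s γ), v (π - σ π) ≤ v (γ - s γ) := by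
  have hγ1 := (h.unif_Tate hγ).2.2.le
  set P : L → L[X] := fun y => ∏ σ ∈ univ.filter (fun σ : L ≃ₐ[T] L => σ γ = y), (X - C (σ π))
    with hP
  have hmap : ∀ (u : L ≃ₐ[T] L) (i : ℕ), u ((P γ).coeff i) = (P (u γ)).coeff i := fun u i => by
    have : (P γ).map (u : L →+* L) = P (u γ) := by
      simp only [hP, Polynomial.map_prod, Polynomial.map_sub, map_X, map_C]
      refine prod_equiv (Equiv.mulLeft u) (fun σ => by simp) fun σ _ => by simp
    rw [← this, coeff_map]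
    rfl
  have h1 : ∀ i, v ((P (s γ) - P γ).coeff i) ≤ v (γ - s γ) := fun i => by
    have h2 : (P γ).coeff i ∈ IntermediateField.adjoin T {γ} := by
      rw [← IsGalois.fixedField_fixingSubgroup (IntermediateField.adjoin T {γ}),
        IntermediateField.mem_fixedField_iff]
      intro u hu
      rw [hmap, (IntermediateField.mem_fixingSubgroup_iff _ _).mp hu γ
        (IntermediateField.mem_adjoin_simple_self T γ)]
    obtain ⟨Q, hQ, hQ'⟩ := h.rep_Tate hγ hd h2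
      (coeff_prod_Tate h.na _ _ (fun σ _ => by rw [h.inv]; exact hπ) i)
    have h3 : (P γ).coeff i = Q.eval γ := hQ' 1
    rw [coeff_sub, ← hmap, hQ', h3, v.map_sub γ]
    exact eval_sub_le_Tate h.na hQ (by rw [h.inv]; exact hγ1) hγ1
  have h2 := eval_le_Tate h.na h1 hπ
  have h3 : (P γ).eval π = 0 := by
    simp only [hP, eval_prod]
    exact prod_eq_zero (i := 1) (by simp) (by simp)
  rw [eval_sub, h3, sub_zero] at h2
  simpa only [hP, eval_prod, eval_sub, eval_X, eval_C, map_prod] using h2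

theorem Ram.tate [DecidableEq L] (h : Ram T L v c) {α γ γ' : L} (t : T) {d : ℕ}
    (hγ : v (γ + algebraMap T L t) ^ d = c) {A S : Finset L}
    (hA : ∀ σ : L ≃ₐ[T] L, σ α ∈ A) (hA1 : ∀ y ∈ A, v y ≤ 1)
    (hS : ∀ σ : L ≃ₐ[T] L, σ γ ∈ S) (hc : S.card ≤ d) (hγ' : γ' ∈ S) (hne : γ' ≠ γ)
    (hfix : ∀ σ : L ≃ₐ[T] L, (∀ τ : L ≃ₐ[T] L, σ (τ α) = τ α) → σ γ = γ) :
    ∃ α' ∈ A, α' ≠ α ∧ (∏ y ∈ A.erase α, v (α - y)) * v (α - α') ≤
      (∏ y ∈ S.erase γ, v (γ - y)) * v (γ - γ') := by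
  obtain ⟨π, hπ⟩ := h.unif
  have hπ1 := (h.unif_Tate hπ).2.2.le
  obtain ⟨hd, horb⟩ := h.shift_Tate t hγ hS hc
  set e : (L ≃ₐ[T] L) → ℝ := fun σ => v (π - σ π) with he
  have e0 : ∀ σ, 0 ≤ e σ := fun σ => v.nonneg _
  have emul : ∀ σ τ, e (σ * τ) ≤ max (e σ) (e τ) := fun σ τ => by
    have h1 := h.na (π - σ π) (σ (π - τ π))
    rw [h.inv, map_sub, sub_add_sub_cancel] at h1
    exact h1
  have einv : ∀ σ, e σ⁻¹ = e σ := fun σ => by
    simp only [he]
    rw [← h.inv σ, map_sub, ← AlgEquiv.mul_apply, mul_inv_cancel, AlgEquiv.one_apply, v.map_sub]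
  have econj : ∀ σ τ, e (τ⁻¹ * σ * τ) ≤ e σ := fun σ τ => by
    obtain ⟨Q, hQ, hQ'⟩ := h.rep_unif_Tate hπ (a := τ π) (by rw [h.inv]; exact hπ1)
    have h1 : τ π = Q.eval π := hQ' 1
    simp only [he]
    rw [← h.inv τ, map_sub, ← AlgEquiv.mul_apply, ← mul_assoc, ← mul_assoc, mul_inv_cancel,
      one_mul, AlgEquiv.mul_apply, hQ', h1]
    exact eval_sub_le_Tate h.na hQ hπ1 (by rw [h.inv]; exact hπ1)
  have hup : ∀ y ∈ S, ∏ σ ∈ univ.filter (fun σ : L ≃ₐ[T] L => σ γ = y), e σ ≤ v (γ - y) := by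
    intro y hy
    obtain ⟨s, rfl⟩ := horb y hy
    simpa using h.upper_Tate hπ1 hγ hd s
  obtain ⟨s₀, hs₀⟩ := horb γ' hγ'
  obtain ⟨σ₀, hσ₀, hmin⟩ := exists_min_image (univ.filter fun σ : L ≃ₐ[T] L => σ γ ≠ γ) e
    ⟨s₀, by simpa [hs₀] using hne⟩
  have hmin' : ∀ σ : L ≃ₐ[T] L, σ γ ≠ γ → e σ₀ ≤ e σ := fun σ hσ => hmin σ (by simpa using hσ)
  obtain ⟨τ, hτ⟩ : ∃ τ : L ≃ₐ[T] L, σ₀ (τ α) ≠ τ α := by
    by_contra h1
    exact (mem_filter.mp hσ₀).2 (hfix σ₀ fun τ => not_not.mp fun h2 => h1 ⟨τ, h2⟩)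
  set σ₁ := τ⁻¹ * σ₀ * τ with hσ₁
  have fib : ∀ (x : L) (B : Finset L), (∀ σ : L ≃ₐ[T] L, σ x ∈ B) →
      ∏ y ∈ B.erase x, ∏ σ ∈ univ.filter (fun σ : L ≃ₐ[T] L => σ x = y), e σ =
        ∏ σ ∈ univ.filter (fun σ : L ≃ₐ[T] L => ¬ σ x = x), e σ := fun x B hB => by
    rw [← prod_fiberwise_of_maps_to (s := univ.filter (fun σ : L ≃ₐ[T] L => ¬ σ x = x))
      (t := B.erase x) (g := fun σ => σ x) fun σ hσ => mem_erase.mpr ⟨(mem_filter.mp hσ).2, hB σ⟩]
    refine prod_congr rfl fun y hy => prod_congr ?_ fun _ _ => rfl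
    ext σ
    simp only [mem_filter, mem_univ, true_and]
    exact ⟨fun h1 => ⟨h1 ▸ (mem_erase.mp hy).1, h1⟩, fun h1 => h1.2⟩
  have cos : ∀ (x : L) (s : L ≃ₐ[T] L),
      ∏ σ ∈ univ.filter (fun σ : L ≃ₐ[T] L => σ x = s x), e σ =
        ∏ σ ∈ univ.filter (fun σ : L ≃ₐ[T] L => σ x = x), e (s * σ) := fun x s =>
    (prod_equiv (Equiv.mulLeft s) (fun σ => by simp) fun σ _ => by simp).symm
  refine ⟨σ₁ α, hA σ₁, fun h1 => hτ ?_, le_trans (b := ∏ σ, max (e σ) (e σ₀)) ?_ ?_⟩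
  · have := congrArg τ h1
    rwa [← AlgEquiv.mul_apply, hσ₁, ← mul_assoc, ← mul_assoc, mul_inv_cancel, one_mul] at this
  · have hα : v α ≤ 1 := hA1 _ (hA 1)
    rw [← prod_filter_not_mul_prod_filter univ (fun σ : L ≃ₐ[T] L => σ α = α)]
    refine mul_le_mul ?_ ?_ (v.nonneg _) (prod_nonneg fun σ _ => (e0 σ).trans (le_max_left _ _))
    · refine le_trans (prod_le_prod (fun y _ => v.nonneg _) fun y hy =>
        h.lower_Tate hπ hα (hA1 y (mem_erase.mp hy).2)) ?_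
      rw [fib α A hA]
      exact prod_le_prod (fun σ _ => e0 σ) fun σ _ => le_max_left _ _
    · refine (h.lower_Tate hπ hα (hA1 _ (hA σ₁))).trans ?_
      rw [cos α σ₁]
      refine prod_le_prod (fun σ _ => e0 _) fun σ _ => (emul _ _).trans ?_
      rw [max_comm]
      exact max_le_max le_rfl (econj σ₀ τ)
  · rw [← prod_filter_not_mul_prod_filter univ (fun σ : L ≃ₐ[T] L => σ γ = γ)]
    refine mul_le_mul ?_ ?_ (prod_nonneg fun σ _ => (e0 σ).trans (le_max_left _ _))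
      (prod_nonneg fun y _ => v.nonneg _)
    · refine le_trans ?_ (prod_le_prod (fun y _ => prod_nonneg fun σ _ => e0 σ)
        fun y hy => hup y (mem_erase.mp hy).2)
      rw [fib γ S hS]
      exact le_of_eq (prod_congr rfl fun σ hσ => max_eq_left (hmin' σ (mem_filter.mp hσ).2))
    · refine le_trans ?_ (hup γ' hγ')
      obtain ⟨s, hs, hsmin⟩ := exists_min_image (univ.filter fun σ : L ≃ₐ[T] L => σ γ = γ') e
        ⟨s₀, by simpa using hs₀⟩
      have hs' : s γ = γ' := (mem_filter.mp hs).2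
      rw [← hs', cos γ s]
      refine prod_le_prod (fun σ _ => (e0 σ).trans (le_max_left _ _)) fun σ hσ => ?_
      have h1 : (s * σ) γ = γ' := by rw [AlgEquiv.mul_apply, (mem_filter.mp hσ).2, hs']
      refine max_le ?_ (hmin' _ (h1 ▸ hne))
      have h2 := emul s⁻¹ (s * σ)
      rw [inv_mul_cancel_left, einv] at h2
      exact h2.trans (max_le (hsmin _ (by simpa using h1)) le_rfl)

end Pool.Agent.PSD
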