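import Pool.Agent.P.MP_06afd2_nt.D1.Val

/-!
Transitivity and the two ramification facts for the tree of preimages of `1` under `x ^ 2 - 1`.

Sketch. Take `T, v` from `exists_ram`, `c = v 2`. Values: for `y ∈ V j`, `j` odd: `v y ^ 2 ^ j = c`; `j` even: `v y = 1` and
`v (1 + y) ^ 2 ^ j = c` (induction; `(z - 1) (z + 1) = f z` and `v (z - 1) = v (z + 1)` because otherwise both are `≤ c`).
Pull-back lemma: if `y ∈ S' ↔ y ^ 2 - a ∈ S` and each `w ∈ S` is `u ^ 2 - a` with `u ≠ 0`, then `card S' = 2 * card S` and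
`∏_{y ∈ S'.erase z} (z - y) = 2 z ∏_{w ∈ S.erase (z ^ 2 - a)} (z ^ 2 - a - w)`.
Separation: `y ≠ y'` in `V j` gives `c * v y ≤ v (y - y')` (induction, `(y - y') (y + y') = f y - f y'`, `c < v w` on `V j`, `j ≥ 1`).
`G2`: apply `Ram.tate` to `α = y`, `A = V j`, `γ = z`, `S = V (j + 1)`, `γ' = - z`: `v (y - y') ≤ c ^ 2`, absurd.
`G3'`: `w = f y`, `γ = z z'`, `γ ^ 2 = - w`, `S = {u | u ^ 2 ∈ V (j - 1)}`, `γ' = - γ`: `v (y - y') ≤ c * v w < c`, absurd.
An automorphism over `T` is an automorphism over `ℚ` by `AlgEquiv.restrictScalars`.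
-/

namespace Pool.Agent.PSD

open Finset

section pull

variable {L : Type*} [Field L] [CharZero L] [DecidableEq L] {φ : L → L} {S S' : Finset L}

omit [CharZero L] in
theorem fib_Tree (h1 : ∀ x y, φ x = φ y ↔ x = y ∨ x = -y) (hS : ∀ y, y ∈ S' ↔ φ y ∈ S) {u : L}
    (hu : φ u ∈ S) : S'.filter (fun y => φ y = φ u) = {u, -u} := by
  ext y
  simp only [mem_filter, mem_insert, mem_singleton, hS]
  exact ⟨fun h => (h1 _ _).1 h.2, fun h => ⟨(h1 _ _).2 h ▸ hu, (h1 _ _).2 h⟩⟩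

theorem card_Tree (h1 : ∀ x y, φ x = φ y ↔ x = y ∨ x = -y) (hS : ∀ y, y ∈ S' ↔ φ y ∈ S)
    (hx : ∀ w ∈ S, ∃ u, u ≠ 0 ∧ φ u = w) : S'.card = S.card * 2 := by
  rw [card_eq_sum_card_fiberwise (f := φ) (t := S) (fun y hy => (hS y).1 hy), ← smul_eq_mul,
    ← sum_const]
  refine sum_congr rfl fun w hw => ?_
  obtain ⟨u, hu, rfl⟩ := hx w hw
  rw [fib_Tree h1 hS hw, card_pair (mt CharZero.eq_neg_self_iff.1 hu)]

theorem prod_Tree (v : AbsoluteValue L ℝ) (h1 : ∀ x y, φ x = φ y ↔ x = y ∨ x = -y)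
    (h2 : ∀ x y, v (φ x - φ y) = v ((x - y) * (x + y))) (hS : ∀ y, y ∈ S' ↔ φ y ∈ S)
    (hx : ∀ w ∈ S, ∃ u, u ≠ 0 ∧ φ u = w) {z : L} (hz : φ z ∈ S) (hz0 : z ≠ 0) :
    ∏ y ∈ S'.erase z, v (z - y) = v 2 * v z * ∏ w ∈ S.erase (φ z), v (φ z - w) := by
  rw [← prod_fiberwise_of_maps_to (g := φ) (t := S) (fun y hy => (hS y).1 (mem_of_mem_erase hy)),
    ← mul_prod_erase S _ hz]
  congr 1
  · rw [filter_erase, fib_Tree h1 hS hz,
      erase_insert (mt (fun h => CharZero.eq_neg_self_iff.1 (mem_singleton.1 h)) hz0),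
      prod_singleton, sub_neg_eq_add, ← two_mul, map_mul]
  · refine prod_congr rfl fun w hw => ?_
    obtain ⟨u, hu, rfl⟩ := hx w (mem_of_mem_erase hw)
    have h3 : z ∉ ({u, -u} : Finset L) := fun h => ne_of_mem_erase hw
      ((h1 _ _).2 (by simpa using h)).symm
    rw [filter_erase, fib_Tree h1 hS (mem_of_mem_erase hw), erase_eq_of_notMem h3,
      prod_pair (mt CharZero.eq_neg_self_iff.1 hu), sub_neg_eq_add, h2, map_mul]

omit [CharZero L] [DecidableEq L] in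
theorem pull_Tree (h1 : ∀ x y, φ x = φ y ↔ x = y ∨ x = -y) (hx : ∀ w ∈ S, ∃ u, u ≠ 0 ∧ φ u = w) :
    ∃ S' : Finset L, ∀ y, y ∈ S' ↔ φ y ∈ S := by
  have h : (φ ⁻¹' (S : Set L)).Finite := S.finite_toSet.preimage' fun w hw => by
    obtain ⟨u, -, rfl⟩ := hx w hw
    exact (Set.toFinite {u, -u}).subset fun y hy => (h1 _ _).1 hy
  exact ⟨h.toFinset, fun y => h.mem_toFinset⟩

omit [CharZero L] [DecidableEq L] in
theorem f_sub_Tree (x y : L) : f x - f y = (x - y) * (x + y) := by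
  unfold f
  ring

omit [CharZero L] [DecidableEq L] in
theorem f_eq_Tree (x y : L) : f x = f y ↔ x = y ∨ x = -y := by
  rw [← sub_eq_zero, f_sub_Tree, mul_eq_zero, sub_eq_zero, add_eq_zero_iff_eq_neg]

omit [DecidableEq L] in
theorem up_Tree {K j : ℕ} (h : Full L K) (hj : j < K) : ∀ w ∈ V L j, ∃ u, u ≠ 0 ∧ f u = w :=
  fun w hw => by
    obtain ⟨u, rfl⟩ := h j hj w hw
    exact ⟨u, ne_zero_of_mem_V (mem_V_succ.2 hw), rfl⟩

end pull

section val

variable {L : Type*} [Field L] {v : AbsoluteValue L ℝ}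

theorem root_Tree {a c : ℝ} {j : ℕ} (ha : 0 ≤ a) (h0 : 0 < c) (h1 : c < 1) (hj : Odd j)
    (h : a ^ 2 ^ j = c) : c < a ∧ a < 1 := by
  constructor
  · by_contra h2
    have h3 : a ^ 2 ^ j ≤ c ^ 2 ^ j := pow_le_pow_left₀ ha (not_lt.1 h2) _
    have h4 : c ^ 2 ^ j < c ^ 1 :=
      pow_lt_pow_right_of_lt_one₀ h0 h1 (Nat.one_lt_two_pow hj.pos.ne')
    rw [pow_one] at h4
    linarith
  · by_contra h2
    have h3 : 1 ≤ a ^ 2 ^ j := one_le_pow₀ (not_lt.1 h2)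
    linarith

theorem val_Tree (na : IsNonarchimedean v) (h0 : 0 < v 2) (h1 : v 2 < 1) (j : ℕ) :
    ∀ y ∈ V L j, (Odd j → v y ^ 2 ^ j = v 2) ∧ (Even j → v y = 1 ∧ v (y + 1) ^ 2 ^ j = v 2) := by
  induction j with
  | zero =>
    intro y hy
    rw [V_zero, mem_singleton] at hy
    subst hy
    exact ⟨fun h => absurd h (by decide), fun _ => ⟨map_one v, by rw [one_add_one_eq_two]; simp⟩⟩
  | succ j ih =>
    intro y hy
    obtain ⟨i1, i2⟩ := ih _ (mem_V_succ.1 hy)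
    have e1 : v y ^ 2 = v (f y + 1) := by rw [f, sub_add_cancel, map_pow]
    refine ⟨fun h => ?_, fun h => ?_⟩
    · rw [pow_succ', pow_mul, e1]
      exact (i2 (by simpa [Nat.odd_add_one] using h)).2
    · have hj : Odd j := by simpa [Nat.even_add_one] using h
      obtain ⟨h2, h3⟩ := root_Tree (v.nonneg _) h0 h1 hj (i1 hj)
      have h4 : v (f y + 1) = 1 := by
        rw [na.add_eq_max_of_ne' v (fun a => (v.map_neg a).symm) (by rw [map_one]; exact h3.ne),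
          map_one, max_eq_right h3.le]
      refine ⟨(pow_eq_one_iff_of_nonneg (v.nonneg _) two_ne_zero).1 (e1.trans h4), ?_⟩
      have e2 : v (f y) = v (y + 1) * v (1 - y) := by
        rw [← map_mul, ← v.map_neg, f]
        congr 1
        ring
      have h5 : v (y + 1) = v (1 - y) := by
        by_contra h6
        have h7 := na.add_eq_max_of_ne' v (fun a => (v.map_neg a).symm) h6
        rw [show y + 1 + (1 - y) = 2 by ring] at h7
        have h8 : v (y + 1) * v (1 - y) ≤ v 2 * 1 :=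
          mul_le_mul (h7 ▸ le_max_left _ _) ((h7 ▸ le_max_right _ _ : v (1 - y) ≤ v 2).trans h1.le)
            (v.nonneg _) h0.le
        linarith
      rw [pow_succ', pow_mul, sq, ← i1 hj, e2, ← h5]

theorem bd_Tree (na : IsNonarchimedean v) (h0 : 0 < v 2) (h1 : v 2 < 1) {j : ℕ} {y : L}
    (hy : y ∈ V L j) : v 2 < v y ∧ v y ≤ 1 := by
  obtain ⟨i1, i2⟩ := val_Tree na h0 h1 j y hy
  rcases Nat.even_or_odd j with h | h
  · rw [(i2 h).1]
    exact ⟨h1, le_rfl⟩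
  · exact (root_Tree (v.nonneg _) h0 h1 h (i1 h)).imp_right le_of_lt

theorem sep_Tree (na : IsNonarchimedean v) (h0 : 0 < v 2) (h1 : v 2 < 1) (j : ℕ) :
    ∀ y ∈ V L j, ∀ y' ∈ V L j, y' ≠ y → v 2 * v y ≤ v (y - y') := by
  induction j with
  | zero =>
    intro y hy y' hy' h
    rw [V_zero, mem_singleton] at hy hy'
    exact absurd (hy'.trans hy.symm) h
  | succ j ih =>
    intro y hy y' hy' h
    by_cases e : f y' = f y
    · rw [((f_eq_Tree _ _).1 e).resolve_left h, sub_neg_eq_add, ← two_mul, map_mul]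
    by_contra h2
    rw [not_le] at h2
    have h3 := ih _ (mem_V_succ.1 hy) _ (mem_V_succ.1 hy') e
    rw [f_sub_Tree, map_mul] at h3
    have h4 := (bd_Tree na h0 h1 (mem_V_succ.1 hy)).1
    have h5 : v 2 * v y ≤ v 2 := mul_le_of_le_one_right h0.le (bd_Tree na h0 h1 hy).2
    have h6 : v (y + y') ≤ v 2 := by
      have h7 := na (2 * y) (-(y - y'))
      rw [show 2 * y + -(y - y') = y + y' by ring, v.map_neg, map_mul] at h7
      exact h7.trans (max_le h5 (h2.le.trans h5))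
    have h7 : v (y - y') * v (y + y') ≤ v 2 * v 2 :=
      mul_le_mul (h2.le.trans h5) h6 (v.nonneg _) h0.le
    have h8 := mul_lt_mul_of_pos_left h4 h0
    linarith

theorem unif_Tree {T : Type*} [Field T] [Algebra T L] (na : IsNonarchimedean v) (h0 : 0 < v 2)
    (h1 : v 2 < 1) {j : ℕ} {y : L} (hy : y ∈ V L j) :
    ∃ t : T, v (y + algebraMap T L t) ^ 2 ^ j = v 2 := by
  obtain ⟨i1, i2⟩ := val_Tree na h0 h1 j y hy
  rcases Nat.even_or_odd j with h | h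
  · exact ⟨1, by rw [map_one]; exact (i2 h).2⟩
  · exact ⟨0, by rw [map_zero, add_zero]; exact i1 h⟩

theorem pos_Tree [DecidableEq L] (S : Finset L) (y : L) : 0 < ∏ w ∈ S.erase y, v (y - w) :=
  prod_pos fun _ hw => v.pos (sub_ne_zero.2 (ne_of_mem_erase hw).symm)

end val

section gal

variable {L : Type*} [Field L] [NumberField L] [IsGalois ℚ L] {T : IntermediateField ℚ L}
  {v : AbsoluteValue L ℝ} {j : ℕ}

theorem orbit_Tree (R : Ram T L v (v 2)) {y y' : L} (hy : y ∈ V L j) (hy' : y' ∈ V L j) :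
    ∃ σ : L ≃ₐ[T] L, σ y = y' := by
  obtain ⟨t, ht⟩ := unif_Tree (T := T) R.na R.pos R.lt hy
  exact R.orbit_full t ht (fun σ => map_mem_V (σ.restrictScalars ℚ) hy) (card_V_le L j) y' hy'

theorem tate_Tree [DecidableEq L] (R : Ram T L v (v 2)) {y γ : L} (hy : y ∈ V L j) (t : T) {d : ℕ}
    (hγ : v (γ + algebraMap T L t) ^ d = v 2) {S : Finset L} (hS : ∀ σ : L ≃ₐ[ℚ] L, σ γ ∈ S)
    (hc : S.card ≤ d) (hγ' : -γ ∈ S) (h0 : γ ≠ 0)
    (hfix : ∀ σ : L ≃ₐ[ℚ] L, Fixes j σ → σ γ = γ) :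
    (∏ w ∈ (V L j).erase y, v (y - w)) * (v 2 * v y) ≤
      (∏ w ∈ S.erase γ, v (γ - w)) * (v 2 * v γ) := by
  obtain ⟨y', hy', hne, hle⟩ := R.tate (α := y) (A := V L j) t hγ
    (fun σ => map_mem_V (σ.restrictScalars ℚ) hy) (fun w hw => (bd_Tree R.na R.pos R.lt hw).2)
    (fun σ => hS (σ.restrictScalars ℚ)) hc hγ'
    (fun e => h0 (CharZero.eq_neg_self_iff.1 e.symm))
    (fun σ hσ => hfix (σ.restrictScalars ℚ) fun w hw => by
      obtain ⟨τ, rfl⟩ := orbit_Tree R hy hw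
      exact hσ τ)
  rw [sub_neg_eq_add, ← two_mul, map_mul] at hle
  exact (mul_le_mul_of_nonneg_left (sep_Tree R.na R.pos R.lt j y hy y' hy' hne)
    (pos_Tree _ _).le).trans hle

end gal

variable {L : Type*} [Field L] [NumberField L] [IsGalois ℚ L] {K j : ℕ}

omit [IsGalois ℚ L] in
theorem card_V (h : Full L K) (hj : j ≤ K) : (V L j).card = 2 ^ j := by
  classical
  induction j with
  | zero => rw [V_zero, card_singleton, pow_zero]
  | succ j ih =>
    rw [card_Tree f_eq_Tree (fun _ => mem_V_succ) (up_Tree h hj), ih (Nat.le_of_succ_le hj),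
      pow_succ]

theorem trans_V (h : Full L K) (hj : j ≤ K) {y y' : L} (hy : y ∈ V L j) (hy' : y' ∈ V L j) :
    ∃ σ : L ≃ₐ[ℚ] L, σ y = y' := by
  have := hj
  have := h
  obtain ⟨T, v, R⟩ := exists_ram L
  obtain ⟨σ, hσ⟩ := orbit_Tree R hy hy'
  exact ⟨σ.restrictScalars ℚ, hσ⟩

theorem G2 (h : Full L K) (hj : j < K) {y z : L} (hy : y ∈ V L j) (hz : f z = y) :
    ∃ σ : L ≃ₐ[ℚ] L, Fixes j σ ∧ σ z ≠ z := by
  classical
  obtain ⟨T, v, R⟩ := exists_ram L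
  subst hz
  by_contra hcon
  have hz := mem_V_succ.2 hy
  have h0 := ne_zero_of_mem_V hz
  obtain ⟨t, ht⟩ := unif_Tree (T := T) R.na R.pos R.lt hz
  have h1 := tate_Tree R hy t ht (fun σ => map_mem_V σ hz) (card_V_le L (j + 1))
    (neg_mem_V (Nat.le_add_left 1 j) hz) h0
    (fun σ hσ => by_contra fun h2 => hcon ⟨σ, hσ, h2⟩)
  rw [prod_Tree v f_eq_Tree (fun x y => by rw [f_sub_Tree]) (fun _ => mem_V_succ) (up_Tree h hj)
    hy h0, mul_comm (v 2 * v z), mul_assoc (∏ w ∈ _, _)] at h1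
  have h2 := le_of_mul_le_mul_left h1 (pos_Tree _ _)
  have h3 := mul_lt_mul_of_pos_left (bd_Tree R.na R.pos R.lt hy).1 R.pos
  have h4 : v 2 * v z ≤ v 2 := mul_le_of_le_one_right R.pos.le (bd_Tree R.na R.pos R.lt hz).2
  have h5 := mul_le_mul h4 h4 (mul_nonneg R.pos.le (v.nonneg _)) R.pos.le
  linarith

theorem G3' (h : Full L K) (hj : j < K) (h2 : 2 ≤ j) (he : Even j) {y z z' : L} (hy : y ∈ V L j)
    (hz : f z = y) (hz' : f z' = -y) : ∃ σ : L ≃ₐ[ℚ] L, Fixes j σ ∧ σ (z * z') ≠ z * z' := by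
  classical
  obtain ⟨T, v, R⟩ := exists_ram L
  by_contra hcon
  obtain ⟨i, rfl⟩ := Nat.exists_eq_add_of_le' (one_le_two.trans h2)
  have hi : Odd i := by simpa [Nat.even_add_one] using he
  have key : ∀ a b c : L, f b = a → f c = -a → -(b * c) ^ 2 = f a := fun a b c hb hc => by
    unfold f at *
    rw [mul_pow, eq_add_of_sub_eq hb, eq_add_of_sub_eq hc]
    ring
  have hw := mem_V_succ.1 hy
  have e := key y z z' hz hz'
  have h1 : ∀ x y : L, -x ^ 2 = -y ^ 2 ↔ x = y ∨ x = -y := fun x y => by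
    rw [neg_inj, sq_eq_sq_iff_eq_or_eq_neg]
  have hx : ∀ w ∈ V L i, ∃ u : L, u ≠ 0 ∧ -u ^ 2 = w := fun w hw => by
    obtain ⟨a, rfl⟩ := h i (Nat.lt_of_succ_lt hj) w hw
    obtain ⟨b, hb⟩ := h _ hj a (mem_V_succ.2 hw)
    obtain ⟨c, hc⟩ := h _ hj _ (neg_mem_V (Nat.le_add_left 1 i) (mem_V_succ.2 hw))
    refine ⟨b * c, fun h0 => ne_zero_of_mem_V hw ?_, key a b c hb hc⟩
    rw [← key a b c hb hc, h0]
    ring
  obtain ⟨S, hS⟩ := pull_Tree (φ := fun x : L => -x ^ 2) h1 hx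
  have h0 : z * z' ≠ 0 := fun h0 => ne_zero_of_mem_V hw (by rw [← e, h0]; ring)
  have hv : v (z * z') ^ 2 = v (f y) := by rw [← e, v.map_neg, map_pow]
  have h3 := (val_Tree R.na R.pos R.lt i _ hw).1 hi
  have h4 := (root_Tree (v.nonneg _) R.pos R.lt hi h3).2
  have h5 := ((val_Tree R.na R.pos R.lt _ _ hy).2 he).1
  have h6 := tate_Tree R hy (γ := z * z') 0 (d := 2 ^ (i + 1)) (S := S)
    (by rw [map_zero, add_zero, pow_succ', pow_mul, hv, h3])
    (fun σ => (hS _).2 (by rw [← map_pow, ← map_neg, e]; exact map_mem_V σ hw))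
    (by rw [card_Tree (φ := fun x : L => -x ^ 2) h1 hS hx, pow_succ]
        exact Nat.mul_le_mul_right 2 (card_V_le L i))
    ((hS _).2 (by rw [neg_sq, e]; exact hw)) h0
    (fun σ hσ => by_contra fun h2 => hcon ⟨σ, hσ, h2⟩)
  rw [prod_Tree v f_eq_Tree (fun x y => by rw [f_sub_Tree]) (fun _ => mem_V_succ)
      (up_Tree h (Nat.lt_of_succ_lt hj)) hw (ne_zero_of_mem_V hy),
    prod_Tree (φ := fun x : L => -x ^ 2) v h1
      (fun x y => by rw [← v.map_neg]; congr 1; ring) hS hx (by rw [e]; exact hw) h0,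
    e, h5, mul_one, mul_comm (v 2), mul_comm (v 2 * v (z * z')), mul_assoc (∏ w ∈ _, _),
    mul_assoc (∏ w ∈ _, _)] at h6
  have h7 := le_of_mul_le_mul_left h6 (pos_Tree _ _)
  have h8 := mul_lt_mul_of_pos_left h4 (mul_pos R.pos R.pos)
  rw [← hv] at h8
  linarith

end Pool.Agent.PSD
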