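import Pool.Agent.P.MP_06afd2_nt.D1.Tate

/-!
The inertia field at a prime above `2`.

Sketch. Let `P` be a maximal ideal of `𝓞 L` over `2`, `I = P.inertia (L ≃ₐ[ℚ] L)`, `T = IntermediateField.fixedField I`,
`v = NumberField.HeightOneSpectrum.adicAbv L w` (or `w.adicAbv`) for the place `w` of `P`; `v x = N ^ (- ord x)`.
`finrank T L = card I` (`IntermediateField.finrank_fixedField_eq_card`), `card I = e(P | 2)`
(`Ideal.card_inertia_eq_ramificationIdxIn`), so `v 2 = v π ^ card I` for a uniformiser `π`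
(`valuation_exists_uniformizer`, `HeightOneSpectrum.valuation_liesOver`). Every `σ : L ≃ₐ[T] L` lies in `I` after
restriction of scalars (`IntermediateField.fixingSubgroup_fixedField`), fixes `P`, hence preserves `v`; the inertia group of `P` in
`L ≃ₐ[T] L` is everything, so `e(P | P ∩ 𝓞 T) = finrank T L` and the values of `v` on `T` are powers of `v π ^ card I`.
-/

namespace Pool.Agent.PSD

open NumberField IsDedekindDomain

open WithZero in
theorem intValuation_smul_le_Val {B G : Type*} [CommRing B] [IsDedekindDomain B] [Group G]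
    [MulSemiringAction G B] (w : HeightOneSpectrum B) {σ : G} (hσ : σ ∈ w.asIdeal.inertia G)
    (x : B) : w.intValuation (σ • x) ≤ w.intValuation x := by
  rcases eq_or_ne x 0 with rfl | hx
  · simp
  have h1 := w.intValuation_if_neg hx
  rw [h1, w.intValuation_le_pow_iff_mem]
  have h2 := (w.intValuation_le_pow_iff_mem x _).1 h1.le
  have h3 : w.asIdeal ≤ w.asIdeal.comap (MulSemiringAction.toRingHom G B σ) := fun y hy => by
    have := w.asIdeal.add_mem (hσ y) hy
    simpa using this
  exact Ideal.le_comap_pow _ _ (Ideal.pow_right_mono h3 _ h2)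

theorem intValuation_smul_Val {B G : Type*} [CommRing B] [IsDedekindDomain B] [Group G]
    [MulSemiringAction G B] (w : HeightOneSpectrum B) {σ : G} (hσ : σ ∈ w.asIdeal.inertia G)
    (x : B) : w.intValuation (σ • x) = w.intValuation x := by
  refine le_antisymm (intValuation_smul_le_Val w hσ x) ?_
  simpa using intValuation_smul_le_Val w (inv_mem hσ) (σ • x)

theorem valuation_smul_Val {L : Type*} [Field L] [NumberField L] (w : HeightOneSpectrum (𝓞 L))
    {σ : L ≃ₐ[ℚ] L} (hσ : σ ∈ w.asIdeal.inertia (L ≃ₐ[ℚ] L)) (x : L) :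
    w.valuation L (σ x) = w.valuation L x := by
  obtain ⟨a, b, -, rfl⟩ := IsFractionRing.div_surjective (A := 𝓞 L) x
  have e : ∀ a : 𝓞 L, σ (algebraMap (𝓞 L) L a) = algebraMap (𝓞 L) L (σ • a) := fun _ => rfl
  rw [map_div₀, map_div₀, map_div₀, e, e]
  simp only [HeightOneSpectrum.valuation_of_algebraMap, intValuation_smul_Val w hσ]

theorem card_inertia_Val {A B G : Type*} [CommRing A] [IsDedekindDomain A] [CommRing B]
    [IsDedekindDomain B] [Algebra A B] [Module.Finite A B] [Module.IsTorsionFree A B] [Group G]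
    [Finite G] [MulSemiringAction G B] [IsGaloisGroup G A B] [Ring.HasFiniteQuotients A]
    (u : HeightOneSpectrum A) (w : HeightOneSpectrum B) [w.asIdeal.LiesOver u.asIdeal] :
    Nat.card (w.asIdeal.inertia G) = u.asIdeal.ramificationIdx' w.asIdeal := by
  have := u.isMaximal
  have := w.isMaximal
  have : Finite (A ⧸ u.asIdeal) := Ring.HasFiniteQuotients.finiteQuotient u.ne_bot
  rw [Ideal.card_inertia_eq_ramificationIdxIn u.asIdeal,
    Ideal.ramificationIdxIn_eq_ramificationIdx u.asIdeal w.asIdeal G,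
    Ideal.ramificationIdx'_eq_ramificationIdx _ _ u.ne_bot]

open WithZero in
theorem exists_ram (L : Type*) [Field L] [NumberField L] [IsGalois ℚ L] :
    ∃ (T : IntermediateField ℚ L) (v : AbsoluteValue L ℝ), Ram T L v (v 2) := by
  have hp : Prime (2 : ℤ) := Int.prime_two
  let u : HeightOneSpectrum ℤ :=
    ⟨Ideal.span {2}, (Ideal.span_singleton_prime hp.ne_zero).2 hp, by simp⟩
  have := u.isMaximal
  obtain ⟨P, hP, hPu⟩ := Ideal.exists_maximal_ideal_liesOver_of_isIntegral (S := 𝓞 L) u.asIdeal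
  let w : HeightOneSpectrum (𝓞 L) :=
    ⟨P, hP.isPrime, Ideal.ne_bot_of_liesOver_of_ne_bot u.ne_bot P⟩
  have hwu : w.asIdeal.LiesOver u.asIdeal := hPu
  set H := w.asIdeal.inertia (L ≃ₐ[ℚ] L) with hH
  let T : IntermediateField ℚ L := FixedPoints.intermediateField H
  have hG : IsGaloisGroup H T L := IsGaloisGroup.subgroup (L ≃ₐ[ℚ] L) ℚ L H
  have hT : Nat.card H = Module.finrank T L := IsGaloisGroup.card_eq_finrank H T L
  let t : HeightOneSpectrum (𝓞 T) := w.under (𝓞 T)
  have hwt : w.asIdeal.LiesOver t.asIdeal := ⟨rfl⟩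
  have e1 := card_inertia_Val (G := L ≃ₐ[ℚ] L) u w
  have hG' : IsGaloisGroup H (𝓞 T) (𝓞 L) := IsGaloisGroup.of_isFractionRing H (𝓞 T) (𝓞 L) T L
  have e2 := card_inertia_Val (G := H) t w
  have e3 : w.asIdeal.inertia H = ⊤ := eq_top_iff.2 fun σ _ => Ideal.coe_mem_inertia.1 σ.2
  rw [e3, Subgroup.card_top, hT] at e2
  rw [← hH, hT] at e1
  have h2 : w.valuation L 2 = exp (-1 : ℤ) ^ Module.finrank T L := by
    have h := HeightOneSpectrum.valuation_liesOver (K := ℚ) L u w (algebraMap ℤ ℚ 2)
    rw [HeightOneSpectrum.valuation_of_algebraMap, u.intValuation_singleton hp.ne_zero rfl,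
      ← e1] at h
    simpa using h.symm
  have hb : (1 : NNReal) < 2 := one_lt_two
  have hv : ∀ x, w.adicAbv hb x = WithZeroMulInt.toNNReal (ne_zero_of_lt hb) (w.valuation L x) := fun _ => rfl
  refine ⟨T, w.adicAbv hb, w.isNonarchimedean_adicAbv hb, fun σ x => ?_, ?_, ?_, fun a ha => ?_,
    ?_⟩
  · have hσ : σ.restrictScalars ℚ ∈ H := by
      rw [← IntermediateField.fixingSubgroup_fixedField H]
      exact fun y => σ.commutes y
    rw [hv, hv]
    exact congrArg _ (congrArg _ (valuation_smul_Val w hσ x))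
  · exact AbsoluteValue.pos _ two_ne_zero
  · have h : (2 : 𝓞 L) ∈ w.asIdeal := by
      have := (Ideal.mem_of_liesOver w.asIdeal u.asIdeal 2).1 (Ideal.mem_span_singleton_self 2)
      simpa using this
    have h' := (w.adicAbv_coe_lt_one_iff (K := L) hb 2).2 h
    rwa [map_ofNat] at h'
  · have h := HeightOneSpectrum.valuation_liesOver (K := T) L t w a
    have h0 : t.valuation T a ≠ 0 := (Valuation.ne_zero_iff _).2 ha
    refine ⟨-log (t.valuation T a), ?_⟩
    rw [hv, hv, ← h, h2, ← e2, ← NNReal.coe_zpow, ← map_zpow₀]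
    congr 2
    rw [← zpow_natCast, ← zpow_natCast, ← zpow_mul, mul_comm, zpow_mul, ← exp_zsmul]
    simp [exp_log h0]
  · obtain ⟨π, hπ⟩ := w.valuation_exists_uniformizer L
    refine ⟨π, ?_⟩
    rw [hv, hv, h2, hπ, map_pow, NNReal.coe_pow]

end Pool.Agent.PSD
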